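import Mathlib

/-!
# Elliptic curves over `ℚ` with full rational 2-torsion: definitions

The reduction types are Mathlib's (`WeierstrassCurve.minimal`, `HasGoodReduction`,
`HasMultiplicativeReduction`) over `ℤ_[p]`.
-/

open WeierstrassCurve

namespace Pool.Agent.Lib.AbcT

/-- The curve `E` has four rational points `P` with `P + P = 0`. -/
def FullTwo (E : WeierstrassCurve ℚ) : Prop :=
  {P : E.toAffine.Point | P + P = 0}.ncard = 4

/-- The reduction of `E` at the prime `p` is good. -/
def GoodAt (p : ℕ) [Fact p.Prime] (E : WeierstrassCurve ℚ) : Prop :=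
  ((E.map (algebraMap ℚ ℚ_[p])).minimal ℤ_[p]).HasGoodReduction ℤ_[p]

/-- The reduction of `E` at the prime `p` is multiplicative. -/
def MultAt (p : ℕ) [Fact p.Prime] (E : WeierstrassCurve ℚ) : Prop :=
  ((E.map (algebraMap ℚ ℚ_[p])).minimal ℤ_[p]).HasMultiplicativeReduction ℤ_[p]

open Classical in
/-- The exponent of the conductor at the odd prime `p` (for curves with full 2-torsion): `0` if the
reduction is good, `1` if it is multiplicative, `2` if it is additive. -/
noncomputable def condExp (p : ℕ) [Fact p.Prime] (E : WeierstrassCurve ℚ) : ℕ :=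
  if GoodAt p E then 0 else if MultAt p E then 1 else 2

open Classical in
/-- The part of the conductor away from 2. -/
noncomputable def cond (E : WeierstrassCurve ℚ) : ℕ :=
  ∏ᶠ p : ℕ, if h : p.Prime ∧ p ≠ 2 then haveI := Fact.mk h.1; p ^ condExp p E else 1

/-- The curve `y² = x (x - d a) (x + d b)`. -/
def Ec (a b d : ℕ) : WeierstrassCurve ℚ :=
  ⟨0, d * ((b : ℚ) - a), 0, -((d : ℚ) ^ 2 * a * b), 0⟩

/-- The parameters: coprime `a, b ≥ 1` and squarefree `d ≥ 1`. -/
def Par (a b d : ℕ) : Prop := 0 < a ∧ 0 < b ∧ a.Coprime b ∧ Squarefree d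

/-- The product of the odd primes dividing `n`. -/
def radOdd (n : ℕ) : ℕ := ∏ p ∈ n.primeFactors \ {2}, p

end Pool.Agent.Lib.AbcT
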