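import Mathlib
import Pool.Agent.Lib.AbcT.CDefs

/-!
# Elliptic curves over `ℚ` with full rational 2-torsion: classification

Every such curve has exactly one model `y² = x (x - d a) (x + d b)` with coprime `a, b ≥ 1` and
squarefree `d ≥ 1`.
-/

open WeierstrassCurve

namespace Pool.Agent.Lib.AbcT

/-- The roots of the 2-division polynomial. -/
def twoRoots (E : WeierstrassCurve ℚ) : Set ℚ :=
  {x | 4 * x ^ 3 + E.b₂ * x ^ 2 + 2 * E.b₄ * x + E.b₆ = 0}

theorem equation_of_root {E : WeierstrassCurve ℚ} {x : ℚ} (hx : x ∈ twoRoots E) :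
    E.toAffine.Equation x (-(E.a₁ * x + E.a₃) / 2) := by
  rw [Affine.equation_iff]
  simp only [twoRoots, Set.mem_ofPred_eq, b₂, b₄, b₆] at hx
  linarith

/-- The point of order two with abscissa `x`. -/
def twoPoint {E : WeierstrassCurve ℚ} (hE : E.Δ ≠ 0) (x : twoRoots E) : E.toAffine.Point :=
  .some x.1 (-(E.a₁ * x.1 + E.a₃) / 2)
    ((Affine.equation_iff_nonsingular_of_Δ_ne_zero (W := E) hE).mp (equation_of_root x.2))

theorem add_self_eq_zero_iff {E : WeierstrassCurve ℚ} {x y : ℚ}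
    (h : E.toAffine.Nonsingular x y) :
    (Affine.Point.some x y h : E.toAffine.Point) + Affine.Point.some x y h = 0 ↔
      y = -(E.a₁ * x + E.a₃) / 2 := by
  constructor
  · intro h0
    have h1 := add_eq_zero_iff_eq_neg.mp h0
    rw [Affine.Point.neg_some, Affine.Point.some.injEq, Affine.negY] at h1
    linarith [h1.2]
  · intro h0
    apply Affine.Point.add_self_of_Y_eq
    rw [Affine.negY, h0]
    ring

theorem twoTorsion_eq {E : WeierstrassCurve ℚ} (hE : E.Δ ≠ 0) :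
    {P : E.toAffine.Point | P + P = 0} = insert 0 (Set.range (twoPoint hE)) := by
  ext P
  rw [Set.mem_ofPred_eq, Set.mem_insert_iff, Set.mem_range]
  constructor
  · intro hP
    rcases P with _ | ⟨x, y, h⟩
    · left; rfl
    · right
      have hy := (add_self_eq_zero_iff h).mp hP
      have hx : x ∈ twoRoots E := by
        have h1 := (Affine.equation_iff (W := E.toAffine) x y).mp h.1
        simp only [twoRoots, Set.mem_ofPred_eq, b₂, b₄, b₆]
        rw [hy] at h1
        linarith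
      refine ⟨⟨x, hx⟩, ?_⟩
      unfold twoPoint
      rw [Affine.Point.some.injEq]
      exact ⟨rfl, hy.symm⟩
  · rintro (rfl | ⟨x, rfl⟩)
    · exact add_zero _
    · unfold twoPoint
      rw [add_self_eq_zero_iff]

theorem twoPoint_injective {E : WeierstrassCurve ℚ} (hE : E.Δ ≠ 0) :
    Function.Injective (twoPoint hE) := by
  intro x y h
  unfold twoPoint at h
  rw [Affine.Point.some.injEq] at h
  exact Subtype.ext h.1

theorem twoRoots_finite (E : WeierstrassCurve ℚ) : (twoRoots E).Finite := by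
  have h : twoRoots E ⊆ {x | (Polynomial.C 4 * Polynomial.X ^ 3 + Polynomial.C E.b₂ *
      Polynomial.X ^ 2 + Polynomial.C (2 * E.b₄) * Polynomial.X +
      Polynomial.C E.b₆ : Polynomial ℚ).IsRoot x} := by
    intro x hx
    simp only [twoRoots, Set.mem_ofPred_eq] at hx
    simp only [Set.mem_ofPred_eq, Polynomial.IsRoot.def, Polynomial.eval_add, Polynomial.eval_mul,
      Polynomial.eval_C, Polynomial.eval_pow, Polynomial.eval_X]
    exact hx
  refine (Polynomial.finite_setOfPred_isRoot ?_).subset h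
  intro h0
  have := congrArg (fun q => Polynomial.coeff q 3) h0
  simp at this

/-- Full rational 2-torsion in terms of the roots of the 2-division polynomial. -/
theorem fullTwo_iff {E : WeierstrassCurve ℚ} (hE : E.Δ ≠ 0) :
    FullTwo E ↔ (twoRoots E).ncard = 3 := by
  unfold FullTwo
  have hfin : Finite (twoRoots E) := (twoRoots_finite E).to_subtype
  rw [twoTorsion_eq hE, Set.ncard_insert_of_notMem _ (Set.finite_range _)]
  · rw [← Set.image_univ, Set.ncard_image_of_injective _ (twoPoint_injective hE),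
      Set.ncard_univ]
    have : Nat.card (twoRoots E) = (twoRoots E).ncard := rfl
    rw [this]
    omega
  · rintro ⟨x, hx⟩
    exact Affine.Point.some_ne_zero _ hx

/-- The discriminant of `Ec a b d`. -/
theorem Ec_disc (a b d : ℕ) :
    (Ec a b d).Δ = 16 * (d : ℚ) ^ 6 * ((a : ℚ) * b * (a + b)) ^ 2 := by
  simp only [WeierstrassCurve.Δ, b₂, b₄, b₆, b₈, Ec]
  ring

theorem Ec_disc_ne {a b d : ℕ} (h : Par a b d) : (Ec a b d).Δ ≠ 0 := by
  rw [Ec_disc]
  obtain ⟨ha, hb, -, hd⟩ := h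
  have hd0 : 0 < d := Nat.pos_of_ne_zero hd.ne_zero
  positivity

theorem fullTwo_Ec {a b d : ℕ} (h : Par a b d) : FullTwo (Ec a b d) := by
  rw [fullTwo_iff (Ec_disc_ne h)]
  obtain ⟨ha, hb, -, hd⟩ := h
  have hd0 : (0 : ℚ) < d := by exact_mod_cast Nat.pos_of_ne_zero hd.ne_zero
  have ha0 : (0 : ℚ) < a := by exact_mod_cast ha
  have hb0 : (0 : ℚ) < b := by exact_mod_cast hb
  have hda : (0 : ℚ) < d * a := by positivity
  have hdb : (0 : ℚ) < d * b := by positivity
  have hset : twoRoots (Ec a b d) = {0, (d : ℚ) * a, -((d : ℚ) * b)} := by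
    ext x
    simp only [twoRoots, Set.mem_ofPred_eq, b₂, b₄, b₆, Ec, Set.mem_insert_iff,
      Set.mem_singleton_iff]
    have hfac : 4 * x ^ 3 + ((0 : ℚ) ^ 2 + 4 * (d * ((b : ℚ) - a))) * x ^ 2 +
        2 * (2 * -((d : ℚ) ^ 2 * a * b) + 0 * 0) * x + (0 ^ 2 + 4 * 0) =
        4 * (x * (x - d * a) * (x + d * b)) := by ring
    rw [hfac]
    constructor
    · intro h0
      have h1 : x * (x - d * a) * (x + d * b) = 0 := by linarith
      rcases mul_eq_zero.mp h1 with h2 | h2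
      · rcases mul_eq_zero.mp h2 with h3 | h3
        · left; exact h3
        · right; left; linarith
      · right; right; linarith
    · rintro (h0 | h0 | h0)
      · rw [h0]; ring
      · rw [h0]; ring
      · rw [h0]; ring
  rw [hset]
  rw [Set.ncard_eq_three]
  refine ⟨0, (d : ℚ) * a, -((d : ℚ) * b), ?_, ?_, ?_, rfl⟩
  · exact hda.ne
  · linarith [hdb]
  · linarith

/-- Two positive rationals are `u² d a` and `u² d b` with coprime `a, b` and squarefree `d`. -/
theorem exists_par {A B : ℚ} (hA : 0 < A) (hB : 0 < B) :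
    ∃ a b d : ℕ, ∃ u : ℚ, Par a b d ∧ u ≠ 0 ∧ A = u ^ 2 * (d * a) ∧ B = u ^ 2 * (d * b) := by
  have hr : 0 < A / B := div_pos hA hB
  set a := (A / B).num.natAbs with ha
  set b := (A / B).den with hb
  have hnum : 0 < (A / B).num := Rat.num_pos.mpr hr
  have ha0 : 0 < a := Int.natAbs_pos.mpr hnum.ne'
  have hb0 : 0 < b := (A / B).den_pos
  have hcop : a.Coprime b := (A / B).reduced
  have hab : A / B = (a : ℚ) / b := by
    have h1 : ((a : ℤ)) = (A / B).num := by
      rw [ha, Int.natCast_natAbs, abs_of_pos hnum]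
    have h2 : (a : ℚ) = ((A / B).num : ℚ) := by
      rw [← h1]; simp
    rw [h2, hb]
    exact (Rat.num_div_den (A / B)).symm
  have haq : (0 : ℚ) < a := by exact_mod_cast ha0
  have hbq : (0 : ℚ) < b := by exact_mod_cast hb0
  have hAb : A * b = a * B := by
    rw [div_eq_div_iff hB.ne' hbq.ne'] at hab
    exact hab
  set k : ℚ := A / a with hk
  have hk0 : 0 < k := div_pos hA haq
  have hAk : A = k * a := by rw [hk]; field_simp
  have hBk : B = k * b := by
    have : a * B = a * (k * b) := by rw [← hAb, hAk]; ring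
    exact mul_left_cancel₀ haq.ne' this
  set n := k.num.natAbs with hn
  set m := k.den with hm
  have hknum : 0 < k.num := Rat.num_pos.mpr hk0
  have hn0 : 0 < n := Int.natAbs_pos.mpr hknum.ne'
  have hm0 : 0 < m := k.den_pos
  have hmq : (0 : ℚ) < m := by exact_mod_cast hm0
  have hknm : k = (n : ℚ) / m := by
    have h1 : ((n : ℤ)) = k.num := by
      rw [hn, Int.natCast_natAbs, abs_of_pos hknum]
    have h2 : (n : ℚ) = (k.num : ℚ) := by
      rw [← h1]; simp
    rw [h2, hm]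
    exact (Rat.num_div_den k).symm
  obtain ⟨d, w, hdw, hd⟩ := Nat.sq_mul_squarefree (n * m)
  have hw0 : w ≠ 0 := by
    rintro rfl
    have : n * m = 0 := by rw [← hdw]; ring
    exact (Nat.mul_pos hn0 hm0).ne' this
  have hwq : (w : ℚ) ≠ 0 := by exact_mod_cast hw0
  have hkd : k = ((w : ℚ) / m) ^ 2 * d := by
    have h1 : ((w : ℚ)) ^ 2 * d = n * m := by exact_mod_cast hdw
    rw [div_pow, hknm, div_eq_iff hmq.ne']
    field_simp
    linarith
  refine ⟨a, b, d, (w : ℚ) / m, ⟨ha0, hb0, hcop, hd⟩, div_ne_zero hwq hmq.ne', ?_, ?_⟩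
  · rw [hAk, hkd]; ring
  · rw [hBk, hkd]; ring

/-- The three roots in increasing order. -/
theorem exists_roots {E : WeierstrassCurve ℚ} (h : (twoRoots E).ncard = 3) :
    ∃ x y z : ℚ, x < y ∧ y < z ∧ x ∈ twoRoots E ∧ y ∈ twoRoots E ∧ z ∈ twoRoots E := by
  rw [Set.ncard_eq_three] at h
  obtain ⟨x, y, z, hxy, hxz, hyz, hs⟩ := h
  have hx : x ∈ twoRoots E := by rw [hs]; simp
  have hy : y ∈ twoRoots E := by rw [hs]; simp
  have hz : z ∈ twoRoots E := by rw [hs]; simp
  rcases lt_or_gt_of_ne hxy with h1 | h1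
  · rcases lt_or_gt_of_ne hyz with h2 | h2
    · exact ⟨x, y, z, h1, h2, hx, hy, hz⟩
    · rcases lt_or_gt_of_ne hxz with h3 | h3
      · exact ⟨x, z, y, h3, h2, hx, hz, hy⟩
      · exact ⟨z, x, y, h3, h1, hz, hx, hy⟩
  · rcases lt_or_gt_of_ne hyz with h2 | h2
    · rcases lt_or_gt_of_ne hxz with h3 | h3
      · exact ⟨y, x, z, h1, h3, hy, hx, hz⟩
      · exact ⟨y, z, x, h2, h3, hy, hz, hx⟩
    · exact ⟨z, y, x, h2, h1, hz, hy, hx⟩

/-- Vieta's formulas for the 2-division polynomial. -/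
theorem vieta {E : WeierstrassCurve ℚ} {x y z : ℚ} (hxy : x < y) (hyz : y < z)
    (hx : x ∈ twoRoots E) (hy : y ∈ twoRoots E) (hz : z ∈ twoRoots E) :
    E.b₂ = -4 * (x + y + z) ∧ E.b₄ = 2 * (x * y + x * z + y * z) ∧ E.b₆ = -4 * (x * y * z) := by
  simp only [twoRoots, Set.mem_ofPred_eq] at hx hy hz
  have h1 : (y - x) ≠ 0 := by linarith
  have h2 : (z - y) ≠ 0 := by linarith
  have h3 : (z - x) ≠ 0 := by linarith
  have e1 : 4 * (x ^ 2 + x * y + y ^ 2) + E.b₂ * (x + y) + 2 * E.b₄ = 0 := by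
    have : (y - x) * (4 * (x ^ 2 + x * y + y ^ 2) + E.b₂ * (x + y) + 2 * E.b₄) = 0 := by
      linear_combination hy - hx
    exact (mul_eq_zero.mp this).resolve_left h1
  have e2 : 4 * (y ^ 2 + y * z + z ^ 2) + E.b₂ * (y + z) + 2 * E.b₄ = 0 := by
    have : (z - y) * (4 * (y ^ 2 + y * z + z ^ 2) + E.b₂ * (y + z) + 2 * E.b₄) = 0 := by
      linear_combination hz - hy
    exact (mul_eq_zero.mp this).resolve_left h2
  have e3 : 4 * (x + y + z) + E.b₂ = 0 := by
    have : (z - x) * (4 * (x + y + z) + E.b₂) = 0 := by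
      linear_combination e2 - e1
    exact (mul_eq_zero.mp this).resolve_left h3
  have hb2 : E.b₂ = -4 * (x + y + z) := by linarith
  have hb4 : E.b₄ = 2 * (x * y + x * z + y * z) := by
    rw [hb2] at e1
    linarith
  refine ⟨hb2, hb4, ?_⟩
  rw [hb2, hb4] at hx
  linarith

/-- Every elliptic curve over `ℚ` with full rational 2-torsion is isomorphic to some `Ec a b d`. -/
theorem exists_Ec {E : WeierstrassCurve ℚ} (hE : E.Δ ≠ 0) (h : FullTwo E) :
    ∃ a b d : ℕ, Par a b d ∧ ∃ C : VariableChange ℚ, C • E = Ec a b d := by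
  rw [fullTwo_iff hE] at h
  obtain ⟨x, y, z, hxy, hyz, hx, hy, hz⟩ := exists_roots h
  obtain ⟨hb2, hb4, hb6⟩ := vieta hxy hyz hx hy hz
  obtain ⟨a, b, d, u, hpar, hu, hA, hB⟩ := exists_par (A := z - y) (B := y - x)
    (by linarith) (by linarith)
  refine ⟨a, b, d, hpar, ⟨Units.mk0 u hu, y, -E.a₁ / 2, -(E.a₃ + y * E.a₁) / 2⟩, ?_⟩
  have e2 : E.a₂ = -(x + y + z) - E.a₁ ^ 2 / 4 := by
    simp only [b₂] at hb2; linarith
  have e4 : E.a₄ = (x * y + x * z + y * z) - E.a₁ * E.a₃ / 2 := by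
    simp only [b₄] at hb4; linarith
  have e6 : E.a₆ = -(x * y * z) - E.a₃ ^ 2 / 4 := by
    simp only [b₆] at hb6; linarith
  ext
  · simp only [variableChange_a₁, Ec]
    ring
  · simp only [variableChange_a₂, Ec, Units.val_inv_eq_inv_val, Units.val_mk0]
    rw [e2]
    have h1 : -(x + y + z) - E.a₁ ^ 2 / 4 - -E.a₁ / 2 * E.a₁ + 3 * y - (-E.a₁ / 2) ^ 2 =
        (y - x) - (z - y) := by ring
    rw [h1, hA, hB]
    field_simp
  · simp only [variableChange_a₃, Ec]
    ring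
  · simp only [variableChange_a₄, Ec, Units.val_inv_eq_inv_val, Units.val_mk0]
    rw [e2, e4]
    have h1 : x * y + x * z + y * z - E.a₁ * E.a₃ / 2 - -E.a₁ / 2 * E.a₃ +
        2 * y * (-(x + y + z) - E.a₁ ^ 2 / 4) -
        (-(E.a₃ + y * E.a₁) / 2 + y * (-E.a₁ / 2)) * E.a₁ + 3 * y ^ 2 -
        2 * (-E.a₁ / 2) * (-(E.a₃ + y * E.a₁) / 2) = -((y - x) * (z - y)) := by ring
    rw [h1, hA, hB]
    field_simp
  · simp only [variableChange_a₆, Ec, Units.val_inv_eq_inv_val, Units.val_mk0]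
    rw [e2, e4, e6]
    ring

/-- Two squarefree numbers whose quotient is a rational square are equal. -/
theorem squarefree_eq_of_sq {d d₁ : ℕ} (hd : Squarefree d) (hd₁ : Squarefree d₁) {w : ℚ}
    (h : (d₁ : ℚ) = w ^ 2 * d) : d = d₁ := by
  have hden : (w.den : ℚ) ≠ 0 := by exact_mod_cast w.den_pos.ne'
  have h1 : (d₁ : ℚ) * (w.den : ℚ) ^ 2 = (w.num : ℚ) ^ 2 * d := by
    have hw : w = (w.num : ℚ) / w.den := (Rat.num_div_den w).symm
    rw [h]
    nth_rw 1 [hw]
    field_simp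
  have h2 : d₁ * w.den ^ 2 = w.num.natAbs ^ 2 * d := by
    have h3 : (d₁ : ℤ) * (w.den : ℤ) ^ 2 = w.num ^ 2 * d := by exact_mod_cast h1
    have h4 : ((d₁ * w.den ^ 2 : ℕ) : ℤ) = ((w.num.natAbs ^ 2 * d : ℕ) : ℤ) := by
      push_cast
      rw [h3, sq_abs]
    exact_mod_cast h4
  have hcop : w.num.natAbs.Coprime w.den := w.reduced
  have hcop2 : (w.den ^ 2).Coprime (w.num.natAbs ^ 2) := (hcop.pow 2 2).symm
  have h5 : w.den ^ 2 ∣ d := hcop2.dvd_of_dvd_mul_left (by rw [← h2]; exact dvd_mul_left _ _)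
  have h6 : w.den = 1 := by
    have := hd w.den (by rw [← pow_two]; exact h5)
    exact Nat.isUnit_iff.mp this
  have h7 : w.num.natAbs ^ 2 ∣ d₁ := by
    rw [h6, one_pow, mul_one] at h2
    exact ⟨d, h2⟩
  have h8 : w.num.natAbs = 1 := by
    have := hd₁ w.num.natAbs (by rw [← pow_two]; exact h7)
    exact Nat.isUnit_iff.mp this
  rw [h6, h8] at h2
  simpa using h2.symm

/-- Different parameters give non-isomorphic curves. -/
theorem Ec_inj {a b d a₁ b₁ d₁ : ℕ} (h : Par a b d) (h₁ : Par a₁ b₁ d₁) {C : VariableChange ℚ}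
    (hC : C • Ec a b d = Ec a₁ b₁ d₁) : a = a₁ ∧ b = b₁ ∧ d = d₁ := by
  obtain ⟨ha, hb, hab, hd⟩ := h
  obtain ⟨ha₁, hb₁, hab₁, hd₁⟩ := h₁
  have hd0 : 0 < d := Nat.pos_of_ne_zero hd.ne_zero
  have hd₁0 : 0 < d₁ := Nat.pos_of_ne_zero hd₁.ne_zero
  have haq : (0 : ℚ) < a := by exact_mod_cast ha
  have hbq : (0 : ℚ) < b := by exact_mod_cast hb
  have hdq : (0 : ℚ) < d := by exact_mod_cast hd0
  have haq₁ : (0 : ℚ) < a₁ := by exact_mod_cast ha₁
  have hbq₁ : (0 : ℚ) < b₁ := by exact_mod_cast hb₁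
  have hdq₁ : (0 : ℚ) < d₁ := by exact_mod_cast hd₁0
  set v : ℚ := ((C.u⁻¹ : ℚˣ) : ℚ) ^ 2 with hv
  have hv0 : 0 < v := by
    rw [hv]
    have : ((C.u⁻¹ : ℚˣ) : ℚ) ≠ 0 := Units.ne_zero _
    positivity
  have q2 := variableChange_b₂ (W := Ec a b d) C
  have q4 := variableChange_b₄ (W := Ec a b d) C
  have q6 := variableChange_b₆ (W := Ec a b d) C
  rw [hC] at q2 q4 q6
  simp only [b₂, b₄, b₆, Ec] at q2 q4 q6
  set r := C.r with hr
  have q2' : d₁ * ((b₁ : ℚ) - a₁) = v * (d * ((b : ℚ) - a) + 3 * r) := by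
    rw [hv]; linarith
  have q4' : -((d₁ : ℚ) ^ 2 * a₁ * b₁) =
      v ^ 2 * (-((d : ℚ) ^ 2 * a * b) + 2 * r * (d * ((b : ℚ) - a)) + 3 * r ^ 2) := by
    rw [hv]; linarith
  have q6' : v ^ 3 * (4 * (r * (r - d * a) * (r + d * b))) = 0 := by
    rw [hv]; linarith
  have hroot : r * (r - d * a) * (r + d * b) = 0 := by
    have := (mul_eq_zero.mp q6').resolve_left (by positivity)
    linarith
  have hneg : 0 < (d₁ : ℚ) ^ 2 * a₁ * b₁ := by positivity
  have hr0 : r = 0 := by
    rcases mul_eq_zero.mp hroot with h2 | h2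
    · rcases mul_eq_zero.mp h2 with h3 | h3
      · exact h3
      · exfalso
        have h4 : r = d * a := by linarith
        rw [h4] at q4'
        have h5 : 0 < v ^ 2 * (-((d : ℚ) ^ 2 * a * b) + 2 * (d * a) * (d * ((b : ℚ) - a)) +
            3 * (d * a) ^ 2) := by
          have h6 : (-((d : ℚ) ^ 2 * a * b) + 2 * (d * a) * (d * ((b : ℚ) - a)) +
            3 * (d * a) ^ 2) = d ^ 2 * a * b + (d * a) ^ 2 := by ring
          rw [h6]; positivity
        linarith
    · exfalso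
      have h4 : r = -(d * b) := by linarith
      rw [h4] at q4'
      have h5 : 0 < v ^ 2 * (-((d : ℚ) ^ 2 * a * b) + 2 * (-(d * b)) * (d * ((b : ℚ) - a)) +
          3 * (-(d * b)) ^ 2) := by
        have h6 : (-((d : ℚ) ^ 2 * a * b) + 2 * (-(d * b)) * (d * ((b : ℚ) - a)) +
          3 * (-(d * b)) ^ 2) = d ^ 2 * a * b + (d * b) ^ 2 := by ring
        rw [h6]; positivity
      linarith
  rw [hr0] at q2' q4'
  have hB : (d₁ : ℚ) * b₁ = v * (d * b) := by
    have h2 : ((d₁ : ℚ) * b₁ - v * (d * b)) * (d₁ * b₁ + v * (d * a)) = 0 := by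
      linear_combination (d₁ * b₁ : ℚ) * q2' - q4'
    rcases mul_eq_zero.mp h2 with h3 | h3
    · linarith
    · exfalso
      have : (0 : ℚ) < d₁ * b₁ + v * (d * a) := by positivity
      linarith
  have hA : (d₁ : ℚ) * a₁ = v * (d * a) := by linarith
  have hcross : (a₁ : ℚ) * b = a * b₁ := by
    have h2 : (v * d * d₁) * ((a₁ : ℚ) * b) = (v * d * d₁) * (a * b₁) := by
      linear_combination (v * (d * b)) * hA - (v * (d * a)) * hB
    exact mul_left_cancel₀ (by positivity) h2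
  have hcr : a₁ * b = a * b₁ := by exact_mod_cast hcross
  have hae : a = a₁ := by
    apply Nat.dvd_antisymm
    · exact hab.dvd_of_dvd_mul_right (by rw [hcr]; exact dvd_mul_right _ _)
    · exact hab₁.dvd_of_dvd_mul_right (by rw [← hcr]; exact dvd_mul_right _ _)
  have hbe : b = b₁ := by
    rw [hae] at hcr
    exact Nat.eq_of_mul_eq_mul_left ha₁ hcr
  refine ⟨hae, hbe, ?_⟩
  have hdv : (d₁ : ℚ) = ((C.u⁻¹ : ℚˣ) : ℚ) ^ 2 * d := by
    rw [← hv]
    rw [hae] at hA
    have : (d₁ : ℚ) * a₁ = (v * d) * a₁ := by rw [hA]; ring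
    exact mul_right_cancel₀ haq₁.ne' this
  exact squarefree_eq_of_sq hd hd₁ hdv

end Pool.Agent.Lib.AbcT
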