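import Mathlib
import Pool.Agent.Lib.AbcT.CDefs

/-!
# Reduction types of the curves `y² = x (x - d a) (x + d b)` at odd primes
-/

open WeierstrassCurve IsDiscreteValuationRing IsDedekindDomain.HeightOneSpectrum

namespace Pool.Agent.Lib.AbcT

section General

variable {R : Type*} [CommRing R] [IsDomain R] [IsDiscreteValuationRing R]
variable {K : Type*} [Field K] [Algebra R K] [IsFractionRing R K]

/-- Minimality of the minimal model among all integral models. -/
theorem val_disc_le_minimal (W : WeierstrassCurve K) (C : VariableChange K)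
    (hC : IsIntegral R (C • W)) :
    valuation K (maximalIdeal R) (C • W).Δ ≤ valuation K (maximalIdeal R) (W.minimal R).Δ := by
  set C₀ := (W.exists_isMinimal R).choose with hC₀
  have hmin : IsMinimal R (C₀ • W) := (W.exists_isMinimal R).choose_spec
  have hdef : W.minimal R = C₀ • W := rfl
  rw [hdef]
  have hm := hmin.val_Δ_maximal
  have hj : IsIntegral R ((C * C₀⁻¹) • (C₀ • W)) := by
    rw [smul_smul, inv_mul_cancel_right]; exact hC
  have h1 : valuation_Δ_aux R ((C * C₀⁻¹) • (C₀ • W)) ≤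
      valuation_Δ_aux R ((1 : VariableChange K) • (C₀ • W)) := by
    rcases le_total (valuation_Δ_aux R ((C * C₀⁻¹) • (C₀ • W)))
      (valuation_Δ_aux R ((1 : VariableChange K) • (C₀ • W))) with h | h
    · exact h
    · exact hm.2 hj h
  have h2 : ((C * C₀⁻¹) • (C₀ • W)) = C • W := by
    rw [smul_smul, inv_mul_cancel_right]
  rw [h2, one_smul] at h1
  have := hC
  have h3 := valuation_Δ_aux_eq_of_isIntegral R (C • W)
  have h4 := valuation_Δ_aux_eq_of_isIntegral R (C₀ • W)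
  rw [← h3, ← h4]
  exact h1

theorem val_disc_le_one (W : WeierstrassCurve K) [IsIntegral R W] :
    valuation K (maximalIdeal R) W.Δ ≤ 1 := by
  rw [← integralModel_Δ_eq R W]
  exact valuation_le_one _ _

theorem val_c4_le_one (W : WeierstrassCurve K) [IsIntegral R W] :
    valuation K (maximalIdeal R) W.c₄ ≤ 1 := by
  rw [← integralModel_c₄_eq R W]
  exact valuation_le_one _ _

/-- Good reduction of the minimal model. -/
theorem good_iff (W : WeierstrassCurve K) :
    (W.minimal R).HasGoodReduction R ↔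
      ∃ C : VariableChange K, IsIntegral R (C • W) ∧
        valuation K (maximalIdeal R) (C • W).Δ = 1 := by
  constructor
  · intro h
    refine ⟨(W.exists_isMinimal R).choose, ?_, ?_⟩
    · exact (inferInstance : IsIntegral R (W.minimal R))
    · exact h.goodReduction
  · rintro ⟨C, hC, hv⟩
    rw [hasGoodReduction_iff]
    refine ⟨inferInstance, le_antisymm (val_disc_le_one _) ?_⟩
    rw [← hv]
    exact val_disc_le_minimal W C hC

/-- Multiplicative reduction of the minimal model. -/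
theorem mult_iff (W : WeierstrassCurve K) (hW : W.Δ ≠ 0) :
    (W.minimal R).HasMultiplicativeReduction R ↔
      ∃ C : VariableChange K, IsIntegral R (C • W) ∧
        valuation K (maximalIdeal R) (C • W).Δ < 1 ∧
        valuation K (maximalIdeal R) (C • W).c₄ = 1 := by
  constructor
  · intro h
    refine ⟨(W.exists_isMinimal R).choose, ?_, ?_, ?_⟩
    · exact (inferInstance : IsIntegral R (W.minimal R))
    · exact h.badReduction
    · exact h.multiplicativeReduction
  · rintro ⟨C, hC, hv, hc⟩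
    set C₀ := (W.exists_isMinimal R).choose with hC₀
    have hdef : W.minimal R = C₀ • W := rfl
    set D := C₀ * C⁻¹ with hD
    have hmD : W.minimal R = D • (C • W) := by
      rw [hdef, hD, smul_smul, inv_mul_cancel_right]
    have hle := val_disc_le_minimal (R := R) W C hC
    have hc4 := val_c4_le_one (R := R) (W.minimal R)
    have hΔ : valuation K (maximalIdeal R) (W.minimal R).Δ =
        valuation K (maximalIdeal R) ((D.u⁻¹ : Kˣ) : K) ^ 12 *
          valuation K (maximalIdeal R) (C • W).Δ := by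
      rw [hmD, variableChange_Δ, map_mul, map_pow]
    have hcc : valuation K (maximalIdeal R) (W.minimal R).c₄ =
        valuation K (maximalIdeal R) ((D.u⁻¹ : Kˣ) : K) ^ 4 := by
      rw [hmD, variableChange_c₄, map_mul, map_pow, hc, mul_one]
    have hne : valuation K (maximalIdeal R) (C • W).Δ ≠ 0 := by
      rw [Valuation.ne_zero_iff, variableChange_Δ]
      exact mul_ne_zero (pow_ne_zero _ (Units.ne_zero _)) hW
    rw [hcc] at hc4
    have hu : valuation K (maximalIdeal R) ((D.u⁻¹ : Kˣ) : K) ≤ 1 := by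
      by_contra hcon
      push Not at hcon
      exact absurd hc4 (not_le.mpr (one_lt_pow₀ hcon (by norm_num)))
    have hu12 : 1 ≤ valuation K (maximalIdeal R) ((D.u⁻¹ : Kˣ) : K) ^ 12 := by
      by_contra hcon
      push Not at hcon
      rw [hΔ] at hle
      have := mul_lt_mul_of_pos_right hcon (zero_lt_iff.mpr hne)
      rw [one_mul] at this
      exact absurd hle (not_le.mpr this)
    have hu1 : valuation K (maximalIdeal R) ((D.u⁻¹ : Kˣ) : K) = 1 := by
      refine le_antisymm hu ?_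
      by_contra hcon
      push Not at hcon
      exact absurd hu12 (not_le.mpr (pow_lt_one₀ zero_le hcon (by norm_num)))
    rw [hasMultiplicativeReduction_iff]
    refine ⟨inferInstance, ?_, ?_⟩
    · rw [hΔ, hu1, one_pow, one_mul]; exact hv
    · rw [hcc, hu1, one_pow]

/-- The reduction type does not depend on the model: good reduction. -/
theorem good_smul (C : VariableChange K) (W : WeierstrassCurve K) :
    ((C • W).minimal R).HasGoodReduction R ↔ (W.minimal R).HasGoodReduction R := by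
  rw [good_iff, good_iff]
  constructor
  · rintro ⟨D, h1, h2⟩
    refine ⟨D * C, ?_, ?_⟩
    · rw [mul_smul]; exact h1
    · rw [mul_smul]; exact h2
  · rintro ⟨D, h1, h2⟩
    refine ⟨D * C⁻¹, ?_, ?_⟩
    · rw [smul_smul, inv_mul_cancel_right]; exact h1
    · rw [smul_smul, inv_mul_cancel_right]; exact h2

/-- The reduction type does not depend on the model: multiplicative reduction. -/
theorem mult_smul (C : VariableChange K) (W : WeierstrassCurve K) (hW : W.Δ ≠ 0) :
    ((C • W).minimal R).HasMultiplicativeReduction R ↔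
      (W.minimal R).HasMultiplicativeReduction R := by
  have hCW : (C • W).Δ ≠ 0 := by
    rw [variableChange_Δ]
    exact mul_ne_zero (pow_ne_zero _ (Units.ne_zero _)) hW
  rw [mult_iff _ hW, mult_iff _ hCW]
  constructor
  · rintro ⟨D, h1, h2⟩
    refine ⟨D * C, ?_, ?_⟩
    · rw [mul_smul]; exact h1
    · rw [mul_smul]; exact h2
  · rintro ⟨D, h1, h2⟩
    refine ⟨D * C⁻¹, ?_, ?_⟩
    · rw [smul_smul, inv_mul_cancel_right]; exact h1
    · rw [smul_smul, inv_mul_cancel_right]; exact h2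

end General

section Padic

variable (p : ℕ) [hp : Fact p.Prime]

theorem v_le_one_iff (x : ℚ_[p]) :
    valuation ℚ_[p] (maximalIdeal ℤ_[p]) x ≤ 1 ↔ ‖x‖ ≤ 1 := by
  constructor
  · intro h
    obtain ⟨a, ha⟩ := exists_lift_of_le_one h
    rw [← ha]
    exact a.2
  · intro h
    have h1 : algebraMap ℤ_[p] ℚ_[p] (⟨x, h⟩ : ℤ_[p]) = x := rfl
    rw [← h1]
    exact valuation_le_one _ _

theorem one_le_v_iff (x : ℚ_[p]) :
    1 ≤ valuation ℚ_[p] (maximalIdeal ℤ_[p]) x ↔ 1 ≤ ‖x‖ := by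
  by_cases hx : x = 0
  · subst hx
    simp
  · have h := v_le_one_iff p x⁻¹
    rw [map_inv₀, norm_inv] at h
    have hv : 0 < valuation ℚ_[p] (maximalIdeal ℤ_[p]) x := by
      rw [zero_lt_iff, Valuation.ne_zero_iff]; exact hx
    rw [inv_le_one₀ hv, inv_le_one₀ (norm_pos_iff.mpr hx)] at h
    exact h

theorem v_eq_one_iff (x : ℚ_[p]) :
    valuation ℚ_[p] (maximalIdeal ℤ_[p]) x = 1 ↔ ‖x‖ = 1 := by
  rw [le_antisymm_iff, le_antisymm_iff, v_le_one_iff, one_le_v_iff]

theorem v_lt_one_iff (x : ℚ_[p]) :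
    valuation ℚ_[p] (maximalIdeal ℤ_[p]) x < 1 ↔ ‖x‖ < 1 := by
  rw [← not_le, ← not_le, one_le_v_iff]

theorem one_lt_p : (1 : ℝ) < p := by exact_mod_cast hp.out.one_lt

theorem norm_eq_one_iff_val {x : ℚ_[p]} (hx : x ≠ 0) : ‖x‖ = 1 ↔ x.valuation = 0 := by
  rw [Padic.norm_eq_zpow_neg_valuation hx, zpow_eq_one_iff_right₀ (by positivity) (one_lt_p p).ne']
  omega

theorem norm_lt_one_iff_val {x : ℚ_[p]} (hx : x ≠ 0) : ‖x‖ < 1 ↔ 0 < x.valuation := by
  rw [Padic.norm_eq_zpow_neg_valuation hx, zpow_lt_one_iff_right₀ (one_lt_p p)]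
  omega

/-- The discriminant of `Ec a b d` over `ℚ_p`. -/
theorem disc_Ec_padic (a b d : ℕ) :
    ((Ec a b d).map (algebraMap ℚ ℚ_[p])).Δ =
      ((16 * d ^ 6 * (a * b * (a + b)) ^ 2 : ℕ) : ℚ_[p]) := by
  rw [map_Δ]
  have : (Ec a b d).Δ = ((16 * d ^ 6 * (a * b * (a + b)) ^ 2 : ℕ) : ℚ) := by
    simp only [WeierstrassCurve.Δ, b₂, b₄, b₆, b₈, Ec]
    push_cast
    ring
  rw [this, map_natCast]

theorem c4_Ec_padic (a b d : ℕ) :
    ((Ec a b d).map (algebraMap ℚ ℚ_[p])).c₄ =
      ((16 * d ^ 2 * (a ^ 2 + a * b + b ^ 2) : ℕ) : ℚ_[p]) := by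
  rw [map_c₄]
  have : (Ec a b d).c₄ = ((16 * d ^ 2 * (a ^ 2 + a * b + b ^ 2) : ℕ) : ℚ) := by
    simp only [WeierstrassCurve.c₄, b₂, b₄, Ec]
    push_cast
    ring
  rw [this, map_natCast]

theorem integral_Ec (a b d : ℕ) :
    IsIntegral ℤ_[p] ((Ec a b d).map (algebraMap ℚ ℚ_[p])) := by
  apply isIntegral_of_exists_lift ℤ_[p]
  · exact ⟨0, by simp [Ec]⟩
  · refine ⟨(d : ℤ_[p]) * ((b : ℤ_[p]) - a), ?_⟩
    simp [Ec]
  · exact ⟨0, by simp [Ec]⟩
  · refine ⟨-((d : ℤ_[p]) ^ 2 * a * b), ?_⟩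
    simp [Ec]
  · exact ⟨0, by simp [Ec]⟩

theorem val16 (hp2 : p ≠ 2) : padicValNat p 16 = 0 := by
  apply padicValNat.eq_zero_of_not_dvd
  intro h
  have h2 : p ∣ 2 ^ 4 := by simpa using h
  exact hp2 ((Nat.prime_dvd_prime_iff_eq hp.out Nat.prime_two).mp (hp.out.dvd_of_dvd_pow h2))

theorem val_disc (hp2 : p ≠ 2) {d N : ℕ} (hd : d ≠ 0) (hN : N ≠ 0) :
    padicValNat p (16 * d ^ 6 * N ^ 2) = 6 * padicValNat p d + 2 * padicValNat p N := by
  rw [padicValNat.mul (by positivity) (by positivity),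
    padicValNat.mul (by norm_num) (by positivity), padicValNat.pow, padicValNat.pow,
    val16 p hp2]
  omega

theorem val_c4 (hp2 : p ≠ 2) {d Q : ℕ} (hd : d ≠ 0) (hQ : Q ≠ 0) :
    padicValNat p (16 * d ^ 2 * Q) = 2 * padicValNat p d + padicValNat p Q := by
  rw [padicValNat.mul (by positivity) hQ,
    padicValNat.mul (by norm_num) (by positivity), padicValNat.pow,
    val16 p hp2]
  omega

theorem not_dvd_Q {a b : ℕ} (hab : a.Coprime b) (h : p ∣ a * b * (a + b)) :
    ¬ p ∣ a ^ 2 + a * b + b ^ 2 := by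
  intro hQ
  have hpp := hp.out
  have hcop : ∀ {x y : ℕ}, x.Coprime y → p ∣ x → p ∣ y → False := by
    intro x y hxy hx hy
    have := Nat.dvd_gcd hx hy
    rw [hxy] at this
    exact hpp.one_lt.ne' (Nat.dvd_one.mp this)
  rcases hpp.dvd_mul.mp h with h1 | h1
  · rcases hpp.dvd_mul.mp h1 with h2 | h2
    · have h3 : p ∣ b ^ 2 := by
        have h4 : p ∣ a ^ 2 + a * b :=
          dvd_add (h2.trans (dvd_pow_self a two_ne_zero)) (h2.trans (dvd_mul_right a b))
        exact (Nat.dvd_add_right h4).mp hQ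
      exact hcop hab h2 (hpp.dvd_of_dvd_pow h3)
    · have h3 : p ∣ a ^ 2 := by
        have h4 : p ∣ a * b + b ^ 2 :=
          dvd_add (h2.trans (dvd_mul_left b a)) (h2.trans (dvd_pow_self b two_ne_zero))
        rw [add_assoc] at hQ
        exact (Nat.dvd_add_left h4).mp hQ
      exact hcop hab (hpp.dvd_of_dvd_pow h3) h2
  · have h3 : p ∣ a * b := by
      have h4 : (a + b) ^ 2 = (a ^ 2 + a * b + b ^ 2) + a * b := by ring
      have h5 : p ∣ (a + b) ^ 2 := h1.trans (dvd_pow_self _ two_ne_zero)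
      rw [h4] at h5
      exact (Nat.dvd_add_right hQ).mp h5
    rcases hpp.dvd_mul.mp h3 with h2 | h2
    · exact hcop hab h2 ((Nat.dvd_add_right h2).mp h1)
    · exact hcop hab ((Nat.dvd_add_left h2).mp h1) h2

theorem val_squarefree {d : ℕ} (hd : Squarefree d) (h : p ∣ d) : padicValNat p d = 1 := by
  have hpp := hp.out
  obtain ⟨e, rfl⟩ := h
  have he : ¬ p ∣ e := by
    intro he
    have : p * p ∣ p * e := mul_dvd_mul_left p he
    exact hpp.one_lt.ne' (Nat.isUnit_iff.mp (hd p this))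
  have he0 : e ≠ 0 := by rintro rfl; exact he (dvd_zero p)
  rw [padicValNat.mul hpp.ne_zero he0, padicValNat_self, padicValNat.eq_zero_of_not_dvd he]

section Curve

variable {a b d : ℕ}

theorem Par.N_ne (h : Par a b d) : a * b * (a + b) ≠ 0 := by
  obtain ⟨ha, hb, -, -⟩ := h
  positivity

theorem Par.Q_ne (h : Par a b d) : a ^ 2 + a * b + b ^ 2 ≠ 0 := by
  obtain ⟨ha, hb, -, -⟩ := h
  positivity

theorem Par.d_ne (h : Par a b d) : d ≠ 0 := h.2.2.2.ne_zero

theorem disc_map_ne (h : Par a b d) :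
    ((Ec a b d).map (algebraMap ℚ ℚ_[p])).Δ ≠ 0 := by
  rw [disc_Ec_padic]
  have h1 := h.N_ne
  have h2 := h.d_ne
  exact_mod_cast (by positivity : 16 * d ^ 6 * (a * b * (a + b)) ^ 2 ≠ 0)

theorem val_disc_map (h : Par a b d) (hp2 : p ≠ 2) :
    ((Ec a b d).map (algebraMap ℚ ℚ_[p])).Δ.valuation =
      6 * (padicValNat p d : ℤ) + 2 * (padicValNat p (a * b * (a + b)) : ℤ) := by
  rw [disc_Ec_padic, Padic.valuation_natCast, val_disc p hp2 h.d_ne h.N_ne]
  push_cast
  ring

theorem c4_map_ne (h : Par a b d) :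
    ((Ec a b d).map (algebraMap ℚ ℚ_[p])).c₄ ≠ 0 := by
  rw [c4_Ec_padic]
  have h1 := h.Q_ne
  have h2 := h.d_ne
  exact_mod_cast (by positivity : 16 * d ^ 2 * (a ^ 2 + a * b + b ^ 2) ≠ 0)

theorem val_c4_map (h : Par a b d) (hp2 : p ≠ 2) :
    ((Ec a b d).map (algebraMap ℚ ℚ_[p])).c₄.valuation =
      2 * (padicValNat p d : ℤ) + (padicValNat p (a ^ 2 + a * b + b ^ 2) : ℤ) := by
  rw [c4_Ec_padic, Padic.valuation_natCast, val_c4 p hp2 h.d_ne h.Q_ne]
  push_cast
  ring

/-- The valuations of the discriminant and of `c₄` of a model over `ℚ_p`. -/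
theorem val_smul (W : WeierstrassCurve ℚ_[p]) (C : VariableChange ℚ_[p]) (hD : W.Δ ≠ 0)
    (hc : W.c₄ ≠ 0) : ∃ n : ℤ, (C • W).Δ ≠ 0 ∧ (C • W).c₄ ≠ 0 ∧
      (C • W).Δ.valuation = W.Δ.valuation - 12 * n ∧
      (C • W).c₄.valuation = W.c₄.valuation - 4 * n := by
  refine ⟨(C.u : ℚ_[p]).valuation, ?_, ?_, ?_, ?_⟩
  · rw [variableChange_Δ]
    exact mul_ne_zero (pow_ne_zero _ (Units.ne_zero _)) hD
  · rw [variableChange_c₄]
    exact mul_ne_zero (pow_ne_zero _ (Units.ne_zero _)) hc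
  · rw [variableChange_Δ, Padic.valuation_mul (pow_ne_zero _ (Units.ne_zero _)) hD,
      Padic.valuation_pow, Units.val_inv_eq_inv_val, Padic.valuation_inv]
    push_cast
    ring
  · rw [variableChange_c₄, Padic.valuation_mul (pow_ne_zero _ (Units.ne_zero _)) hc,
      Padic.valuation_pow, Units.val_inv_eq_inv_val, Padic.valuation_inv]
    push_cast
    ring

theorem goodAt_iff' (E : WeierstrassCurve ℚ) : GoodAt p E ↔
    ∃ C : VariableChange ℚ_[p], IsIntegral ℤ_[p] (C • (E.map (algebraMap ℚ ℚ_[p]))) ∧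
      ‖(C • (E.map (algebraMap ℚ ℚ_[p]))).Δ‖ = 1 := by
  unfold GoodAt
  rw [good_iff]
  simp only [v_eq_one_iff]

theorem disc_map_rat_ne {E : WeierstrassCurve ℚ} (hE : E.Δ ≠ 0) :
    (E.map (algebraMap ℚ ℚ_[p])).Δ ≠ 0 := by
  rw [map_Δ]
  exact (map_ne_zero _).mpr hE

theorem multAt_iff' {E : WeierstrassCurve ℚ} (hE : E.Δ ≠ 0) : MultAt p E ↔
    ∃ C : VariableChange ℚ_[p], IsIntegral ℤ_[p] (C • (E.map (algebraMap ℚ ℚ_[p]))) ∧
      ‖(C • (E.map (algebraMap ℚ ℚ_[p]))).Δ‖ < 1 ∧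
      ‖(C • (E.map (algebraMap ℚ ℚ_[p]))).c₄‖ = 1 := by
  unfold MultAt
  rw [mult_iff _ (disc_map_rat_ne p hE)]
  simp only [v_eq_one_iff, v_lt_one_iff]

/-- The discriminant of `Ec a b d`. -/
theorem disc_Ec_ne (h : Par a b d) : (Ec a b d).Δ ≠ 0 := by
  have h3 : (Ec a b d).Δ = ((16 * d ^ 6 * (a * b * (a + b)) ^ 2 : ℕ) : ℚ) := by
    simp only [WeierstrassCurve.Δ, b₂, b₄, b₆, b₈, Ec]
    push_cast
    ring
  rw [h3]
  have h1 := h.N_ne
  have h2 := h.d_ne
  exact_mod_cast (by positivity : 16 * d ^ 6 * (a * b * (a + b)) ^ 2 ≠ 0)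

/-- Integral models have integral `c₄` and discriminant. -/
theorem val_nonneg_of_integral {W : WeierstrassCurve ℚ_[p]} (hW : IsIntegral ℤ_[p] W) :
    0 ≤ W.Δ.valuation ∧ 0 ≤ W.c₄.valuation := by
  have := hW
  rw [← Padic.norm_le_one_iff_val_nonneg, ← Padic.norm_le_one_iff_val_nonneg,
    ← v_le_one_iff, ← v_le_one_iff]
  exact ⟨val_disc_le_one W, val_c4_le_one W⟩

/-- At the primes dividing `d` the reduction is additive. -/
theorem not_good_of_dvd (h : Par a b d) (hp2 : p ≠ 2) (hpd : p ∣ d) :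
    ¬ GoodAt p (Ec a b d) := by
  rw [goodAt_iff']
  rintro ⟨C, hC, hΔ⟩
  obtain ⟨n, h1, h2, h3, h4⟩ := val_smul p _ C (disc_map_ne p h) (c4_map_ne p h)
  rw [norm_eq_one_iff_val p h1] at hΔ
  have h5 := (val_nonneg_of_integral p hC).2
  rw [h3, val_disc_map p h hp2, val_squarefree p h.2.2.2 hpd] at hΔ
  rw [h4, val_c4_map p h hp2, val_squarefree p h.2.2.2 hpd] at h5
  by_cases hN : p ∣ a * b * (a + b)
  · rw [padicValNat.eq_zero_of_not_dvd (not_dvd_Q p h.2.2.1 hN)] at h5
    omega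
  · rw [padicValNat.eq_zero_of_not_dvd hN] at hΔ
    omega

theorem not_mult_of_dvd (h : Par a b d) (hp2 : p ≠ 2) (hpd : p ∣ d) :
    ¬ MultAt p (Ec a b d) := by
  rw [multAt_iff' p (disc_Ec_ne h)]
  rintro ⟨C, hC, hΔ, hc⟩
  obtain ⟨n, h1, h2, h3, h4⟩ := val_smul p _ C (disc_map_ne p h) (c4_map_ne p h)
  rw [norm_lt_one_iff_val p h1] at hΔ
  rw [norm_eq_one_iff_val p h2] at hc
  rw [h3, val_disc_map p h hp2, val_squarefree p h.2.2.2 hpd] at hΔ
  rw [h4, val_c4_map p h hp2, val_squarefree p h.2.2.2 hpd] at hc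
  by_cases hN : p ∣ a * b * (a + b)
  · rw [padicValNat.eq_zero_of_not_dvd (not_dvd_Q p h.2.2.1 hN)] at hc
    omega
  · rw [padicValNat.eq_zero_of_not_dvd hN] at hΔ
    omega

theorem good_of_not_dvd (h : Par a b d) (hp2 : p ≠ 2) (hpN : ¬ p ∣ a * b * (a + b) * d) :
    GoodAt p (Ec a b d) := by
  rw [goodAt_iff']
  refine ⟨1, ?_, ?_⟩
  · rw [one_smul]; exact integral_Ec p a b d
  · rw [one_smul, norm_eq_one_iff_val p (disc_map_ne p h), val_disc_map p h hp2,
      padicValNat.eq_zero_of_not_dvd (fun hd => hpN (hd.trans (dvd_mul_left _ _))),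
      padicValNat.eq_zero_of_not_dvd (fun hd => hpN (hd.trans (dvd_mul_right _ _)))]
    simp

theorem mult_of_dvd (h : Par a b d) (hp2 : p ≠ 2) (hpN : p ∣ a * b * (a + b)) (hpd : ¬ p ∣ d) :
    MultAt p (Ec a b d) := by
  rw [multAt_iff' p (disc_Ec_ne h)]
  refine ⟨1, ?_, ?_, ?_⟩
  · rw [one_smul]; exact integral_Ec p a b d
  · rw [one_smul, norm_lt_one_iff_val p (disc_map_ne p h), val_disc_map p h hp2,
      padicValNat.eq_zero_of_not_dvd hpd]
    have : 1 ≤ padicValNat p (a * b * (a + b)) := one_le_padicValNat_of_dvd h.N_ne hpN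
    omega
  · rw [one_smul, norm_eq_one_iff_val p (c4_map_ne p h), val_c4_map p h hp2,
      padicValNat.eq_zero_of_not_dvd hpd,
      padicValNat.eq_zero_of_not_dvd (not_dvd_Q p h.2.2.1 hpN)]
    simp

theorem not_good_of_mult {E : WeierstrassCurve ℚ} (h : MultAt p E) : ¬ GoodAt p E :=
  h.not_hasGoodReduction

/-- Good reduction at the odd prime `p`. -/
theorem goodAt_Ec (h : Par a b d) (hp2 : p ≠ 2) :
    GoodAt p (Ec a b d) ↔ ¬ p ∣ a * b * (a + b) * d := by
  constructor
  · intro hg hN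
    by_cases hpd : p ∣ d
    · exact not_good_of_dvd p h hp2 hpd hg
    · rcases hp.out.dvd_mul.mp hN with hN | hN
      · exact not_good_of_mult p (mult_of_dvd p h hp2 hN hpd) hg
      · exact hpd hN
  · exact good_of_not_dvd p h hp2

/-- Multiplicative reduction at the odd prime `p`. -/
theorem multAt_Ec (h : Par a b d) (hp2 : p ≠ 2) :
    MultAt p (Ec a b d) ↔ p ∣ a * b * (a + b) ∧ ¬ p ∣ d := by
  constructor
  · intro hm
    have hpd : ¬ p ∣ d := fun hpd => not_mult_of_dvd p h hp2 hpd hm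
    refine ⟨?_, hpd⟩
    by_contra hN
    refine not_good_of_mult p hm (good_of_not_dvd p h hp2 ?_)
    intro hN2
    rcases hp.out.dvd_mul.mp hN2 with h1 | h1
    · exact hN h1
    · exact hpd h1
  · rintro ⟨hN, hd⟩
    exact mult_of_dvd p h hp2 hN hd

theorem goodAt_smul (C : VariableChange ℚ) (E : WeierstrassCurve ℚ) :
    GoodAt p (C • E) ↔ GoodAt p E := by
  unfold GoodAt
  rw [← map_variableChange]
  exact good_smul _ _

theorem multAt_smul (C : VariableChange ℚ) {E : WeierstrassCurve ℚ} (hE : E.Δ ≠ 0) :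
    MultAt p (C • E) ↔ MultAt p E := by
  unfold MultAt
  rw [← map_variableChange]
  exact mult_smul _ _ (disc_map_rat_ne p hE)

theorem condExp_smul (C : VariableChange ℚ) {E : WeierstrassCurve ℚ} (hE : E.Δ ≠ 0) :
    condExp p (C • E) = condExp p E := by
  have h1 := goodAt_smul p C E
  have h2 := multAt_smul p C hE
  unfold condExp
  by_cases hg : GoodAt p E
  · rw [if_pos hg, if_pos (h1.mpr hg)]
  · rw [if_neg hg, if_neg (fun h => hg (h1.mp h))]
    by_cases hm : MultAt p E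
    · rw [if_pos hm, if_pos (h2.mpr hm)]
    · rw [if_neg hm, if_neg (fun h => hm (h2.mp h))]

/-- The conductor exponent of `Ec a b d` at the odd prime `p`. -/
theorem pow_condExp_Ec (h : Par a b d) (hp2 : p ≠ 2) :
    p ^ condExp p (Ec a b d) =
      (if p ∣ a * b * (a + b) * d then p else 1) * (if p ∣ d then p else 1) := by
  unfold condExp
  rw [goodAt_Ec p h hp2, multAt_Ec p h hp2]
  by_cases hpd : p ∣ d
  · have h1 : p ∣ a * b * (a + b) * d := hpd.trans (dvd_mul_left _ _)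
    simp [hpd, h1, pow_two]
  · by_cases hN : p ∣ a * b * (a + b)
    · have h1 : p ∣ a * b * (a + b) * d := hN.trans (dvd_mul_right _ _)
      simp [hpd, h1, hN]
    · have h1 : ¬ p ∣ a * b * (a + b) * d := by
        intro h2
        rcases hp.out.dvd_mul.mp h2 with h1 | h1
        · exact hN h1
        · exact hpd h1
      simp [hpd, h1]

end Curve

end Padic

/-- The odd conductor is invariant under changes of variables. -/
theorem cond_smul (C : VariableChange ℚ) {E : WeierstrassCurve ℚ} (hE : E.Δ ≠ 0) :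
    cond (C • E) = cond E := by
  unfold cond
  refine finprod_congr fun p => ?_
  split_ifs with h
  · have := Fact.mk h.1
    rw [condExp_smul p C hE]
  · rfl

/-- The odd conductor of `Ec a b d`. -/
theorem cond_Ec {a b d : ℕ} (h : Par a b d) :
    cond (Ec a b d) = radOdd (a * b * (a + b) * d) * radOdd d := by
  classical
  have hN0 : a * b * (a + b) * d ≠ 0 := mul_ne_zero h.N_ne h.d_ne
  have hf : ∀ p : ℕ, (if hh : p.Prime ∧ p ≠ 2 then
      haveI := Fact.mk hh.1; p ^ condExp p (Ec a b d) else 1) =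
      if p.Prime ∧ p ≠ 2 then
        (if p ∣ a * b * (a + b) * d then p else 1) * (if p ∣ d then p else 1) else 1 := by
    intro p
    by_cases hh : p.Prime ∧ p ≠ 2
    · rw [dif_pos hh, if_pos hh]
      have := Fact.mk hh.1
      exact pow_condExp_Ec p h hh.2
    · rw [dif_neg hh, if_neg hh]
  unfold cond
  rw [finprod_congr hf]
  rw [finprod_eq_prod_of_mulSupport_subset (s := (a * b * (a + b) * d).primeFactors \ {2})]
  · unfold radOdd
    have h1 : ∏ p ∈ (a * b * (a + b) * d).primeFactors \ {2},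
        (if p.Prime ∧ p ≠ 2 then
        (if p ∣ a * b * (a + b) * d then p else 1) * (if p ∣ d then p else 1) else 1) =
        ∏ p ∈ (a * b * (a + b) * d).primeFactors \ {2}, (p * (if p ∣ d then p else 1)) := by
      refine Finset.prod_congr rfl fun p hp => ?_
      rw [Finset.mem_sdiff, Nat.mem_primeFactors, Finset.mem_singleton] at hp
      rw [if_pos ⟨hp.1.1, hp.2⟩, if_pos hp.1.2.1]
    rw [h1, Finset.prod_mul_distrib]
    congr 1
    rw [Finset.prod_ite, Finset.prod_const_one, mul_one]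
    refine Finset.prod_congr ?_ fun p _ => rfl
    ext p
    simp only [Finset.mem_filter, Finset.mem_sdiff, Nat.mem_primeFactors, Finset.mem_singleton]
    constructor
    · rintro ⟨⟨⟨h1, h2, h3⟩, h4⟩, h5⟩
      exact ⟨⟨h1, h5, h.d_ne⟩, h4⟩
    · rintro ⟨⟨h1, h2, h3⟩, h4⟩
      exact ⟨⟨⟨h1, h2.trans (dvd_mul_left _ _), hN0⟩, h4⟩, h2⟩
  · intro p hp
    rw [Function.mem_mulSupport] at hp
    rw [Finset.coe_sdiff, Set.mem_sdiff, Finset.mem_coe, Nat.mem_primeFactors,
      Finset.coe_singleton, Set.mem_singleton_iff]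
    by_cases hh : p.Prime ∧ p ≠ 2
    · rw [if_pos hh] at hp
      refine ⟨⟨hh.1, ?_, hN0⟩, hh.2⟩
      by_contra hd
      have hd2 : ¬ p ∣ d := fun hd2 => hd (hd2.trans (dvd_mul_left _ _))
      rw [if_neg hd, if_neg hd2] at hp
      exact hp rfl
    · rw [if_neg hh] at hp
      exact absurd rfl hp

end Pool.Agent.Lib.AbcT
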