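import Mathlib
import Pool.Agent.Lib.AbcT.Red
import Pool.Agent.Lib.AbcT.Cls

/-!
# Isomorphism classes of elliptic curves over `ℚ` with full rational 2-torsion
-/

open WeierstrassCurve

namespace Pool.Agent.Lib.AbcT

/-- The isomorphism classes of elliptic curves over `ℚ` with full rational 2-torsion and with the
(isomorphism invariant) property `Q`, as orbits of the group of changes of variables. -/
def Classes (Q : WeierstrassCurve ℚ → Prop) : Set (Set (WeierstrassCurve ℚ)) :=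
  {O | ∃ E : WeierstrassCurve ℚ, E.Δ ≠ 0 ∧ FullTwo E ∧ Q E ∧
    O = MulAction.orbit (VariableChange ℚ) E}

theorem classes_eq_image (Q : WeierstrassCurve ℚ → Prop)
    (hQ : ∀ (C : VariableChange ℚ) (E : WeierstrassCurve ℚ), E.Δ ≠ 0 → (Q (C • E) ↔ Q E)) :
    Classes Q = (fun t : ℕ × ℕ × ℕ => MulAction.orbit (VariableChange ℚ) (Ec t.1 t.2.1 t.2.2)) ''
      {t | Par t.1 t.2.1 t.2.2 ∧ Q (Ec t.1 t.2.1 t.2.2)} := by
  ext O
  constructor
  · rintro ⟨E, hE, h2, hq, rfl⟩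
    obtain ⟨a, b, d, hpar, C, hC⟩ := exists_Ec hE h2
    refine ⟨(a, b, d), ⟨hpar, ?_⟩, ?_⟩
    · show Q (Ec a b d)
      rw [← hC]
      exact (hQ C E hE).mpr hq
    · show MulAction.orbit (VariableChange ℚ) (Ec a b d) = MulAction.orbit (VariableChange ℚ) E
      rw [← hC]
      exact MulAction.orbit_smul C E
  · rintro ⟨⟨a, b, d⟩, ⟨hpar, hq⟩, rfl⟩
    exact ⟨Ec a b d, Ec_disc_ne hpar, fullTwo_Ec hpar, hq, rfl⟩

theorem injOn_orbit :
    Set.InjOn (fun t : ℕ × ℕ × ℕ => MulAction.orbit (VariableChange ℚ) (Ec t.1 t.2.1 t.2.2))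
      {t | Par t.1 t.2.1 t.2.2} := by
  rintro ⟨a, b, d⟩ h ⟨a₁, b₁, d₁⟩ h₁ heq
  have hmem : Ec a₁ b₁ d₁ ∈ MulAction.orbit (VariableChange ℚ) (Ec a b d) := by
    have h2 : MulAction.orbit (VariableChange ℚ) (Ec a b d) =
      MulAction.orbit (VariableChange ℚ) (Ec a₁ b₁ d₁) := heq
    rw [h2]
    exact MulAction.mem_orbit_self _
  obtain ⟨C, hC⟩ := hmem
  obtain ⟨e1, e2, e3⟩ := Ec_inj (C := C) h h₁ hC
  exact Prod.ext e1 (Prod.ext e2 e3)

/-- The number of classes is the number of parameters. -/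
theorem ncard_classes (Q : WeierstrassCurve ℚ → Prop)
    (hQ : ∀ (C : VariableChange ℚ) (E : WeierstrassCurve ℚ), E.Δ ≠ 0 → (Q (C • E) ↔ Q E)) :
    (Classes Q).ncard =
      {t : ℕ × ℕ × ℕ | Par t.1 t.2.1 t.2.2 ∧ Q (Ec t.1 t.2.1 t.2.2)}.ncard := by
  rw [classes_eq_image Q hQ]
  exact (injOn_orbit.mono fun t ht => ht.1).ncard_image

theorem finite_classes_iff (Q : WeierstrassCurve ℚ → Prop)
    (hQ : ∀ (C : VariableChange ℚ) (E : WeierstrassCurve ℚ), E.Δ ≠ 0 → (Q (C • E) ↔ Q E)) :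
    (Classes Q).Finite ↔
      {t : ℕ × ℕ × ℕ | Par t.1 t.2.1 t.2.2 ∧ Q (Ec t.1 t.2.1 t.2.2)}.Finite := by
  rw [classes_eq_image Q hQ]
  exact Set.finite_image_iff (injOn_orbit.mono fun t ht => ht.1)

/-- The classes with odd conductor at most `X`. -/
theorem ncard_classes_cond (X : ℝ) :
    (Classes fun E => (cond E : ℝ) ≤ X).ncard =
      {t : ℕ × ℕ × ℕ | Par t.1 t.2.1 t.2.2 ∧
        ((radOdd (t.1 * t.2.1 * (t.1 + t.2.1) * t.2.2) * radOdd t.2.2 : ℕ) : ℝ) ≤ X}.ncard := by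
  rw [ncard_classes _ (fun C E hE => by rw [cond_smul C hE])]
  congr 1
  ext ⟨a, b, d⟩
  simp only [Set.mem_ofPred_eq]
  constructor
  · rintro ⟨h1, h2⟩
    refine ⟨h1, ?_⟩
    rw [cond_Ec h1] at h2
    exact h2
  · rintro ⟨h1, h2⟩
    refine ⟨h1, ?_⟩
    rw [cond_Ec h1]
    exact h2

end Pool.Agent.Lib.AbcT
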