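import Mathlib
import Pool.Agent.Lib.AbcT.CDefs

/-!
# Semistable curves, Szpiro's inequality: definitions
-/

open WeierstrassCurve

namespace Pool.Agent.Lib.AbcT

/-- `E` is semistable: good or multiplicative reduction at every prime. -/
def Semi (E : WeierstrassCurve ℚ) : Prop :=
  ∀ (p : ℕ) [Fact p.Prime], GoodAt p E ∨ MultAt p E

open Classical in
/-- The conductor of a semistable curve. -/
noncomputable def condAll (E : WeierstrassCurve ℚ) : ℕ :=
  ∏ᶠ p : ℕ, if h : p.Prime then haveI := Fact.mk h; p ^ condExp p E else 1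

/-- The condition that the curve with `d = 1` is semistable at 2. -/
def Sem (a b : ℕ) : Prop :=
  (16 ∣ b ∧ a % 4 = 3) ∨ (16 ∣ a ∧ b % 4 = 1) ∨ (16 ∣ a + b ∧ a % 4 = 1)

/-- `E` has a Weierstrass equation with integer coefficients and `|discriminant| < B`. -/
def DiscLt (E : WeierstrassCurve ℚ) (B : ℝ) : Prop :=
  ∃ (W : WeierstrassCurve ℤ) (C : VariableChange ℚ),
    C • E = W.map (Int.castRingHom ℚ) ∧ |(W.Δ : ℝ)| < B

end Pool.Agent.Lib.AbcT
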