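import Mathlib
import Pool.Agent.Lib.AbcT.Red
import Pool.Agent.Lib.AbcT.SDefs

/-!
# The reduction at 2 of the curves `y² = x (x - d a) (x + d b)`

An integral model at 2 with `a₁` even has `16 ∣ c₄`, one with `a₁` odd has `c₄` odd and `c₆ = -1` mod 4. Comparing
with `c₄ = 16 d² (a² + a b + b²)`, `Δ = 16 d⁶ (a b (a + b))²` and
`c₆ = - 32 d³ (b - a) (2 a + b) (a + 2 b)` this gives the conditions for good or multiplicative reduction.
-/

open WeierstrassCurve IsDiscreteValuationRing IsDedekindDomain.HeightOneSpectrum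

namespace Pool.Agent.Lib.AbcT

namespace Red2Aux

theorem half (x : ℤ_[2]) : (∃ y, x = 2 * y) ∨ ∃ y, x = 1 + 2 * y := by
  obtain ⟨n, hn, hx⟩ := PadicInt.exists_mem_range x
  rw [PadicInt.maximalIdeal_eq_span_p, Ideal.mem_span_singleton] at hx
  obtain ⟨y, hy⟩ := hx
  interval_cases n
  · left
    refine ⟨y, ?_⟩
    push_cast at hy
    linear_combination hy
  · right
    refine ⟨y, ?_⟩
    push_cast at hy
    linear_combination hy

theorem norm_two_mul_lt (x : ℤ_[2]) : ‖2 * x‖ < 1 := by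
  have h : ((2 : ℕ) : ℤ_[2]) ∣ 2 * x := ⟨x, by push_cast; ring⟩
  exact (PadicInt.norm_lt_one_iff_dvd _).2 h

theorem norm_odd (x : ℤ_[2]) : ‖1 + 2 * x‖ = 1 := by
  have h1 : ‖(1 : ℤ_[2])‖ = 1 := norm_one
  have h2 := norm_two_mul_lt x
  rw [PadicInt.norm_add_eq_max_of_ne (by rw [h1]; exact h2.ne'), h1, max_eq_left h2.le]

theorem c4_even (W : WeierstrassCurve ℤ_[2]) {k : ℤ_[2]} (h : W.a₁ = 2 * k) :
    ∃ m, W.c₄ = 16 * m := by
  refine ⟨(k ^ 2 + W.a₂) ^ 2 - 3 * (W.a₄ + k * W.a₃), ?_⟩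
  simp only [WeierstrassCurve.c₄, b₂, b₄, h]
  ring

theorem c4_odd (W : WeierstrassCurve ℤ_[2]) {k : ℤ_[2]} (h : W.a₁ = 1 + 2 * k) :
    ∃ m, W.c₄ = 1 + 2 * m := by
  refine ⟨4 * (k ^ 2 + k + W.a₂) + 8 * (k ^ 2 + k + W.a₂) ^ 2 - 12 * W.b₄, ?_⟩
  simp only [WeierstrassCurve.c₄, b₂, h]
  ring

theorem c6_odd (W : WeierstrassCurve ℤ_[2]) {k : ℤ_[2]} (h : W.a₁ = 1 + 2 * k) :
    ∃ m, W.c₆ = -1 + 4 * m := by
  refine ⟨-(3 * (k ^ 2 + k + W.a₂) + 12 * (k ^ 2 + k + W.a₂) ^ 2 +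
    16 * (k ^ 2 + k + W.a₂) ^ 3) + 9 * W.b₂ * W.b₄ - 54 * W.b₆, ?_⟩
  have e : W.b₂ = 1 + 4 * (k ^ 2 + k + W.a₂) := by
    simp only [b₂, h]
    ring
  simp only [WeierstrassCurve.c₆]
  rw [e]
  ring

theorem val16' : padicValNat 2 16 = 4 := by
  rw [show (16 : ℕ) = 2 ^ 4 by norm_num]
  exact padicValNat.prime_pow 4

theorem two_dvd_N {a b : ℕ} : 2 ∣ a * b * (a + b) := by
  rcases Nat.even_or_odd a with ha | ha
  · exact (ha.two_dvd.mul_right b).mul_right _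
  · rcases Nat.even_or_odd b with hb | hb
    · exact (hb.two_dvd.mul_left a).mul_right _
    · exact (ha.add_odd hb).two_dvd.mul_left _

theorem val_d_le {d : ℕ} (hd : Squarefree d) : padicValNat 2 d ≤ 1 := by
  by_cases h : 2 ∣ d
  · exact (val_squarefree 2 hd h).le
  · rw [padicValNat.eq_zero_of_not_dvd h]
    exact Nat.zero_le _

theorem val_disc2 {a b d : ℕ} (h : Par a b d) :
    ((Ec a b d).map (algebraMap ℚ ℚ_[2])).Δ.valuation =
      4 + 6 * (padicValNat 2 d : ℤ) + 2 * (padicValNat 2 (a * b * (a + b)) : ℤ) := by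
  have hd := h.d_ne
  have hN := h.N_ne
  rw [disc_Ec_padic, Padic.valuation_natCast, padicValNat.mul (by positivity) (by positivity),
    padicValNat.mul (by norm_num) (by positivity), padicValNat.pow, padicValNat.pow, val16']
  push_cast
  ring

theorem val_c42 {a b d : ℕ} (h : Par a b d) :
    ((Ec a b d).map (algebraMap ℚ ℚ_[2])).c₄.valuation = 4 + 2 * (padicValNat 2 d : ℤ) := by
  have hd := h.d_ne
  have hQ := h.Q_ne
  rw [c4_Ec_padic, Padic.valuation_natCast, padicValNat.mul (by positivity) hQ,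
    padicValNat.mul (by norm_num) (by positivity), padicValNat.pow, val16',
    padicValNat.eq_zero_of_not_dvd (not_dvd_Q 2 h.2.2.1 two_dvd_N)]
  push_cast
  ring

theorem c6_Ec_padic (a b d : ℕ) :
    ((Ec a b d).map (algebraMap ℚ ℚ_[2])).c₆ =
      ((-32 * ((d : ℤ) ^ 3 * (((b : ℤ) - a) * (2 * a + b) * (a + 2 * b))) : ℤ) : ℚ_[2]) := by
  rw [map_c₆]
  have : (Ec a b d).c₆ =
      ((-32 * ((d : ℤ) ^ 3 * (((b : ℤ) - a) * (2 * a + b) * (a + 2 * b))) : ℤ) : ℚ) := by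
    simp only [WeierstrassCurve.c₆, b₂, b₄, b₆, Ec]
    push_cast
    ring
  rw [this, map_intCast]

theorem val_smul2 (W : WeierstrassCurve ℚ_[2]) (C : VariableChange ℚ_[2]) (hD : W.Δ ≠ 0)
    (hc : W.c₄ ≠ 0) : (C • W).Δ ≠ 0 ∧ (C • W).c₄ ≠ 0 ∧
      (C • W).Δ.valuation = W.Δ.valuation - 12 * (C.u : ℚ_[2]).valuation ∧
      (C • W).c₄.valuation = W.c₄.valuation - 4 * (C.u : ℚ_[2]).valuation := by
  refine ⟨?_, ?_, ?_, ?_⟩
  · rw [variableChange_Δ]
    exact mul_ne_zero (pow_ne_zero _ (Units.ne_zero _)) hD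
  · rw [variableChange_c₄]
    exact mul_ne_zero (pow_ne_zero _ (Units.ne_zero _)) hc
  · rw [variableChange_Δ, Padic.valuation_mul (pow_ne_zero _ (Units.ne_zero _)) hD,
      Padic.valuation_pow, Units.val_inv_eq_inv_val, Padic.valuation_inv]
    push_cast
    ring
  · rw [variableChange_c₄, Padic.valuation_mul (pow_ne_zero _ (Units.ne_zero _)) hc,
      Padic.valuation_pow, Units.val_inv_eq_inv_val, Padic.valuation_inv]
    push_cast
    ring

theorem four_le_val {x : ℚ_[2]} (hx : x ≠ 0) {m : ℤ_[2]} (h : x = ((16 * m : ℤ_[2]) : ℚ_[2])) :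
    4 ≤ x.valuation := by
  have h1 : x = ((16 : ℕ) : ℚ_[2]) * (m : ℚ_[2]) := by
    rw [h, PadicInt.coe_mul]
    congr 1
  have hm : (m : ℚ_[2]) ≠ 0 := by
    intro h0
    rw [h0, mul_zero] at h1
    exact hx h1
  have h16 : ((16 : ℕ) : ℚ_[2]) ≠ 0 := by
    exact_mod_cast (by norm_num : (16 : ℕ) ≠ 0)
  have h2 : 0 ≤ (m : ℚ_[2]).valuation := (Padic.norm_le_one_iff_val_nonneg _).1 m.2
  rw [h1, Padic.valuation_mul h16 hm, Padic.valuation_natCast, val16']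
  push_cast
  omega

/-- The analysis of an integral model with good or multiplicative reduction. -/
theorem key {a b d : ℕ} (h : Par a b d) (C : VariableChange ℚ_[2])
    (hC : IsIntegral ℤ_[2] (C • ((Ec a b d).map (algebraMap ℚ ℚ_[2]))))
    (hs : ‖(C • ((Ec a b d).map (algebraMap ℚ ℚ_[2]))).Δ‖ = 1 ∨
      ‖(C • ((Ec a b d).map (algebraMap ℚ ℚ_[2]))).c₄‖ = 1) :
    (C.u : ℚ_[2]).valuation = 1 ∧ padicValNat 2 d = 0 ∧
      ∃ m : ℤ_[2], (C • ((Ec a b d).map (algebraMap ℚ ℚ_[2]))).c₆ = ((-1 + 4 * m : ℤ_[2]) : ℚ_[2]) := by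
  obtain ⟨h1, h2, h3, h4⟩ := val_smul2 _ C (disc_map_ne 2 h) (c4_map_ne 2 h)
  rw [val_disc2 h] at h3
  rw [val_c42 h] at h4
  have hd := val_d_le h.2.2.2
  have hN : 1 ≤ padicValNat 2 (a * b * (a + b)) := one_le_padicValNat_of_dvd h.N_ne two_dvd_N
  rw [norm_eq_one_iff_val 2 h1, norm_eq_one_iff_val 2 h2] at hs
  obtain ⟨W, hW⟩ := hC.integral
  have hc4 : (C • ((Ec a b d).map (algebraMap ℚ ℚ_[2]))).c₄ = ((W.c₄ : ℤ_[2]) : ℚ_[2]) := by
    rw [hW, baseChange, map_c₄]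
    rfl
  have hc6 : (C • ((Ec a b d).map (algebraMap ℚ ℚ_[2]))).c₆ = ((W.c₆ : ℤ_[2]) : ℚ_[2]) := by
    rw [hW, baseChange, map_c₆]
    rfl
  rcases half W.a₁ with ⟨k, hk⟩ | ⟨k, hk⟩
  · exfalso
    obtain ⟨m, hm⟩ := c4_even W hk
    have h5 := four_le_val h2 (m := m) (by rw [hc4, hm])
    omega
  · obtain ⟨m, hm⟩ := c4_odd W hk
    have h5 : ‖(C • ((Ec a b d).map (algebraMap ℚ ℚ_[2]))).c₄‖ = 1 := by
      rw [hc4, hm]
      exact norm_odd m
    rw [norm_eq_one_iff_val 2 h2] at h5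
    obtain ⟨m', hm'⟩ := c6_odd W hk
    exact ⟨by omega, by omega, m', by rw [hc6, hm']⟩

theorem dvd_of_key {a b d : ℕ} (h : Par a b d) (C : VariableChange ℚ_[2])
    (hC : IsIntegral ℤ_[2] (C • ((Ec a b d).map (algebraMap ℚ ℚ_[2]))))
    (hs : ‖(C • ((Ec a b d).map (algebraMap ℚ ℚ_[2]))).Δ‖ = 1 ∨
      ‖(C • ((Ec a b d).map (algebraMap ℚ ℚ_[2]))).c₄‖ = 1) :
    ¬ 2 ∣ d ∧ 16 ∣ a * b * (a + b) ∧
      (8 : ℤ) ∣ (d : ℤ) ^ 3 * (((b : ℤ) - a) * (2 * a + b) * (a + 2 * b)) - 2 := by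
  obtain ⟨h1, h2, m, hm⟩ := key h C hC hs
  refine ⟨?_, ?_, ?_⟩
  · intro h3
    have := one_le_padicValNat_of_dvd h.d_ne h3
    omega
  · have h3 := (val_nonneg_of_integral 2 hC).1
    obtain ⟨-, -, h4, -⟩ := val_smul2 _ C (disc_map_ne 2 h) (c4_map_ne 2 h)
    rw [val_disc2 h] at h4
    have h5 : 4 ≤ padicValNat 2 (a * b * (a + b)) := by omega
    rw [show (16 : ℕ) = 2 ^ 4 by norm_num]
    exact (padicValNat_dvd_iff_le h.N_ne).2 h5
  · -- the unit `u / 2`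
    have hu0 : (C.u : ℚ_[2]) ≠ 0 := Units.ne_zero _
    have h20 : (2 : ℚ_[2]) ≠ 0 := by
      exact_mod_cast (by norm_num : (2 : ℕ) ≠ 0)
    have hv2 : (2 : ℚ_[2]).valuation = 1 := by
      have : (2 : ℚ_[2]) = ((2 : ℕ) : ℚ_[2]) := by norm_cast
      rw [this, Padic.valuation_natCast, padicValNat_self]
      rfl
    have he0 : (C.u : ℚ_[2]) * (2 : ℚ_[2])⁻¹ ≠ 0 := mul_ne_zero hu0 (inv_ne_zero h20)
    have he : ‖(C.u : ℚ_[2]) * (2 : ℚ_[2])⁻¹‖ = 1 := by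
      rw [norm_eq_one_iff_val 2 he0, Padic.valuation_mul hu0 (inv_ne_zero h20),
        Padic.valuation_inv, h1, hv2]
      norm_num
    obtain ⟨e, hedef⟩ : ∃ e : ℤ_[2], (e : ℚ_[2]) = (C.u : ℚ_[2]) * (2 : ℚ_[2])⁻¹ :=
      ⟨⟨_, he.le⟩, rfl⟩
    have hu : (C.u : ℚ_[2]) = 2 * (e : ℚ_[2]) := by
      rw [hedef]
      field_simp
    obtain ⟨y, hy⟩ : ∃ y, e = 1 + 2 * y := by
      rcases half e with ⟨y, hy⟩ | hy
      · exfalso
        have h3 : ‖e‖ = 1 := by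
          rw [PadicInt.norm_def, hedef]
          exact he
        rw [hy] at h3
        exact absurd h3 (norm_two_mul_lt y).ne
      · exact hy
    rw [variableChange_c₆, c6_Ec_padic, Units.val_inv_eq_inv_val] at hm
    have h6 : ((-32 * ((d : ℤ) ^ 3 * (((b : ℤ) - a) * (2 * a + b) * (a + 2 * b))) : ℤ) : ℚ_[2]) =
        (C.u : ℚ_[2]) ^ 6 * ((-1 + 4 * m : ℤ_[2]) : ℚ_[2]) := by
      rw [← hm, inv_pow, mul_inv_cancel_left₀ (pow_ne_zero _ hu0)]
    rw [hu] at h6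
    have h7 : ((-32 * ((d : ℤ) ^ 3 * (((b : ℤ) - a) * (2 * a + b) * (a + 2 * b))) : ℤ) : ℤ_[2]) =
        (2 * e) ^ 6 * (-1 + 4 * m) := by
      apply Subtype.coe_injective
      push_cast at h6 ⊢
      exact h6
    have h32 : (32 : ℤ_[2]) ≠ 0 := by
      exact_mod_cast (by norm_num : (32 : ℕ) ≠ 0)
    have h8 : (((d : ℤ) ^ 3 * (((b : ℤ) - a) * (2 * a + b) * (a + 2 * b)) - 2 : ℤ) : ℤ_[2]) =
        (2 : ℤ_[2]) ^ 3 * (-m + (y ^ 2 + y) * (3 + 12 * (y ^ 2 + y) + 16 * (y ^ 2 + y) ^ 2) * (1 - 4 * m)) := by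
      apply mul_left_cancel₀ h32
      have h9 : (32 : ℤ_[2]) * (((d : ℤ) ^ 3 * (((b : ℤ) - a) * (2 * a + b) * (a + 2 * b)) - 2 : ℤ) : ℤ_[2]) =
          -(((-32 * ((d : ℤ) ^ 3 * (((b : ℤ) - a) * (2 * a + b) * (a + 2 * b))) : ℤ) : ℤ_[2])) - 64 := by
        push_cast
        ring
      rw [h9, h7, hy]
      ring
    have h10 : ((2 : ℕ) : ℤ_[2]) ^ 3 ∣
        (((d : ℤ) ^ 3 * (((b : ℤ) - a) * (2 * a + b) * (a + 2 * b)) - 2 : ℤ) : ℤ_[2]) :=
      ⟨(-m + (y ^ 2 + y) * (3 + 12 * (y ^ 2 + y) + 16 * (y ^ 2 + y) ^ 2) * (1 - 4 * m)), by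
        rw [h8]; push_cast; ring⟩
    have h11 := (PadicInt.pow_p_dvd_int_iff 3 _).1 h10
    norm_num at h11
    exact h11

theorem arith {a b : ℕ} (hab : a.Coprime b) (h16 : 16 ∣ a * b * (a + b))
    (h8 : (8 : ℤ) ∣ ((b : ℤ) - a) * (2 * a + b) * (a + 2 * b) - 2) : Sem a b := by
  have hz : (((b : ZMod 8) - a) * (2 * a + b) * (a + 2 * b) - 2 : ZMod 8) = 0 := by
    have := (ZMod.intCast_zmod_eq_zero_iff_dvd
      (((b : ℤ) - a) * (2 * a + b) * (a + 2 * b) - 2) 8).2 (by exact_mod_cast h8)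
    push_cast at this
    exact this
  have hcase : 16 ∣ b ∨ 16 ∣ a ∨ 16 ∣ a + b := by
    rcases Nat.even_or_odd a with ha | ha
    · right; left
      have hb : Odd b := by
        rw [← Nat.not_even_iff_odd]
        intro hb
        have := Nat.dvd_gcd ha.two_dvd hb.two_dvd
        rw [hab] at this
        omega
      have h1 : Nat.Coprime 16 (b * (a + b)) := by
        rw [show (16 : ℕ) = 2 ^ 4 by norm_num]
        exact Nat.Coprime.pow_left _ ((Nat.coprime_two_left).2 (hb.mul (ha.add_odd hb)))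
      rw [mul_assoc] at h16
      exact h1.dvd_of_dvd_mul_right h16
    · rcases Nat.even_or_odd b with hb | hb
      · left
        have h1 : Nat.Coprime 16 (a * (a + b)) := by
          rw [show (16 : ℕ) = 2 ^ 4 by norm_num]
          exact Nat.Coprime.pow_left _ ((Nat.coprime_two_left).2 (ha.mul (ha.add_even hb)))
        have h2 : a * b * (a + b) = b * (a * (a + b)) := by ring
        rw [h2] at h16
        exact h1.dvd_of_dvd_mul_right h16
      · right; right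
        have h1 : Nat.Coprime 16 (a * b) := by
          rw [show (16 : ℕ) = 2 ^ 4 by norm_num]
          exact Nat.Coprime.pow_left _ ((Nat.coprime_two_left).2 (ha.mul hb))
        exact h1.dvd_of_dvd_mul_left h16
  have hcast : ∀ {n : ℕ}, 16 ∣ n → (n : ZMod 8) = 0 := by
    intro n hn
    rw [ZMod.natCast_eq_zero_iff]
    exact (by norm_num : 8 ∣ 16).trans hn
  rcases hcase with h | h | h
  · left
    refine ⟨h, ?_⟩
    have key : ∀ x y : ZMod 8, y = 0 → (y - x) * (2 * x + y) * (x + 2 * y) - 2 = 0 →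
        x = 3 ∨ x = 7 := by decide
    rcases key a b (hcast h) hz with h1 | h1
    · have h2 := (ZMod.natCast_eq_natCast_iff' a 3 8).1 (by exact_mod_cast h1)
      omega
    · have h2 := (ZMod.natCast_eq_natCast_iff' a 7 8).1 (by exact_mod_cast h1)
      omega
  · right; left
    refine ⟨h, ?_⟩
    have key : ∀ x y : ZMod 8, x = 0 → (y - x) * (2 * x + y) * (x + 2 * y) - 2 = 0 →
        y = 1 ∨ y = 5 := by decide
    rcases key a b (hcast h) hz with h1 | h1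
    · have h2 := (ZMod.natCast_eq_natCast_iff' b 1 8).1 (by exact_mod_cast h1)
      omega
    · have h2 := (ZMod.natCast_eq_natCast_iff' b 5 8).1 (by exact_mod_cast h1)
      omega
  · right; right
    refine ⟨h, ?_⟩
    have key : ∀ x y : ZMod 8, x + y = 0 → (y - x) * (2 * x + y) * (x + 2 * y) - 2 = 0 →
        x = 1 ∨ x = 5 := by decide
    have h0 : (a : ZMod 8) + b = 0 := by
      have := hcast h
      push_cast at this
      exact this
    rcases key a b h0 hz with h1 | h1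
    · have h2 := (ZMod.natCast_eq_natCast_iff' a 1 8).1 (by exact_mod_cast h1)
      omega
    · have h2 := (ZMod.natCast_eq_natCast_iff' a 5 8).1 (by exact_mod_cast h1)
      omega

theorem two_ne : (2 : ℚ_[2]) ≠ 0 := by
  exact_mod_cast (by norm_num : (2 : ℕ) ≠ 0)

/-- The change of variables `x = 4 x' + r`, `y = 8 y' + 4 x'`. -/
noncomputable def Cr (r : ℤ) : VariableChange ℚ_[2] := ⟨Units.mk0 2 two_ne, r, 1, 0⟩

theorem integral_C {a b : ℕ} (r k2 k4 : ℤ) (h2 : 4 * k2 = b - a + 3 * r - 1)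
    (h4 : 16 * k4 = -(a * b) + 2 * r * (b - a) + 3 * r ^ 2)
    (h6 : -(r * a * b) + r ^ 2 * (b - a) + r ^ 3 = 0) :
    IsIntegral ℤ_[2] (Cr r • ((Ec a b 1).map (algebraMap ℚ ℚ_[2]))) := by
  have h20 := two_ne
  have e2 : (4 : ℚ_[2]) * k2 = b - a + 3 * r - 1 := by exact_mod_cast congrArg (Int.cast : ℤ → ℚ_[2]) h2
  have e4 : (16 : ℚ_[2]) * k4 = -(a * b) + 2 * r * (b - a) + 3 * r ^ 2 := by
    exact_mod_cast congrArg (Int.cast : ℤ → ℚ_[2]) h4
  have e6 : (-(r * a * b) + r ^ 2 * (b - a) + r ^ 3 : ℚ_[2]) = 0 := by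
    exact_mod_cast congrArg (Int.cast : ℤ → ℚ_[2]) h6
  apply isIntegral_of_exists_lift ℤ_[2]
  · refine ⟨1, ?_⟩
    rw [variableChange_a₁]
    simp only [Cr, Ec, map_one, map_a₁, map_zero, zero_add, mul_one, Units.val_inv_eq_inv_val,
      Units.val_mk0]
    field_simp
  · refine ⟨(k2 : ℤ_[2]), ?_⟩
    rw [variableChange_a₂]
    simp only [Cr, Ec, map_intCast, map_a₁, map_a₂, map_zero, Units.val_inv_eq_inv_val,
      Units.val_mk0, map_mul, map_sub, map_natCast, Nat.cast_one, one_mul, map_one]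
    field_simp
    linear_combination e2
  · refine ⟨0, ?_⟩
    rw [variableChange_a₃]
    simp [Cr, Ec]
  · refine ⟨(k4 : ℤ_[2]), ?_⟩
    rw [variableChange_a₄]
    simp only [Cr, Ec, map_intCast, map_a₁, map_a₂, map_a₃, map_a₄, map_zero,
      Units.val_inv_eq_inv_val, Units.val_mk0, map_mul, map_sub, map_neg, map_pow, map_natCast,
      Nat.cast_one, one_mul, map_one, one_pow]
    field_simp
    linear_combination e4
  · refine ⟨0, ?_⟩
    rw [variableChange_a₆]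
    simp only [Cr, Ec, map_a₁, map_a₂, map_a₃, map_a₄, map_a₆, map_zero,
      Units.val_inv_eq_inv_val, Units.val_mk0, map_mul, map_sub, map_neg, map_pow, map_natCast,
      Nat.cast_one, one_mul, map_one, one_pow]
    have : (0 + (r : ℚ_[2]) * -(a * b) + (r : ℚ_[2]) ^ 2 * (b - a) + (r : ℚ_[2]) ^ 3 - 0 * 0 - 0 ^ 2 -
        r * 0 * 0 : ℚ_[2]) = 0 := by linear_combination e6
    rw [this, mul_zero]

theorem exists_C {a b : ℕ} (hs : Sem a b) :
    ∃ C : VariableChange ℚ_[2], (C.u : ℚ_[2]).valuation = 1 ∧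
      IsIntegral ℤ_[2] (C • ((Ec a b 1).map (algebraMap ℚ ℚ_[2]))) := by
  have hv : ∀ r : ℤ, ((Cr r).u : ℚ_[2]).valuation = 1 := by
    intro r
    have : ((Cr r).u : ℚ_[2]) = ((2 : ℕ) : ℚ_[2]) := by
      simp [Cr]
    rw [this, Padic.valuation_natCast, padicValNat_self]
    rfl
  rcases hs with ⟨⟨t, ht⟩, h2⟩ | ⟨⟨t, ht⟩, h2⟩ | ⟨⟨t, ht⟩, h2⟩
  · refine ⟨Cr 0, hv 0, integral_C 0 (((b : ℤ) - a - 1) / 4) (-(a * t)) ?_ ?_ ?_⟩
    · omega
    · rw [ht]
      push_cast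
      ring
    · ring
  · refine ⟨Cr 0, hv 0, integral_C 0 (((b : ℤ) - a - 1) / 4) (-(t * b)) ?_ ?_ ?_⟩
    · omega
    · rw [ht]
      push_cast
      ring
    · ring
  · refine ⟨Cr a, hv a, integral_C a (((b : ℤ) - a + 3 * a - 1) / 4) (a * t) ?_ ?_ ?_⟩
    · omega
    · have : (a : ℤ) + b = 16 * t := by exact_mod_cast ht
      linear_combination (-(a : ℤ)) * this
    · ring

theorem sixteen_dvd {a b : ℕ} (hs : Sem a b) : 16 ∣ a * b * (a + b) := by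
  rcases hs with ⟨h, -⟩ | ⟨h, -⟩ | ⟨h, -⟩
  · exact (h.mul_left a).mul_right _
  · exact (h.mul_right b).mul_right _
  · exact h.mul_left _

theorem good_of_sem {a b : ℕ} (h : Par a b 1) (hs : Sem a b) (h32 : ¬ 32 ∣ a * b * (a + b)) :
    GoodAt 2 (Ec a b 1) := by
  obtain ⟨C, hu, hC⟩ := exists_C hs
  obtain ⟨h1, h2, h3, h4⟩ := val_smul2 _ C (disc_map_ne 2 h) (c4_map_ne 2 h)
  rw [goodAt_iff']
  refine ⟨C, hC, ?_⟩
  rw [norm_eq_one_iff_val 2 h1, h3, val_disc2 h, hu]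
  have h5 : 4 ≤ padicValNat 2 (a * b * (a + b)) := by
    rw [← padicValNat_dvd_iff_le h.N_ne]
    exact (by norm_num : 2 ^ 4 ∣ 16).trans (sixteen_dvd hs)
  have h6 : ¬ 5 ≤ padicValNat 2 (a * b * (a + b)) := by
    rw [← padicValNat_dvd_iff_le h.N_ne]
    intro h7
    exact h32 ((by norm_num : 32 ∣ 2 ^ 5).trans h7)
  have h7 : padicValNat 2 1 = 0 := padicValNat.one
  omega

theorem mult_of_sem {a b : ℕ} (h : Par a b 1) (hs : Sem a b) (h32 : 32 ∣ a * b * (a + b)) :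
    MultAt 2 (Ec a b 1) := by
  obtain ⟨C, hu, hC⟩ := exists_C hs
  obtain ⟨h1, h2, h3, h4⟩ := val_smul2 _ C (disc_map_ne 2 h) (c4_map_ne 2 h)
  have h6 : 5 ≤ padicValNat 2 (a * b * (a + b)) := by
    rw [← padicValNat_dvd_iff_le h.N_ne]
    exact (by norm_num : 2 ^ 5 ∣ 32).trans h32
  have h7 : padicValNat 2 1 = 0 := padicValNat.one
  rw [multAt_iff' 2 (disc_Ec_ne h)]
  refine ⟨C, hC, ?_, ?_⟩
  · rw [norm_lt_one_iff_val 2 h1, h3, val_disc2 h, hu]
    omega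
  · rw [norm_eq_one_iff_val 2 h2, h4, val_c42 h, hu]
    omega

end Red2Aux

open Red2Aux

/-- Good or multiplicative reduction at 2 forces `d` odd. -/
theorem not_two_dvd_of_semistable {a b d : ℕ} (h : Par a b d)
    (hs : GoodAt 2 (Ec a b d) ∨ MultAt 2 (Ec a b d)) : ¬ 2 ∣ d := by
  rcases hs with hg | hm
  · rw [goodAt_iff'] at hg
    obtain ⟨C, hC, hD⟩ := hg
    exact (dvd_of_key h C hC (Or.inl hD)).1
  · rw [multAt_iff' 2 (disc_Ec_ne h)] at hm
    obtain ⟨C, hC, -, hc⟩ := hm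
    exact (dvd_of_key h C hC (Or.inr hc)).1

/-- Semistability at 2. -/
theorem semistable_two_iff {a b : ℕ} (h : Par a b 1) :
    (GoodAt 2 (Ec a b 1) ∨ MultAt 2 (Ec a b 1)) ↔ Sem a b := by
  constructor
  · intro hs
    have key : ∃ C : VariableChange ℚ_[2],
        IsIntegral ℤ_[2] (C • ((Ec a b 1).map (algebraMap ℚ ℚ_[2]))) ∧
        (‖(C • ((Ec a b 1).map (algebraMap ℚ ℚ_[2]))).Δ‖ = 1 ∨
          ‖(C • ((Ec a b 1).map (algebraMap ℚ ℚ_[2]))).c₄‖ = 1) := by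
      rcases hs with hg | hm
      · rw [goodAt_iff'] at hg
        obtain ⟨C, hC, hD⟩ := hg
        exact ⟨C, hC, Or.inl hD⟩
      · rw [multAt_iff' 2 (disc_Ec_ne h)] at hm
        obtain ⟨C, hC, -, hc⟩ := hm
        exact ⟨C, hC, Or.inr hc⟩
    obtain ⟨C, hC, hs⟩ := key
    obtain ⟨-, h16, h8⟩ := dvd_of_key h C hC hs
    refine arith h.2.2.1 h16 ?_
    rw [Nat.cast_one, one_pow, one_mul] at h8
    exact h8
  · intro hs
    by_cases h32 : 32 ∣ a * b * (a + b)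
    · exact Or.inr (mult_of_sem h hs h32)
    · exact Or.inl (good_of_sem h hs h32)

/-- Good reduction at 2. -/
theorem good_two_iff {a b : ℕ} (h : Par a b 1) (hs : Sem a b) :
    GoodAt 2 (Ec a b 1) ↔ ¬ 32 ∣ a * b * (a + b) := by
  constructor
  · intro hg h32
    exact not_good_of_mult 2 (mult_of_sem h hs h32) hg
  · exact good_of_sem h hs

end Pool.Agent.Lib.AbcT
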