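import Mathlib
import Pool.Agent.Lib.AbcT.SDefs
import Pool.Agent.Lib.AbcT.Cls
import Pool.Agent.Lib.AbcT.Red
import Pool.Agent.Lib.AbcT.Red2
import Pool.Agent.Lib.AbcT.Orb
import Pool.Agent.Lib.AbcG.Defs

/-!
# From isomorphism classes of curves to triples
-/

open WeierstrassCurve

namespace Pool.Agent.Lib.AbcT

/-! ### Semistable curves -/

theorem semi_Ec {a b d : ℕ} (h : Par a b d) : Semi (Ec a b d) ↔ d = 1 ∧ Sem a b := by
  constructor
  · intro hs
    have hd : d = 1 := by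
      by_contra hd1
      obtain ⟨p, hp, hpd⟩ := Nat.exists_prime_and_dvd hd1
      by_cases hp2 : p = 2
      · subst hp2
        exact not_two_dvd_of_semistable h (hs 2) hpd
      · have := Fact.mk hp
        rcases hs p with hg | hm
        · exact (goodAt_Ec p h hp2).mp hg (hpd.trans (dvd_mul_left _ _))
        · exact ((multAt_Ec p h hp2).mp hm).2 hpd
    subst hd
    exact ⟨rfl, (semistable_two_iff h).mp (hs 2)⟩
  · rintro ⟨rfl, hs⟩ p hp
    by_cases hp2 : p = 2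
    · subst hp2
      exact (semistable_two_iff h).mpr hs
    · by_cases hN : p ∣ a * b * (a + b)
      · right
        exact (multAt_Ec p h hp2).mpr ⟨hN, fun h1 => hp.out.one_lt.ne' (Nat.dvd_one.mp h1)⟩
      · left
        rw [goodAt_Ec p h hp2, mul_one]
        exact hN

theorem pow_condExp_all {a b : ℕ} (h : Par a b 1) (hs : Sem a b) (p : ℕ) [hp : Fact p.Prime] :
    p ^ condExp p (Ec a b 1) = if p ∣ a * b * (a + b) / 16 then p else 1 := by
  have h16 : 16 ∣ a * b * (a + b) := by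
    rcases hs with ⟨h1, -⟩ | ⟨h1, -⟩ | ⟨h1, -⟩
    · exact (h1.mul_left a).mul_right _
    · exact (h1.mul_right b).mul_right _
    · exact h1.mul_left _
  obtain ⟨m, hm⟩ := h16
  have hdiv : a * b * (a + b) / 16 = m := by rw [hm]; exact Nat.mul_div_cancel_left m (by norm_num)
  rw [hdiv]
  by_cases hp2 : p = 2
  · subst hp2
    have hg := good_two_iff h hs
    have h32 : 32 ∣ a * b * (a + b) ↔ 2 ∣ m := by
      rw [hm]; omega
    have hss := (semistable_two_iff h).mpr hs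
    unfold condExp
    by_cases h2 : 2 ∣ m
    · have hng : ¬ GoodAt 2 (Ec a b 1) := by
        rw [hg, h32, not_not]; exact h2
      have hmu : MultAt 2 (Ec a b 1) := hss.resolve_left hng
      rw [if_neg hng, if_pos hmu, if_pos h2, pow_one]
    · have hgo : GoodAt 2 (Ec a b 1) := by
        rw [hg, h32]; exact h2
      rw [if_pos hgo, if_neg h2, pow_zero]
  · rw [pow_condExp_Ec p h hp2, mul_one]
    have h1 : ¬ p ∣ 1 := fun h1 => hp.out.one_lt.ne' (Nat.dvd_one.mp h1)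
    rw [if_neg h1, mul_one]
    have hiff : p ∣ a * b * (a + b) ↔ p ∣ m := by
      rw [hm, hp.out.dvd_mul]
      constructor
      · rintro (h3 | h3)
        · exfalso
          have h4 : p ∣ 2 ^ 4 := by simpa using h3
          exact hp2 ((Nat.prime_dvd_prime_iff_eq hp.out Nat.prime_two).mp
            (hp.out.dvd_of_dvd_pow h4))
        · exact h3
      · exact Or.inr
    simp only [hiff]

theorem condAll_Ec {a b : ℕ} (h : Par a b 1) (hs : Sem a b) :
    condAll (Ec a b 1) = AbcG.rad (a * b * (a + b) / 16) := by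
  classical
  have h16 : 16 ∣ a * b * (a + b) := by
    rcases hs with ⟨h1, -⟩ | ⟨h1, -⟩ | ⟨h1, -⟩
    · exact (h1.mul_left a).mul_right _
    · exact (h1.mul_right b).mul_right _
    · exact h1.mul_left _
  have hN0 : a * b * (a + b) ≠ 0 := h.N_ne
  have hm0 : a * b * (a + b) / 16 ≠ 0 := by
    obtain ⟨m, hm⟩ := h16
    rw [hm, Nat.mul_div_cancel_left m (by norm_num)]
    rintro rfl
    exact hN0 (by rw [hm])
  have hf : ∀ p : ℕ, (if hh : p.Prime then
      haveI := Fact.mk hh; p ^ condExp p (Ec a b 1) else 1) =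
      if p.Prime then (if p ∣ a * b * (a + b) / 16 then p else 1) else 1 := by
    intro p
    by_cases hh : p.Prime
    · rw [dif_pos hh, if_pos hh]
      have := Fact.mk hh
      exact pow_condExp_all h hs p
    · rw [dif_neg hh, if_neg hh]
  unfold condAll
  rw [finprod_congr hf]
  rw [finprod_eq_prod_of_mulSupport_subset (s := (a * b * (a + b) / 16).primeFactors)]
  · unfold AbcG.rad
    refine Finset.prod_congr rfl fun p hp => ?_
    rw [Nat.mem_primeFactors] at hp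
    rw [if_pos hp.1, if_pos hp.2.1]
  · intro p hp
    rw [Function.mem_mulSupport] at hp
    rw [Finset.mem_coe, Nat.mem_primeFactors]
    by_cases hh : p.Prime
    · rw [if_pos hh] at hp
      refine ⟨hh, ?_, hm0⟩
      by_contra hd
      rw [if_neg hd] at hp
      exact hp rfl
    · rw [if_neg hh] at hp
      exact absurd rfl hp

theorem condAll_smul (C : VariableChange ℚ) {E : WeierstrassCurve ℚ} (hE : E.Δ ≠ 0) :
    condAll (C • E) = condAll E := by
  unfold condAll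
  refine finprod_congr fun p => ?_
  split_ifs with h
  · have := Fact.mk h
    rw [condExp_smul p C hE]
  · rfl

theorem semi_smul (C : VariableChange ℚ) {E : WeierstrassCurve ℚ} (hE : E.Δ ≠ 0) :
    Semi (C • E) ↔ Semi E := by
  unfold Semi
  constructor
  · intro h p hp
    rcases h p with h1 | h1
    · exact Or.inl ((goodAt_smul p C E).mp h1)
    · exact Or.inr ((multAt_smul p C hE).mp h1)
  · intro h p hp
    rcases h p with h1 | h1
    · exact Or.inl ((goodAt_smul p C E).mpr h1)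
    · exact Or.inr ((multAt_smul p C hE).mpr h1)

/-- The classes of semistable curves with conductor at most `X`. -/
theorem ncard_classes_semi (X : ℝ) :
    (Classes fun E => Semi E ∧ (condAll E : ℝ) ≤ X).ncard =
      {t : ℕ × ℕ | (0 < t.1 ∧ 0 < t.2 ∧ t.1.Coprime t.2) ∧ Sem t.1 t.2 ∧
        (AbcG.rad (AbcG.Nn t / 16) : ℝ) ≤ X}.ncard := by
  rw [ncard_classes _ (fun C E hE => by rw [semi_smul C hE, condAll_smul C hE])]
  have h : {t : ℕ × ℕ × ℕ | Par t.1 t.2.1 t.2.2 ∧ (Semi (Ec t.1 t.2.1 t.2.2) ∧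
      (condAll (Ec t.1 t.2.1 t.2.2) : ℝ) ≤ X)} =
      (fun t : ℕ × ℕ => (t.1, t.2, 1)) '' {t : ℕ × ℕ | (0 < t.1 ∧ 0 < t.2 ∧ t.1.Coprime t.2) ∧
        Sem t.1 t.2 ∧ (AbcG.rad (AbcG.Nn t / 16) : ℝ) ≤ X} := by
    ext ⟨a, b, d⟩
    constructor
    · rintro ⟨hpar, hs, hX⟩
      obtain ⟨hd, hsem⟩ := (semi_Ec hpar).mp hs
      have hd' : d = 1 := hd
      subst hd'
      refine ⟨(a, b), ⟨⟨hpar.1, hpar.2.1, hpar.2.2.1⟩, hsem, ?_⟩, rfl⟩
      have h1 : condAll (Ec a b 1) = AbcG.rad (a * b * (a + b) / 16) := condAll_Ec hpar hsem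
      show (AbcG.rad (a * b * (a + b) / 16) : ℝ) ≤ X
      rw [← h1]
      exact hX
    · rintro ⟨⟨a', b'⟩, ⟨⟨h1, h2, h3⟩, hsem, hX⟩, heq⟩
      have e1 : a' = a := congrArg Prod.fst heq
      have e2 : b' = b := congrArg (fun t => t.2.1) heq
      have e3 : 1 = d := congrArg (fun t => t.2.2) heq
      subst e1 e2 e3
      have hpar : Par a' b' 1 := ⟨h1, h2, h3, squarefree_one⟩
      refine ⟨hpar, (semi_Ec hpar).mpr ⟨rfl, hsem⟩, ?_⟩
      have h1 : condAll (Ec a' b' 1) = AbcG.rad (a' * b' * (a' + b') / 16) :=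
        condAll_Ec hpar hsem
      show (condAll (Ec a' b' 1) : ℝ) ≤ X
      rw [h1]
      exact hX
  rw [h]
  refine Set.ncard_image_of_injective _ ?_
  rintro ⟨a, b⟩ ⟨a', b'⟩ heq
  have e1 : a = a' := congrArg Prod.fst heq
  have e2 : b = b' := congrArg (fun t => t.2.1) heq
  rw [e1, e2]

/-! ### Exactly one of `(a, b)`, `(b, a)` is semistable at 2 -/

theorem sem_or_sem {a b : ℕ} (hab : a.Coprime b) (h : 16 ∣ a * b * (a + b)) :
    (Sem a b ∧ ¬ Sem b a) ∨ (Sem b a ∧ ¬ Sem a b) := by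
  have hodd : ¬ (2 ∣ a ∧ 2 ∣ b) := by
    rintro ⟨h1, h2⟩
    have h3 := Nat.dvd_gcd h1 h2
    rw [hab] at h3
    omega
  have hcop : ∀ {x y : ℕ}, ¬ 2 ∣ x → 16 ∣ x * y → 16 ∣ y := by
    intro x y hx hxy
    have h1 : Nat.Coprime 16 x := by
      have : Nat.Coprime (2 ^ 4) x :=
        Nat.Coprime.pow_left 4 ((Nat.Prime.coprime_iff_not_dvd Nat.prime_two).mpr hx)
      simpa using this
    exact h1.dvd_of_dvd_mul_left hxy
  unfold Sem
  by_cases ha : 2 ∣ a
  · have hb : ¬ 2 ∣ b := fun hb => hodd ⟨ha, hb⟩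
    have h16 : 16 ∣ a := by
      have h1 : 16 ∣ (b * (a + b)) * a := by
        have : (b * (a + b)) * a = a * b * (a + b) := by ring
        rw [this]; exact h
      refine hcop ?_ h1
      intro h2
      rcases Nat.prime_two.dvd_mul.mp h2 with h3 | h3
      · exact hb h3
      · omega
    omega
  · by_cases hb : 2 ∣ b
    · have h16 : 16 ∣ b := by
        have h1 : 16 ∣ (a * (a + b)) * b := by
          have : (a * (a + b)) * b = a * b * (a + b) := by ring
          rw [this]; exact h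
        refine hcop ?_ h1
        intro h2
        rcases Nat.prime_two.dvd_mul.mp h2 with h3 | h3
        · exact ha h3
        · omega
      omega
    · have h16 : 16 ∣ a + b := by
        refine hcop ?_ h
        intro h2
        rcases Nat.prime_two.dvd_mul.mp h2 with h3 | h3
        · exact ha h3
        · exact hb h3
      omega

theorem sixteen_dvd_of_sem {a b : ℕ} (hs : Sem a b) : 16 ∣ a * b * (a + b) := by
  rcases hs with ⟨h1, -⟩ | ⟨h1, -⟩ | ⟨h1, -⟩
  · exact (h1.mul_left a).mul_right _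
  · exact (h1.mul_right b).mul_right _
  · exact h1.mul_left _

theorem Nn_swap (t : ℕ × ℕ) : AbcG.Nn t.swap = AbcG.Nn t := by
  unfold AbcG.Nn
  simp only [Prod.fst_swap, Prod.snd_swap]
  ring

theorem two_mul_card (X : ℕ) (F G : Finset (ℕ × ℕ))
    (hF : ∀ t : ℕ × ℕ, t ∈ F ↔ 0 < t.1 ∧ 0 < t.2 ∧ t.1.Coprime t.2 ∧ 16 ∣ AbcG.Nn t ∧
      AbcG.rad (AbcG.Nn t / 16) ≤ X)
    (hG : ∀ t : ℕ × ℕ, t ∈ G ↔ 0 < t.1 ∧ 0 < t.2 ∧ t.1.Coprime t.2 ∧ Sem t.1 t.2 ∧
      AbcG.rad (AbcG.Nn t / 16) ≤ X) : F.card = 2 * G.card := by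
  classical
  have hFs : ∀ t : ℕ × ℕ, t.swap ∈ F ↔ t ∈ F := by
    intro t
    rw [hF, hF, Nn_swap, Prod.fst_swap, Prod.snd_swap, Nat.coprime_comm]
    tauto
  have h1 : F.filter (fun t => Sem t.1 t.2) = G := by
    ext t
    rw [Finset.mem_filter, hF, hG]
    constructor
    · rintro ⟨⟨g1, g2, g3, -, g5⟩, g6⟩
      exact ⟨g1, g2, g3, g6, g5⟩
    · rintro ⟨g1, g2, g3, g4, g5⟩
      exact ⟨⟨g1, g2, g3, sixteen_dvd_of_sem g4, g5⟩, g4⟩
  have h2 : F.filter (fun t => ¬ Sem t.1 t.2) = G.image Prod.swap := by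
    ext t
    rw [Finset.mem_filter, Finset.mem_image]
    constructor
    · rintro ⟨g1, g2⟩
      refine ⟨t.swap, ?_, Prod.swap_swap t⟩
      have g3 := (hF t).mp g1
      have g4 := sem_or_sem g3.2.2.1 g3.2.2.2.1
      rw [← h1, Finset.mem_filter]
      exact ⟨(hFs t).mpr g1, (g4.resolve_left (fun g => g2 g.1)).1⟩
    · rintro ⟨s, hs, rfl⟩
      rw [← h1, Finset.mem_filter] at hs
      refine ⟨(hFs s).mpr hs.1, ?_⟩
      have g3 := (hF s).mp hs.1
      have g4 := sem_or_sem g3.2.2.1 g3.2.2.2.1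
      rcases g4 with g | g
      · exact g.2
      · exact absurd hs.2 g.2
  have h3 := Finset.card_filter_add_card_filter_not (s := F) (fun t : ℕ × ℕ => Sem t.1 t.2)
  rw [h1, h2, Finset.card_image_of_injective _ Prod.swap_injective] at h3
  omega

/-! ### Invariance -/

theorem twoRoots_smul (C : VariableChange ℚ) (E : WeierstrassCurve ℚ) :
    twoRoots (C • E) = (fun x => (C.u : ℚ) ^ 2 * x + C.r) ⁻¹' twoRoots E := by
  ext x
  have hu : (C.u : ℚ) ≠ 0 := Units.ne_zero _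
  simp only [twoRoots, Set.mem_ofPred_eq, Set.mem_preimage, variableChange_b₂,
    variableChange_b₄, variableChange_b₆, Units.val_inv_eq_inv_val]
  have key : 4 * x ^ 3 + (C.u : ℚ)⁻¹ ^ 2 * (E.b₂ + 12 * C.r) * x ^ 2 +
      2 * ((C.u : ℚ)⁻¹ ^ 4 * (E.b₄ + C.r * E.b₂ + 6 * C.r ^ 2)) * x +
      (C.u : ℚ)⁻¹ ^ 6 * (E.b₆ + 2 * C.r * E.b₄ + C.r ^ 2 * E.b₂ + 4 * C.r ^ 3) =
      (C.u : ℚ)⁻¹ ^ 6 * (4 * ((C.u : ℚ) ^ 2 * x + C.r) ^ 3 +
        E.b₂ * ((C.u : ℚ) ^ 2 * x + C.r) ^ 2 + 2 * E.b₄ * ((C.u : ℚ) ^ 2 * x + C.r) + E.b₆) := by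
    field_simp
    ring
  rw [key]
  constructor
  · intro h
    exact (mul_eq_zero.mp h).resolve_left (pow_ne_zero _ (inv_ne_zero hu))
  · intro h
    rw [h, mul_zero]

theorem fullTwo_smul (C : VariableChange ℚ) {E : WeierstrassCurve ℚ} (hE : E.Δ ≠ 0) :
    FullTwo (C • E) ↔ FullTwo E := by
  have hE' : (C • E).Δ ≠ 0 := by
    rw [variableChange_Δ]
    exact mul_ne_zero (pow_ne_zero _ (Units.ne_zero _)) hE
  have hu : (C.u : ℚ) ≠ 0 := Units.ne_zero _
  rw [fullTwo_iff hE, fullTwo_iff hE', twoRoots_smul]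
  have hb : Function.Bijective (fun x : ℚ => (C.u : ℚ) ^ 2 * x + C.r) := by
    constructor
    · intro x y h
      have h1 : (C.u : ℚ) ^ 2 * x = (C.u : ℚ) ^ 2 * y := by
        have h2 : (C.u : ℚ) ^ 2 * x + C.r = (C.u : ℚ) ^ 2 * y + C.r := h
        linarith
      exact mul_left_cancel₀ (pow_ne_zero _ hu) h1
    · intro y
      refine ⟨(y - C.r) / (C.u : ℚ) ^ 2, ?_⟩
      show (C.u : ℚ) ^ 2 * ((y - C.r) / (C.u : ℚ) ^ 2) + C.r = y
      field_simp
      ring
  rw [Set.ncard_preimage_of_injective_subset_range hb.1]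
  rw [hb.2.range_eq]
  exact Set.subset_univ _

theorem discLt_smul (C : VariableChange ℚ) (E : WeierstrassCurve ℚ) (B : ℝ) :
    DiscLt (C • E) B ↔ DiscLt E B := by
  unfold DiscLt
  constructor
  · rintro ⟨W, D, h1, h2⟩
    exact ⟨W, D * C, by rw [mul_smul]; exact h1, h2⟩
  · rintro ⟨W, D, h1, h2⟩
    exact ⟨W, D * C⁻¹, by rw [smul_smul, inv_mul_cancel_right]; exact h1, h2⟩

theorem discLt_Ec {a b d : ℕ} {B : ℝ}
    (hB : 16 * (d : ℝ) ^ 6 * ((a : ℝ) * b * (a + b)) ^ 2 < B) : DiscLt (Ec a b d) B := by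
  refine ⟨⟨0, d * ((b : ℤ) - a), 0, -((d : ℤ) ^ 2 * a * b), 0⟩, 1, ?_, ?_⟩
  · rw [one_smul]
    ext <;> simp [Ec]
  · have h : (WeierstrassCurve.Δ (⟨0, d * ((b : ℤ) - a), 0, -((d : ℤ) ^ 2 * a * b), 0⟩ :
        WeierstrassCurve ℤ)) = 16 * (d : ℤ) ^ 6 * ((a : ℤ) * b * (a + b)) ^ 2 := by
      simp only [WeierstrassCurve.Δ, b₂, b₄, b₆, b₈]
      ring
    rw [h]
    push_cast
    rw [abs_of_nonneg (by positivity)]
    exact hB

end Pool.Agent.Lib.AbcT
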