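import Mathlib
import Pool.Agent.Lib.AbcG.Inv
import Pool.Agent.Lib.AbcG.Eul

/-!
# Moebius inversion relative to a set of free primes

`rOff P n` is the product of the primes of `n` which do not divide `P`, `wOff P n = n / rOff P n`.
The identity of `AbcG.Inv` with `rad` replaced by `rOff P`: `rOff P n ≤ Z` iff `n ≤ Z * wOff P n`,
and `v ∣ wOff P n` iff `v * rOff P v ∣ n`.
-/

open Finset

namespace Pool.Agent.Lib.AbcT

open Pool.Agent.Lib.AbcG

/-- The product of the primes dividing `n` and not `P`. -/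
def rOff (P n : ℕ) : ℕ := ∏ p ∈ n.primeFactors \ P.primeFactors, p

/-- The product of the primes dividing both `n` and `P`. -/
def rIn (P n : ℕ) : ℕ := ∏ p ∈ n.primeFactors ∩ P.primeFactors, p

/-- `n / rOff P n`. -/
def wOff (P n : ℕ) : ℕ := n / rOff P n

theorem rIn_mul_rOff (P n : ℕ) : rIn P n * rOff P n = rad n := by
  unfold rIn rOff rad
  rw [mul_comm]
  have h := Finset.prod_sdiff (s₁ := n.primeFactors ∩ P.primeFactors) (s₂ := n.primeFactors)
    (f := fun p => p) Finset.inter_subset_left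
  rw [Finset.sdiff_inter_self_left] at h
  exact h

theorem rOff_pos (P n : ℕ) : 0 < rOff P n :=
  Finset.prod_pos fun _ hp => (Nat.prime_of_mem_primeFactors (mem_sdiff.1 hp).1).pos

theorem rIn_pos (P n : ℕ) : 0 < rIn P n :=
  Finset.prod_pos fun _ hp => (Nat.prime_of_mem_primeFactors (mem_inter.1 hp).1).pos

theorem rOff_dvd_rad (P n : ℕ) : rOff P n ∣ rad n := Dvd.intro_left _ (rIn_mul_rOff P n)

theorem rOff_dvd (P n : ℕ) : rOff P n ∣ n := (rOff_dvd_rad P n).trans (rad_dvd n)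

theorem rIn_dvd {P : ℕ} (n : ℕ) : rIn P n ∣ P := by
  refine (Finset.prod_dvd_prod_of_subset _ _ _ Finset.inter_subset_right).trans
    (Nat.prod_primeFactors_dvd P)

theorem rIn_le {P : ℕ} (hP : 1 ≤ P) (n : ℕ) : rIn P n ≤ P := Nat.le_of_dvd hP (rIn_dvd n)

theorem rOff_mul_wOff (P n : ℕ) : rOff P n * wOff P n = n := Nat.mul_div_cancel' (rOff_dvd P n)

theorem wOff_pos (P : ℕ) {n : ℕ} (hn : 1 ≤ n) : 0 < wOff P n := by
  rcases Nat.eq_zero_or_pos (wOff P n) with h | h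
  · have := rOff_mul_wOff P n
    rw [h, mul_zero] at this
    omega
  · exact h

theorem wOff_le (P n : ℕ) : wOff P n ≤ n := Nat.div_le_self _ _

theorem wOff_eq (P n : ℕ) : wOff P n = wt n * rIn P n := by
  have h1 := rad_mul_wt n
  have h2 := rIn_mul_rOff P n
  have h3 : rOff P n * (wt n * rIn P n) = n := by
    calc rOff P n * (wt n * rIn P n) = (rIn P n * rOff P n) * wt n := by ring
      _ = n := by rw [h2, h1]
  have h4 := rOff_mul_wOff P n
  exact Nat.eq_of_mul_eq_mul_left (rOff_pos P n) (h4.trans h3.symm)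

theorem rad_le {P n : ℕ} (hP : 1 ≤ P) : rad n ≤ P * rOff P n := by
  rw [← rIn_mul_rOff P n]
  exact Nat.mul_le_mul_right _ (rIn_le hP n)

theorem dvd_wOff_iff (P : ℕ) {v n : ℕ} (hv : 1 ≤ v) (hn : 1 ≤ n) :
    v ∣ wOff P n ↔ v * rOff P v ∣ n := by
  have hn0 : n ≠ 0 := by omega
  have hv0 : v ≠ 0 := by omega
  constructor
  · intro h
    have hvn : v ∣ n := h.trans (Dvd.intro_left _ (rOff_mul_wOff P n))
    have hr : rOff P v ∣ rOff P n :=
      Finset.prod_dvd_prod_of_subset _ _ _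
        (Finset.sdiff_subset_sdiff (Nat.primeFactors_mono hvn hn0) le_rfl)
    have h1 := Nat.mul_dvd_mul hr h
    rw [rOff_mul_wOff, mul_comm] at h1
    exact h1
  · intro h
    have hvn : v ∣ n := (Dvd.intro _ rfl).trans h
    have hsub : v.primeFactors ⊆ n.primeFactors := Nat.primeFactors_mono hvn hn0
    have hsub' : v.primeFactors \ P.primeFactors ⊆ n.primeFactors \ P.primeFactors :=
      Finset.sdiff_subset_sdiff hsub le_rfl
    have hprod : (∏ p ∈ (n.primeFactors \ P.primeFactors) \ (v.primeFactors \ P.primeFactors), p) *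
        rOff P v = rOff P n := Finset.prod_sdiff hsub'
    have hcop : Nat.Coprime (v * rOff P v)
        (∏ p ∈ (n.primeFactors \ P.primeFactors) \ (v.primeFactors \ P.primeFactors), p) := by
      apply Nat.Coprime.prod_right
      intro p hp
      rw [mem_sdiff, mem_sdiff, mem_sdiff] at hp
      have hpp := Nat.prime_of_mem_primeFactors hp.1.1
      have hpv : ¬ p ∣ v := fun h2 => hp.2 ⟨Nat.mem_primeFactors.2 ⟨hpp, h2, hv0⟩, hp.1.2⟩
      have h3 : ¬ p ∣ v * rOff P v := by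
        intro h4
        rcases hpp.dvd_mul.1 h4 with h5 | h5
        · exact hpv h5
        · exact hpv (h5.trans (rOff_dvd P v))
      exact ((Nat.Prime.coprime_iff_not_dvd hpp).2 h3).symm
    have hd : (∏ p ∈ (n.primeFactors \ P.primeFactors) \ (v.primeFactors \ P.primeFactors), p) ∣
        n := (Dvd.intro _ hprod).trans (rOff_dvd P n)
    have h6 := hcop.mul_dvd_of_dvd_of_dvd h hd
    have e : v * rOff P v *
        (∏ p ∈ (n.primeFactors \ P.primeFactors) \ (v.primeFactors \ P.primeFactors), p) =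
        rOff P n * v := by
      rw [← hprod]; ring
    rw [e] at h6
    have h7 : rOff P n * v ∣ rOff P n * wOff P n := by rw [rOff_mul_wOff]; exact h6
    exact Nat.dvd_of_mul_dvd_mul_left (rOff_pos P n) h7

theorem inv_Ac (P Y : ℕ) (F : Finset (ℕ × ℕ))
    (hF : ∀ t : ℕ × ℕ, t ∈ F ↔ 0 < t.1 ∧ 0 < t.2 ∧ t.1.Coprime t.2 ∧ rOff P (Nn t) ≤ Y)
    {v m : ℕ} (hv : 1 ≤ v) (hm : m ∣ v) :
    (Ac (v * rOff P v) ((Y : ℝ) * v / m) : ℝ) =
      ∑ t ∈ F, (if v ∣ wOff P (Nn t) then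
        (if Nn t ≤ Y * (v / m) then (1 : ℝ) else 0) else 0) := by
  have hT : (Y : ℝ) * v / m = ((Y * (v / m) : ℕ) : ℝ) := by
    rw [Nat.cast_mul, Nat.cast_div hm (by
      have : m ≠ 0 := by
        rintro rfl
        rw [Nat.zero_dvd] at hm
        omega
      exact_mod_cast this), mul_div_assoc]
  have hset : (Reg ((Y : ℝ) * v / m)).filter
        (fun t => t.1.Coprime t.2 ∧ v * rOff P v ∣ Nn t) =
      F.filter (fun t => v ∣ wOff P (Nn t) ∧ Nn t ≤ Y * (v / m)) := by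
    ext t
    rw [mem_filter, mem_filter, mem_Reg, hF, hT]
    constructor
    · rintro ⟨⟨h1, h2, h3⟩, h4, h5⟩
      have hN : 1 ≤ Nn t := Nn_pos h1 h2
      have h6 : v ∣ wOff P (Nn t) := (dvd_wOff_iff P hv hN).2 h5
      have h7 : Nn t ≤ Y * (v / m) := by exact_mod_cast h3
      refine ⟨⟨h1, h2, h4, ?_⟩, h6, h7⟩
      have hw := wOff_pos P hN
      have h8 : v / m ≤ wOff P (Nn t) := (Nat.div_le_self v m).trans (Nat.le_of_dvd hw h6)
      have h9 : rOff P (Nn t) * wOff P (Nn t) ≤ Y * wOff P (Nn t) := by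
        rw [rOff_mul_wOff]
        exact h7.trans (Nat.mul_le_mul_left Y h8)
      exact Nat.le_of_mul_le_mul_right h9 hw
    · rintro ⟨⟨h1, h2, h4, _⟩, h6, h7⟩
      have hN : 1 ≤ Nn t := Nn_pos h1 h2
      exact ⟨⟨h1, h2, by exact_mod_cast h7⟩, h4, (dvd_wOff_iff P hv hN).1 h6⟩
  unfold Ac
  rw [hset, card_filter]
  push_cast
  refine sum_congr rfl (fun t _ => ?_)
  by_cases h1 : v ∣ wOff P (Nn t)
  · by_cases h2 : Nn t ≤ Y * (v / m) <;> simp [h1, h2]
  · simp [h1]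

theorem inv_count (P Y V : ℕ) (F : Finset (ℕ × ℕ))
    (hF : ∀ t : ℕ × ℕ, t ∈ F ↔ 0 < t.1 ∧ 0 < t.2 ∧ t.1.Coprime t.2 ∧ rOff P (Nn t) ≤ Y) :
    |(F.card : ℝ) - ∑ v ∈ Icc 1 V, ∑ m ∈ v.divisors,
        ((ArithmeticFunction.moebius m : ℤ) : ℝ) *
          (Ac (v * rOff P v) ((Y : ℝ) * v / m) : ℝ)| ≤
      ∑ t ∈ F.filter (fun t => V < wOff P (Nn t)),
        (1 + ∑ v ∈ (Icc 1 V).filter (fun v => v ∣ wOff P (Nn t)), (v.divisors.card : ℝ)) := by
  obtain ⟨G, hG⟩ : ∃ G : ℕ × ℕ → ℝ, G = fun t =>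
      ∑ v ∈ (Icc 1 V).filter (fun v => v ∣ wOff P (Nn t)),
      ∑ m ∈ v.divisors, ((ArithmeticFunction.moebius m : ℤ) : ℝ) *
        (if Nn t ≤ Y * (v / m) then (1 : ℝ) else 0) := ⟨_, rfl⟩
  have h1 : ∑ v ∈ Icc 1 V, ∑ m ∈ v.divisors,
        ((ArithmeticFunction.moebius m : ℤ) : ℝ) *
          (Ac (v * rOff P v) ((Y : ℝ) * v / m) : ℝ) = ∑ t ∈ F, G t := by
    have h2 : ∀ v ∈ Icc 1 V, ∑ m ∈ v.divisors,
        ((ArithmeticFunction.moebius m : ℤ) : ℝ) *
          (Ac (v * rOff P v) ((Y : ℝ) * v / m) : ℝ) =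
        ∑ t ∈ F, (if v ∣ wOff P (Nn t) then ∑ m ∈ v.divisors,
          ((ArithmeticFunction.moebius m : ℤ) : ℝ) *
            (if Nn t ≤ Y * (v / m) then (1 : ℝ) else 0) else 0) := by
      intro v hv
      have hv1 : 1 ≤ v := (mem_Icc.1 hv).1
      have h3 : ∀ m ∈ v.divisors,
          ((ArithmeticFunction.moebius m : ℤ) : ℝ) *
            (Ac (v * rOff P v) ((Y : ℝ) * v / m) : ℝ) =
          ∑ t ∈ F, ((ArithmeticFunction.moebius m : ℤ) : ℝ) *
            (if v ∣ wOff P (Nn t) then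
              (if Nn t ≤ Y * (v / m) then (1 : ℝ) else 0) else 0) := by
        intro m hm
        rw [inv_Ac P Y F hF hv1 (Nat.dvd_of_mem_divisors hm), mul_sum]
      rw [sum_congr rfl h3, sum_comm]
      refine sum_congr rfl (fun t _ => ?_)
      split_ifs with h4
      · rfl
      · simp
    rw [sum_congr rfl h2, sum_comm, hG]
    exact sum_congr rfl (fun t _ => (sum_filter _ _).symm)
  have h4 : (F.card : ℝ) = ∑ _t ∈ F, (1 : ℝ) := by simp
  rw [h1, h4, ← sum_sub_distrib]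
  refine (abs_sum_le_sum_abs _ _).trans ?_
  rw [sum_filter]
  refine sum_le_sum (fun t ht => ?_)
  obtain ⟨ht1, ht2, ht3, ht4⟩ := (hF t).1 ht
  have hN : 1 ≤ Nn t := Nn_pos ht1 ht2
  have hw := wOff_pos P hN
  split_ifs with hV
  · refine (abs_sub _ _).trans ?_
    rw [abs_one]
    apply add_le_add le_rfl
    rw [hG]
    refine (abs_sum_le_sum_abs _ _).trans (sum_le_sum (fun v _ => ?_))
    refine (abs_sum_le_sum_abs _ _).trans ?_
    have h5 : ∀ m ∈ v.divisors, |((ArithmeticFunction.moebius m : ℤ) : ℝ) *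
        (if Nn t ≤ Y * (v / m) then (1 : ℝ) else 0)| ≤ 1 := by
      intro m _
      have h6 : |((ArithmeticFunction.moebius m : ℤ) : ℝ)| ≤ 1 := by
        have h := ArithmeticFunction.abs_moebius_le_one (n := m)
        exact_mod_cast h
      split_ifs
      · rw [mul_one]; exact h6
      · rw [mul_zero, abs_zero]; exact zero_le_one
    refine (sum_le_sum h5).trans ?_
    simp
  · have h7 : (Icc 1 V).filter (fun v => v ∣ wOff P (Nn t)) = (wOff P (Nn t)).divisors := by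
      ext v
      rw [mem_filter, mem_Icc, Nat.mem_divisors]
      constructor
      · rintro ⟨_, h8⟩
        exact ⟨h8, hw.ne'⟩
      · rintro ⟨h8, _⟩
        exact ⟨⟨Nat.pos_of_dvd_of_pos h8 hw, (Nat.le_of_dvd hw h8).trans (not_lt.1 hV)⟩, h8⟩
    have h8 : G t = 1 := by
      rw [hG]
      show ∑ v ∈ (Icc 1 V).filter (fun v => v ∣ wOff P (Nn t)),
        ∑ m ∈ v.divisors, ((ArithmeticFunction.moebius m : ℤ) : ℝ) *
          (if Nn t ≤ Y * (v / m) then (1 : ℝ) else 0) = 1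
      rw [h7]
      have h9 := mob_inv (fun u => if Nn t ≤ Y * u then (1 : ℝ) else 0) (wOff P (Nn t)) hw
      refine h9.trans ?_
      apply if_pos
      calc Nn t = rOff P (Nn t) * wOff P (Nn t) := (rOff_mul_wOff P _).symm
        _ ≤ Y * wOff P (Nn t) := Nat.mul_le_mul_right _ ht4
    rw [h8, sub_self, abs_zero]

/-! ### The singular series -/

/-- The terms of the relative singular series. -/
noncomputable def hP (P v : ℕ) : ℝ := hh v * rIn P v

theorem rIn_mul (P : ℕ) {m n : ℕ} (h : m.Coprime n) :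
    (rIn P (m * n) : ℝ) = rIn P m * rIn P n := by
  unfold rIn
  push_cast
  rw [h.primeFactors_mul, Finset.union_inter_distrib_right, prod_union]
  exact h.disjoint_primeFactors.mono Finset.inter_subset_left Finset.inter_subset_left

theorem hP_one (P : ℕ) : hP P 1 = 1 := by
  unfold hP rIn
  rw [hh_one]
  simp

theorem hP_zero (P : ℕ) : hP P 0 = 0 := by
  unfold hP
  rw [hh_zero, zero_mul]

theorem hP_nonneg (P v : ℕ) : 0 ≤ hP P v := mul_nonneg (hh_nonneg v) (Nat.cast_nonneg _)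

theorem hP_mul (P : ℕ) {m n : ℕ} (h : m.Coprime n) : hP P (m * n) = hP P m * hP P n := by
  unfold hP
  rw [hh_mul h, rIn_mul P h]
  ring

theorem hP_le {P : ℕ} (hP1 : 1 ≤ P) (v : ℕ) : hP P v ≤ P * hh v := by
  unfold hP
  rw [mul_comm]
  apply mul_le_mul_of_nonneg_right _ (hh_nonneg v)
  exact_mod_cast rIn_le hP1 v

theorem summable_hP {P : ℕ} (hP1 : 1 ≤ P) : Summable (hP P) :=
  Summable.of_nonneg_of_le (hP_nonneg P) (hP_le hP1) (summable_hh'.mul_left _)

theorem summable_hP' {P : ℕ} (hP1 : 1 ≤ P) :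
    Summable (fun v : ℕ => hP P v * (v : ℝ) ^ (1 / 12 : ℝ)) := by
  refine Summable.of_nonneg_of_le (fun v => mul_nonneg (hP_nonneg P v) (by positivity))
    (fun v => ?_) (summable_hh.mul_left (P : ℝ))
  rw [← mul_assoc]
  exact mul_le_mul_of_nonneg_right (hP_le hP1 v) (by positivity)

theorem tsum_hP_le {P : ℕ} (hP1 : 1 ≤ P) : ∑' v : ℕ, hP P v * (v : ℝ) ^ (1 / 12 : ℝ) ≤
    P * ∑' v : ℕ, hh v * (v : ℝ) ^ (1 / 12 : ℝ) := by
  rw [← tsum_mul_left]
  refine Summable.tsum_le_tsum (fun v => ?_) (summable_hP' hP1) (summable_hh.mul_left _)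
  rw [← mul_assoc]
  exact mul_le_mul_of_nonneg_right (hP_le hP1 v) (by positivity)

/-- The local factor at a free prime. -/
noncomputable def gP (p : ℕ) : ℝ := (1 - 1 / (p : ℝ)) * (1 + 1 / (p : ℝ) +
    3 * (p : ℝ) ^ (-(1 / 3) : ℝ) + 3 * (p : ℝ) ^ (-(2 / 3) : ℝ))

/-- The local factor. -/
noncomputable def fP (p : ℕ) : ℝ := (1 - 1 / (p : ℝ)) * (1 + 1 / (p : ℝ) +
    3 * (p : ℝ) ^ (-(4 / 3) : ℝ) + 3 * (p : ℝ) ^ (-(5 / 3) : ℝ))

/-- The constant of the relative count. -/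
noncomputable def CR (P : ℕ) : ℝ := c0 * ∏' p : Nat.Primes, if (p : ℕ) ∣ P then gP p else fP p

theorem tsum_hP {P p : ℕ} (hP0 : P ≠ 0) (hp : p.Prime) : ∑' k : ℕ, hP P (p ^ k) =
    1 + (if p ∣ P then (p : ℝ) else 1) * (3 * (1 + 1 / (p : ℝ))⁻¹ * (1 / p) *
      (p : ℝ) ^ (-(1 / 3) : ℝ) * (1 + (p : ℝ) ^ (-(1 / 3) : ℝ))) := by
  have e1 : ∀ k : ℕ, rIn P (p ^ (k + 1)) = if p ∣ P then p else 1 := by
    intro k
    unfold rIn
    rw [Nat.primeFactors_prime_pow (by omega) hp]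
    by_cases h : p ∣ P
    · rw [if_pos h, Finset.singleton_inter_of_mem (Nat.mem_primeFactors.2 ⟨hp, h, hP0⟩),
        prod_singleton]
    · rw [if_neg h, Finset.singleton_inter_of_notMem (fun h' => h (Nat.dvd_of_mem_primeFactors h')),
        prod_empty]
  have hs1 : Summable (fun k : ℕ => hh (p ^ k)) :=
    summable_hh'.comp_injective (Nat.pow_right_injective hp.two_le)
  have h1 := hs1.sum_add_tsum_nat_add 1
  rw [tsum_hh hp, sum_range_one, pow_zero, hh_one] at h1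
  have h2 : ∑' k : ℕ, hh (p ^ (k + 1)) = 3 * (1 + 1 / (p : ℝ))⁻¹ * (1 / p) *
      (p : ℝ) ^ (-(1 / 3) : ℝ) * (1 + (p : ℝ) ^ (-(1 / 3) : ℝ)) := by
    linarith
  have hs2 : Summable (fun k : ℕ => hP P (p ^ k)) :=
    (summable_hP (Nat.one_le_iff_ne_zero.2 hP0)).comp_injective (Nat.pow_right_injective hp.two_le)
  have h3 := hs2.sum_add_tsum_nat_add 1
  rw [sum_range_one, pow_zero, hP_one] at h3
  rw [← h3]
  congr 1
  have h4 : (fun k : ℕ => hP P (p ^ (k + 1))) =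
      fun k : ℕ => (if p ∣ P then (p : ℝ) else 1) * hh (p ^ (k + 1)) := by
    funext k
    unfold hP
    rw [e1 k]
    split_ifs
    · ring
    · push_cast
      ring
  rw [h4, tsum_mul_left, h2]

theorem hasProd_fR {P : ℕ} (hP0 : P ≠ 0) :
    HasProd (fun p : Nat.Primes => if (p : ℕ) ∣ P then gP p else fP p)
      (6 / Real.pi ^ 2 * ∑' v : ℕ, hP P v) := by
  have h1 := EulerProduct.eulerProduct_hasProd (f := hP P) (hP_one P) (fun {m n} h => hP_mul P h)
    (summable_hP (Nat.one_le_iff_ne_zero.2 hP0)).norm (hP_zero P)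
  have h2 := hasProd_mobT 1 le_rfl
  rw [tsum_mobT_one] at h2
  have h3 := h2.mul h1
  have e : (fun p : Nat.Primes => if (p : ℕ) ∣ P then gP p else fP p) = fun p : Nat.Primes =>
      (1 - (Nat.gcd p 1 : ℝ) / (p : ℝ) ^ 2) * ∑' e : ℕ, hP P ((p : ℕ) ^ e) := by
    funext p
    have hp := p.2
    have hp0 : (0 : ℝ) < (p : ℝ) := by exact_mod_cast hp.pos
    rw [tsum_hP hP0 hp, Nat.gcd_one_right]
    have e1 : (p : ℝ) ^ (-(4 / 3) : ℝ) = 1 / p * (p : ℝ) ^ (-(1 / 3) : ℝ) := by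
      rw [show (-(4 / 3) : ℝ) = -1 + -(1 / 3) by norm_num, Real.rpow_add hp0, Real.rpow_neg_one,
        one_div (p : ℝ)]
    have e2 : (p : ℝ) ^ (-(5 / 3) : ℝ) = 1 / p * ((p : ℝ) ^ (-(1 / 3) : ℝ)) ^ 2 := by
      rw [← Real.rpow_natCast, ← Real.rpow_mul hp0.le, show (-(5 / 3) : ℝ) =
        -1 + -(1 / 3) * ((2 : ℕ) : ℝ) by norm_num, Real.rpow_add hp0, Real.rpow_neg_one,
        one_div (p : ℝ)]
    have e3 : (p : ℝ) ^ (-(2 / 3) : ℝ) = ((p : ℝ) ^ (-(1 / 3) : ℝ)) ^ 2 := by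
      rw [← Real.rpow_natCast, ← Real.rpow_mul hp0.le]
      norm_num
    unfold gP fP
    rw [e1, e2, e3]
    obtain ⟨x, hx⟩ : ∃ x, x = (p : ℝ) ^ (-(1 / 3) : ℝ) := ⟨_, rfl⟩
    rw [← hx]
    have hp1 : (p : ℝ) + 1 ≠ 0 := by positivity
    push_cast
    split_ifs
    · field_simp
      ring
    · field_simp
      ring
  rw [e]
  exact h3

theorem CR_eq {P : ℕ} (hP0 : P ≠ 0) : CR P = c0 * (6 / Real.pi ^ 2 * ∑' v : ℕ, hP P v) := by
  unfold CR
  rw [(hasProd_fR hP0).tprod_eq]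

end Pool.Agent.Lib.AbcT
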