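import Mathlib
import Pool.Agent.Lib.AbcG.Main
import Pool.Agent.Lib.AbcT.Rel

/-!
# The relative asymptotic formula, uniformly in the set of free primes

The number of coprime pairs `(a, b)` with `rOff P (a b (a + b)) ≤ Z` is `CR P * Z ^ (2/3)` up to
`Z ^ (2/3 - κ)`, uniformly for `P ≤ Z ^ δ`. The proof of `AbcG.main` with `rad` replaced by
`rOff P`; every estimate loses at most a power of `P`.
-/

open Finset Filter

namespace Pool.Agent.Lib.AbcT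

open Pool.Agent.Lib.AbcG

theorem primeFactors_mul_rOff (P : ℕ) {v : ℕ} (hv : v ≠ 0) :
    (v * rOff P v).primeFactors = v.primeFactors := by
  rw [Nat.primeFactors_mul hv (rOff_pos P v).ne']
  have : (rOff P v).primeFactors ⊆ v.primeFactors := Nat.primeFactors_mono (rOff_dvd P v) hv
  exact Finset.union_eq_left.mpr this

theorem hP_eq (P v : ℕ) : hP P v =
    3 ^ v.primeFactors.card * psi v * (v : ℝ) ^ (2 / 3 : ℝ) / (v * rOff P v) *
      ∑ m ∈ v.divisors, ((ArithmeticFunction.moebius m : ℤ) : ℝ) * (m : ℝ) ^ (-(2 / 3) : ℝ) := by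
  unfold hP hh
  have h1 : (rIn P v : ℝ) * rOff P v = rad v := by exact_mod_cast rIn_mul_rOff P v
  have h2 : (0 : ℝ) < rIn P v := by exact_mod_cast rIn_pos P v
  have h3 : (0 : ℝ) < rOff P v := by exact_mod_cast rOff_pos P v
  rw [← h1]
  rcases Nat.eq_zero_or_pos v with rfl | hv
  · simp
  · have hv0 : (0 : ℝ) < v := by exact_mod_cast hv
    field_simp

/-- The main term of the truncated Moebius sum. -/
theorem main_term (P : ℕ) {C1 : ℝ} (hC1 : 0 < C1) (hfac : ∀ (L : ℕ), 1 ≤ L → ∀ T : ℝ, 1 ≤ T →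
    |(Ac L T : ℝ) - c0 * T ^ (2 / 3 : ℝ) *
      (3 ^ L.primeFactors.card * (6 / Real.pi ^ 2 * psi L / L))| ≤
      C1 * 3 ^ L.primeFactors.card * √T) (Y V : ℕ) (hY : 1 ≤ Y) (hV : 1 ≤ V) :
    |∑ v ∈ Icc 1 V, ∑ m ∈ v.divisors,
        ((ArithmeticFunction.moebius m : ℤ) : ℝ) * (Ac (v * rOff P v) ((Y : ℝ) * v / m) : ℝ) -
      c0 * (6 / Real.pi ^ 2) * (Y : ℝ) ^ (2 / 3 : ℝ) * ∑ v ∈ Icc 1 V, hP P v| ≤
      C1 * √Y * (V : ℝ) ^ 5 := by
  have hY0 : (1 : ℝ) ≤ Y := by exact_mod_cast hY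
  have hV0 : (1 : ℝ) ≤ V := by exact_mod_cast hV
  rw [Finset.mul_sum, ← Finset.sum_sub_distrib]
  refine (Finset.abs_sum_le_sum_abs _ _).trans ?_
  have hterm : ∀ v ∈ Icc 1 V, |∑ m ∈ v.divisors,
        ((ArithmeticFunction.moebius m : ℤ) : ℝ) * (Ac (v * rOff P v) ((Y : ℝ) * v / m) : ℝ) -
      c0 * (6 / Real.pi ^ 2) * (Y : ℝ) ^ (2 / 3 : ℝ) * hP P v| ≤ C1 * √Y * (V : ℝ) ^ 4 := by
    intro v hv
    rw [mem_Icc] at hv
    have hv0 : v ≠ 0 := by omega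
    have hvR : (1 : ℝ) ≤ v := by exact_mod_cast hv.1
    have hvV : (v : ℝ) ≤ V := by exact_mod_cast hv.2
    have hrad : (0 : ℝ) < rOff P v := by exact_mod_cast rOff_pos P v
    have hpsi : psi (v * rOff P v) = psi v := by
      unfold psi
      rw [primeFactors_mul_rOff P hv0]
    have e1 : c0 * (6 / Real.pi ^ 2) * (Y : ℝ) ^ (2 / 3 : ℝ) * hP P v =
        ∑ m ∈ v.divisors, ((ArithmeticFunction.moebius m : ℤ) : ℝ) *
          (c0 * ((Y : ℝ) * v / m) ^ (2 / 3 : ℝ) *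
            (3 ^ (v * rOff P v).primeFactors.card * (6 / Real.pi ^ 2 * psi (v * rOff P v) /
              ((v * rOff P v : ℕ) : ℝ)))) := by
      rw [hP_eq, Finset.mul_sum, Finset.mul_sum]
      apply Finset.sum_congr rfl
      intro m hm
      have hm0 : (0 : ℝ) < m := by
        exact_mod_cast Nat.pos_of_mem_divisors hm
      rw [hpsi, primeFactors_mul_rOff P hv0, Real.div_rpow (by positivity) hm0.le,
        Real.mul_rpow (by positivity) (by positivity), Real.rpow_neg hm0.le]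
      push_cast
      ring
    rw [e1, ← Finset.sum_sub_distrib]
    refine (Finset.abs_sum_le_sum_abs _ _).trans ?_
    have hin : ∀ m ∈ v.divisors, |((ArithmeticFunction.moebius m : ℤ) : ℝ) *
        (Ac (v * rOff P v) ((Y : ℝ) * v / m) : ℝ) - ((ArithmeticFunction.moebius m : ℤ) : ℝ) *
          (c0 * ((Y : ℝ) * v / m) ^ (2 / 3 : ℝ) *
            (3 ^ (v * rOff P v).primeFactors.card * (6 / Real.pi ^ 2 * psi (v * rOff P v) /
              ((v * rOff P v : ℕ) : ℝ))))| ≤ C1 * √Y * (V : ℝ) ^ 3 := by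
      intro m hm
      have hm1 : (1 : ℝ) ≤ m := by
        exact_mod_cast Nat.pos_of_mem_divisors hm
      have hmv : (m : ℝ) ≤ v := by
        exact_mod_cast Nat.divisor_le hm
      have hT : 1 ≤ (Y : ℝ) * v / m := by
        rw [le_div_iff₀ (by linarith), one_mul]
        nlinarith
      have hL : 1 ≤ v * rOff P v := Nat.mul_pos (by omega) (rOff_pos P v)
      have h1 := hfac (v * rOff P v) hL _ hT
      rw [← mul_sub, abs_mul]
      have h2 : |((ArithmeticFunction.moebius m : ℤ) : ℝ)| ≤ 1 := by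
        have := ArithmeticFunction.abs_moebius_le_one (n := m)
        exact_mod_cast this
      refine (mul_le_mul h2 h1 (abs_nonneg _) (by norm_num)).trans ?_
      rw [one_mul, primeFactors_mul_rOff P hv0]
      have h3 : √((Y : ℝ) * v / m) ≤ √Y * V := by
        rw [Real.sqrt_le_left (by positivity), mul_pow, Real.sq_sqrt (by positivity)]
        rw [div_le_iff₀ (by linarith)]
        have : (v : ℝ) ≤ (V : ℝ) ^ 2 := by nlinarith
        calc (Y : ℝ) * v ≤ Y * (V : ℝ) ^ 2 := by gcongr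
          _ ≤ Y * (V : ℝ) ^ 2 * m := le_mul_of_one_le_right (by positivity) hm1
      have h4 : (3 : ℝ) ^ v.primeFactors.card ≤ (V : ℝ) ^ 2 :=
        (three_pow_le hv0).trans (by gcongr)
      calc C1 * 3 ^ v.primeFactors.card * √((Y : ℝ) * v / m) ≤
            C1 * (V : ℝ) ^ 2 * (√Y * V) := by gcongr
        _ = C1 * √Y * (V : ℝ) ^ 3 := by ring
    refine (Finset.sum_le_sum hin).trans ?_
    rw [Finset.sum_const, nsmul_eq_mul]
    calc (v.divisors.card : ℝ) * (C1 * √Y * (V : ℝ) ^ 3) ≤ V * (C1 * √Y * (V : ℝ) ^ 3) := by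
          gcongr
          exact (Nat.card_divisors_le_self v).trans hv.2
      _ = C1 * √Y * (V : ℝ) ^ 4 := by ring
  refine (Finset.sum_le_sum hterm).trans ?_
  rw [Finset.sum_const, nsmul_eq_mul, Nat.card_Icc, Nat.add_sub_cancel]
  apply le_of_eq
  ring

/-- The error of the truncation: triples with `c` large. -/
theorem err_large (w : ℕ × ℕ → ℕ) (V : ℕ) (hV : 1 ≤ V) (F : Finset (ℕ × ℕ)) :
    ∑ t ∈ F, (1 + ∑ v ∈ (Icc 1 V).filter (fun v => v ∣ w t), (v.divisors.card : ℝ)) ≤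
      2 * (V : ℝ) ^ 2 * F.card := by
  have hV0 : (1 : ℝ) ≤ V := by exact_mod_cast hV
  have h1 : ∀ t ∈ F, (1 + ∑ v ∈ (Icc 1 V).filter (fun v => v ∣ w t),
      (v.divisors.card : ℝ)) ≤ 2 * (V : ℝ) ^ 2 := by
    intro t _
    have h2 : ∑ v ∈ (Icc 1 V).filter (fun v => v ∣ w t), (v.divisors.card : ℝ) ≤
        ∑ v ∈ Icc 1 V, (V : ℝ) := by
      refine (Finset.sum_le_sum_of_subset_of_nonneg (Finset.filter_subset _ _)
        (fun v _ _ => Nat.cast_nonneg _)).trans (Finset.sum_le_sum fun v hv => ?_)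
      rw [mem_Icc] at hv
      exact (card_div_le v).trans (by exact_mod_cast hv.2)
    rw [Finset.sum_const, nsmul_eq_mul, Nat.card_Icc, Nat.add_sub_cancel] at h2
    nlinarith
  refine (Finset.sum_le_sum h1).trans ?_
  rw [Finset.sum_const, nsmul_eq_mul]
  apply le_of_eq
  ring

/-- The error of the truncation: triples with `c` small. -/
theorem err_small (w : ℕ × ℕ → ℕ) (V : ℕ) (F : Finset (ℕ × ℕ)) (D : ℝ) (hD : 1 ≤ D)
    (hF : ∀ t ∈ F, 0 < w t ∧ ((w t).divisors.card : ℝ) ≤ D) :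
    ∑ t ∈ F, (1 + ∑ v ∈ (Icc 1 V).filter (fun v => v ∣ w t), (v.divisors.card : ℝ)) ≤
      2 * D ^ 2 * F.card := by
  have h1 : ∀ t ∈ F, (1 + ∑ v ∈ (Icc 1 V).filter (fun v => v ∣ w t),
      (v.divisors.card : ℝ)) ≤ 2 * D ^ 2 := by
    intro t ht
    obtain ⟨hW, hc⟩ := hF t ht
    have h2 : ∑ v ∈ (Icc 1 V).filter (fun v => v ∣ w t), (v.divisors.card : ℝ) ≤
        ∑ v ∈ (w t).divisors, D := by
      refine (Finset.sum_le_sum_of_subset_of_nonneg (t := (w t).divisors) ?_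
        (fun v _ _ => Nat.cast_nonneg _)).trans (Finset.sum_le_sum fun v hv => ?_)
      · intro v hv
        rw [mem_filter] at hv
        exact Nat.mem_divisors.mpr ⟨hv.2, hW.ne'⟩
      · refine le_trans ?_ hc
        exact_mod_cast Finset.card_le_card
          (Nat.divisors_subset_of_dvd hW.ne' (Nat.dvd_of_mem_divisors hv))
    rw [Finset.sum_const, nsmul_eq_mul] at h2
    have h3 : ((w t).divisors.card : ℝ) * D ≤ D * D :=
      mul_le_mul_of_nonneg_right hc (by linarith)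
    nlinarith
  refine (Finset.sum_le_sum h1).trans ?_
  rw [Finset.sum_const, nsmul_eq_mul]
  apply le_of_eq
  ring

/-- The relative count, uniformly in the free primes. -/
theorem rel_count (h : TailHyp) : ∃ δ κ : ℝ, 0 < δ ∧ 0 < κ ∧ ∀ᶠ Z : ℕ in atTop,
    ∀ P : ℕ, 1 ≤ P → (P : ℝ) ≤ (Z : ℝ) ^ δ → ∀ F : Finset (ℕ × ℕ),
    (∀ t : ℕ × ℕ, t ∈ F ↔ 0 < t.1 ∧ 0 < t.2 ∧ t.1.Coprime t.2 ∧ rOff P (Nn t) ≤ Z) →
    |(F.card : ℝ) - CR P * (Z : ℝ) ^ (2 / 3 : ℝ)| ≤ (Z : ℝ) ^ (2 / 3 - κ) := by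
  classical
  obtain ⟨κ0, hκ0, htail⟩ := h
  obtain ⟨n0, hn0⟩ := eventually_atTop.1 htail
  obtain ⟨C1, hC1, hfac⟩ := fac_count
  obtain ⟨K, hK, hbox⟩ := tail_box
  set κ : ℝ := min κ0 (1 / 300) with hκdef
  have hκ : 0 < κ := lt_min hκ0 (by norm_num)
  have hκle : κ ≤ κ0 := min_le_left _ _
  have hκ300 : κ ≤ 1 / 300 := min_le_right _ _
  set δ : ℝ := κ / 400 with hδ
  have hδ0 : 0 < δ := by positivity
  obtain ⟨Cd, hCd, hdiv⟩ := Pool.Agent.Lib.P5632c9.card_divisors_le (κ / 800) (by positivity)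
  set H : ℝ := ∑' v : ℕ, hh v * (v : ℝ) ^ (1 / 12 : ℝ) with hH
  have hH0 : 0 ≤ H := tsum_nonneg fun v => mul_nonneg (hh_nonneg v) (by positivity)
  have hc0 : 0 < c0 := c0_pos
  set Q : ℝ := c0 * (6 / Real.pi ^ 2) with hQ
  have hQ0 : 0 < Q := by
    have := Real.pi_pos
    positivity
  set CC : ℝ := 2 + 2 * Cd ^ 2 * (K * 3) + C1 + Q * (2 * H) with hCC
  have hCC0 : 0 < CC := by positivity
  refine ⟨δ, κ / 100, hδ0, by positivity, ?_⟩
  have hlarge : ∀ᶠ Y : ℕ in atTop, CC ≤ (Y : ℝ) ^ (κ / 80 - κ / 100) := by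
    have h1 : Tendsto (fun Y : ℕ => (Y : ℝ) ^ (κ / 80 - κ / 100)) atTop atTop :=
      (tendsto_rpow_atTop (by linarith)).comp tendsto_natCast_atTop_atTop
    exact h1.eventually (eventually_ge_atTop CC)
  have hlarge2 : ∀ᶠ Y : ℕ in atTop, 2 ≤ (Y : ℝ) ^ (κ / 8) := by
    have h1 : Tendsto (fun Y : ℕ => (Y : ℝ) ^ (κ / 8)) atTop atTop :=
      (tendsto_rpow_atTop (by positivity)).comp tendsto_natCast_atTop_atTop
    exact h1.eventually (eventually_ge_atTop 2)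
  filter_upwards [hlarge, hlarge2, eventually_ge_atTop 1, eventually_ge_atTop n0] with Y hYlarge
    hY2 hY1 hYn P hP1 hPY F hF
  have hy1 : (1 : ℝ) ≤ Y := by exact_mod_cast hY1
  have hy0 : (0 : ℝ) < Y := by linarith
  have hp1 : (1 : ℝ) ≤ P := by exact_mod_cast hP1
  have hp0 : (0 : ℝ) < P := by linarith
  -- the absolute level
  obtain ⟨W, hW⟩ : ∃ W : ℕ, W = P * Y := ⟨_, rfl⟩
  have hWc : (W : ℝ) = P * Y := by rw [hW]; push_cast; rfl
  have hYW : Y ≤ W := by rw [hW]; exact Nat.le_mul_of_pos_left _ hP1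
  have hW1 : 1 ≤ W := hY1.trans hYW
  have hw1 : (1 : ℝ) ≤ W := by exact_mod_cast hW1
  have hw0 : (0 : ℝ) < W := by linarith
  have hWle : (W : ℝ) ≤ (Y : ℝ) ^ (1 + δ) := by
    rw [hWc, Real.rpow_add hy0, Real.rpow_one, mul_comm]
    exact mul_le_mul_of_nonneg_left hPY hy0.le
  have hWpow : ∀ a : ℝ, 0 ≤ a → a ≤ 1 → (W : ℝ) ^ a ≤ (Y : ℝ) ^ (a + δ) := by
    intro a ha ha1
    calc (W : ℝ) ^ a ≤ ((Y : ℝ) ^ (1 + δ)) ^ a := Real.rpow_le_rpow hw0.le hWle ha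
      _ = (Y : ℝ) ^ ((1 + δ) * a) := by rw [← Real.rpow_mul hy0.le]
      _ ≤ (Y : ℝ) ^ (a + δ) := Real.rpow_le_rpow_of_exponent_le hy1 (by nlinarith)
  have hradW : ∀ t : ℕ × ℕ, rOff P (Nn t) ≤ Y → rad (Nn t) ≤ W := by
    intro t ht
    rw [hW]
    exact (rad_le hP1).trans (Nat.mul_le_mul_left _ ht)
  set V : ℕ := ⌊(Y : ℝ) ^ (κ / 4)⌋₊ with hV
  have hyκ : 1 ≤ (Y : ℝ) ^ (κ / 4) := Real.one_le_rpow hy1 (by positivity)
  have hV1 : 1 ≤ V := Nat.le_floor (by exact_mod_cast hyκ)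
  have hV1' : (1 : ℝ) ≤ V := by exact_mod_cast hV1
  have hVle : (V : ℝ) ≤ (Y : ℝ) ^ (κ / 4) := Nat.floor_le (by positivity)
  have hVge : (Y : ℝ) ^ (κ / 4) / 2 ≤ V := by
    have := Nat.lt_floor_add_one ((Y : ℝ) ^ (κ / 4))
    linarith
  have haux : ∀ s : ℝ, 0 < s → ∀ x : ℝ, (Y : ℝ) ^ s / 2 ≤ x →
      x ^ (-(1 / 12) : ℝ) ≤ 2 * (Y : ℝ) ^ (-(s / 12)) := by
    intro s hs x hx
    have h1 : x ^ (-(1 / 12) : ℝ) ≤ ((Y : ℝ) ^ s / 2) ^ (-(1 / 12) : ℝ) :=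
      Real.rpow_le_rpow_of_nonpos (by positivity) hx (by norm_num)
    have h2 : ((Y : ℝ) ^ s / 2) ^ (-(1 / 12) : ℝ) =
        (2 : ℝ) ^ (1 / 12 : ℝ) * (Y : ℝ) ^ (-(s / 12)) := by
      rw [Real.div_rpow (by positivity) (by norm_num), ← Real.rpow_mul hy0.le,
        Real.rpow_neg (by norm_num : (0 : ℝ) ≤ 2), div_inv_eq_mul, mul_comm]
      congr 2
      ring
    have h3 : (2 : ℝ) ^ (1 / 12 : ℝ) ≤ 2 := by
      calc (2 : ℝ) ^ (1 / 12 : ℝ) ≤ (2 : ℝ) ^ (1 : ℝ) :=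
            Real.rpow_le_rpow_of_exponent_le (by norm_num) (by norm_num)
        _ = 2 := Real.rpow_one 2
    rw [h2] at h1
    exact h1.trans (mul_le_mul_of_nonneg_right h3 (by positivity))
  have hV12 : (V : ℝ) ^ (-(1 / 12) : ℝ) ≤ 2 * (Y : ℝ) ^ (-(κ / 48)) := by
    have h1 := haux (κ / 4) (by positivity) V hVge
    rw [show κ / 4 / 12 = κ / 48 by ring] at h1
    exact h1
  have hVP : (Y : ℝ) ^ (κ / 4 - δ) / 2 ≤ (V : ℝ) / P := by
    rw [le_div_iff₀ hp0]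
    calc (Y : ℝ) ^ (κ / 4 - δ) / 2 * P ≤ (Y : ℝ) ^ (κ / 4 - δ) / 2 * (Y : ℝ) ^ δ := by gcongr
      _ = (Y : ℝ) ^ (κ / 4) / 2 := by
          rw [div_mul_eq_mul_div, ← Real.rpow_add hy0]
          congr 2
          ring
      _ ≤ V := hVge
  have hVP1 : 1 ≤ (V : ℝ) / P := by
    refine le_trans ?_ hVP
    have h1 : (Y : ℝ) ^ (κ / 8) ≤ (Y : ℝ) ^ (κ / 4 - δ) := by
      apply Real.rpow_le_rpow_of_exponent_le hy1
      rw [hδ]
      linarith
    linarith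
  have hVP12 : ((V : ℝ) / P) ^ (-(1 / 12) : ℝ) ≤ 2 * (Y : ℝ) ^ (-((κ / 4 - δ) / 12)) :=
    haux (κ / 4 - δ) (by rw [hδ]; linarith) _ hVP
  -- the pieces
  have hinv := inv_count P Y V F hF
  have hmain := main_term P hC1 hfac Y V hY1 hV1
  have hser := series_tail_aux (hP P) (hP_nonneg P) (summable_hP' hP1) (hP_zero P) V hV1
  have hHP := tsum_hP_le hP1
  rw [← hH] at hHP
  -- the error of the truncation
  set G := F.filter (fun t => V < wOff P (Nn t)) with hG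
  set X : ℝ := (W : ℝ) ^ (1 / 3 + 1 / 1000 : ℝ) with hX
  have hX1 : 1 ≤ X := Real.one_le_rpow hw1 (by norm_num)
  set G1 := G.filter (fun t => X < (t.1 : ℝ) + t.2) with hG1
  set G2 := G.filter (fun t => ¬ X < (t.1 : ℝ) + t.2) with hG2
  have hsplit := Finset.sum_filter_add_sum_filter_not G (fun t => X < (t.1 : ℝ) + t.2)
    (fun t => (1 + ∑ v ∈ (Icc 1 V).filter (fun v => v ∣ wOff P (Nn t)), (v.divisors.card : ℝ)))
  have hG1card : (G1.card : ℝ) ≤ (Y : ℝ) ^ (2 / 3 - κ + δ) := by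
    have h1 : (G1.card : ℝ) ≤ (W : ℝ) ^ (2 / 3 - κ0) := by
      apply hn0 W (hYn.trans hYW)
      intro t ht
      rw [hG1, hG, mem_filter, mem_filter] at ht
      obtain ⟨h1, h2, h3, h4⟩ := (hF t).mp ht.1.1
      exact ⟨h1, h2, h3, hradW t h4, ht.2⟩
    refine h1.trans ((Real.rpow_le_rpow_of_exponent_le hw1 (by linarith : 2 / 3 - κ0 ≤
      2 / 3 - κ)).trans (hWpow _ (by linarith) (by linarith)))
  have hG2card : (G2.card : ℝ) ≤ K * ((Y : ℝ) ^ (2 / 3 + δ) *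
      (2 * (Y : ℝ) ^ (-((κ / 4 - δ) / 12))) + (Y : ℝ) ^ (2 / 3 - 1 / 300 + δ : ℝ)) := by
    have h1 : (G2.card : ℝ) ≤ K * ((W : ℝ) ^ (2 / 3 : ℝ) * ((V : ℝ) / P) ^ (-(1 / 12) : ℝ) +
      (W : ℝ) ^ (2 / 3 - 1 / 300 : ℝ)) := by
      apply hbox W ((V : ℝ) / P) hW1 hVP1
      intro t ht
      rw [hG2, hG, mem_filter, mem_filter] at ht
      obtain ⟨h1, h2, h3, h4⟩ := (hF t).mp ht.1.1
      refine ⟨h1, h2, h3, hradW t h4, ?_, not_lt.mp ht.2⟩
      rw [div_lt_iff₀ hp0]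
      have h5 : wOff P (Nn t) ≤ wt (Nn t) * P := by
        rw [wOff_eq]
        exact Nat.mul_le_mul_left _ (rIn_le hP1 _)
      exact_mod_cast lt_of_lt_of_le ht.1.2 h5
    refine h1.trans ?_
    apply mul_le_mul_of_nonneg_left _ hK.le
    apply add_le_add
    · apply mul_le_mul (hWpow _ (by norm_num) (by norm_num)) hVP12 (by positivity)
        (by positivity)
    · exact hWpow _ (by norm_num) (by norm_num)
  have hE1 := err_large (fun t => wOff P (Nn t)) V hV1 G1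
  set D : ℝ := Cd * (Y : ℝ) ^ (κ / 400) with hD
  have hD1 : 1 ≤ D := by
    have := Real.one_le_rpow hy1 (show 0 ≤ κ / 400 by positivity)
    rw [hD]
    nlinarith
  have hE2 := err_small (fun t => wOff P (Nn t)) V G2 D hD1 (by
    intro t ht
    rw [hG2, hG, mem_filter, mem_filter] at ht
    obtain ⟨h1, h2, h3, h4⟩ := (hF t).mp ht.1.1
    have hWp := wOff_pos P (Nn_pos h1 h2)
    refine ⟨hWp, ?_⟩
    have hc := not_lt.mp ht.2
    refine (hdiv _ hWp.ne').trans ?_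
    rw [hD]
    apply mul_le_mul_of_nonneg_left _ (by linarith)
    have ha0 : (0 : ℝ) < t.1 := by exact_mod_cast h1
    have hb0 : (0 : ℝ) < t.2 := by exact_mod_cast h2
    have h5 : ((wOff P (Nn t) : ℕ) : ℝ) ≤ (Y : ℝ) ^ (2 : ℝ) := by
      calc ((wOff P (Nn t) : ℕ) : ℝ) ≤ (Nn t : ℕ) := by exact_mod_cast wOff_le P _
        _ = t.1 * t.2 * ((t.1 : ℝ) + t.2) := by unfold Nn; push_cast; ring
        _ ≤ X * X * X := by
            have e1 : (t.1 : ℝ) ≤ X := by linarith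
            have e2 : (t.2 : ℝ) ≤ X := by linarith
            gcongr
        _ = (W : ℝ) ^ (3 * (1 / 3 + 1 / 1000) : ℝ) := by
            rw [hX, ← Real.rpow_add hw0, ← Real.rpow_add hw0]
            congr 1
            ring
        _ ≤ ((Y : ℝ) ^ (1 + δ)) ^ (3 * (1 / 3 + 1 / 1000) : ℝ) :=
            Real.rpow_le_rpow hw0.le hWle (by norm_num)
        _ = (Y : ℝ) ^ ((1 + δ) * (3 * (1 / 3 + 1 / 1000)) : ℝ) := by rw [← Real.rpow_mul hy0.le]
        _ ≤ (Y : ℝ) ^ (2 : ℝ) := by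
            apply Real.rpow_le_rpow_of_exponent_le hy1
            rw [hδ]
            linarith
    calc ((wOff P (Nn t) : ℕ) : ℝ) ^ (κ / 800) ≤ ((Y : ℝ) ^ (2 : ℝ)) ^ (κ / 800) :=
          Real.rpow_le_rpow (by positivity) h5 (by positivity)
      _ = (Y : ℝ) ^ (κ / 400) := by
          rw [← Real.rpow_mul hy0.le]
          congr 1
          ring)
  set R : ℝ := (Y : ℝ) ^ (2 / 3 - κ / 80) with hR
  have hR0 : 0 < R := by positivity
  have hmono : ∀ a : ℝ, a ≤ 2 / 3 - κ / 80 → (Y : ℝ) ^ a ≤ R := fun a ha =>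
    Real.rpow_le_rpow_of_exponent_le hy1 ha
  -- bound 1
  have b1 : 2 * (V : ℝ) ^ 2 * G1.card ≤ 2 * R := by
    have h1 : (V : ℝ) ^ 2 ≤ (Y : ℝ) ^ (κ / 2) := by
      calc (V : ℝ) ^ 2 ≤ ((Y : ℝ) ^ (κ / 4)) ^ 2 := by gcongr
        _ = (Y : ℝ) ^ (κ / 2) := by
            rw [← Real.rpow_natCast, ← Real.rpow_mul hy0.le]
            congr 1
            push_cast
            ring
    calc 2 * (V : ℝ) ^ 2 * G1.card ≤ 2 * (Y : ℝ) ^ (κ / 2) * (Y : ℝ) ^ (2 / 3 - κ + δ) := by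
          gcongr
      _ = 2 * (Y : ℝ) ^ (κ / 2 + (2 / 3 - κ + δ)) := by rw [mul_assoc, ← Real.rpow_add hy0]
      _ ≤ 2 * R := by
          apply mul_le_mul_of_nonneg_left (hmono _ _) (by norm_num)
          rw [hδ]
          linarith
  -- bound 2
  have b2 : 2 * D ^ 2 * G2.card ≤ 2 * Cd ^ 2 * (K * 3) * R := by
    have h1 : D ^ 2 = Cd ^ 2 * (Y : ℝ) ^ (κ / 200) := by
      rw [hD, mul_pow, ← Real.rpow_natCast ((Y : ℝ) ^ (κ / 400)), ← Real.rpow_mul hy0.le]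
      congr 2
      push_cast
      ring
    have h2 : (Y : ℝ) ^ (2 / 3 + δ) * (2 * (Y : ℝ) ^ (-((κ / 4 - δ) / 12))) ≤
        2 * (Y : ℝ) ^ (2 / 3 - κ / 80 - κ / 200) := by
      calc (Y : ℝ) ^ (2 / 3 + δ) * (2 * (Y : ℝ) ^ (-((κ / 4 - δ) / 12))) =
            2 * ((Y : ℝ) ^ (2 / 3 + δ) * (Y : ℝ) ^ (-((κ / 4 - δ) / 12))) := by ring
        _ = 2 * (Y : ℝ) ^ (2 / 3 + δ + -((κ / 4 - δ) / 12)) := by
            rw [← Real.rpow_add hy0]
        _ ≤ 2 * (Y : ℝ) ^ (2 / 3 - κ / 80 - κ / 200) := by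
            apply mul_le_mul_of_nonneg_left _ (by norm_num)
            apply Real.rpow_le_rpow_of_exponent_le hy1
            rw [hδ]
            linarith
    have h3 : (Y : ℝ) ^ (2 / 3 - 1 / 300 + δ : ℝ) ≤ (Y : ℝ) ^ (2 / 3 - κ / 80 - κ / 200) := by
      apply Real.rpow_le_rpow_of_exponent_le hy1
      rw [hδ]
      linarith
    have h4 : (G2.card : ℝ) ≤ K * (3 * (Y : ℝ) ^ (2 / 3 - κ / 80 - κ / 200)) := by
      refine hG2card.trans ?_
      apply mul_le_mul_of_nonneg_left _ hK.le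
      linarith
    have h5 : (Y : ℝ) ^ (κ / 200) * (Y : ℝ) ^ (2 / 3 - κ / 80 - κ / 200) ≤ R := by
      rw [← Real.rpow_add hy0]
      apply hmono
      linarith
    calc 2 * D ^ 2 * G2.card ≤ 2 * (Cd ^ 2 * (Y : ℝ) ^ (κ / 200)) *
          (K * (3 * (Y : ℝ) ^ (2 / 3 - κ / 80 - κ / 200))) := by
            rw [h1]
            gcongr
      _ = 2 * Cd ^ 2 * (K * 3) * ((Y : ℝ) ^ (κ / 200) *
          (Y : ℝ) ^ (2 / 3 - κ / 80 - κ / 200)) := by ring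
      _ ≤ 2 * Cd ^ 2 * (K * 3) * R := by gcongr
  -- bound 3
  have b3 : C1 * √Y * (V : ℝ) ^ 5 ≤ C1 * R := by
    have h1 : (V : ℝ) ^ 5 ≤ (Y : ℝ) ^ (5 * κ / 4) := by
      calc (V : ℝ) ^ 5 ≤ ((Y : ℝ) ^ (κ / 4)) ^ 5 := by gcongr
        _ = (Y : ℝ) ^ (5 * κ / 4) := by
            rw [← Real.rpow_natCast, ← Real.rpow_mul hy0.le]
            congr 1
            push_cast
            ring
    calc C1 * √Y * (V : ℝ) ^ 5 ≤ C1 * (Y : ℝ) ^ (1 / 2 : ℝ) * (Y : ℝ) ^ (5 * κ / 4) := by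
          rw [Real.sqrt_eq_rpow]
          gcongr
      _ = C1 * (Y : ℝ) ^ (1 / 2 + 5 * κ / 4) := by rw [mul_assoc, ← Real.rpow_add hy0]
      _ ≤ C1 * R := by
          apply mul_le_mul_of_nonneg_left (hmono _ _) hC1.le
          linarith
  -- bound 4
  have b4 : Q * (Y : ℝ) ^ (2 / 3 : ℝ) * ((V : ℝ) ^ (-(1 / 12) : ℝ) * (P * H)) ≤
      Q * (2 * H) * R := by
    calc Q * (Y : ℝ) ^ (2 / 3 : ℝ) * ((V : ℝ) ^ (-(1 / 12) : ℝ) * (P * H)) ≤
          Q * (Y : ℝ) ^ (2 / 3 : ℝ) * ((2 * (Y : ℝ) ^ (-(κ / 48))) * ((Y : ℝ) ^ δ * H)) := by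
            gcongr
      _ = Q * (2 * H) * ((Y : ℝ) ^ (2 / 3 : ℝ) * (Y : ℝ) ^ (-(κ / 48)) * (Y : ℝ) ^ δ) := by ring
      _ = Q * (2 * H) * (Y : ℝ) ^ (2 / 3 + -(κ / 48) + δ) := by
          rw [← Real.rpow_add hy0, ← Real.rpow_add hy0]
      _ ≤ Q * (2 * H) * R := by
          apply mul_le_mul_of_nonneg_left (hmono _ _) (by positivity)
          rw [hδ]
          linarith
  -- assembly
  set S1 := ∑ v ∈ Icc 1 V, ∑ m ∈ v.divisors,
        ((ArithmeticFunction.moebius m : ℤ) : ℝ) *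
          (Ac (v * rOff P v) ((Y : ℝ) * v / m) : ℝ) with hS1
  set S2 := ∑ v ∈ Icc 1 V, hP P v with hS2
  set S3 := ∑' v : ℕ, hP P v with hS3
  have hC : CR P = Q * S3 := by
    rw [CR_eq (by omega), hQ]
    ring
  have t1 : |(F.card : ℝ) - S1| ≤ 2 * R + 2 * Cd ^ 2 * (K * 3) * R := by
    refine hinv.trans ?_
    rw [← hsplit]
    linarith
  have t2 : |S1 - Q * (Y : ℝ) ^ (2 / 3 : ℝ) * S2| ≤ C1 * R := hmain.trans b3
  have t3 : |Q * (Y : ℝ) ^ (2 / 3 : ℝ) * S2 - Q * (Y : ℝ) ^ (2 / 3 : ℝ) * S3| ≤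
      Q * (2 * H) * R := by
    rw [← mul_sub, abs_mul, abs_of_pos (by positivity : 0 < Q * (Y : ℝ) ^ (2 / 3 : ℝ))]
    refine (mul_le_mul_of_nonneg_left (hser.trans
      (mul_le_mul_of_nonneg_left hHP (by positivity))) (by positivity)).trans b4
  have t4 : |(F.card : ℝ) - CR P * (Y : ℝ) ^ (2 / 3 : ℝ)| ≤ CC * R := by
    have e : (F.card : ℝ) - CR P * (Y : ℝ) ^ (2 / 3 : ℝ) = ((F.card : ℝ) - S1) +
        (S1 - Q * (Y : ℝ) ^ (2 / 3 : ℝ) * S2) +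
        (Q * (Y : ℝ) ^ (2 / 3 : ℝ) * S2 - Q * (Y : ℝ) ^ (2 / 3 : ℝ) * S3) := by
      rw [hC]
      ring
    rw [e]
    refine (abs_add_three _ _ _).trans ?_
    rw [hCC]
    linarith
  refine t4.trans ?_
  calc CC * R ≤ (Y : ℝ) ^ (κ / 80 - κ / 100) * R := mul_le_mul_of_nonneg_right hYlarge hR0.le
    _ = (Y : ℝ) ^ (2 / 3 - κ / 100) := by
        rw [hR, ← Real.rpow_add hy0]
        congr 1
        ring

end Pool.Agent.Lib.AbcT
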