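import Mathlib
import Pool.Agent.Lib.AbcT.Rel
import Pool.Agent.Lib.AbcS.BoxF
import Pool.Agent.Lib.AbcG.Main

/-!
# The singular series of the twisted count

`CR (2 d) = CR 2 * ∏_{p ∣ d} gP p / fP p` for odd squarefree `d`, and the Euler product of
`∑_d ww d`, `ww d = d ^ (-4/3) ∏_{p ∣ d} gP p / fP p`.
-/

open Finset Filter

namespace Pool.Agent.Lib.AbcT

open Pool.Agent.Lib.AbcG

theorem fP_ge {p : ℕ} (hp : p.Prime) : 1 / 2 ≤ fP p := by
  unfold fP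
  have hp2 : (2 : ℝ) ≤ p := by exact_mod_cast hp.two_le
  have h1 : 1 / (p : ℝ) ≤ 1 / 2 := one_div_le_one_div_of_le (by norm_num) hp2
  have h2 : 0 ≤ 1 / (p : ℝ) := by positivity
  have h3 : 0 ≤ (p : ℝ) ^ (-(4 / 3) : ℝ) := by positivity
  have h4 : 0 ≤ (p : ℝ) ^ (-(5 / 3) : ℝ) := by positivity
  nlinarith

theorem fP_pos {p : ℕ} (hp : p.Prime) : 0 < fP p := by
  have := fP_ge hp
  linarith

theorem gP_le {p : ℕ} (hp : p.Prime) : gP p ≤ 8 := by
  unfold gP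
  have hp2 : (2 : ℝ) ≤ p := by exact_mod_cast hp.two_le
  have h1 : 1 / (p : ℝ) ≤ 1 / 2 := one_div_le_one_div_of_le (by norm_num) hp2
  have h2 : 0 ≤ 1 / (p : ℝ) := by positivity
  have h3 : (p : ℝ) ^ (-(1 / 3) : ℝ) ≤ 1 := by
    apply Real.rpow_le_one_of_one_le_of_nonpos (by linarith) (by norm_num)
  have h4 : (p : ℝ) ^ (-(2 / 3) : ℝ) ≤ 1 := by
    apply Real.rpow_le_one_of_one_le_of_nonpos (by linarith) (by norm_num)
  have h5 : 0 ≤ (p : ℝ) ^ (-(1 / 3) : ℝ) := by positivity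
  have h6 : 0 ≤ (p : ℝ) ^ (-(2 / 3) : ℝ) := by positivity
  nlinarith

theorem gP_pos {p : ℕ} (hp : p.Prime) : 0 < gP p := by
  unfold gP
  have hp2 : (2 : ℝ) ≤ p := by exact_mod_cast hp.two_le
  have h1 : 1 / (p : ℝ) ≤ 1 / 2 := one_div_le_one_div_of_le (by norm_num) hp2
  have h2 : 0 ≤ 1 / (p : ℝ) := by positivity
  have h5 : 0 ≤ (p : ℝ) ^ (-(1 / 3) : ℝ) := by positivity
  have h6 : 0 ≤ (p : ℝ) ^ (-(2 / 3) : ℝ) := by positivity
  apply mul_pos <;> linarith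

/-- The ratio of the local factors. -/
noncomputable def qP (p : ℕ) : ℝ := gP p / fP p

theorem qP_pos {p : ℕ} (hp : p.Prime) : 0 < qP p := div_pos (gP_pos hp) (fP_pos hp)

theorem qP_le {p : ℕ} (hp : p.Prime) : qP p ≤ 16 := by
  unfold qP
  rw [div_le_iff₀ (fP_pos hp)]
  have := fP_ge hp
  have := gP_le hp
  linarith

theorem hasProd_ratio {d : ℕ} (hd : d ≠ 0) :
    HasProd (fun p : Nat.Primes => if (p : ℕ) ∣ d then qP p else 1)
      (∏ p ∈ d.primeFactors, qP p) := by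
  classical
  have h1 : HasProd (fun p : Nat.Primes => if (p : ℕ) ∣ d then qP p else 1)
      (∏ p ∈ d.primeFactors.subtype Nat.Prime, if (p : ℕ) ∣ d then qP p else 1) := by
    apply hasProd_prod_of_ne_finset_one
    intro p hp
    rw [if_neg]
    intro h
    exact hp (Finset.mem_subtype.2 (Nat.mem_primeFactors.2 ⟨p.2, h, hd⟩))
  have h2 : (∏ p ∈ d.primeFactors.subtype Nat.Prime, if ((p : {p : ℕ // p.Prime}) : ℕ) ∣ d then
      qP p else 1) = ∏ p ∈ d.primeFactors, if p ∣ d then qP p else 1 := by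
    rw [Finset.prod_subtype_eq_prod_filter (s := d.primeFactors) (p := Nat.Prime)
      (f := fun p => if p ∣ d then qP p else 1)]
    congr 1
    apply Finset.filter_true_of_mem
    intro p hp
    exact Nat.prime_of_mem_primeFactors hp
  have h3 : (∏ p ∈ d.primeFactors, if p ∣ d then qP p else 1) = ∏ p ∈ d.primeFactors, qP p := by
    apply Finset.prod_congr rfl
    intro p hp
    rw [if_pos (Nat.dvd_of_mem_primeFactors hp)]
  rw [← h3, ← h2]
  exact h1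

theorem CR_mul {d : ℕ} (hd : d ≠ 0) (h2 : ¬ 2 ∣ d) :
    CR (2 * d) = CR 2 * ∏ p ∈ d.primeFactors, qP p := by
  have h1 := hasProd_fR (P := 2) (by norm_num)
  have h3 := h1.mul (hasProd_ratio hd)
  have h4 := hasProd_fR (P := 2 * d) (by omega)
  have e : (fun p : Nat.Primes => (if (p : ℕ) ∣ 2 then gP p else fP p) *
      (if (p : ℕ) ∣ d then qP p else 1)) =
      fun p : Nat.Primes => if (p : ℕ) ∣ 2 * d then gP p else fP p := by
    funext p
    have hp := p.2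
    by_cases hp2 : (p : ℕ) ∣ 2
    · have hpe : (p : ℕ) = 2 := (Nat.prime_dvd_prime_iff_eq hp Nat.prime_two).1 hp2
      rw [if_pos hp2, if_neg (by rw [hpe]; exact h2), if_pos (hp2.mul_right d), mul_one]
    · by_cases hpd : (p : ℕ) ∣ d
      · rw [if_neg hp2, if_pos hpd, if_pos (hpd.mul_left 2)]
        unfold qP
        rw [mul_div_cancel₀ _ (fP_pos hp).ne']
      · rw [if_neg hp2, if_neg hpd, if_neg, mul_one]
        intro h
        rcases hp.dvd_mul.1 h with h' | h'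
        · exact hp2 h'
        · exact hpd h'
  rw [e] at h3
  unfold CR
  rw [h4.tprod_eq, h1.tprod_eq, HasProd.unique h4 h3]
  ring

theorem CR_nonneg {P : ℕ} (hP0 : P ≠ 0) : 0 ≤ CR P := by
  rw [CR_eq hP0]
  have h1 : 0 ≤ ∑' v : ℕ, Pool.Agent.Lib.AbcT.hP P v := tsum_nonneg (fun v => hP_nonneg P v)
  have h2 := c0_pos
  have h3 := Real.pi_pos
  positivity

/-! ### The sum over the twists -/

/-- The weight of the odd squarefree twist `d`. -/
noncomputable def ww (d : ℕ) : ℝ :=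
  if Squarefree d ∧ ¬ 2 ∣ d then (∏ p ∈ d.primeFactors, qP p) * (d : ℝ) ^ (-(4 / 3) : ℝ) else 0

theorem prod_qP_pos (d : ℕ) : 0 < ∏ p ∈ d.primeFactors, qP p :=
  Finset.prod_pos fun _ hp => qP_pos (Nat.prime_of_mem_primeFactors hp)

theorem prod_qP_le (d : ℕ) : ∏ p ∈ d.primeFactors, qP p ≤ 16 ^ d.primeFactors.card := by
  rw [← Finset.prod_const]
  apply Finset.prod_le_prod
  · intro p hp
    exact (qP_pos (Nat.prime_of_mem_primeFactors hp)).le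
  · intro p hp
    exact qP_le (Nat.prime_of_mem_primeFactors hp)

/-- The number of primes of `d` is small. -/
theorem sixteen_pow (ε : ℝ) (hε : 0 < ε) : ∃ C : ℝ, 1 ≤ C ∧ ∀ d : ℕ, 1 ≤ d →
    ∏ p ∈ d.primeFactors, qP p ≤ C * (d : ℝ) ^ ε := by
  obtain ⟨C, hC1, hC⟩ := Pool.Agent.Lib.AbcS.four_pow_le (ε / 2) (by positivity)
  refine ⟨C ^ 2, by nlinarith, ?_⟩
  intro d hd
  have hd0 : (0 : ℝ) ≤ d := Nat.cast_nonneg d
  refine (prod_qP_le d).trans ?_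
  have h1 := hC d hd
  calc (16 : ℝ) ^ d.primeFactors.card = ((4 : ℝ) ^ d.primeFactors.card) ^ 2 := by
        rw [← pow_mul, mul_comm, pow_mul]
        norm_num
    _ ≤ (C * (d : ℝ) ^ (ε / 2)) ^ 2 := pow_le_pow_left₀ (by positivity) h1 2
    _ = C ^ 2 * (d : ℝ) ^ ε := by
        rw [mul_pow, ← Real.rpow_natCast ((d : ℝ) ^ (ε / 2)), ← Real.rpow_mul hd0]
        congr 2
        push_cast
        ring

theorem ww_nonneg (d : ℕ) : 0 ≤ ww d := by
  unfold ww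
  split_ifs
  · exact mul_nonneg (prod_qP_pos d).le (by positivity)
  · exact le_rfl

theorem ww_zero : ww 0 = 0 := by
  unfold ww
  rw [if_neg]
  simp

theorem ww_one : ww 1 = 1 := by
  unfold ww
  rw [if_pos ⟨squarefree_one, by norm_num⟩]
  simp

theorem ww_mul {m n : ℕ} (h : m.Coprime n) : ww (m * n) = ww m * ww n := by
  have h2 : (Squarefree (m * n) ∧ ¬ 2 ∣ m * n) ↔
      (Squarefree m ∧ ¬ 2 ∣ m) ∧ (Squarefree n ∧ ¬ 2 ∣ n) := by
    rw [Nat.prime_two.dvd_mul, not_or, Nat.squarefree_mul h]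
    tauto
  unfold ww
  by_cases a1 : Squarefree m ∧ ¬ 2 ∣ m
  · by_cases a2 : Squarefree n ∧ ¬ 2 ∣ n
    · rw [if_pos (h2.2 ⟨a1, a2⟩), if_pos a1, if_pos a2, prod_pf_mul _ h, Nat.cast_mul,
        Real.mul_rpow (Nat.cast_nonneg _) (Nat.cast_nonneg _)]
      ring
    · rw [if_neg (fun h' => a2 (h2.1 h').2), if_neg a2, mul_zero]
  · rw [if_neg (fun h' => a1 (h2.1 h').1), if_neg a1, zero_mul]

theorem ww_le (ε : ℝ) (hε : 0 < ε) : ∃ C : ℝ, 1 ≤ C ∧ ∀ d : ℕ, ww d ≤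
    C * (d : ℝ) ^ (-(4 / 3) + ε) := by
  obtain ⟨C, hC1, hC⟩ := sixteen_pow ε hε
  refine ⟨C, hC1, ?_⟩
  intro d
  rcases Nat.eq_zero_or_pos d with rfl | hd
  · rw [ww_zero]
    positivity
  · have hd0 : (0 : ℝ) < d := by exact_mod_cast hd
    unfold ww
    split_ifs
    · rw [Real.rpow_add hd0]
      calc (∏ p ∈ d.primeFactors, qP p) * (d : ℝ) ^ (-(4 / 3) : ℝ) ≤
            (C * (d : ℝ) ^ ε) * (d : ℝ) ^ (-(4 / 3) : ℝ) :=
            mul_le_mul_of_nonneg_right (hC d hd) (by positivity)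
        _ = C * ((d : ℝ) ^ (-(4 / 3) : ℝ) * (d : ℝ) ^ ε) := by ring
    · positivity

theorem summable_ww : Summable ww := by
  obtain ⟨C, hC1, hC⟩ := ww_le (1 / 12) (by norm_num)
  refine Summable.of_nonneg_of_le ww_nonneg hC ?_
  exact (Real.summable_nat_rpow.2 (by norm_num)).mul_left C

theorem summable_ww' : Summable (fun d : ℕ => ww d * (d : ℝ) ^ (1 / 12 : ℝ)) := by
  obtain ⟨C, hC1, hC⟩ := ww_le (1 / 12) (by norm_num)
  refine Summable.of_nonneg_of_le (fun d => mul_nonneg (ww_nonneg d) (by positivity))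
    (fun d => ?_) ((Real.summable_nat_rpow.2
      (by norm_num : (-(4 / 3) + 1 / 12 + 1 / 12 : ℝ) < -1)).mul_left C)
  rcases Nat.eq_zero_or_pos d with rfl | hd
  · rw [ww_zero, zero_mul]
    positivity
  · have hd0 : (0 : ℝ) < d := by exact_mod_cast hd
    rw [Real.rpow_add hd0 (-(4 / 3) + 1 / 12), ← mul_assoc]
    exact mul_le_mul_of_nonneg_right (hC d) (by positivity)

/-- The factor of the twisted count at an odd prime, divided by `fP p`. -/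
theorem tsum_ww {p : ℕ} (hp : p.Prime) : ∑' k : ℕ, ww (p ^ k) =
    if p = 2 then 1 else 1 + qP p * (p : ℝ) ^ (-(4 / 3) : ℝ) := by
  rw [tsum_eq_sum (s := range 2)]
  · rw [sum_range_succ, sum_range_one, pow_zero, pow_one, ww_one]
    unfold ww
    by_cases h2 : p = 2
    · rw [if_pos h2, if_neg, add_zero]
      rw [h2]
      simp
    · have h3 : ¬ 2 ∣ p := fun h => h2 ((Nat.prime_dvd_prime_iff_eq Nat.prime_two hp).1 h).symm
      rw [if_neg h2, if_pos ⟨hp.squarefree, h3⟩, hp.primeFactors, prod_singleton]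
  · intro k hk
    rw [mem_range, not_lt] at hk
    unfold ww
    rw [if_neg]
    rintro ⟨h1, _⟩
    have h3 := (Nat.squarefree_pow_iff hp.one_lt.ne' (by omega)).1 h1
    omega

theorem hasProd_ww : HasProd (fun p : Nat.Primes => if (p : ℕ) = 2 then (1 : ℝ) else
    1 + qP p * (p : ℝ) ^ (-(4 / 3) : ℝ)) (∑' d : ℕ, ww d) := by
  have h := EulerProduct.eulerProduct_hasProd (f := ww) ww_one (fun {m n} h => ww_mul h)
    summable_ww.norm ww_zero
  have e : (fun p : Nat.Primes => ∑' e : ℕ, ww ((p : ℕ) ^ e)) = fun p : Nat.Primes =>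
      if (p : ℕ) = 2 then (1 : ℝ) else 1 + qP p * (p : ℝ) ^ (-(4 / 3) : ℝ) :=
    funext (fun p => tsum_ww p.2)
  rw [e] at h
  exact h

/-- The factor of the constant at the odd prime `p`. -/
noncomputable def eP (p : ℕ) : ℝ := (1 - 1 / (p : ℝ)) * (1 + 1 / (p : ℝ) +
    4 * (p : ℝ) ^ (-(4 / 3) : ℝ) + 6 * (p : ℝ) ^ (-(5 / 3) : ℝ) + 3 * (p : ℝ) ^ (-2 : ℝ) +
    (p : ℝ) ^ (-(7 / 3) : ℝ))

theorem eP_eq {p : ℕ} (hp : p.Prime) : fP p * (1 + qP p * (p : ℝ) ^ (-(4 / 3) : ℝ)) = eP p := by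
  have hp0 : (0 : ℝ) < (p : ℝ) := by exact_mod_cast hp.pos
  have h1 : fP p * (1 + qP p * (p : ℝ) ^ (-(4 / 3) : ℝ)) =
      fP p + gP p * (p : ℝ) ^ (-(4 / 3) : ℝ) := by
    unfold qP
    have := (fP_pos hp).ne'
    field_simp
  rw [h1]
  unfold fP gP eP
  have e1 : (p : ℝ) ^ (-(4 / 3) : ℝ) = (p : ℝ)⁻¹ * (p : ℝ) ^ (-(1 / 3) : ℝ) := by
    rw [show (-(4 / 3) : ℝ) = -1 + -(1 / 3) by norm_num, Real.rpow_add hp0, Real.rpow_neg_one]
  have e2 : (p : ℝ) ^ (-(5 / 3) : ℝ) = (p : ℝ)⁻¹ * ((p : ℝ) ^ (-(1 / 3) : ℝ)) ^ 2 := by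
    rw [← Real.rpow_natCast, ← Real.rpow_mul hp0.le, show (-(5 / 3) : ℝ) =
      -1 + -(1 / 3) * ((2 : ℕ) : ℝ) by norm_num, Real.rpow_add hp0, Real.rpow_neg_one]
  have e3 : (p : ℝ) ^ (-(2 / 3) : ℝ) = ((p : ℝ) ^ (-(1 / 3) : ℝ)) ^ 2 := by
    rw [← Real.rpow_natCast, ← Real.rpow_mul hp0.le]
    norm_num
  have e4 : (p : ℝ) ^ (-2 : ℝ) = (p : ℝ)⁻¹ * (p : ℝ)⁻¹ := by
    rw [show (-2 : ℝ) = -1 + -1 by norm_num, Real.rpow_add hp0, Real.rpow_neg_one]
  have e5 : (p : ℝ) ^ (-(7 / 3) : ℝ) = (p : ℝ)⁻¹ * (p : ℝ)⁻¹ * (p : ℝ) ^ (-(1 / 3) : ℝ) := by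
    rw [show (-(7 / 3) : ℝ) = -1 + -1 + -(1 / 3) by norm_num, Real.rpow_add hp0,
      Real.rpow_add hp0, Real.rpow_neg_one]
  have e6 : ((p : ℝ) ^ (-(1 / 3) : ℝ)) ^ 3 = (p : ℝ)⁻¹ := by
    rw [← Real.rpow_natCast, ← Real.rpow_mul hp0.le, ← Real.rpow_neg_one]
    congr 1
    norm_num
  rw [e1, e2, e3, e4, e5, one_div]
  obtain ⟨x, hx⟩ : ∃ x, x = (p : ℝ) ^ (-(1 / 3) : ℝ) := ⟨_, rfl⟩
  obtain ⟨y, hy⟩ : ∃ y, y = (p : ℝ)⁻¹ := ⟨_, rfl⟩
  rw [← hx, ← hy] at e6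
  rw [← hx, ← hy]
  linear_combination (3 * y * (1 - y)) * e6

/-- The constant of the twisted count. -/
noncomputable def CE : ℝ := 2 * c0 * gP 2 * ∏' p : Nat.Primes, if (p : ℕ) = 2 then 1 else eP p

theorem hasProd_eP : HasProd (fun p : Nat.Primes => if (p : ℕ) = 2 then gP p else eP p)
    (6 / Real.pi ^ 2 * (∑' v : ℕ, hP 2 v) * ∑' d : ℕ, ww d) := by
  have h1 := (hasProd_fR (P := 2) (by norm_num)).mul hasProd_ww
  have e : (fun p : Nat.Primes => (if (p : ℕ) ∣ 2 then gP p else fP p) *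
      (if (p : ℕ) = 2 then (1 : ℝ) else 1 + qP p * (p : ℝ) ^ (-(4 / 3) : ℝ))) =
      fun p : Nat.Primes => if (p : ℕ) = 2 then gP p else eP p := by
    funext p
    have hp := p.2
    by_cases h2 : (p : ℕ) = 2
    · rw [if_pos h2, if_pos h2, if_pos (by rw [h2]), mul_one]
    · have h3 : ¬ (p : ℕ) ∣ 2 := fun h => h2 ((Nat.prime_dvd_prime_iff_eq hp Nat.prime_two).1 h)
      rw [if_neg h2, if_neg h2, if_neg h3, eP_eq hp]
  rw [e] at h1
  exact h1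

end Pool.Agent.Lib.AbcT
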