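import Mathlib
import Pool.Agent.Lib.AbcS.BoxF
import Pool.Agent.Lib.AbcT.Rel

/-!
# A uniform upper bound for the relative count

Dyadic boxes for the relative radicals of the three members and `AbcS.box_allF`.
-/

open Finset Filter

namespace Pool.Agent.Lib.AbcT

open Pool.Agent.Lib.AbcG
open Pool.Agent.Lib.AbcS (rF InBoxF)
open Pool.Agent.Lib.AbcB (DD)

theorem rF_mul {F : Finset ℕ} {m n : ℕ} (h : m.Coprime n) : rF F (m * n) = rF F m * rF F n := by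
  unfold rF
  rw [h.primeFactors_mul, Finset.union_sdiff_distrib, Finset.prod_union]
  exact h.disjoint_primeFactors.mono Finset.sdiff_subset Finset.sdiff_subset

theorem rOff_eq_rF (P n : ℕ) : rOff P n = rF P.primeFactors n := rfl

/-- The relative radical of a triple. -/
theorem rOff_Nn (P : ℕ) {t : ℕ × ℕ} (h : t.1.Coprime t.2) : rOff P (Nn t) =
    rF P.primeFactors t.1 * rF P.primeFactors t.2 * rF P.primeFactors (t.1 + t.2) := by
  rw [rOff_eq_rF]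
  unfold Nn
  have h1 : t.1.Coprime (t.1 + t.2) := (Nat.coprime_self_add_right).mpr h
  have h2 : t.2.Coprime (t.1 + t.2) := (Nat.coprime_add_self_right).mpr h.symm
  rw [rF_mul (Nat.Coprime.mul_left h1 h2), rF_mul h]

theorem DD_le (A B C : ℕ) (hA : 1 ≤ A) (hB : 1 ≤ B) (hC : 1 ≤ C) :
    DD A B C ≤ ((A : ℝ) * B * C) ^ (2 / 3 : ℝ) := by
  have hA' : (1 : ℝ) ≤ A := by exact_mod_cast hA
  have hB' : (1 : ℝ) ≤ B := by exact_mod_cast hB
  have hC' : (1 : ℝ) ≤ C := by exact_mod_cast hC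
  obtain ⟨m, hm⟩ : ∃ m : ℝ, m = max (A : ℝ) (max (B : ℝ) C) := ⟨_, rfl⟩
  have hAm : (A : ℝ) ≤ m := by rw [hm]; exact le_max_left _ _
  have hBm : (B : ℝ) ≤ m := by rw [hm]; exact (le_max_left _ _).trans (le_max_right _ _)
  have hCm : (C : ℝ) ≤ m := by rw [hm]; exact (le_max_right _ _).trans (le_max_right _ _)
  have hm0 : 0 < m := by linarith
  obtain ⟨x, hx⟩ : ∃ x : ℝ, x = (A : ℝ) * B * C := ⟨_, rfl⟩
  have hx0 : 0 < x := by rw [hx]; positivity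
  have hxm : x ≤ m ^ (3 : ℝ) := by
    rw [hx]
    calc (A : ℝ) * B * C ≤ m * m * m := by gcongr
      _ = m ^ (3 : ℝ) := by
          rw [show (3 : ℝ) = ((3 : ℕ) : ℝ) by norm_num, Real.rpow_natCast]
          ring
  have h1 : x ^ (1 / 3 : ℝ) ≤ m := by
    calc x ^ (1 / 3 : ℝ) ≤ (m ^ (3 : ℝ)) ^ (1 / 3 : ℝ) := Real.rpow_le_rpow hx0.le hxm (by norm_num)
      _ = m := by
          rw [← Real.rpow_mul hm0.le]
          norm_num
  unfold DD
  rw [← hm, ← hx, div_le_iff₀ hm0]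
  calc x = x ^ (2 / 3 : ℝ) * x ^ (1 / 3 : ℝ) := by
        rw [← Real.rpow_add hx0]
        norm_num
    _ ≤ x ^ (2 / 3 : ℝ) * m := mul_le_mul_of_nonneg_left h1 (by positivity)

theorem log2_le (η : ℝ) (hη : 0 < η) (Z : ℕ) (hZ : 1 ≤ Z) :
    ((Nat.log 2 Z : ℕ) : ℝ) + 1 ≤ (2 / η + 1) * (Z : ℝ) ^ η := by
  have hZ' : (1 : ℝ) ≤ Z := by exact_mod_cast hZ
  have h1 : ((2 : ℝ)) ^ (Nat.log 2 Z) ≤ Z := by
    exact_mod_cast Nat.pow_log_le_self 2 (by omega)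
  have h2 : (Nat.log 2 Z : ℝ) * Real.log 2 ≤ Real.log Z := by
    rw [← Real.log_pow]
    exact Real.log_le_log (by positivity) h1
  have h3 : Real.log Z ≤ (Z : ℝ) ^ η / η := Real.log_le_rpow_div (by linarith) hη
  have h4 : (0.5 : ℝ) ≤ Real.log 2 := by
    have := Real.log_two_gt_d9
    linarith
  have h5 : (Nat.log 2 Z : ℝ) * 0.5 ≤ (Z : ℝ) ^ η / η := by
    have : (0 : ℝ) ≤ Nat.log 2 Z := Nat.cast_nonneg _
    nlinarith
  have h6 : 1 ≤ (Z : ℝ) ^ η := Real.one_le_rpow hZ' hη.le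
  have h7 : 2 * ((Z : ℝ) ^ η / η) = 2 / η * (Z : ℝ) ^ η := by ring
  linarith

/-- The uniform upper bound. -/
theorem rel_upper (ε : ℝ) (hε : 0 < ε) : ∃ K : ℝ, 1 ≤ K ∧ ∀ (P Z : ℕ), 1 ≤ P → 1 ≤ Z →
    ∀ T : Finset (ℕ × ℕ),
      (∀ t ∈ T, 0 < t.1 ∧ 0 < t.2 ∧ t.1.Coprime t.2 ∧ rOff P (Nn t) ≤ Z) →
      (T.card : ℝ) ≤ K * (Z : ℝ) ^ (2 / 3 + ε) * (P : ℝ) ^ ε := by
  classical
  obtain ⟨K, hK, hbox⟩ := Pool.Agent.Lib.AbcS.box_allF (ε / 2) (by positivity)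
  obtain ⟨c, hc⟩ : ∃ c : ℝ, c = (2 / (ε / 6) + 1) ^ 3 := ⟨_, rfl⟩
  have hc1 : 1 ≤ c := by
    rw [hc]
    apply one_le_pow₀
    have : 0 < 2 / (ε / 6) := by positivity
    linarith
  obtain ⟨c8, hc8⟩ : ∃ c8 : ℝ, c8 = (8 : ℝ) ^ (2 / 3 + ε / 2 : ℝ) := ⟨_, rfl⟩
  have hc81 : 1 ≤ c8 := by
    rw [hc8]
    exact Real.one_le_rpow (by norm_num) (by positivity)
  have hcK : 1 ≤ c * K := by nlinarith
  have hcKc : 1 ≤ c * K * c8 := by nlinarith
  refine ⟨c * K * c8, hcKc, ?_⟩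
  intro P Z hP hZ T hT
  have hP' : (1 : ℝ) ≤ P := by exact_mod_cast hP
  have hZ' : (1 : ℝ) ≤ Z := by exact_mod_cast hZ
  obtain ⟨F, hF⟩ : ∃ F : Finset ℕ, F = P.primeFactors := ⟨_, rfl⟩
  obtain ⟨L, hL⟩ : ∃ L : ℕ, L = Nat.log 2 Z := ⟨_, rfl⟩
  obtain ⟨B, hB⟩ : ∃ B : ℝ, B = K * (8 * (Z : ℝ)) ^ (2 / 3 : ℝ) * ((P : ℝ) * (8 * Z)) ^ (ε / 2) :=
    ⟨_, rfl⟩
  have hB0 : 0 ≤ B := by
    rw [hB]
    have : 0 ≤ K := by linarith
    positivity
  let g : ℕ × ℕ → ℕ × ℕ × ℕ := fun t =>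
    (Nat.log 2 (rF F t.1), Nat.log 2 (rF F t.2), Nat.log 2 (rF F (t.1 + t.2)))
  have hmaps : ∀ t ∈ T, g t ∈ (range (L + 1)) ×ˢ (range (L + 1)) ×ˢ (range (L + 1)) := by
    intro t ht
    obtain ⟨h1, h2, h3, h4⟩ := hT t ht
    rw [rOff_Nn P h3, ← hF] at h4
    have p1 := Pool.Agent.Lib.AbcS.rF_pos F t.1
    have p2 := Pool.Agent.Lib.AbcS.rF_pos F t.2
    have p3 := Pool.Agent.Lib.AbcS.rF_pos F (t.1 + t.2)
    have q1 : rF F t.1 ≤ Z := by
      refine le_trans ?_ h4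
      calc rF F t.1 = rF F t.1 * 1 * 1 := by ring
        _ ≤ rF F t.1 * rF F t.2 * rF F (t.1 + t.2) :=
          Nat.mul_le_mul (Nat.mul_le_mul_left _ p2) p3
    have q2 : rF F t.2 ≤ Z := by
      refine le_trans ?_ h4
      calc rF F t.2 = 1 * rF F t.2 * 1 := by ring
        _ ≤ rF F t.1 * rF F t.2 * rF F (t.1 + t.2) :=
          Nat.mul_le_mul (Nat.mul_le_mul_right _ p1) p3
    have q3 : rF F (t.1 + t.2) ≤ Z := by
      refine le_trans ?_ h4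
      calc rF F (t.1 + t.2) = 1 * 1 * rF F (t.1 + t.2) := by ring
        _ ≤ rF F t.1 * rF F t.2 * rF F (t.1 + t.2) :=
          Nat.mul_le_mul_right _ (Nat.mul_le_mul p1 p2)
    simp only [g, mem_product, mem_range, hL]
    exact ⟨Nat.lt_succ_of_le (Nat.log_mono_right q1), Nat.lt_succ_of_le (Nat.log_mono_right q2),
      Nat.lt_succ_of_le (Nat.log_mono_right q3)⟩
  have hfib : ∀ u ∈ (range (L + 1)) ×ˢ (range (L + 1)) ×ˢ (range (L + 1)),
      ((T.filter (fun t => g t = u)).card : ℝ) ≤ B := by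
    rintro ⟨i, j, k⟩ _
    rcases (T.filter (fun t => g t = (i, j, k))).eq_empty_or_nonempty with he | ⟨s, hs⟩
    · rw [he, card_empty, Nat.cast_zero]
      exact hB0
    · have hprod : 2 ^ (i + 1) * 2 ^ (j + 1) * 2 ^ (k + 1) ≤ 8 * Z := by
        rw [mem_filter] at hs
        obtain ⟨h1, h2, h3, h4⟩ := hT s hs.1
        rw [rOff_Nn P h3, ← hF] at h4
        have hg := hs.2
        simp only [g, Prod.mk.injEq] at hg
        obtain ⟨e1, e2, e3⟩ := hg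
        have p1 := Nat.pow_log_le_self 2 (Pool.Agent.Lib.AbcS.rF_pos F s.1).ne'
        have p2 := Nat.pow_log_le_self 2 (Pool.Agent.Lib.AbcS.rF_pos F s.2).ne'
        have p3 := Nat.pow_log_le_self 2 (Pool.Agent.Lib.AbcS.rF_pos F (s.1 + s.2)).ne'
        rw [e1] at p1
        rw [e2] at p2
        rw [e3] at p3
        calc 2 ^ (i + 1) * 2 ^ (j + 1) * 2 ^ (k + 1) = 8 * (2 ^ i * 2 ^ j * 2 ^ k) := by ring
          _ ≤ 8 * Z := Nat.mul_le_mul_left _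
              ((Nat.mul_le_mul (Nat.mul_le_mul p1 p2) p3).trans h4)
      have hb := hbox P (2 ^ (i + 1)) (2 ^ (j + 1)) (2 ^ (k + 1))
        (T.filter (fun t => g t = (i, j, k))) hP (Nat.one_le_two_pow) (Nat.one_le_two_pow)
        (Nat.one_le_two_pow) (by
          intro t ht
          rw [mem_filter] at ht
          obtain ⟨h1, h2, h3, h4⟩ := hT t ht.1
          have hg := ht.2
          simp only [g, Prod.mk.injEq] at hg
          obtain ⟨e1, e2, e3⟩ := hg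
          rw [← hF]
          refine ⟨h1, h2, h3, ?_, ?_, ?_⟩
          · rw [← e1]
            exact (Nat.lt_pow_succ_log_self (by norm_num) _).le
          · rw [← e2]
            exact (Nat.lt_pow_succ_log_self (by norm_num) _).le
          · rw [← e3]
            exact (Nat.lt_pow_succ_log_self (by norm_num) _).le)
      have hprod' : (((2 ^ (i + 1) : ℕ) : ℝ) * ((2 ^ (j + 1) : ℕ) : ℝ) *
          ((2 ^ (k + 1) : ℕ) : ℝ)) ≤ 8 * Z := by exact_mod_cast hprod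
      refine hb.trans ?_
      rw [hB]
      have h5 := DD_le (2 ^ (i + 1)) (2 ^ (j + 1)) (2 ^ (k + 1)) (Nat.one_le_two_pow)
        (Nat.one_le_two_pow) (Nat.one_le_two_pow)
      have h6 : DD (2 ^ (i + 1)) (2 ^ (j + 1)) (2 ^ (k + 1)) ≤ (8 * (Z : ℝ)) ^ (2 / 3 : ℝ) :=
        h5.trans (Real.rpow_le_rpow (by positivity) hprod' (by norm_num))
      have h7 : ((P : ℝ) * ((2 ^ (i + 1) : ℕ) : ℝ) * ((2 ^ (j + 1) : ℕ) : ℝ) *
          ((2 ^ (k + 1) : ℕ) : ℝ)) ^ (ε / 2) ≤ ((P : ℝ) * (8 * Z)) ^ (ε / 2) := by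
        apply Real.rpow_le_rpow (by positivity) _ (by positivity)
        calc (P : ℝ) * ((2 ^ (i + 1) : ℕ) : ℝ) * ((2 ^ (j + 1) : ℕ) : ℝ) *
              ((2 ^ (k + 1) : ℕ) : ℝ) = (P : ℝ) * (((2 ^ (i + 1) : ℕ) : ℝ) *
                ((2 ^ (j + 1) : ℕ) : ℝ) * ((2 ^ (k + 1) : ℕ) : ℝ)) := by ring
          _ ≤ (P : ℝ) * (8 * Z) := mul_le_mul_of_nonneg_left hprod' (by linarith)
      have hK0 : 0 ≤ K := by linarith
      exact mul_le_mul (mul_le_mul_of_nonneg_left h6 hK0) h7 (by positivity) (by positivity)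
  have hcard : (T.card : ℝ) ≤ ((L : ℝ) + 1) ^ 3 * B := by
    have h1 := Finset.card_eq_sum_card_fiberwise (f := g) (s := T)
      (t := (range (L + 1)) ×ˢ (range (L + 1)) ×ˢ (range (L + 1))) hmaps
    rw [h1]
    push_cast
    refine (Finset.sum_le_sum hfib).trans ?_
    rw [Finset.sum_const, nsmul_eq_mul, card_product, card_product, card_range]
    push_cast
    apply le_of_eq
    ring
  refine hcard.trans ?_
  have hL3 : ((L : ℝ) + 1) ^ 3 ≤ c * (Z : ℝ) ^ (ε / 2) := by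
    have h1 := log2_le (ε / 6) (by positivity) Z hZ
    rw [← hL] at h1
    have h0 : (0 : ℝ) ≤ (L : ℝ) + 1 := by positivity
    calc ((L : ℝ) + 1) ^ 3 ≤ ((2 / (ε / 6) + 1) * (Z : ℝ) ^ (ε / 6)) ^ 3 :=
          pow_le_pow_left₀ h0 h1 3
      _ = c * (Z : ℝ) ^ (ε / 2) := by
          rw [mul_pow, ← hc, ← Real.rpow_natCast ((Z : ℝ) ^ (ε / 6)), ← Real.rpow_mul (by linarith)]
          congr 2
          push_cast
          ring
  have hZ0 : (0 : ℝ) < Z := by linarith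
  have hP0 : (0 : ℝ) < P := by linarith
  have eB : B = K * c8 * ((Z : ℝ) ^ (2 / 3 + ε / 2) * (P : ℝ) ^ (ε / 2)) := by
    rw [hB, hc8, Real.mul_rpow (by norm_num) hZ0.le, Real.mul_rpow hP0.le (by positivity),
      Real.mul_rpow (by norm_num) hZ0.le, Real.rpow_add (by norm_num : (0 : ℝ) < 8),
      Real.rpow_add hZ0]
    ring
  calc ((L : ℝ) + 1) ^ 3 * B ≤ (c * (Z : ℝ) ^ (ε / 2)) * B := mul_le_mul_of_nonneg_right hL3 hB0
    _ = c * K * c8 * ((Z : ℝ) ^ (ε / 2) * (Z : ℝ) ^ (2 / 3 + ε / 2)) * (P : ℝ) ^ (ε / 2) := by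
        rw [eB]
        ring
    _ = c * K * c8 * (Z : ℝ) ^ (2 / 3 + ε) * (P : ℝ) ^ (ε / 2) := by
        rw [← Real.rpow_add hZ0]
        congr 3
        ring
    _ ≤ c * K * c8 * (Z : ℝ) ^ (2 / 3 + ε) * (P : ℝ) ^ ε := by
        apply mul_le_mul_of_nonneg_left _ (by positivity)
        exact Real.rpow_le_rpow_of_exponent_le hP' (by linarith)

end Pool.Agent.Lib.AbcT
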