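import Mathlib
import Pool.Agent.Lib.AbcT.CDefs
import Pool.Agent.Lib.AbcT.Main
import Pool.Agent.Lib.AbcT.Upper
import Pool.Agent.Lib.AbcT.Ser
import Pool.Agent.Lib.AbcG.Final

/-!
# The twisted count: the sum over the squarefree twists

`#{(a, b, d)} = 2 ∑_{d odd squarefree} R(2 d; X / d²)`.
-/

open Finset Filter

namespace Pool.Agent.Lib.AbcT

open Pool.Agent.Lib.AbcG

/-! ### The level -/

theorem radOdd_mul {n d : ℕ} (hn : n ≠ 0) (hd : Squarefree d) (h2 : ¬ 2 ∣ d) :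
    radOdd (n * d) * radOdd d = rOff (2 * d) n * d ^ 2 := by
  have hd0 : d ≠ 0 := hd.ne_zero
  have h2d : 2 ∉ d.primeFactors := fun h => h2 (Nat.dvd_of_mem_primeFactors h)
  have hpf2 : (2 * d).primeFactors = {2} ∪ d.primeFactors := by
    rw [Nat.primeFactors_mul (by norm_num) hd0, Nat.prime_two.primeFactors]
  have e1 : radOdd d = d := by
    unfold radOdd
    rw [Finset.sdiff_singleton_eq_erase, Finset.erase_eq_of_notMem h2d]
    exact Nat.prod_primeFactors_of_squarefree hd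
  have e2 : (n * d).primeFactors \ {2} = (n.primeFactors \ (2 * d).primeFactors) ∪
      d.primeFactors := by
    rw [Nat.primeFactors_mul hn hd0, hpf2]
    ext p
    simp only [Finset.mem_sdiff, mem_union, mem_singleton]
    by_cases hp : p = 2
    · subst hp
      simp [h2d]
    · simp only [hp, not_false_eq_true, and_true, false_or]
      tauto
  have e3 : radOdd (n * d) = rOff (2 * d) n * d := by
    unfold radOdd
    rw [e2, Finset.prod_union]
    · rw [Nat.prod_primeFactors_of_squarefree hd]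
      rfl
    · rw [hpf2, Finset.disjoint_left]
      intro p hp hp'
      rw [Finset.mem_sdiff, mem_union] at hp
      exact hp.2 (Or.inr hp')
  rw [e3, e1]
  ring

theorem radOdd_two {n : ℕ} (hn : n ≠ 0) : radOdd (2 * n) = radOdd n := by
  unfold radOdd
  rw [Nat.primeFactors_mul (by norm_num) hn, Nat.prime_two.primeFactors]
  congr 1
  ext p
  simp only [Finset.mem_sdiff, mem_union, mem_singleton]
  tauto

theorem radOdd_mul_two {n d : ℕ} (hn : n ≠ 0) (hd : Squarefree d) (h2 : ¬ 2 ∣ d) :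
    radOdd (n * (2 * d)) * radOdd (2 * d) = rOff (2 * d) n * d ^ 2 := by
  have hd0 : d ≠ 0 := hd.ne_zero
  rw [show n * (2 * d) = 2 * (n * d) by ring, radOdd_two (Nat.mul_ne_zero hn hd0), radOdd_two hd0]
  exact radOdd_mul hn hd h2

theorem level_iff {n d X : ℕ} (hd : d ≠ 0) :
    rOff (2 * d) n * d ^ 2 ≤ X ↔ rOff (2 * d) n ≤ X / d ^ 2 := by
  rw [Nat.le_div_iff_mul_le (by positivity)]

/-- The odd part of a squarefree number. -/
def od (d : ℕ) : ℕ := if 2 ∣ d then d / 2 else d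

theorem od_odd {d : ℕ} (hd : Squarefree d) : Squarefree (od d) ∧ ¬ 2 ∣ od d ∧
    (d = od d ∨ d = 2 * od d) := by
  unfold od
  split_ifs with h
  · obtain ⟨e, rfl⟩ := h
    rw [Nat.mul_div_cancel_left e (by norm_num)]
    refine ⟨hd.squarefree_of_dvd (Dvd.intro_left _ rfl), ?_, Or.inr rfl⟩
    intro h2
    have h4 : 2 * 2 ∣ 2 * e := Nat.mul_dvd_mul_left 2 h2
    have := hd 2 h4
    rw [Nat.isUnit_iff] at this
    omega
  · exact ⟨hd, h, Or.inl rfl⟩

theorem od_self {e : ℕ} (h : ¬ 2 ∣ e) : od e = e := if_neg h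

theorem od_two (e : ℕ) : od (2 * e) = e := by
  unfold od
  rw [if_pos (Dvd.intro _ rfl), Nat.mul_div_cancel_left e (by norm_num)]

theorem squarefree_two_mul {e : ℕ} (h : Squarefree e) (h2 : ¬ 2 ∣ e) : Squarefree (2 * e) := by
  rw [Nat.squarefree_mul ((Nat.Prime.coprime_iff_not_dvd Nat.prime_two).2 h2)]
  exact ⟨Nat.prime_two.squarefree, h⟩

/-- The membership condition of the twisted count. -/
def InTw (X : ℕ) (t : ℕ × ℕ × ℕ) : Prop :=
  Par t.1 t.2.1 t.2.2 ∧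
    radOdd (t.1 * t.2.1 * (t.1 + t.2.1) * t.2.2) * radOdd t.2.2 ≤ X

/-- The condition of the relative count. -/
def InRel (P Z : ℕ) (t : ℕ × ℕ) : Prop :=
  0 < t.1 ∧ 0 < t.2 ∧ t.1.Coprime t.2 ∧ rOff P (Nn t) ≤ Z

theorem inTw_iff {X a b e : ℕ} (h1 : Squarefree e) (h2 : ¬ 2 ∣ e) :
    InTw X (a, b, e) ↔ InRel (2 * e) (X / e ^ 2) (a, b) := by
  unfold InTw InRel Par
  simp only
  constructor
  · rintro ⟨⟨g1, g2, g3, g4⟩, g5⟩
    have hn : a * b * (a + b) ≠ 0 := Nat.one_le_iff_ne_zero.1 (Nn_pos (t := (a, b)) g1 g2)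
    rw [radOdd_mul hn h1 h2] at g5
    exact ⟨g1, g2, g3, (level_iff h1.ne_zero).1 g5⟩
  · rintro ⟨g1, g2, g3, g4⟩
    have hn : a * b * (a + b) ≠ 0 := Nat.one_le_iff_ne_zero.1 (Nn_pos (t := (a, b)) g1 g2)
    rw [radOdd_mul hn h1 h2]
    exact ⟨⟨g1, g2, g3, h1⟩, (level_iff h1.ne_zero).2 g4⟩

theorem inTw_iff' {X a b e : ℕ} (h1 : Squarefree e) (h2 : ¬ 2 ∣ e) :
    InTw X (a, b, 2 * e) ↔ InRel (2 * e) (X / e ^ 2) (a, b) := by
  unfold InTw InRel Par
  simp only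
  constructor
  · rintro ⟨⟨g1, g2, g3, g4⟩, g5⟩
    have hn : a * b * (a + b) ≠ 0 := Nat.one_le_iff_ne_zero.1 (Nn_pos (t := (a, b)) g1 g2)
    rw [radOdd_mul_two hn h1 h2] at g5
    exact ⟨g1, g2, g3, (level_iff h1.ne_zero).1 g5⟩
  · rintro ⟨g1, g2, g3, g4⟩
    have hn : a * b * (a + b) ≠ 0 := Nat.one_le_iff_ne_zero.1 (Nn_pos (t := (a, b)) g1 g2)
    rw [radOdd_mul_two hn h1 h2]
    exact ⟨⟨g1, g2, g3, squarefree_two_mul h1 h2⟩, (level_iff h1.ne_zero).2 g4⟩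

/-- The number of twisted triples is twice the sum over the odd squarefree twists. -/
theorem card_eq (X : ℕ) (F : Finset (ℕ × ℕ × ℕ)) (hF : ∀ t, t ∈ F ↔ InTw X t)
    (G : ℕ → Finset (ℕ × ℕ))
    (hG : ∀ d, Squarefree d → ¬ 2 ∣ d → ∀ t, t ∈ G d ↔ InRel (2 * d) (X / d ^ 2) t) :
    F.card = 2 * ∑ d ∈ (Icc 1 X).filter (fun d => Squarefree d ∧ ¬ 2 ∣ d), (G d).card := by
  classical
  have hmaps : ∀ t ∈ F, od t.2.2 ∈ (Icc 1 X).filter (fun d => Squarefree d ∧ ¬ 2 ∣ d) := by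
    rintro ⟨a, b, d⟩ ht
    have h1 := (hF _).1 ht
    have hsq : Squarefree d := h1.1.2.2.2
    obtain ⟨s1, s2, s3⟩ := od_odd hsq
    have hr : InRel (2 * od d) (X / (od d) ^ 2) (a, b) := by
      rcases s3 with h | h
      · rw [h] at h1
        exact (inTw_iff s1 s2).1 h1
      · rw [h] at h1
        exact (inTw_iff' s1 s2).1 h1
    have hp := rOff_pos (2 * od d) (Nn (a, b))
    have h4 := (level_iff s1.ne_zero).2 hr.2.2.2
    have hod : 0 < od d := Nat.pos_of_ne_zero s1.ne_zero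
    simp only [mem_filter, mem_Icc]
    refine ⟨⟨hod, ?_⟩, s1, s2⟩
    calc od d ≤ (od d) ^ 2 := Nat.le_self_pow (by norm_num) _
      _ = 1 * (od d) ^ 2 := (one_mul _).symm
      _ ≤ rOff (2 * od d) (Nn (a, b)) * (od d) ^ 2 := Nat.mul_le_mul_right _ hp
      _ ≤ X := h4
  rw [Finset.card_eq_sum_card_fiberwise (f := fun t : ℕ × ℕ × ℕ => od t.2.2) hmaps, Finset.mul_sum]
  apply Finset.sum_congr rfl
  intro e he
  rw [mem_filter] at he
  obtain ⟨-, he1, he2⟩ := he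
  have h1 : F.filter (fun t => od t.2.2 = e) =
      (G e).image (fun t => (t.1, t.2, e)) ∪ (G e).image (fun t => (t.1, t.2, 2 * e)) := by
    ext ⟨a, b, d⟩
    rw [mem_filter, mem_union, mem_image, mem_image, hF]
    constructor
    · rintro ⟨g1, g2⟩
      simp only at g2
      obtain ⟨s1, s2, s3⟩ := od_odd g1.1.2.2.2
      rw [g2] at s3
      rcases s3 with h | h
      · left
        simp only at h
        refine ⟨(a, b), ?_, by rw [h]⟩
        rw [hG e he1 he2]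
        rw [h] at g1
        exact (inTw_iff he1 he2).1 g1
      · right
        simp only at h
        refine ⟨(a, b), ?_, by rw [h]⟩
        rw [hG e he1 he2]
        rw [h] at g1
        exact (inTw_iff' he1 he2).1 g1
    · rintro (⟨⟨a', b'⟩, g1, g2⟩ | ⟨⟨a', b'⟩, g1, g2⟩)
      · simp only [Prod.mk.injEq] at g2
        obtain ⟨rfl, rfl, rfl⟩ := g2
        exact ⟨(inTw_iff he1 he2).2 ((hG _ he1 he2 _).1 g1), od_self he2⟩
      · simp only [Prod.mk.injEq] at g2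
        obtain ⟨rfl, rfl, rfl⟩ := g2
        exact ⟨(inTw_iff' he1 he2).2 ((hG _ he1 he2 _).1 g1), od_two e⟩
  rw [h1, Finset.card_union_of_disjoint, Finset.card_image_of_injective,
    Finset.card_image_of_injective]
  · ring
  · rintro ⟨a, b⟩ ⟨a', b'⟩ h
    simp only [Prod.mk.injEq, and_true] at h
    rw [h.1, h.2]
  · rintro ⟨a, b⟩ ⟨a', b'⟩ h
    simp only [Prod.mk.injEq, and_true] at h
    rw [h.1, h.2]
  · rw [Finset.disjoint_left]
    rintro ⟨a, b, d⟩ h2 h3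
    rw [mem_image] at h2 h3
    obtain ⟨⟨a1, b1⟩, -, h2⟩ := h2
    obtain ⟨⟨a2, b2⟩, -, h3⟩ := h3
    simp only [Prod.mk.injEq] at h2 h3
    have : e ≠ 0 := he1.ne_zero
    omega

/-! ### The constant -/

theorem CE_eq : CE = 2 * (CR 2 * ∑' d : ℕ, ww d) := by
  have h1 := hasProd_eP
  have hg : gP 2 ≠ 0 := (gP_pos Nat.prime_two).ne'
  have h2 : HasProd (fun p : Nat.Primes => if (p : ℕ) = 2 then (gP 2)⁻¹ else 1) (gP 2)⁻¹ := by
    have h3 := hasProd_single (f := fun p : Nat.Primes => if (p : ℕ) = 2 then (gP 2)⁻¹ else 1)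
      (⟨2, Nat.prime_two⟩ : Nat.Primes) (by
        intro p hp
        rw [if_neg]
        intro h
        exact hp (Subtype.ext h))
    simpa using h3
  have h3 := h1.mul h2
  have e : (fun p : Nat.Primes => (if (p : ℕ) = 2 then gP p else eP p) *
      (if (p : ℕ) = 2 then (gP 2)⁻¹ else 1)) =
      fun p : Nat.Primes => if (p : ℕ) = 2 then 1 else eP p := by
    funext p
    by_cases h : (p : ℕ) = 2
    · rw [if_pos h, if_pos h, if_pos h, h, mul_inv_cancel₀ hg]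
    · rw [if_neg h, if_neg h, if_neg h, mul_one]
  rw [e] at h3
  unfold CE
  rw [h3.tprod_eq, CR_eq (by norm_num)]
  field_simp

theorem floor_rpow (x : ℝ) (hx : 0 ≤ x) (Z : ℕ) (h1 : (Z : ℝ) ≤ x) (h2 : x ≤ Z + 1) :
    |(Z : ℝ) ^ (2 / 3 : ℝ) - x ^ (2 / 3 : ℝ)| ≤ 1 := by
  have h3 : (Z : ℝ) ^ (2 / 3 : ℝ) ≤ x ^ (2 / 3 : ℝ) :=
    Real.rpow_le_rpow (Nat.cast_nonneg _) h1 (by norm_num)
  have h4 : x ^ (2 / 3 : ℝ) ≤ ((Z : ℝ) + 1) ^ (2 / 3 : ℝ) :=
    Real.rpow_le_rpow hx h2 (by norm_num)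
  have h5 : ((Z : ℝ) + 1) ^ (2 / 3 : ℝ) ≤ (Z : ℝ) ^ (2 / 3 : ℝ) + 1 ^ (2 / 3 : ℝ) :=
    Real.rpow_add_le_add_rpow (Nat.cast_nonneg _) (by norm_num) (by norm_num) (by norm_num)
  rw [Real.one_rpow] at h5
  rw [abs_le]
  constructor <;> linarith

end Pool.Agent.Lib.AbcT
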