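import Mathlib
import Pool.Agent.Lib.AbcT.Twist

/-!
# Twisted triples with a large twist
-/

open Finset Filter

namespace Pool.Agent.Lib.AbcT

open Pool.Agent.Lib.AbcG

theorem inTw_rel {X a b d : ℕ} (h : InTw X (a, b, d)) :
    InRel (2 * od d) (X / (od d) ^ 2) (a, b) ∧ Squarefree (od d) ∧ ¬ 2 ∣ od d ∧
      (d = od d ∨ d = 2 * od d) := by
  obtain ⟨s1, s2, s3⟩ := od_odd h.1.2.2.2
  refine ⟨?_, s1, s2, s3⟩
  simp only at s3
  rcases s3 with h3 | h3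
  · rw [h3] at h
    exact (inTw_iff s1 s2).1 h
  · rw [h3] at h
    exact (inTw_iff' s1 s2).1 h

/-- Upper bound for the twisted triples with odd part of the twist at least `V`. -/
theorem tail_twist (ε : ℝ) (hε : 0 < ε) (hε1 : ε ≤ 1) : ∃ K : ℝ, 1 ≤ K ∧ ∀ (X V : ℕ), 1 ≤ X →
    1 ≤ V → ∀ F : Finset (ℕ × ℕ × ℕ), (∀ t ∈ F, InTw X t ∧ V ≤ od t.2.2) →
      (F.card : ℝ) ≤ K * (X : ℝ) ^ (2 / 3 + ε) * (V : ℝ) ^ (-(1 / 12) : ℝ) := by
  classical
  obtain ⟨K, hK1, hup⟩ := rel_upper ε hε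
  have hK0 : 0 ≤ K := by linarith
  have hsum5 : Summable (fun d : ℕ => (d : ℝ) ^ (-(5 / 4) : ℝ)) :=
    Real.summable_nat_rpow.2 (by norm_num)
  obtain ⟨S5, hS5⟩ : ∃ S5 : ℝ, S5 = ∑' d : ℕ, (d : ℝ) ^ (-(5 / 4) : ℝ) := ⟨_, rfl⟩
  have hS50 : 0 ≤ S5 := by
    rw [hS5]
    exact tsum_nonneg fun d => by positivity
  refine ⟨4 * K * S5 + 1, by nlinarith [mul_nonneg hK0 hS50], ?_⟩
  intro X V hX hV F hF
  have hx1 : (1 : ℝ) ≤ X := by exact_mod_cast hX
  have hx0 : (0 : ℝ) < X := by linarith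
  have hV1 : (1 : ℝ) ≤ V := by exact_mod_cast hV
  have hmaps : ∀ t ∈ F, od t.2.2 ∈ Icc V X := by
    rintro ⟨a, b, d⟩ ht
    obtain ⟨h1, h2⟩ := hF _ ht
    obtain ⟨g1, g2, -, -⟩ := inTw_rel h1
    have hp := rOff_pos (2 * od d) (Nn (a, b))
    have h4 := (level_iff g2.ne_zero).2 g1.2.2.2
    rw [mem_Icc]
    refine ⟨h2, ?_⟩
    calc od d ≤ (od d) ^ 2 := Nat.le_self_pow (by norm_num) _
      _ = 1 * (od d) ^ 2 := (one_mul _).symm
      _ ≤ rOff (2 * od d) (Nn (a, b)) * (od d) ^ 2 := Nat.mul_le_mul_right _ hp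
      _ ≤ X := h4
  have hfib : ∀ e ∈ Icc V X, ((F.filter (fun t => od t.2.2 = e)).card : ℝ) ≤
      4 * K * (X : ℝ) ^ (2 / 3 + ε) * (V : ℝ) ^ (-(1 / 12) : ℝ) * (e : ℝ) ^ (-(5 / 4) : ℝ) := by
    intro e he
    rw [mem_Icc] at he
    have hd1 : (1 : ℝ) ≤ e := by exact_mod_cast hV.trans he.1
    have hd0 : (0 : ℝ) < e := by linarith
    have hVd : (V : ℝ) ≤ e := by exact_mod_cast he.1
    obtain ⟨G, hG⟩ : ∃ G : Finset (ℕ × ℕ), G = (F.filter (fun t => od t.2.2 = e)).image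
        (fun t => (t.1, t.2.1)) := ⟨_, rfl⟩
    have hGm : ∀ s ∈ G, InRel (2 * e) (X / e ^ 2) s := by
      intro s hs
      rw [hG, mem_image] at hs
      obtain ⟨⟨a, b, d⟩, ht, rfl⟩ := hs
      rw [mem_filter] at ht
      have h1 := (inTw_rel (hF _ ht.1).1).1
      have h2 : od d = e := ht.2
      rw [h2] at h1
      exact h1
    have hsub : F.filter (fun t => od t.2.2 = e) ⊆
        G.image (fun s => (s.1, s.2, e)) ∪ G.image (fun s => (s.1, s.2, 2 * e)) := by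
      rintro ⟨a, b, d⟩ ht
      have hm : (a, b) ∈ G := by
        rw [hG, mem_image]
        exact ⟨_, ht, rfl⟩
      rw [mem_filter] at ht
      have h1 := (inTw_rel (hF _ ht.1).1).2.2.2
      have h2 : od d = e := ht.2
      rw [h2] at h1
      rw [mem_union, mem_image, mem_image]
      rcases h1 with h1 | h1
      · left
        exact ⟨(a, b), hm, by rw [h1]⟩
      · right
        exact ⟨(a, b), hm, by rw [h1]⟩
    have hc1 : (F.filter (fun t => od t.2.2 = e)).card ≤ 2 * G.card := by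
      refine (Finset.card_le_card hsub).trans ((Finset.card_union_le _ _).trans ?_)
      have h1 : (G.image (fun s => (s.1, s.2, e))).card ≤ G.card := Finset.card_image_le
      have h2 : (G.image (fun s => (s.1, s.2, 2 * e))).card ≤ G.card := Finset.card_image_le
      omega
    have hc2 : (G.card : ℝ) ≤ 2 * K * (X : ℝ) ^ (2 / 3 + ε) * (V : ℝ) ^ (-(1 / 12) : ℝ) *
        (e : ℝ) ^ (-(5 / 4) : ℝ) := by
      rcases Nat.eq_zero_or_pos (X / e ^ 2) with hz | hz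
      · have h1 : G = ∅ := by
          rw [Finset.eq_empty_iff_forall_notMem]
          intro t ht
          have h3 := (hGm t ht).2.2.2
          rw [hz] at h3
          have := rOff_pos (2 * e) (Nn t)
          omega
        rw [h1, card_empty, Nat.cast_zero]
        positivity
      · have h1 := hup (2 * e) (X / e ^ 2) (by omega) hz G (fun t ht => hGm t ht)
        have hZx : ((X / e ^ 2 : ℕ) : ℝ) ≤ (X : ℝ) / (e : ℝ) ^ 2 := by
          have := Nat.cast_div_le (α := ℝ) (m := X) (n := e ^ 2)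
          push_cast at this
          exact this
        have h2 : ((X / e ^ 2 : ℕ) : ℝ) ^ (2 / 3 + ε) ≤
            (X : ℝ) ^ (2 / 3 + ε) * (e : ℝ) ^ (-(4 / 3 + 2 * ε)) := by
          calc ((X / e ^ 2 : ℕ) : ℝ) ^ (2 / 3 + ε) ≤
                ((X : ℝ) / (e : ℝ) ^ 2) ^ (2 / 3 + ε) :=
                Real.rpow_le_rpow (Nat.cast_nonneg _) hZx (by positivity)
            _ = (X : ℝ) ^ (2 / 3 + ε) * (e : ℝ) ^ (-(4 / 3 + 2 * ε)) := by
                rw [Real.div_rpow hx0.le (by positivity), ← Real.rpow_natCast (e : ℝ) 2,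
                  ← Real.rpow_mul hd0.le, Real.rpow_neg hd0.le, div_eq_mul_inv]
                congr 3
                push_cast
                ring
        have h3 : ((2 * e : ℕ) : ℝ) ^ ε ≤ 2 * (e : ℝ) ^ ε := by
          push_cast
          rw [Real.mul_rpow (by norm_num) hd0.le]
          apply mul_le_mul_of_nonneg_right _ (by positivity)
          calc (2 : ℝ) ^ ε ≤ (2 : ℝ) ^ (1 : ℝ) :=
                Real.rpow_le_rpow_of_exponent_le (by norm_num) (by linarith)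
            _ = 2 := Real.rpow_one 2
        have h4 : (e : ℝ) ^ (-(1 / 12) : ℝ) ≤ (V : ℝ) ^ (-(1 / 12) : ℝ) :=
          Real.rpow_le_rpow_of_nonpos (by linarith) hVd (by norm_num)
        calc (G.card : ℝ) ≤ K * ((X / e ^ 2 : ℕ) : ℝ) ^ (2 / 3 + ε) *
              ((2 * e : ℕ) : ℝ) ^ ε := h1
          _ ≤ K * ((X : ℝ) ^ (2 / 3 + ε) * (e : ℝ) ^ (-(4 / 3 + 2 * ε))) *
              (2 * (e : ℝ) ^ ε) := by gcongr
          _ = 2 * K * (X : ℝ) ^ (2 / 3 + ε) * (e : ℝ) ^ (-(4 / 3 + 2 * ε) + ε) := by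
              rw [Real.rpow_add hd0]
              ring
          _ ≤ 2 * K * (X : ℝ) ^ (2 / 3 + ε) * (e : ℝ) ^ (-(1 / 12) + -(5 / 4) : ℝ) := by
              apply mul_le_mul_of_nonneg_left _ (by positivity)
              apply Real.rpow_le_rpow_of_exponent_le hd1
              linarith
          _ = 2 * K * (X : ℝ) ^ (2 / 3 + ε) * (e : ℝ) ^ (-(1 / 12) : ℝ) *
              (e : ℝ) ^ (-(5 / 4) : ℝ) := by
              rw [Real.rpow_add hd0]
              ring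
          _ ≤ 2 * K * (X : ℝ) ^ (2 / 3 + ε) * (V : ℝ) ^ (-(1 / 12) : ℝ) *
              (e : ℝ) ^ (-(5 / 4) : ℝ) := by gcongr
    have hc1' : ((F.filter (fun t => od t.2.2 = e)).card : ℝ) ≤ 2 * G.card := by
      exact_mod_cast hc1
    linarith
  rw [Finset.card_eq_sum_card_fiberwise (f := fun t : ℕ × ℕ × ℕ => od t.2.2) hmaps]
  push_cast
  refine (Finset.sum_le_sum hfib).trans ?_
  rw [← Finset.mul_sum]
  have h1 : ∑ d ∈ Icc V X, (d : ℝ) ^ (-(5 / 4) : ℝ) ≤ S5 := by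
    rw [hS5]
    exact hsum5.sum_le_tsum _ (fun d _ => by positivity)
  have hA : 0 ≤ (X : ℝ) ^ (2 / 3 + ε) * (V : ℝ) ^ (-(1 / 12) : ℝ) := by positivity
  calc 4 * K * (X : ℝ) ^ (2 / 3 + ε) * (V : ℝ) ^ (-(1 / 12) : ℝ) *
        ∑ d ∈ Icc V X, (d : ℝ) ^ (-(5 / 4) : ℝ) ≤
        4 * K * (X : ℝ) ^ (2 / 3 + ε) * (V : ℝ) ^ (-(1 / 12) : ℝ) * S5 := by gcongr
    _ = 4 * K * S5 * ((X : ℝ) ^ (2 / 3 + ε) * (V : ℝ) ^ (-(1 / 12) : ℝ)) := by ring
    _ ≤ (4 * K * S5 + 1) * ((X : ℝ) ^ (2 / 3 + ε) * (V : ℝ) ^ (-(1 / 12) : ℝ)) := by nlinarith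
    _ = (4 * K * S5 + 1) * (X : ℝ) ^ (2 / 3 + ε) * (V : ℝ) ^ (-(1 / 12) : ℝ) := by ring

end Pool.Agent.Lib.AbcT
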