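import Mathlib
import Pool.Agent.Lib.AbcT.Tail
import Pool.Agent.Lib.AbcL.Ready

/-!
# The exceptions to Szpiro's inequality in the twisted count
-/

open Finset Filter

namespace Pool.Agent.Lib.AbcT

open Pool.Agent.Lib.AbcG

/-- The level of the twisted triple. -/
def lev (t : ℕ × ℕ × ℕ) : ℕ :=
  radOdd (t.1 * t.2.1 * (t.1 + t.2.1) * t.2.2) * radOdd t.2.2

theorem inTw_iff_lev {X : ℕ} {t : ℕ × ℕ × ℕ} :
    InTw X t ↔ Par t.1 t.2.1 t.2.2 ∧ lev t ≤ X := Iff.rfl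

theorem lev_eq {a b d : ℕ} (h : Par a b d) :
    lev (a, b, d) = rOff (2 * od d) (Nn (a, b)) * (od d) ^ 2 := by
  obtain ⟨s1, s2, s3⟩ := od_odd h.2.2.2
  have hn : a * b * (a + b) ≠ 0 := Nat.one_le_iff_ne_zero.1 (Nn_pos (t := (a, b)) h.1 h.2.1)
  have e1 : lev (a, b, d) = radOdd (a * b * (a + b) * d) * radOdd d := rfl
  rw [e1]
  rcases s3 with h3 | h3
  · conv_lhs => rw [h3]
    exact radOdd_mul hn s1 s2
  · conv_lhs => rw [h3]
    exact radOdd_mul_two hn s1 s2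

theorem rad_le_lev {a b d : ℕ} (h : Par a b d) : rad (Nn (a, b)) ≤ 2 * lev (a, b, d) := by
  obtain ⟨s1, s2, s3⟩ := od_odd h.2.2.2
  have h0 : 1 ≤ od d := Nat.one_le_iff_ne_zero.2 s1.ne_zero
  have h1 := rad_le (P := 2 * od d) (n := Nn (a, b)) (by omega)
  rw [lev_eq h]
  calc rad (Nn (a, b)) ≤ 2 * od d * rOff (2 * od d) (Nn (a, b)) := h1
    _ = 2 * (rOff (2 * od d) (Nn (a, b)) * (od d * 1)) := by ring
    _ ≤ 2 * (rOff (2 * od d) (Nn (a, b)) * (od d * od d)) := by gcongr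
    _ = 2 * (rOff (2 * od d) (Nn (a, b)) * (od d) ^ 2) := by ring

theorem szpiro_count (M : ℝ) (hM : 2 < M) : ∃ κ : ℝ, 0 < κ ∧ ∀ᶠ X : ℕ in atTop,
    ∀ F : Finset (ℕ × ℕ × ℕ), (∀ t ∈ F, Par t.1 t.2.1 t.2.2 ∧ lev t ≤ X ∧
      (lev t : ℝ) ^ M ≤ 16 * (t.2.2 : ℝ) ^ 6 * ((t.1 : ℝ) * t.2.1 * (t.1 + t.2.1)) ^ 2) →
      (F.card : ℝ) ≤ (X : ℝ) ^ (2 / 3 - κ) := by
  classical
  obtain ⟨μ, hμ⟩ : ∃ μ : ℝ, μ = M - 2 := ⟨_, rfl⟩
  have hμ0 : 0 < μ := by rw [hμ]; linarith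
  obtain ⟨θ, hθ⟩ : ∃ θ : ℝ, θ = μ / (2 * M) := ⟨_, rfl⟩
  have hM0 : 0 < M := by linarith
  have hθ0 : 0 < θ := by rw [hθ]; positivity
  have hθ1 : θ ≤ 1 / 2 := by
    rw [hθ, div_le_iff₀ (by positivity), hμ]
    linarith
  have hθM : (1 - θ) * M = 2 + μ / 2 := by
    rw [hθ]
    field_simp
    rw [hμ]
    ring
  obtain ⟨ξ, hξ⟩ : ∃ ξ : ℝ, ξ = min (μ / 48) (1 / 6) := ⟨_, rfl⟩
  have hξ0 : 0 < ξ := by rw [hξ]; exact lt_min (by positivity) (by norm_num)
  have hξa : ξ ≤ μ / 48 := by rw [hξ]; exact min_le_left _ _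
  have hξb : ξ ≤ 1 / 6 := by rw [hξ]; exact min_le_right _ _
  obtain ⟨κ', hκ', hexc⟩ := Pool.Agent.Lib.AbcL.ready_A ξ hξ0
  obtain ⟨n0, hn0⟩ := eventually_atTop.1 hexc
  obtain ⟨η, hη⟩ : ∃ η : ℝ, η = min (κ' / 2) (min (μ / 48) (1 / 8)) := ⟨_, rfl⟩
  have hη0 : 0 < η := by
    rw [hη]; exact lt_min (by positivity) (lt_min (by positivity) (by norm_num))
  have hηa : η ≤ κ' / 2 := by rw [hη]; exact min_le_left _ _
  have hηb : η ≤ μ / 48 := by rw [hη]; exact (min_le_right _ _).trans (min_le_left _ _)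
  have hηc : η ≤ 1 / 8 := by rw [hη]; exact (min_le_right _ _).trans (min_le_right _ _)
  obtain ⟨ε, hε⟩ : ∃ ε : ℝ, ε = min (θ / 3) (η / 24) := ⟨_, rfl⟩
  have hε0 : 0 < ε := by rw [hε]; exact lt_min (by positivity) (by positivity)
  have hεa : ε ≤ θ / 3 := by rw [hε]; exact min_le_left _ _
  have hεb : ε ≤ η / 24 := by rw [hε]; exact min_le_right _ _
  obtain ⟨K, hK1, htail⟩ := tail_twist ε hε0 (by linarith)
  have hK0 : 0 ≤ K := by linarith
  obtain ⟨κ2, hκ2⟩ : ∃ κ2 : ℝ, κ2 = min (κ' / 2) (min (θ / 3) (η / 24)) := ⟨_, rfl⟩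
  have hκ20 : 0 < κ2 := by
    rw [hκ2]; exact lt_min (by positivity) (lt_min (by positivity) (by positivity))
  have hκ2a : κ2 ≤ κ' / 2 := by rw [hκ2]; exact min_le_left _ _
  have hκ2b : κ2 ≤ θ / 3 := by rw [hκ2]; exact (min_le_right _ _).trans (min_le_left _ _)
  have hκ2c : κ2 ≤ η / 24 := by rw [hκ2]; exact (min_le_right _ _).trans (min_le_right _ _)
  have hev : ∀ (s c : ℝ), 0 < s → ∀ᶠ Y : ℕ in atTop, c ≤ (Y : ℝ) ^ s := by
    intro s c hs
    have h1 : Tendsto (fun Y : ℕ => (Y : ℝ) ^ s) atTop atTop :=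
      (tendsto_rpow_atTop hs).comp tendsto_natCast_atTop_atTop
    exact h1.eventually (eventually_ge_atTop c)
  refine ⟨κ2 / 2, by positivity, ?_⟩
  filter_upwards [eventually_ge_atTop 1, eventually_ge_atTop n0,
    hev (μ / 4) 8192 (by positivity), hev (κ2 / 2) (2 * K + K + 4) (by positivity)]
    with X hX1 hXn hXa hXb F hF
  have hx1 : (1 : ℝ) ≤ X := by exact_mod_cast hX1
  have hx0 : (0 : ℝ) < X := by linarith
  obtain ⟨V, hV⟩ : ∃ V : ℕ, V = ⌊(X : ℝ) ^ η⌋₊ := ⟨_, rfl⟩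
  have hxη : 1 ≤ (X : ℝ) ^ η := Real.one_le_rpow hx1 hη0.le
  have hV1 : 1 ≤ V := by rw [hV]; exact Nat.le_floor (by exact_mod_cast hxη)
  have hVle : (V : ℝ) ≤ (X : ℝ) ^ η := by rw [hV]; exact Nat.floor_le (by positivity)
  have hVge : (X : ℝ) ^ η / 2 ≤ V := by
    have := Nat.lt_floor_add_one ((X : ℝ) ^ η)
    rw [← hV] at this
    have hV1' : (1 : ℝ) ≤ V := by exact_mod_cast hV1
    linarith
  have hV12 : (V : ℝ) ^ (-(1 / 12) : ℝ) ≤ 2 * (X : ℝ) ^ (-(η / 12)) := by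
    have h1 : (V : ℝ) ^ (-(1 / 12) : ℝ) ≤ ((X : ℝ) ^ η / 2) ^ (-(1 / 12) : ℝ) :=
      Real.rpow_le_rpow_of_nonpos (by positivity) hVge (by norm_num)
    have h2 : ((X : ℝ) ^ η / 2) ^ (-(1 / 12) : ℝ) =
        (2 : ℝ) ^ (1 / 12 : ℝ) * (X : ℝ) ^ (-(η / 12)) := by
      rw [Real.div_rpow (by positivity) (by norm_num), ← Real.rpow_mul hx0.le,
        Real.rpow_neg (by norm_num : (0 : ℝ) ≤ 2), div_inv_eq_mul, mul_comm]
      congr 2
      ring
    have h3 : (2 : ℝ) ^ (1 / 12 : ℝ) ≤ 2 := by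
      calc (2 : ℝ) ^ (1 / 12 : ℝ) ≤ (2 : ℝ) ^ (1 : ℝ) :=
            Real.rpow_le_rpow_of_exponent_le (by norm_num) (by norm_num)
        _ = 2 := Real.rpow_one 2
    rw [h2] at h1
    exact h1.trans (mul_le_mul_of_nonneg_right h3 (by positivity))
  obtain ⟨X2, hX2⟩ : ∃ X2 : ℕ, X2 = ⌊(X : ℝ) ^ (1 - θ)⌋₊ := ⟨_, rfl⟩
  have hx2 : 1 ≤ (X : ℝ) ^ (1 - θ) := Real.one_le_rpow hx1 (by linarith)
  have hX21 : 1 ≤ X2 := by rw [hX2]; exact Nat.le_floor (by exact_mod_cast hx2)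
  have hX2le : (X2 : ℝ) ≤ (X : ℝ) ^ (1 - θ) := by rw [hX2]; exact Nat.floor_le (by positivity)
  obtain ⟨R, hR⟩ : ∃ R : ℝ, R = (X : ℝ) ^ (2 / 3 - κ2) := ⟨_, rfl⟩
  have hR0 : 0 ≤ R := by rw [hR]; positivity
  have hmono : ∀ a : ℝ, a ≤ 2 / 3 - κ2 → (X : ℝ) ^ a ≤ R := by
    intro a ha
    rw [hR]
    exact Real.rpow_le_rpow_of_exponent_le hx1 ha
  -- large twists
  obtain ⟨F1, hF1⟩ : ∃ F1 : Finset (ℕ × ℕ × ℕ), F1 = F.filter (fun t => V ≤ od t.2.2) := ⟨_, rfl⟩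
  have c1 : (F1.card : ℝ) ≤ 2 * K * R := by
    have h1 := htail X V hX1 hV1 F1 (by
      intro t ht
      rw [hF1, mem_filter] at ht
      obtain ⟨g1, g2, -⟩ := hF t ht.1
      exact ⟨⟨g1, g2⟩, ht.2⟩)
    refine h1.trans ?_
    calc K * (X : ℝ) ^ (2 / 3 + ε) * (V : ℝ) ^ (-(1 / 12) : ℝ) ≤
          K * (X : ℝ) ^ (2 / 3 + ε) * (2 * (X : ℝ) ^ (-(η / 12))) := by gcongr
      _ = 2 * K * (X : ℝ) ^ (2 / 3 + ε + -(η / 12)) := by
          rw [Real.rpow_add hx0 (2 / 3 + ε)]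
          ring
      _ ≤ 2 * K * R := by
          apply mul_le_mul_of_nonneg_left (hmono _ (by linarith)) (by positivity)
  -- small levels
  obtain ⟨F2, hF2⟩ : ∃ F2 : Finset (ℕ × ℕ × ℕ), F2 = F.filter (fun t => lev t ≤ X2) := ⟨_, rfl⟩
  have c2 : (F2.card : ℝ) ≤ K * R := by
    have h1 := htail X2 1 hX21 le_rfl F2 (by
      intro t ht
      rw [hF2, mem_filter] at ht
      obtain ⟨g1, g2, -⟩ := hF t ht.1
      exact ⟨⟨g1, ht.2⟩, Nat.one_le_iff_ne_zero.2 (od_odd g1.2.2.2).1.ne_zero⟩)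
    refine h1.trans ?_
    rw [Nat.cast_one, Real.one_rpow, mul_one]
    apply mul_le_mul_of_nonneg_left _ hK0
    calc (X2 : ℝ) ^ (2 / 3 + ε) ≤ ((X : ℝ) ^ (1 - θ)) ^ (2 / 3 + ε) :=
          Real.rpow_le_rpow (Nat.cast_nonneg _) hX2le (by positivity)
      _ = (X : ℝ) ^ ((1 - θ) * (2 / 3 + ε)) := by rw [← Real.rpow_mul hx0.le]
      _ ≤ R := by
          apply hmono
          nlinarith
  -- the rest
  obtain ⟨F3, hF3⟩ : ∃ F3 : Finset (ℕ × ℕ × ℕ),
      F3 = F.filter (fun t => ¬ V ≤ od t.2.2 ∧ ¬ lev t ≤ X2) := ⟨_, rfl⟩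
  have c3 : (F3.card : ℝ) ≤ 4 * R := by
    obtain ⟨⟨hfin, hcard⟩, -⟩ := hn0 (2 * X) (by omega)
    have hcardF : F3.card ≤ (hfin.toFinset ×ˢ (Icc 1 (2 * V))).card := by
      apply Finset.card_le_card_of_injOn (fun t => ((t.1, t.2.1, t.1 + t.2.1), t.2.2))
      · rintro ⟨a, b, d⟩ ht
        rw [Finset.mem_coe, hF3, mem_filter] at ht
        obtain ⟨ht0, ht1, ht2⟩ := ht
        obtain ⟨g1, g2, g3⟩ := hF _ ht0
        simp only at g1 g3 ht1
        rw [not_le] at ht1 ht2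
        obtain ⟨s1, s2, s3⟩ := od_odd g1.2.2.2
        have hd2 : d ≤ 2 * V := by rcases s3 with h3 | h3 <;> omega
        have hd1 : 1 ≤ d := Nat.one_le_iff_ne_zero.2 g1.2.2.2.ne_zero
        rw [Finset.mem_coe, mem_product, Set.Finite.mem_toFinset, mem_Icc]
        refine ⟨?_, hd1, hd2⟩
        have ha : (1 : ℝ) ≤ a := by exact_mod_cast g1.1
        have hb : (1 : ℝ) ≤ b := by exact_mod_cast g1.2.1
        obtain ⟨s, hs⟩ : ∃ s : ℝ, s = (a : ℝ) + b := ⟨_, rfl⟩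
        have hs0 : 0 < s := by rw [hs]; linarith
        have hn : (a : ℝ) * b * (a + b) ≤ s ^ 3 := by
          rw [← hs]
          have h1 : (a : ℝ) ≤ s := by linarith
          have h2 : (b : ℝ) ≤ s := by linarith
          calc (a : ℝ) * b * s ≤ s * s * s := by gcongr
            _ = s ^ 3 := by ring
        have hlev : (X : ℝ) ^ (1 - θ) < (lev (a, b, d) : ℝ) := by
          rw [hX2] at ht2
          exact (Nat.floor_lt (by positivity)).1 ht2
        have hd' : (d : ℝ) ≤ 2 * (X : ℝ) ^ η := by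
          have : (d : ℝ) ≤ 2 * V := by exact_mod_cast hd2
          linarith
        have hbig : (X : ℝ) ^ (2 + μ / 2) < 1024 * (X : ℝ) ^ (6 * η) * s ^ 6 := by
          calc (X : ℝ) ^ (2 + μ / 2) = ((X : ℝ) ^ (1 - θ)) ^ M := by
                rw [← Real.rpow_mul hx0.le, hθM]
            _ < (lev (a, b, d) : ℝ) ^ M := Real.rpow_lt_rpow (by positivity) hlev hM0
            _ ≤ 16 * (d : ℝ) ^ 6 * ((a : ℝ) * b * (a + b)) ^ 2 := g3
            _ ≤ 16 * (2 * (X : ℝ) ^ η) ^ 6 * (s ^ 3) ^ 2 := by gcongr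
            _ = 1024 * (X : ℝ) ^ (6 * η) * s ^ 6 := by
                have e1 : ((X : ℝ) ^ η) ^ 6 = (X : ℝ) ^ (6 * η) := by
                  rw [← Real.rpow_natCast, ← Real.rpow_mul hx0.le]
                  congr 1
                  push_cast
                  ring
                have e2 : (2 * (X : ℝ) ^ η) ^ 6 = 64 * (X : ℝ) ^ (6 * η) := by
                  rw [mul_pow, e1]
                  norm_num
                rw [e2]
                ring
        have h2X : ((2 * X : ℕ) : ℝ) = 2 * X := by push_cast; ring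
        have hsX : (2 * (X : ℝ)) ^ (1 / 3 + ξ) ≤ s := by
          by_contra hlt
          rw [not_le] at hlt
          have h6 : s ^ 6 ≤ 8 * (X : ℝ) ^ (2 + 6 * ξ) := by
            calc s ^ 6 ≤ ((2 * (X : ℝ)) ^ (1 / 3 + ξ)) ^ 6 :=
                  pow_le_pow_left₀ hs0.le hlt.le 6
              _ = (2 * (X : ℝ)) ^ (2 + 6 * ξ) := by
                  rw [← Real.rpow_natCast, ← Real.rpow_mul (by positivity)]
                  congr 1
                  push_cast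
                  ring
              _ = (2 : ℝ) ^ (2 + 6 * ξ) * (X : ℝ) ^ (2 + 6 * ξ) :=
                  Real.mul_rpow (by norm_num) hx0.le
              _ ≤ 8 * (X : ℝ) ^ (2 + 6 * ξ) := by
                  apply mul_le_mul_of_nonneg_right _ (by positivity)
                  calc (2 : ℝ) ^ (2 + 6 * ξ) ≤ (2 : ℝ) ^ (3 : ℝ) :=
                        Real.rpow_le_rpow_of_exponent_le (by norm_num) (by linarith)
                    _ = 8 := by
                        rw [show (3 : ℝ) = ((3 : ℕ) : ℝ) by norm_num, Real.rpow_natCast]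
                        norm_num
          have h7 : (X : ℝ) ^ (2 + μ / 2) < 8192 * (X : ℝ) ^ (2 + μ / 4) := by
            calc (X : ℝ) ^ (2 + μ / 2) < 1024 * (X : ℝ) ^ (6 * η) * s ^ 6 := hbig
              _ ≤ 1024 * (X : ℝ) ^ (6 * η) * (8 * (X : ℝ) ^ (2 + 6 * ξ)) := by gcongr
              _ = 8192 * (X : ℝ) ^ (6 * η + (2 + 6 * ξ)) := by
                  rw [Real.rpow_add hx0 (6 * η) (2 + 6 * ξ)]
                  ring
              _ ≤ 8192 * (X : ℝ) ^ (2 + μ / 4) := by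
                  apply mul_le_mul_of_nonneg_left _ (by norm_num)
                  exact Real.rpow_le_rpow_of_exponent_le hx1 (by linarith)
          have h8 : (X : ℝ) ^ (2 + μ / 2) = (X : ℝ) ^ (μ / 4) * (X : ℝ) ^ (2 + μ / 4) := by
            rw [← Real.rpow_add hx0]
            congr 1
            ring
          rw [h8] at h7
          have h9 : 0 < (X : ℝ) ^ (2 + μ / 4) := by positivity
          have h10 := lt_of_mul_lt_mul_right h7 h9.le
          linarith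
        have hrad : rad (a * b * (a + b)) ≤ 2 * X := by
          have h1 := rad_le_lev g1
          have h2 : lev (a, b, d) ≤ X := g2
          have h3 : rad (Nn (a, b)) = rad (a * b * (a + b)) := rfl
          rw [h3] at h1
          omega
        refine ⟨⟨g1.1, g1.2.1, by simp only; have := g1.1; omega, g1.2.2.1, ?_, ?_, rfl⟩,
          hrad, ?_⟩
        · exact (Nat.coprime_self_add_right).mpr g1.2.2.1
        · exact (Nat.coprime_add_self_right).mpr g1.2.2.1.symm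
        · show ((∏ p ∈ (a * b * (a + b)).primeFactors, p : ℕ) : ℝ) ^ (1 / 3 + ξ) ≤ ((a + b : ℕ) : ℝ)
          have h1 : ((∏ p ∈ (a * b * (a + b)).primeFactors, p : ℕ) : ℝ) ≤ 2 * (X : ℝ) := by
            exact_mod_cast hrad
          calc ((∏ p ∈ (a * b * (a + b)).primeFactors, p : ℕ) : ℝ) ^ (1 / 3 + ξ) ≤
                (2 * (X : ℝ)) ^ (1 / 3 + ξ) := Real.rpow_le_rpow (Nat.cast_nonneg _) h1 (by positivity)
            _ ≤ s := hsX
            _ = ((a + b : ℕ) : ℝ) := by rw [hs]; push_cast; rfl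
      · rintro ⟨a, b, d⟩ _ ⟨a', b', d'⟩ _ he
        simp only [Prod.mk.injEq] at he
        obtain ⟨⟨h1, h2, -⟩, h3⟩ := he
        rw [h1, h2, h3]
    rw [card_product, Nat.card_Icc, Nat.add_sub_cancel, ← Set.ncard_eq_toFinset_card _ hfin] at hcardF
    have hcardF' : (F3.card : ℝ) ≤
        ((Pool.Agent.Lib.AbcL.excTriples ξ (2 * X)).ncard : ℝ) * (2 * V) := by
      exact_mod_cast hcardF
    refine hcardF'.trans ?_
    have h2X : ((2 * X : ℕ) : ℝ) = 2 * X := by push_cast; ring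
    rw [h2X] at hcard
    have h1 : (2 * (X : ℝ)) ^ (2 / 3 - κ') ≤ 2 * (X : ℝ) ^ (2 / 3 - κ') := by
      rw [Real.mul_rpow (by norm_num) hx0.le]
      apply mul_le_mul_of_nonneg_right _ (by positivity)
      calc (2 : ℝ) ^ (2 / 3 - κ') ≤ (2 : ℝ) ^ (1 : ℝ) :=
            Real.rpow_le_rpow_of_exponent_le (by norm_num) (by linarith)
        _ = 2 := Real.rpow_one 2
    calc ((Pool.Agent.Lib.AbcL.excTriples ξ (2 * X)).ncard : ℝ) * (2 * V) ≤
          (2 * (X : ℝ) ^ (2 / 3 - κ')) * (2 * (X : ℝ) ^ η) := by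
          apply mul_le_mul (hcard.trans h1) (by linarith) (by positivity) (by positivity)
      _ = 4 * (X : ℝ) ^ (2 / 3 - κ' + η) := by
          rw [Real.rpow_add hx0]
          ring
      _ ≤ 4 * R := by
          apply mul_le_mul_of_nonneg_left (hmono _ (by linarith)) (by norm_num)
  have hcov : F ⊆ F1 ∪ (F2 ∪ F3) := by
    intro t ht
    rw [mem_union, mem_union, hF1, hF2, hF3, mem_filter, mem_filter, mem_filter]
    tauto
  have hc : F.card ≤ F1.card + (F2.card + F3.card) :=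
    (Finset.card_le_card hcov).trans ((Finset.card_union_le _ _).trans
      (Nat.add_le_add_left (Finset.card_union_le _ _) _))
  have hc' : (F.card : ℝ) ≤ F1.card + (F2.card + F3.card) := by exact_mod_cast hc
  have htot : (F.card : ℝ) ≤ (2 * K + K + 4) * R := by
    have : (2 * K + K + 4) * R = 2 * K * R + (K * R + 4 * R) := by ring
    linarith
  refine htot.trans ?_
  calc (2 * K + K + 4) * R ≤ (X : ℝ) ^ (κ2 / 2) * R := mul_le_mul_of_nonneg_right hXb hR0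
    _ = (X : ℝ) ^ (2 / 3 - κ2 / 2) := by
        rw [hR, ← Real.rpow_add hx0]
        congr 1
        ring

end Pool.Agent.Lib.AbcT
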