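import Mathlib
import Pool.Agent.Lib.AbcT.Twist

/-!
# The asymptotic formula for the twisted count
-/

open Finset Filter

namespace Pool.Agent.Lib.AbcT

open Pool.Agent.Lib.AbcG

theorem rel_finite (h : TailHyp) {P : ℕ} (Z : ℕ) (hP : 1 ≤ P) :
    {t : ℕ × ℕ | InRel P Z t}.Finite := by
  refine (pairs_finite h (P * Z)).subset ?_
  rintro t ⟨h1, h2, h3, h4⟩
  exact ⟨h1, h2, h3, (rad_le hP).trans (Nat.mul_le_mul_left _ h4)⟩

/-- The asymptotic formula for the twisted count. -/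
theorem twist_count (h : TailHyp) : ∃ κ : ℝ, 0 < κ ∧ ∀ᶠ X : ℕ in atTop,
    ∀ F : Finset (ℕ × ℕ × ℕ), (∀ t, t ∈ F ↔ InTw X t) →
      |(F.card : ℝ) - CE * (X : ℝ) ^ (2 / 3 : ℝ)| ≤ (X : ℝ) ^ (2 / 3 - κ) := by
  classical
  obtain ⟨δ, κ0, hδ, hκ0, hrel⟩ := rel_count h
  obtain ⟨n0, hn0⟩ := eventually_atTop.1 hrel
  obtain ⟨κ1, hκ1⟩ : ∃ κ1 : ℝ, κ1 = min κ0 (1 / 6) := ⟨_, rfl⟩
  have hκ1p : 0 < κ1 := by rw [hκ1]; exact lt_min hκ0 (by norm_num)
  have hκ1a : κ1 ≤ κ0 := by rw [hκ1]; exact min_le_left _ _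
  have hκ1b : κ1 ≤ 1 / 6 := by rw [hκ1]; exact min_le_right _ _
  obtain ⟨η, hη⟩ : ∃ η : ℝ, η = min (κ1 / 2) (min (δ / 4) (1 / 8)) := ⟨_, rfl⟩
  have hηp : 0 < η := by rw [hη]; exact lt_min (by positivity) (lt_min (by positivity) (by norm_num))
  have hηa : η ≤ κ1 / 2 := by rw [hη]; exact min_le_left _ _
  have hηb : η ≤ δ / 4 := by rw [hη]; exact (min_le_right _ _).trans (min_le_left _ _)
  have hηc : η ≤ 1 / 8 := by rw [hη]; exact (min_le_right _ _).trans (min_le_right _ _)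
  obtain ⟨K, hK1, hup⟩ := rel_upper (η / 24) (by positivity)
  obtain ⟨Cq, hCq1, hCq⟩ := sixteen_pow 1 (by norm_num)
  obtain ⟨W', hW'⟩ : ∃ W' : ℝ, W' = ∑' d : ℕ, ww d * (d : ℝ) ^ (1 / 12 : ℝ) := ⟨_, rfl⟩
  have hW'0 : 0 ≤ W' := by
    rw [hW']
    exact tsum_nonneg fun d => mul_nonneg (ww_nonneg d) (by positivity)
  have hsum5 : Summable (fun d : ℕ => (d : ℝ) ^ (-(5 / 4) : ℝ)) :=
    Real.summable_nat_rpow.2 (by norm_num)
  obtain ⟨S5, hS5⟩ : ∃ S5 : ℝ, S5 = ∑' d : ℕ, (d : ℝ) ^ (-(5 / 4) : ℝ) := ⟨_, rfl⟩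
  have hS50 : 0 ≤ S5 := by
    rw [hS5]
    exact tsum_nonneg fun d => by positivity
  have hCR0 : 0 ≤ CR 2 := CR_nonneg (by norm_num)
  obtain ⟨CC, hCC⟩ : ∃ CC : ℝ, CC = 2 * (1 + CR 2 * Cq + 4 * K * S5 + 2 * CR 2 * W') := ⟨_, rfl⟩
  have hCC0 : 0 ≤ CC := by rw [hCC]; positivity
  refine ⟨η / 48, by positivity, ?_⟩
  have hev : ∀ (s c : ℝ), 0 < s → ∀ᶠ Y : ℕ in atTop, c ≤ (Y : ℝ) ^ s := by
    intro s c hs
    have h1 : Tendsto (fun Y : ℕ => (Y : ℝ) ^ s) atTop atTop :=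
      (tendsto_rpow_atTop hs).comp tendsto_natCast_atTop_atTop
    exact h1.eventually (eventually_ge_atTop c)
  filter_upwards [eventually_ge_atTop 1, hev (1 / 4) 2 (by norm_num), hev (δ / 4) 2 (by positivity),
    hev (1 / 2) (n0 : ℝ) (by norm_num), hev (η / 48) CC (by positivity)]
    with X hX1 hXa hXb hXc hXd F hF
  have hx1 : (1 : ℝ) ≤ X := by exact_mod_cast hX1
  have hx0 : (0 : ℝ) < X := by linarith
  -- the sets of the relative counts
  have hGex : ∀ d : ℕ, ∃ G : Finset (ℕ × ℕ), Squarefree d → ¬ 2 ∣ d →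
      ∀ t, t ∈ G ↔ InRel (2 * d) (X / d ^ 2) t := by
    intro d
    by_cases hd : Squarefree d
    · have hd0 := hd.ne_zero
      refine ⟨(rel_finite h (P := 2 * d) (X / d ^ 2) (by omega)).toFinset, fun _ _ t => ?_⟩
      rw [Set.Finite.mem_toFinset]
      rfl
    · exact ⟨∅, fun h => absurd h hd⟩
  choose G hG using hGex
  have hcard := card_eq X F hF G hG
  obtain ⟨aa, haa⟩ : ∃ aa : ℕ → ℝ, aa = fun d =>
      if Squarefree d ∧ ¬ 2 ∣ d then ((G d).card : ℝ) else 0 := ⟨_, rfl⟩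
  have haa0 : ∀ d, 0 ≤ aa d := by
    intro d
    rw [haa]
    simp only
    split_ifs
    · exact Nat.cast_nonneg _
    · exact le_rfl
  have hcard' : (F.card : ℝ) = 2 * ∑ d ∈ Icc 1 X, aa d := by
    rw [hcard, Finset.sum_filter]
    push_cast
    rw [haa]
  -- the cut
  obtain ⟨V, hV⟩ : ∃ V : ℕ, V = ⌊(X : ℝ) ^ η⌋₊ := ⟨_, rfl⟩
  have hxη : 1 ≤ (X : ℝ) ^ η := Real.one_le_rpow hx1 hηp.le
  have hV1 : 1 ≤ V := by rw [hV]; exact Nat.le_floor (by exact_mod_cast hxη)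
  have hV1' : (1 : ℝ) ≤ V := by exact_mod_cast hV1
  have hVle : (V : ℝ) ≤ (X : ℝ) ^ η := by rw [hV]; exact Nat.floor_le (by positivity)
  have hVge : (X : ℝ) ^ η / 2 ≤ V := by
    have := Nat.lt_floor_add_one ((X : ℝ) ^ η)
    rw [← hV] at this
    linarith
  have hVX : V ≤ X := by
    have h1 : (V : ℝ) ≤ X := by
      refine hVle.trans ?_
      calc (X : ℝ) ^ η ≤ (X : ℝ) ^ (1 : ℝ) := Real.rpow_le_rpow_of_exponent_le hx1 (by linarith)
        _ = X := Real.rpow_one _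
    exact_mod_cast h1
  have hV12 : (V : ℝ) ^ (-(1 / 12) : ℝ) ≤ 2 * (X : ℝ) ^ (-(η / 12)) := by
    have h1 : (V : ℝ) ^ (-(1 / 12) : ℝ) ≤ ((X : ℝ) ^ η / 2) ^ (-(1 / 12) : ℝ) :=
      Real.rpow_le_rpow_of_nonpos (by positivity) hVge (by norm_num)
    have h2 : ((X : ℝ) ^ η / 2) ^ (-(1 / 12) : ℝ) =
        (2 : ℝ) ^ (1 / 12 : ℝ) * (X : ℝ) ^ (-(η / 12)) := by
      rw [Real.div_rpow (by positivity) (by norm_num), ← Real.rpow_mul hx0.le,
        Real.rpow_neg (by norm_num : (0 : ℝ) ≤ 2), div_inv_eq_mul, mul_comm]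
      congr 2
      ring
    have h3 : (2 : ℝ) ^ (1 / 12 : ℝ) ≤ 2 := by
      calc (2 : ℝ) ^ (1 / 12 : ℝ) ≤ (2 : ℝ) ^ (1 : ℝ) :=
            Real.rpow_le_rpow_of_exponent_le (by norm_num) (by norm_num)
        _ = 2 := Real.rpow_one 2
    rw [h2] at h1
    exact h1.trans (mul_le_mul_of_nonneg_right h3 (by positivity))
  -- small twists
  have hsmall : ∀ d ∈ Icc 1 V, |aa d - CR 2 * (X : ℝ) ^ (2 / 3 : ℝ) * ww d| ≤
      (X : ℝ) ^ (2 / 3 - κ1) + CR 2 * Cq * V := by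
    intro d hd
    rw [mem_Icc] at hd
    have hd1 : (1 : ℝ) ≤ d := by exact_mod_cast hd.1
    have hd0 : (0 : ℝ) < d := by linarith
    have hdV : (d : ℝ) ≤ V := by exact_mod_cast hd.2
    rw [haa]
    unfold ww
    simp only
    split_ifs with hs
    · obtain ⟨Z, hZ⟩ : ∃ Z : ℕ, Z = X / d ^ 2 := ⟨_, rfl⟩
      obtain ⟨x, hx⟩ : ∃ x : ℝ, x = (X : ℝ) / (d : ℝ) ^ 2 := ⟨_, rfl⟩
      have hZx : (Z : ℝ) ≤ x := by
        rw [hZ, hx]
        have := Nat.cast_div_le (α := ℝ) (m := X) (n := d ^ 2)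
        push_cast at this
        exact this
      have hxZ : x ≤ Z + 1 := by
        rw [hZ, hx, div_le_iff₀ (by positivity)]
        have h1 := Nat.lt_div_mul_add (a := X) (b := d ^ 2) (pow_pos hd.1 2)
        have h2 : X ≤ (X / d ^ 2 + 1) * d ^ 2 := by
          rw [add_mul, one_mul]
          exact h1.le
        exact_mod_cast h2
      have hx34 : (X : ℝ) ^ (3 / 4 : ℝ) ≤ x := by
        rw [hx, le_div_iff₀ (by positivity)]
        have h1 : (d : ℝ) ^ 2 ≤ (X : ℝ) ^ (1 / 4 : ℝ) := by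
          calc (d : ℝ) ^ 2 ≤ ((X : ℝ) ^ η) ^ 2 := by
                apply pow_le_pow_left₀ (by linarith) (hdV.trans hVle)
            _ = (X : ℝ) ^ (2 * η) := by
                rw [← Real.rpow_natCast, ← Real.rpow_mul hx0.le]
                congr 1
                push_cast
                ring
            _ ≤ (X : ℝ) ^ (1 / 4 : ℝ) := Real.rpow_le_rpow_of_exponent_le hx1 (by linarith)
        calc (X : ℝ) ^ (3 / 4 : ℝ) * (d : ℝ) ^ 2 ≤
              (X : ℝ) ^ (3 / 4 : ℝ) * (X : ℝ) ^ (1 / 4 : ℝ) := by gcongr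
          _ = X := by
              rw [← Real.rpow_add hx0]
              norm_num
      have hZ12 : (X : ℝ) ^ (1 / 2 : ℝ) ≤ Z := by
        have h1 : (X : ℝ) ^ (1 / 2 : ℝ) * 2 ≤ (X : ℝ) ^ (3 / 4 : ℝ) := by
          calc (X : ℝ) ^ (1 / 2 : ℝ) * 2 ≤ (X : ℝ) ^ (1 / 2 : ℝ) * (X : ℝ) ^ (1 / 4 : ℝ) := by gcongr
            _ = (X : ℝ) ^ (3 / 4 : ℝ) := by
                rw [← Real.rpow_add hx0]
                norm_num
        have h2 : 1 ≤ (X : ℝ) ^ (1 / 2 : ℝ) := Real.one_le_rpow hx1 (by norm_num)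
        linarith
      have hZ1 : (1 : ℝ) ≤ Z := (Real.one_le_rpow hx1 (by norm_num)).trans hZ12
      have hZX : (Z : ℝ) ≤ X := by
        refine hZx.trans ?_
        rw [hx]
        exact div_le_self hx0.le (one_le_pow₀ hd1)
      have hZn : n0 ≤ Z := by exact_mod_cast hXc.trans hZ12
      have hPZ : ((2 * d : ℕ) : ℝ) ≤ (Z : ℝ) ^ δ := by
        push_cast
        calc 2 * (d : ℝ) ≤ (X : ℝ) ^ (δ / 4) * (X : ℝ) ^ η := by
              apply mul_le_mul hXb (hdV.trans hVle) (by linarith) (by positivity)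
          _ ≤ (X : ℝ) ^ (δ / 4) * (X : ℝ) ^ (δ / 4) := by
              apply mul_le_mul_of_nonneg_left _ (by positivity)
              exact Real.rpow_le_rpow_of_exponent_le hx1 hηb
          _ = ((X : ℝ) ^ (1 / 2 : ℝ)) ^ δ := by
              rw [← Real.rpow_add hx0, ← Real.rpow_mul hx0.le]
              congr 1
              ring
          _ ≤ (Z : ℝ) ^ δ := Real.rpow_le_rpow (by positivity) hZ12 hδ.le
      have h1 := hn0 Z hZn (2 * d) (by omega) hPZ (G d) (fun t => by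
        rw [hG d hs.1 hs.2 t, hZ]
        rfl)
      have h2 : (Z : ℝ) ^ (2 / 3 - κ0) ≤ (X : ℝ) ^ (2 / 3 - κ1) := by
        calc (Z : ℝ) ^ (2 / 3 - κ0) ≤ (Z : ℝ) ^ (2 / 3 - κ1) :=
              Real.rpow_le_rpow_of_exponent_le hZ1 (by linarith)
          _ ≤ (X : ℝ) ^ (2 / 3 - κ1) := Real.rpow_le_rpow (by linarith) hZX (by linarith)
      have h3 := floor_rpow x (by rw [hx]; positivity) Z hZx hxZ
      have hCRd : CR (2 * d) ≤ CR 2 * Cq * V := by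
        rw [CR_mul hs.1.ne_zero hs.2]
        have h4 := hCq d hd.1
        rw [Real.rpow_one] at h4
        calc CR 2 * ∏ p ∈ d.primeFactors, qP p ≤ CR 2 * (Cq * d) :=
              mul_le_mul_of_nonneg_left h4 hCR0
          _ ≤ CR 2 * (Cq * V) := by gcongr
          _ = CR 2 * Cq * V := by ring
      have hCRd0 : 0 ≤ CR (2 * d) := CR_nonneg (by omega)
      have e1 : CR 2 * (X : ℝ) ^ (2 / 3 : ℝ) *
          ((∏ p ∈ d.primeFactors, qP p) * (d : ℝ) ^ (-(4 / 3) : ℝ)) =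
          CR (2 * d) * x ^ (2 / 3 : ℝ) := by
        rw [CR_mul hs.1.ne_zero hs.2, hx, Real.div_rpow hx0.le (by positivity),
          ← Real.rpow_natCast (d : ℝ) 2, ← Real.rpow_mul hd0.le, Real.rpow_neg hd0.le,
          show ((2 : ℕ) : ℝ) * (2 / 3) = 4 / 3 by norm_num]
        ring
      rw [e1]
      have e2 : ((G d).card : ℝ) - CR (2 * d) * x ^ (2 / 3 : ℝ) =
          (((G d).card : ℝ) - CR (2 * d) * (Z : ℝ) ^ (2 / 3 : ℝ)) +
            CR (2 * d) * ((Z : ℝ) ^ (2 / 3 : ℝ) - x ^ (2 / 3 : ℝ)) := by ring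
      rw [e2]
      refine (abs_add_le _ _).trans (add_le_add (h1.trans h2) ?_)
      rw [abs_mul, abs_of_nonneg hCRd0]
      calc CR (2 * d) * |(Z : ℝ) ^ (2 / 3 : ℝ) - x ^ (2 / 3 : ℝ)| ≤ CR (2 * d) * 1 :=
            mul_le_mul_of_nonneg_left h3 hCRd0
        _ ≤ CR 2 * Cq * V := by linarith
    · rw [mul_zero, sub_zero, abs_zero]
      positivity
  -- large twists
  have hlarge : ∀ d ∈ (Icc 1 X).filter (fun d => ¬ d ≤ V), aa d ≤
      2 * K * (X : ℝ) ^ (2 / 3 + η / 24) * (V : ℝ) ^ (-(1 / 12) : ℝ) *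
        (d : ℝ) ^ (-(5 / 4) : ℝ) := by
    intro d hd
    rw [mem_filter, mem_Icc, not_le] at hd
    have hd1 : (1 : ℝ) ≤ d := by exact_mod_cast hd.1.1
    have hd0 : (0 : ℝ) < d := by linarith
    have hVd : (V : ℝ) ≤ d := by exact_mod_cast hd.2.le
    have hK0 : 0 ≤ K := by linarith
    rw [haa]
    simp only
    split_ifs with hs
    · rcases Nat.eq_zero_or_pos (X / d ^ 2) with hz | hz
      · have h1 : (G d) = ∅ := by
          rw [Finset.eq_empty_iff_forall_notMem]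
          intro t ht
          have h2 := (hG d hs.1 hs.2 t).1 ht
          have h3 := h2.2.2.2
          rw [hz] at h3
          have := rOff_pos (2 * d) (Nn t)
          omega
        rw [h1, card_empty, Nat.cast_zero]
        positivity
      · have h1 := hup (2 * d) (X / d ^ 2) (by omega) hz (G d)
          (fun t ht => (hG d hs.1 hs.2 t).1 ht)
        have hZx : ((X / d ^ 2 : ℕ) : ℝ) ≤ (X : ℝ) / (d : ℝ) ^ 2 := by
          have := Nat.cast_div_le (α := ℝ) (m := X) (n := d ^ 2)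
          push_cast at this
          exact this
        have h2 : ((X / d ^ 2 : ℕ) : ℝ) ^ (2 / 3 + η / 24) ≤
            (X : ℝ) ^ (2 / 3 + η / 24) * (d : ℝ) ^ (-(4 / 3 + η / 12)) := by
          calc ((X / d ^ 2 : ℕ) : ℝ) ^ (2 / 3 + η / 24) ≤
                ((X : ℝ) / (d : ℝ) ^ 2) ^ (2 / 3 + η / 24) :=
                Real.rpow_le_rpow (Nat.cast_nonneg _) hZx (by positivity)
            _ = (X : ℝ) ^ (2 / 3 + η / 24) * (d : ℝ) ^ (-(4 / 3 + η / 12)) := by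
                rw [Real.div_rpow hx0.le (by positivity), ← Real.rpow_natCast (d : ℝ) 2,
                  ← Real.rpow_mul hd0.le, Real.rpow_neg hd0.le, div_eq_mul_inv]
                congr 3
                push_cast
                ring
        have h3 : ((2 * d : ℕ) : ℝ) ^ (η / 24) ≤ 2 * (d : ℝ) ^ (η / 24) := by
          push_cast
          rw [Real.mul_rpow (by norm_num) hd0.le]
          apply mul_le_mul_of_nonneg_right _ (by positivity)
          calc (2 : ℝ) ^ (η / 24) ≤ (2 : ℝ) ^ (1 : ℝ) :=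
                Real.rpow_le_rpow_of_exponent_le (by norm_num) (by linarith)
            _ = 2 := Real.rpow_one 2
        have h4 : (d : ℝ) ^ (-(1 / 12) : ℝ) ≤ (V : ℝ) ^ (-(1 / 12) : ℝ) :=
          Real.rpow_le_rpow_of_nonpos (by linarith) hVd (by norm_num)
        calc ((G d).card : ℝ) ≤ K * ((X / d ^ 2 : ℕ) : ℝ) ^ (2 / 3 + η / 24) *
              ((2 * d : ℕ) : ℝ) ^ (η / 24) := h1
          _ ≤ K * ((X : ℝ) ^ (2 / 3 + η / 24) * (d : ℝ) ^ (-(4 / 3 + η / 12))) *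
              (2 * (d : ℝ) ^ (η / 24)) := by gcongr
          _ = 2 * K * (X : ℝ) ^ (2 / 3 + η / 24) *
              (d : ℝ) ^ (-(4 / 3 + η / 12) + η / 24) := by
              rw [Real.rpow_add hd0]
              ring
          _ ≤ 2 * K * (X : ℝ) ^ (2 / 3 + η / 24) * (d : ℝ) ^ (-(1 / 12) + -(5 / 4) : ℝ) := by
              apply mul_le_mul_of_nonneg_left _ (by positivity)
              apply Real.rpow_le_rpow_of_exponent_le hd1
              linarith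
          _ = 2 * K * (X : ℝ) ^ (2 / 3 + η / 24) * (d : ℝ) ^ (-(1 / 12) : ℝ) *
              (d : ℝ) ^ (-(5 / 4) : ℝ) := by
              rw [Real.rpow_add hd0]
              ring
          _ ≤ 2 * K * (X : ℝ) ^ (2 / 3 + η / 24) * (V : ℝ) ^ (-(1 / 12) : ℝ) *
              (d : ℝ) ^ (-(5 / 4) : ℝ) := by gcongr
    · positivity
  -- the split sum
  have hsplit := Finset.sum_filter_add_sum_filter_not (Icc 1 X) (fun d => d ≤ V) aa
  have hfil : (Icc 1 X).filter (fun d => d ≤ V) = Icc 1 V := by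
    ext d
    rw [mem_filter, mem_Icc, mem_Icc]
    omega
  rw [hfil] at hsplit
  obtain ⟨A1, hA1⟩ : ∃ A1 : ℝ, A1 = ∑ d ∈ Icc 1 V, aa d := ⟨_, rfl⟩
  obtain ⟨A2, hA2⟩ : ∃ A2 : ℝ, A2 = ∑ d ∈ (Icc 1 X).filter (fun d => ¬ d ≤ V), aa d := ⟨_, rfl⟩
  rw [← hA1, ← hA2] at hsplit
  have hA20 : 0 ≤ A2 := by
    rw [hA2]
    exact Finset.sum_nonneg fun d _ => haa0 d
  have hser := series_tail_aux ww ww_nonneg summable_ww' ww_zero V hV1
  rw [← hW'] at hser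
  obtain ⟨S1, hS1⟩ : ∃ S1 : ℝ, S1 = ∑ v ∈ Icc 1 V, ww v := ⟨_, rfl⟩
  obtain ⟨S2, hS2⟩ : ∃ S2 : ℝ, S2 = ∑' v : ℕ, ww v := ⟨_, rfl⟩
  rw [← hS1, ← hS2] at hser
  obtain ⟨R, hR⟩ : ∃ R : ℝ, R = (X : ℝ) ^ (2 / 3 - η / 24) := ⟨_, rfl⟩
  have hR0 : 0 ≤ R := by rw [hR]; positivity
  have hmono : ∀ a : ℝ, a ≤ 2 / 3 - η / 24 → (X : ℝ) ^ a ≤ R := by
    intro a ha
    rw [hR]
    exact Real.rpow_le_rpow_of_exponent_le hx1 ha
  have t1 : |A1 - CR 2 * (X : ℝ) ^ (2 / 3 : ℝ) * S1| ≤ (1 + CR 2 * Cq) * R := by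
    rw [hA1, hS1, Finset.mul_sum, ← Finset.sum_sub_distrib]
    refine (Finset.abs_sum_le_sum_abs _ _).trans ((Finset.sum_le_sum hsmall).trans ?_)
    rw [Finset.sum_const, nsmul_eq_mul, Nat.card_Icc, Nat.add_sub_cancel, mul_add, add_mul, one_mul]
    apply add_le_add
    · calc (V : ℝ) * (X : ℝ) ^ (2 / 3 - κ1) ≤ (X : ℝ) ^ η * (X : ℝ) ^ (2 / 3 - κ1) := by gcongr
        _ = (X : ℝ) ^ (η + (2 / 3 - κ1)) := by rw [← Real.rpow_add hx0]
        _ ≤ R := hmono _ (by linarith)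
    · calc (V : ℝ) * (CR 2 * Cq * V) ≤ (X : ℝ) ^ η * (CR 2 * Cq * (X : ℝ) ^ η) := by gcongr
        _ = CR 2 * Cq * (X : ℝ) ^ (η + η) := by
            rw [Real.rpow_add hx0]
            ring
        _ ≤ CR 2 * Cq * R := by
            apply mul_le_mul_of_nonneg_left (hmono _ (by linarith)) (by positivity)
  have hK0 : 0 ≤ K := by linarith
  have t2 : A2 ≤ 4 * K * S5 * R := by
    rw [hA2]
    refine (Finset.sum_le_sum hlarge).trans ?_
    rw [← Finset.mul_sum]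
    have h1 : ∑ d ∈ (Icc 1 X).filter (fun d => ¬ d ≤ V), (d : ℝ) ^ (-(5 / 4) : ℝ) ≤ S5 := by
      rw [hS5]
      exact hsum5.sum_le_tsum _ (fun d _ => by positivity)
    calc 2 * K * (X : ℝ) ^ (2 / 3 + η / 24) * (V : ℝ) ^ (-(1 / 12) : ℝ) *
          ∑ d ∈ (Icc 1 X).filter (fun d => ¬ d ≤ V), (d : ℝ) ^ (-(5 / 4) : ℝ) ≤
          2 * K * (X : ℝ) ^ (2 / 3 + η / 24) * (2 * (X : ℝ) ^ (-(η / 12))) * S5 := by gcongr
      _ = 4 * K * S5 * (X : ℝ) ^ (2 / 3 + η / 24 + -(η / 12)) := by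
          rw [Real.rpow_add hx0 (2 / 3 + η / 24)]
          ring
      _ ≤ 4 * K * S5 * R := by
          apply mul_le_mul_of_nonneg_left (hmono _ (by linarith)) (by positivity)
  have t3 : |CR 2 * (X : ℝ) ^ (2 / 3 : ℝ) * S1 - CR 2 * (X : ℝ) ^ (2 / 3 : ℝ) * S2| ≤
      2 * CR 2 * W' * R := by
    rw [← mul_sub, abs_mul, abs_of_nonneg (by positivity : 0 ≤ CR 2 * (X : ℝ) ^ (2 / 3 : ℝ))]
    calc CR 2 * (X : ℝ) ^ (2 / 3 : ℝ) * |S1 - S2| ≤
          CR 2 * (X : ℝ) ^ (2 / 3 : ℝ) * ((2 * (X : ℝ) ^ (-(η / 12))) * W') := by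
          apply mul_le_mul_of_nonneg_left _ (by positivity)
          exact hser.trans (mul_le_mul_of_nonneg_right hV12 hW'0)
      _ = 2 * CR 2 * W' * (X : ℝ) ^ (2 / 3 + -(η / 12)) := by
          rw [Real.rpow_add hx0]
          ring
      _ ≤ 2 * CR 2 * W' * R := by
          apply mul_le_mul_of_nonneg_left (hmono _ (by linarith)) (by positivity)
  have hCE := CE_eq
  rw [← hS2] at hCE
  have t4 : |(F.card : ℝ) - CE * (X : ℝ) ^ (2 / 3 : ℝ)| ≤ CC * R := by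
    have e : (F.card : ℝ) - CE * (X : ℝ) ^ (2 / 3 : ℝ) =
        2 * ((A1 - CR 2 * (X : ℝ) ^ (2 / 3 : ℝ) * S1) + A2 +
          (CR 2 * (X : ℝ) ^ (2 / 3 : ℝ) * S1 - CR 2 * (X : ℝ) ^ (2 / 3 : ℝ) * S2)) := by
      rw [hcard', ← hsplit, hCE]
      ring
    rw [e, abs_mul, abs_of_pos (by norm_num : (0 : ℝ) < 2)]
    have h1 := abs_add_three (A1 - CR 2 * (X : ℝ) ^ (2 / 3 : ℝ) * S1) A2
      (CR 2 * (X : ℝ) ^ (2 / 3 : ℝ) * S1 - CR 2 * (X : ℝ) ^ (2 / 3 : ℝ) * S2)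
    rw [abs_of_nonneg hA20] at h1
    rw [hCC]
    nlinarith
  refine t4.trans ?_
  calc CC * R ≤ (X : ℝ) ^ (η / 48) * R := mul_le_mul_of_nonneg_right hXd hR0
    _ = (X : ℝ) ^ (2 / 3 - η / 48) := by
        rw [hR, ← Real.rpow_add hx0]
        congr 1
        ring

end Pool.Agent.Lib.AbcT
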