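import Mathlib
import Pool.Agent.Lib.AbcG.Final
import Pool.Agent.Lib.AbcT.Main

/-!
# The count of the semistable curves

`semi_count`: the number of coprime pairs `(a, b)` with `16 ∣ N = a b (a + b)` and
`rad (N / 16) ≤ X` is `CS * X ^ (2/3)` up to `X ^ (2/3 - κ)`.

PROOF. `pow_count`: the number of pairs with `2 ^ k ∣ N` and `rOff 2 N ≤ Z` (the radical away from
2) has an asymptotic formula; this is the proof of `rel_count` for `P = 2` with `v * rOff 2 v`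
replaced by its least common multiple with `2 ^ k`. The pairs with `rad (N / 16) ≤ X` are those with
`16 ∣ N`, `rOff 2 N ≤ X`, without those with `32 ∣ N`, `rOff 2 N ≤ X`, together with those with
`32 ∣ N`, `rOff 2 N ≤ X / 2`.
-/

open Finset Filter

namespace Pool.Agent.Lib.AbcT

open Pool.Agent.Lib.AbcG

/-! ### Moebius inversion with a divisibility condition -/

theorem inv_Acq (P q Y : ℕ) (F : Finset (ℕ × ℕ))
    (hF : ∀ t : ℕ × ℕ, t ∈ F ↔ 0 < t.1 ∧ 0 < t.2 ∧ t.1.Coprime t.2 ∧ q ∣ Nn t ∧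
      rOff P (Nn t) ≤ Y)
    {v m : ℕ} (hv : 1 ≤ v) (hm : m ∣ v) :
    (Ac (Nat.lcm (v * rOff P v) q) ((Y : ℝ) * v / m) : ℝ) =
      ∑ t ∈ F, (if v ∣ wOff P (Nn t) then
        (if Nn t ≤ Y * (v / m) then (1 : ℝ) else 0) else 0) := by
  have hT : (Y : ℝ) * v / m = ((Y * (v / m) : ℕ) : ℝ) := by
    rw [Nat.cast_mul, Nat.cast_div hm (by
      have : m ≠ 0 := by
        rintro rfl
        rw [Nat.zero_dvd] at hm
        omega
      exact_mod_cast this), mul_div_assoc]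
  have hset : (Reg ((Y : ℝ) * v / m)).filter
        (fun t => t.1.Coprime t.2 ∧ Nat.lcm (v * rOff P v) q ∣ Nn t) =
      F.filter (fun t => v ∣ wOff P (Nn t) ∧ Nn t ≤ Y * (v / m)) := by
    ext t
    rw [mem_filter, mem_filter, mem_Reg, hF, hT, Nat.lcm_dvd_iff]
    constructor
    · rintro ⟨⟨h1, h2, h3⟩, h4, h5, hq⟩
      have hN : 1 ≤ Nn t := Nn_pos h1 h2
      have h6 : v ∣ wOff P (Nn t) := (dvd_wOff_iff P hv hN).2 h5
      have h7 : Nn t ≤ Y * (v / m) := by exact_mod_cast h3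
      refine ⟨⟨h1, h2, h4, hq, ?_⟩, h6, h7⟩
      have hw := wOff_pos P hN
      have h8 : v / m ≤ wOff P (Nn t) := (Nat.div_le_self v m).trans (Nat.le_of_dvd hw h6)
      have h9 : rOff P (Nn t) * wOff P (Nn t) ≤ Y * wOff P (Nn t) := by
        rw [rOff_mul_wOff]
        exact h7.trans (Nat.mul_le_mul_left Y h8)
      exact Nat.le_of_mul_le_mul_right h9 hw
    · rintro ⟨⟨h1, h2, h4, hq, _⟩, h6, h7⟩
      have hN : 1 ≤ Nn t := Nn_pos h1 h2
      exact ⟨⟨h1, h2, by exact_mod_cast h7⟩, h4, (dvd_wOff_iff P hv hN).1 h6, hq⟩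
  unfold Ac
  rw [hset, card_filter]
  push_cast
  refine sum_congr rfl (fun t _ => ?_)
  by_cases h1 : v ∣ wOff P (Nn t)
  · by_cases h2 : Nn t ≤ Y * (v / m) <;> simp [h1, h2]
  · simp [h1]

theorem inv_countq (P q Y V : ℕ) (F : Finset (ℕ × ℕ))
    (hF : ∀ t : ℕ × ℕ, t ∈ F ↔ 0 < t.1 ∧ 0 < t.2 ∧ t.1.Coprime t.2 ∧ q ∣ Nn t ∧
      rOff P (Nn t) ≤ Y) :
    |(F.card : ℝ) - ∑ v ∈ Icc 1 V, ∑ m ∈ v.divisors,
        ((ArithmeticFunction.moebius m : ℤ) : ℝ) *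
          (Ac (Nat.lcm (v * rOff P v) q) ((Y : ℝ) * v / m) : ℝ)| ≤
      ∑ t ∈ F.filter (fun t => V < wOff P (Nn t)),
        (1 + ∑ v ∈ (Icc 1 V).filter (fun v => v ∣ wOff P (Nn t)), (v.divisors.card : ℝ)) := by
  obtain ⟨G, hG⟩ : ∃ G : ℕ × ℕ → ℝ, G = fun t =>
      ∑ v ∈ (Icc 1 V).filter (fun v => v ∣ wOff P (Nn t)),
      ∑ m ∈ v.divisors, ((ArithmeticFunction.moebius m : ℤ) : ℝ) *
        (if Nn t ≤ Y * (v / m) then (1 : ℝ) else 0) := ⟨_, rfl⟩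
  have h1 : ∑ v ∈ Icc 1 V, ∑ m ∈ v.divisors,
        ((ArithmeticFunction.moebius m : ℤ) : ℝ) *
          (Ac (Nat.lcm (v * rOff P v) q) ((Y : ℝ) * v / m) : ℝ) = ∑ t ∈ F, G t := by
    have h2 : ∀ v ∈ Icc 1 V, ∑ m ∈ v.divisors,
        ((ArithmeticFunction.moebius m : ℤ) : ℝ) *
          (Ac (Nat.lcm (v * rOff P v) q) ((Y : ℝ) * v / m) : ℝ) =
        ∑ t ∈ F, (if v ∣ wOff P (Nn t) then ∑ m ∈ v.divisors,
          ((ArithmeticFunction.moebius m : ℤ) : ℝ) *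
            (if Nn t ≤ Y * (v / m) then (1 : ℝ) else 0) else 0) := by
      intro v hv
      have hv1 : 1 ≤ v := (mem_Icc.1 hv).1
      have h3 : ∀ m ∈ v.divisors,
          ((ArithmeticFunction.moebius m : ℤ) : ℝ) *
            (Ac (Nat.lcm (v * rOff P v) q) ((Y : ℝ) * v / m) : ℝ) =
          ∑ t ∈ F, ((ArithmeticFunction.moebius m : ℤ) : ℝ) *
            (if v ∣ wOff P (Nn t) then
              (if Nn t ≤ Y * (v / m) then (1 : ℝ) else 0) else 0) := by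
        intro m hm
        rw [inv_Acq P q Y F hF hv1 (Nat.dvd_of_mem_divisors hm), mul_sum]
      rw [sum_congr rfl h3, sum_comm]
      refine sum_congr rfl (fun t _ => ?_)
      split_ifs with h4
      · rfl
      · simp
    rw [sum_congr rfl h2, sum_comm, hG]
    exact sum_congr rfl (fun t _ => (sum_filter _ _).symm)
  have h4 : (F.card : ℝ) = ∑ _t ∈ F, (1 : ℝ) := by simp
  rw [h1, h4, ← sum_sub_distrib]
  refine (abs_sum_le_sum_abs _ _).trans ?_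
  rw [sum_filter]
  refine sum_le_sum (fun t ht => ?_)
  obtain ⟨ht1, ht2, ht3, -, ht4⟩ := (hF t).1 ht
  have hN : 1 ≤ Nn t := Nn_pos ht1 ht2
  have hw := wOff_pos P hN
  split_ifs with hV
  · refine (abs_sub _ _).trans ?_
    rw [abs_one]
    apply add_le_add le_rfl
    rw [hG]
    refine (abs_sum_le_sum_abs _ _).trans (sum_le_sum (fun v _ => ?_))
    refine (abs_sum_le_sum_abs _ _).trans ?_
    have h5 : ∀ m ∈ v.divisors, |((ArithmeticFunction.moebius m : ℤ) : ℝ) *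
        (if Nn t ≤ Y * (v / m) then (1 : ℝ) else 0)| ≤ 1 := by
      intro m _
      have h6 : |((ArithmeticFunction.moebius m : ℤ) : ℝ)| ≤ 1 := by
        have h := ArithmeticFunction.abs_moebius_le_one (n := m)
        exact_mod_cast h
      split_ifs
      · rw [mul_one]; exact h6
      · rw [mul_zero, abs_zero]; exact zero_le_one
    refine (sum_le_sum h5).trans ?_
    simp
  · have h7 : (Icc 1 V).filter (fun v => v ∣ wOff P (Nn t)) = (wOff P (Nn t)).divisors := by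
      ext v
      rw [mem_filter, mem_Icc, Nat.mem_divisors]
      constructor
      · rintro ⟨_, h8⟩
        exact ⟨h8, hw.ne'⟩
      · rintro ⟨h8, _⟩
        exact ⟨⟨Nat.pos_of_dvd_of_pos h8 hw, (Nat.le_of_dvd hw h8).trans (not_lt.1 hV)⟩, h8⟩
    have h8 : G t = 1 := by
      rw [hG]
      show ∑ v ∈ (Icc 1 V).filter (fun v => v ∣ wOff P (Nn t)),
        ∑ m ∈ v.divisors, ((ArithmeticFunction.moebius m : ℤ) : ℝ) *
          (if Nn t ≤ Y * (v / m) then (1 : ℝ) else 0) = 1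
      rw [h7]
      have h9 := mob_inv (fun u => if Nn t ≤ Y * u then (1 : ℝ) else 0) (wOff P (Nn t)) hw
      refine h9.trans ?_
      apply if_pos
      calc Nn t = rOff P (Nn t) * wOff P (Nn t) := (rOff_mul_wOff P _).symm
        _ ≤ Y * wOff P (Nn t) := Nat.mul_le_mul_right _ ht4
    rw [h8, sub_self, abs_zero]

/-! ### The singular series -/

/-- The correction factor. -/
noncomputable def cc (k v : ℕ) : ℝ := if 2 ∣ v then (Nat.gcd v (2 ^ k) : ℝ) / 2 else 1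

/-- The normalised terms. -/
noncomputable def gk (k v : ℕ) : ℝ := cc k v * hP 2 v

theorem cc_nonneg (k v : ℕ) : 0 ≤ cc k v := by
  unfold cc
  split_ifs
  · positivity
  · exact zero_le_one

theorem cc_le (k v : ℕ) : cc k v ≤ 2 ^ k := by
  unfold cc
  have h2 : (1 : ℝ) ≤ 2 ^ k := one_le_pow₀ (by norm_num)
  split_ifs
  · have h1 : (Nat.gcd v (2 ^ k) : ℝ) ≤ 2 ^ k := by
      have := Nat.gcd_le_right v (show 0 < 2 ^ k by positivity)
      exact_mod_cast this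
    linarith
  · exact h2

theorem cc_mul {k : ℕ} (hk : 1 ≤ k) {m n : ℕ} (h : m.Coprime n) :
    cc k (m * n) = cc k m * cc k n := by
  unfold cc
  by_cases h1 : 2 ∣ m
  · have h2 : ¬ 2 ∣ n := by
      intro h2
      have := Nat.dvd_gcd h1 h2
      rw [h.gcd_eq_one] at this
      omega
    have h3 : Nat.Coprime n (2 ^ k) := by
      apply Nat.Coprime.pow_right
      rw [Nat.coprime_comm]
      exact (Nat.Prime.coprime_iff_not_dvd Nat.prime_two).2 h2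
    rw [if_pos (h1.mul_right n), if_pos h1, if_neg h2, mul_one]
    rw [Nat.Coprime.gcd_mul_right_cancel m h3]
  · by_cases h2 : 2 ∣ n
    · have h3 : Nat.Coprime m (2 ^ k) := by
        apply Nat.Coprime.pow_right
        rw [Nat.coprime_comm]
        exact (Nat.Prime.coprime_iff_not_dvd Nat.prime_two).2 h1
      rw [if_pos (h2.mul_left m), if_neg h1, if_pos h2, one_mul]
      rw [Nat.Coprime.gcd_mul_left_cancel n h3]
    · rw [if_neg h1, if_neg h2, if_neg, mul_one]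
      intro h3
      rcases (Nat.Prime.dvd_mul Nat.prime_two).1 h3 with h4 | h4
      · exact h1 h4
      · exact h2 h4

theorem gk_one (k : ℕ) : gk k 1 = 1 := by
  unfold gk cc
  rw [hP_one, if_neg (by norm_num), mul_one]

theorem gk_zero (k : ℕ) : gk k 0 = 0 := by
  unfold gk
  rw [hP_zero, mul_zero]

theorem gk_nonneg (k v : ℕ) : 0 ≤ gk k v := mul_nonneg (cc_nonneg k v) (hP_nonneg 2 v)

theorem gk_mul {k : ℕ} (hk : 1 ≤ k) {m n : ℕ} (h : m.Coprime n) :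
    gk k (m * n) = gk k m * gk k n := by
  unfold gk
  rw [cc_mul hk h, hP_mul 2 h]
  ring

theorem gk_le (k v : ℕ) : gk k v ≤ 2 ^ k * hP 2 v :=
  mul_le_mul_of_nonneg_right (cc_le k v) (hP_nonneg 2 v)

theorem summable_gk (k : ℕ) : Summable (gk k) :=
  Summable.of_nonneg_of_le (gk_nonneg k) (gk_le k) ((summable_hP (by norm_num)).mul_left _)

theorem summable_gk' (k : ℕ) : Summable (fun v : ℕ => gk k v * (v : ℝ) ^ (1 / 12 : ℝ)) := by
  refine Summable.of_nonneg_of_le (fun v => mul_nonneg (gk_nonneg k v) (by positivity))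
    (fun v => ?_) ((summable_hP' (P := 2) (by norm_num)).mul_left ((2 : ℝ) ^ k))
  rw [← mul_assoc]
  exact mul_le_mul_of_nonneg_right (gk_le k v) (by positivity)

theorem lcm_facts {k v : ℕ} (hk : 1 ≤ k) (hv : 1 ≤ v) :
    3 ^ (Nat.lcm (v * rOff 2 v) (2 ^ k)).primeFactors.card *
      psi (Nat.lcm (v * rOff 2 v) (2 ^ k)) / ((Nat.lcm (v * rOff 2 v) (2 ^ k) : ℕ) : ℝ) =
      2 / 2 ^ k * cc k v * (3 ^ v.primeFactors.card * psi v / (v * rOff 2 v)) := by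
  have hv0 : v ≠ 0 := by omega
  have hr := rOff_pos 2 v
  have hA : 0 < v * rOff 2 v := Nat.mul_pos (by omega) hr
  have hL := Nat.gcd_mul_lcm (v * rOff 2 v) (2 ^ k)
  have h2k : (0 : ℝ) < 2 ^ k := by positivity
  have hcop : Nat.Coprime (rOff 2 v) (2 ^ k) := by
    apply Nat.Coprime.pow_right
    unfold rOff
    apply Nat.Coprime.prod_left
    intro p hp
    rw [Finset.mem_sdiff, Nat.Prime.primeFactors Nat.prime_two, Finset.mem_singleton] at hp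
    exact (Nat.coprime_primes (Nat.prime_of_mem_primeFactors hp.1) Nat.prime_two).2 hp.2
  have hg : Nat.gcd (v * rOff 2 v) (2 ^ k) = Nat.gcd v (2 ^ k) :=
    Nat.Coprime.gcd_mul_right_cancel v hcop
  rw [hg] at hL
  have hLpos : 0 < Nat.lcm (v * rOff 2 v) (2 ^ k) := Nat.lcm_pos hA (by positivity)
  have hgpos : 0 < Nat.gcd v (2 ^ k) := Nat.gcd_pos_of_pos_left _ (by omega)
  have hLR : ((Nat.lcm (v * rOff 2 v) (2 ^ k) : ℕ) : ℝ) =
      (v * rOff 2 v) * 2 ^ k / (Nat.gcd v (2 ^ k) : ℝ) := by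
    rw [eq_div_iff (by exact_mod_cast hgpos.ne'), mul_comm]
    exact_mod_cast hL
  have hpf : (Nat.lcm (v * rOff 2 v) (2 ^ k)).primeFactors = v.primeFactors ∪ {2} := by
    ext p
    rw [Nat.mem_primeFactors, Finset.mem_union, Finset.mem_singleton]
    constructor
    · rintro ⟨hp, h1, _⟩
      rcases (Nat.Prime.dvd_mul hp).1 (h1.trans (Nat.lcm_dvd_mul _ _)) with h2 | h2
      · left
        rw [← primeFactors_mul_rOff 2 hv0]
        exact Nat.mem_primeFactors.2 ⟨hp, h2, hA.ne'⟩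
      · right
        exact (Nat.prime_dvd_prime_iff_eq hp Nat.prime_two).1 (hp.dvd_of_dvd_pow h2)
    · rintro (h1 | rfl)
      · exact ⟨Nat.prime_of_mem_primeFactors h1, ((Nat.dvd_of_mem_primeFactors h1).mul_right _).trans
          (Nat.dvd_lcm_left _ _), hLpos.ne'⟩
      · exact ⟨Nat.prime_two, (dvd_pow_self 2 (by omega)).trans (Nat.dvd_lcm_right _ _), hLpos.ne'⟩
  have hv0' : (0 : ℝ) < v := by exact_mod_cast Nat.pos_of_ne_zero hv0
  have hr' : (0 : ℝ) < rOff 2 v := by exact_mod_cast hr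
  have hg' : (0 : ℝ) < (Nat.gcd v (2 ^ k) : ℝ) := by exact_mod_cast hgpos
  by_cases h2 : 2 ∣ v
  · have h3 : v.primeFactors ∪ {2} = v.primeFactors := by
      apply Finset.union_eq_left.2
      rw [singleton_subset_iff]
      exact Nat.mem_primeFactors.2 ⟨Nat.prime_two, h2, hv0⟩
    have h4 : psi (Nat.lcm (v * rOff 2 v) (2 ^ k)) = psi v := by
      unfold psi
      rw [hpf, h3]
    rw [h4, hpf, h3, hLR]
    unfold cc
    rw [if_pos h2]
    field_simp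
  · have h3 : Disjoint v.primeFactors {2} := by
      rw [disjoint_singleton_right]
      exact fun h => h2 (Nat.dvd_of_mem_primeFactors h)
    have h4 : psi (Nat.lcm (v * rOff 2 v) (2 ^ k)) = psi v * (2 / 3) := by
      unfold psi
      rw [hpf, prod_union h3, prod_singleton]
      norm_num
    have h5 : Nat.gcd v (2 ^ k) = 1 := by
      apply Nat.Coprime.pow_right
      rw [Nat.coprime_comm]
      exact (Nat.Prime.coprime_iff_not_dvd Nat.prime_two).2 h2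
    rw [h4, hpf, card_union_of_disjoint h3, hLR, h5]
    unfold cc
    rw [if_neg h2, card_singleton, pow_succ]
    push_cast
    field_simp

/-- `2 ^ (-1/3)`. -/
noncomputable def xx : ℝ := (2 : ℝ) ^ (-(1 / 3) : ℝ)

theorem xx_pos : 0 < xx := by unfold xx; positivity

theorem xx_cube : xx ^ 3 = 1 / 2 := by
  unfold xx
  rw [← Real.rpow_natCast, ← Real.rpow_mul (by norm_num)]
  norm_num [Real.rpow_neg_one]

theorem xx_lt : xx < 1 := by
  have h1 := xx_cube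
  have h0 := xx_pos
  by_contra h
  push Not at h
  have : (1 : ℝ) ≤ xx ^ 3 := one_le_pow₀ h
  linarith

theorem gk_two (k e : ℕ) : gk k (2 ^ (e + 1)) = 2 ^ (min (e + 1) k) * (1 - xx ^ 2) * xx ^ (e + 1) := by
  have h1 : rIn 2 (2 ^ (e + 1)) = 2 := by
    unfold rIn
    rw [Nat.primeFactors_prime_pow (by omega) Nat.prime_two, Nat.Prime.primeFactors Nat.prime_two,
      Finset.inter_self, prod_singleton]
  have h2 : hh (2 ^ (e + 1)) = (1 - xx ^ 2) * xx ^ (e + 1) := by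
    have h3 := hh_prime_pow Nat.prime_two e
    have h4 : ((2 : ℕ) : ℝ) ^ (-(1 / 3) : ℝ) = xx := by
      unfold xx
      norm_num
    rw [h3, h4]
    push_cast
    ring
  have h3 : Nat.gcd (2 ^ (e + 1)) (2 ^ k) = 2 ^ (min (e + 1) k) := by
    rcases le_total (e + 1) k with h | h
    · rw [min_eq_left h]
      exact Nat.gcd_eq_left (pow_dvd_pow 2 h)
    · rw [min_eq_right h]
      exact Nat.gcd_eq_right (pow_dvd_pow 2 h)
  unfold gk cc hP
  rw [if_pos (dvd_pow_self 2 (by omega)), h1, h2, h3]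
  push_cast
  ring

theorem tsum_gk_two {k : ℕ} (hk : 1 ≤ k) :
    ∑' e : ℕ, gk k (2 ^ e) = (2 * xx) ^ k * (1 + xx + xx ^ 2) := by
  have hx0 := xx_pos
  have hx1 := xx_lt
  have hx3 := xx_cube
  have hs : Summable (fun e : ℕ => gk k (2 ^ e)) :=
    (summable_gk k).comp_injective (Nat.pow_right_injective le_rfl)
  have h1 := hs.sum_add_tsum_nat_add (k + 1)
  have h2 : ∑' j : ℕ, gk k (2 ^ (j + (k + 1))) = 2 ^ k * (1 + xx) * xx ^ (k + 1) := by
    have e1 : (fun j : ℕ => gk k (2 ^ (j + (k + 1)))) =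
        fun j : ℕ => 2 ^ k * (1 - xx ^ 2) * xx ^ (k + 1) * xx ^ j := by
      funext j
      rw [← add_assoc, gk_two, min_eq_right (by omega)]
      rw [show j + k + 1 = (k + 1) + j by ring, pow_add]
      ring
    rw [e1, tsum_mul_left, tsum_geometric_of_lt_one hx0.le hx1]
    have h3 : 1 - xx ≠ 0 := by linarith
    field_simp
    ring
  have h3 : ∀ n, n ≤ k → ∑ e ∈ range (n + 1), gk k (2 ^ e) = (2 * xx) ^ n := by
    intro n
    induction n with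
    | zero =>
      intro _
      rw [zero_add, sum_range_one, pow_zero, gk_one, pow_zero]
    | succ n ih =>
      intro hn
      rw [sum_range_succ, ih (by omega), gk_two, min_eq_left hn, mul_pow, mul_pow]
      have e1 : xx ^ (n + 1) * xx ^ 2 = xx ^ n * (1 / 2) := by
        rw [← hx3]
        ring
      have e2 : (2 : ℝ) ^ (n + 1) * (1 - xx ^ 2) * xx ^ (n + 1) =
          2 ^ (n + 1) * xx ^ (n + 1) - 2 ^ (n + 1) * (xx ^ (n + 1) * xx ^ 2) := by ring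
      rw [e2, e1, pow_succ (2 : ℝ) n]
      ring
  rw [← h1, h2, h3 k le_rfl, mul_pow]
  ring

/-- The local factors away from 2. -/
noncomputable def fo (p : ℕ) : ℝ := if p = 2 then 1 else fP p

theorem fP_two_pos : 0 < fP 2 := by
  unfold fP
  have h1 : (0 : ℝ) < ((2 : ℕ) : ℝ) ^ (-(4 / 3) : ℝ) := by positivity
  have h2 : (0 : ℝ) < ((2 : ℕ) : ℝ) ^ (-(5 / 3) : ℝ) := by positivity
  push_cast at h1 h2 ⊢
  have h3 : (0 : ℝ) < 1 - 1 / 2 := by norm_num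
  positivity

theorem multipliable_fo : Multipliable (fun p : Nat.Primes => fo p) := by
  have h1 : HasProd (fun p : Nat.Primes => fP p) (6 / Real.pi ^ 2 * ∑' v : ℕ, hh v) := hasProd_fac
  have h2 : HasProd (fun p : Nat.Primes => if p = ⟨2, Nat.prime_two⟩ then (fP 2)⁻¹ else 1)
      (fP 2)⁻¹ := hasProd_ite_eq _ _
  have h3 := h1.mul h2
  have e : (fun p : Nat.Primes => fo p) = fun p : Nat.Primes =>
      fP p * (if p = ⟨2, Nat.prime_two⟩ then (fP 2)⁻¹ else 1) := by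
    funext p
    unfold fo
    by_cases hp : (p : ℕ) = 2
    · have hp' : p = ⟨2, Nat.prime_two⟩ := Subtype.ext hp
      rw [if_pos hp, if_pos hp', hp, mul_inv_cancel₀ fP_two_pos.ne']
    · have hp' : p ≠ ⟨2, Nat.prime_two⟩ := fun h => hp (congrArg Subtype.val h)
      rw [if_neg hp, if_neg hp', mul_one]
  rw [e]
  exact h3.multipliable

theorem tsum_gk {k : ℕ} (hk : 1 ≤ k) : 6 / Real.pi ^ 2 * ∑' v : ℕ, gk k v =
    3 / 4 * ((2 * xx) ^ k * (1 + xx + xx ^ 2)) * ∏' p : Nat.Primes, fo p := by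
  have h1 := EulerProduct.eulerProduct_hasProd (f := gk k) (gk_one k) (fun {m n} h => gk_mul hk h)
    (summable_gk k).norm (gk_zero k)
  have h2 := hasProd_mobT 1 le_rfl
  rw [tsum_mobT_one] at h2
  have h3 := h2.mul h1
  obtain ⟨c, hc⟩ : ∃ c, c = 3 / 4 * ((2 * xx) ^ k * (1 + xx + xx ^ 2)) := ⟨_, rfl⟩
  have h4 : HasProd (fun p : Nat.Primes => if p = ⟨2, Nat.prime_two⟩ then c else 1) c :=
    hasProd_ite_eq _ _
  have h5 := h4.mul multipliable_fo.hasProd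
  have e : (fun p : Nat.Primes => (if p = ⟨2, Nat.prime_two⟩ then c else 1) * fo p) =
      fun p : Nat.Primes =>
      (1 - (Nat.gcd p 1 : ℝ) / (p : ℝ) ^ 2) * ∑' e : ℕ, gk k ((p : ℕ) ^ e) := by
    funext p
    have hp := p.2
    rw [Nat.gcd_one_right]
    by_cases h2 : (p : ℕ) = 2
    · have hp' : p = ⟨2, Nat.prime_two⟩ := Subtype.ext h2
      unfold fo
      rw [if_pos hp', if_pos h2, h2, tsum_gk_two hk, hc]
      push_cast
      ring
    · have hp' : p ≠ ⟨2, Nat.prime_two⟩ := fun h => h2 (congrArg Subtype.val h)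
      have h6 : ∑' e : ℕ, gk k ((p : ℕ) ^ e) = ∑' e : ℕ, hP 1 ((p : ℕ) ^ e) := by
        apply tsum_congr
        intro e
        have h7 : ¬ 2 ∣ (p : ℕ) ^ e := by
          intro h
          exact h2 ((Nat.prime_dvd_prime_iff_eq Nat.prime_two hp).1
            (Nat.prime_two.dvd_of_dvd_pow h)).symm
        unfold gk cc hP
        rw [if_neg h7, one_mul]
        congr 1
        have h8 : rIn 2 ((p : ℕ) ^ e) = 1 := by
          unfold rIn
          have h9 : ((p : ℕ) ^ e).primeFactors ∩ Nat.primeFactors 2 = ∅ := by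
            rw [Nat.Prime.primeFactors Nat.prime_two]
            apply Finset.inter_singleton_of_notMem
            exact fun h => h7 (Nat.dvd_of_mem_primeFactors h)
          rw [h9, prod_empty]
        have h10 : rIn 1 ((p : ℕ) ^ e) = 1 := by
          unfold rIn
          rw [Nat.primeFactors_one, Finset.inter_empty, prod_empty]
        rw [h8, h10]
      have hp1 : ¬ (p : ℕ) ∣ 1 := fun h => hp.one_lt.ne' (Nat.dvd_one.1 h)
      unfold fo
      rw [if_neg hp', if_neg h2, h6, tsum_hP one_ne_zero hp, if_neg hp1, one_mul, one_mul]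
      have hp0 : (0 : ℝ) < (p : ℝ) := by exact_mod_cast hp.pos
      have e1 : (p : ℝ) ^ (-(4 / 3) : ℝ) = 1 / p * (p : ℝ) ^ (-(1 / 3) : ℝ) := by
        rw [show (-(4 / 3) : ℝ) = -1 + -(1 / 3) by norm_num, Real.rpow_add hp0, Real.rpow_neg_one,
          one_div (p : ℝ)]
      have e2 : (p : ℝ) ^ (-(5 / 3) : ℝ) = 1 / p * ((p : ℝ) ^ (-(1 / 3) : ℝ)) ^ 2 := by
        rw [← Real.rpow_natCast, ← Real.rpow_mul hp0.le, show (-(5 / 3) : ℝ) =
          -1 + -(1 / 3) * ((2 : ℕ) : ℝ) by norm_num, Real.rpow_add hp0, Real.rpow_neg_one,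
          one_div (p : ℝ)]
      unfold fP
      rw [e1, e2]
      obtain ⟨x, hx⟩ : ∃ x, x = (p : ℝ) ^ (-(1 / 3) : ℝ) := ⟨_, rfl⟩
      rw [← hx]
      have hp1 : (p : ℝ) + 1 ≠ 0 := by positivity
      push_cast
      field_simp
      ring
  rw [e] at h5
  rw [hc] at h5
  exact h3.unique h5

/-- The constant for `2 ^ k`. -/
noncomputable def Ck (k : ℕ) : ℝ :=
  c0 * (3 / 4 * (2 * xx ^ k * (1 + xx + xx ^ 2))) * ∏' p : Nat.Primes, fo p

theorem Ck_eq {k : ℕ} (hk : 1 ≤ k) :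
    Ck k = c0 * (6 / Real.pi ^ 2) * (2 / 2 ^ k * ∑' v : ℕ, gk k v) := by
  have h := tsum_gk hk
  have e : c0 * (6 / Real.pi ^ 2) * (2 / 2 ^ k * ∑' v : ℕ, gk k v) =
      c0 * (2 / 2 ^ k) * (6 / Real.pi ^ 2 * ∑' v : ℕ, gk k v) := by ring
  rw [e, h]
  unfold Ck
  rw [mul_pow]
  have h2 : (2 : ℝ) ^ k ≠ 0 := by positivity
  field_simp
/-! ### The count -/

/-- The main term of the truncated Moebius sum. -/
theorem main_termq {k : ℕ} (hk : 1 ≤ k) {C1 : ℝ} (hC1 : 0 < C1) (hfac : ∀ (L : ℕ), 1 ≤ L → ∀ T : ℝ, 1 ≤ T →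
    |(Ac L T : ℝ) - c0 * T ^ (2 / 3 : ℝ) *
      (3 ^ L.primeFactors.card * (6 / Real.pi ^ 2 * psi L / L))| ≤
      C1 * 3 ^ L.primeFactors.card * √T) (Y V : ℕ) (hY : 1 ≤ Y) (hV : 1 ≤ V) :
    |∑ v ∈ Icc 1 V, ∑ m ∈ v.divisors,
        ((ArithmeticFunction.moebius m : ℤ) : ℝ) *
          (Ac (Nat.lcm (v * rOff 2 v) (2 ^ k)) ((Y : ℝ) * v / m) : ℝ) -
      c0 * (6 / Real.pi ^ 2) * (Y : ℝ) ^ (2 / 3 : ℝ) * ∑ v ∈ Icc 1 V, 2 / 2 ^ k * gk k v| ≤
      3 * C1 * √Y * (V : ℝ) ^ 5 := by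
  have hY0 : (1 : ℝ) ≤ Y := by exact_mod_cast hY
  have hV0 : (1 : ℝ) ≤ V := by exact_mod_cast hV
  rw [Finset.mul_sum, ← Finset.sum_sub_distrib]
  refine (Finset.abs_sum_le_sum_abs _ _).trans ?_
  have hterm : ∀ v ∈ Icc 1 V, |∑ m ∈ v.divisors,
        ((ArithmeticFunction.moebius m : ℤ) : ℝ) *
          (Ac (Nat.lcm (v * rOff 2 v) (2 ^ k)) ((Y : ℝ) * v / m) : ℝ) -
      c0 * (6 / Real.pi ^ 2) * (Y : ℝ) ^ (2 / 3 : ℝ) * (2 / 2 ^ k * gk k v)| ≤
        3 * C1 * √Y * (V : ℝ) ^ 4 := by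
    intro v hv
    rw [mem_Icc] at hv
    have hv0 : v ≠ 0 := by omega
    have hvR : (1 : ℝ) ≤ v := by exact_mod_cast hv.1
    have hvV : (v : ℝ) ≤ V := by exact_mod_cast hv.2
    have hrad : (0 : ℝ) < rOff 2 v := by exact_mod_cast rOff_pos 2 v
    have hlf := lcm_facts hk hv.1
    obtain ⟨L, hL⟩ : ∃ L, L = Nat.lcm (v * rOff 2 v) (2 ^ k) := ⟨_, rfl⟩
    rw [← hL] at hlf ⊢
    have hL1 : 1 ≤ L := by
      rw [hL]
      exact Nat.lcm_pos (Nat.mul_pos (by omega) (rOff_pos 2 v)) (by positivity)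
    have hL0 : (0 : ℝ) < L := by exact_mod_cast hL1
    have hLω : (3 : ℝ) ^ L.primeFactors.card ≤ 3 * (V : ℝ) ^ 2 := by
      have h1 : L.primeFactors ⊆ insert 2 v.primeFactors := by
        intro p hp
        have hpp := Nat.prime_of_mem_primeFactors hp
        have hd := Nat.dvd_of_mem_primeFactors hp
        rw [hL] at hd
        rw [Finset.mem_insert]
        rcases (Nat.Prime.dvd_mul hpp).1 (hd.trans (Nat.lcm_dvd_mul _ _)) with h2 | h2
        · right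
          rw [← primeFactors_mul_rOff 2 hv0]
          exact Nat.mem_primeFactors.2 ⟨hpp, h2, (Nat.mul_pos (by omega) (rOff_pos 2 v)).ne'⟩
        · left
          exact (Nat.prime_dvd_prime_iff_eq hpp Nat.prime_two).1 (hpp.dvd_of_dvd_pow h2)
      have h2 : L.primeFactors.card ≤ v.primeFactors.card + 1 :=
        (Finset.card_le_card h1).trans (Finset.card_insert_le _ _)
      calc (3 : ℝ) ^ L.primeFactors.card ≤ 3 ^ (v.primeFactors.card + 1) :=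
            pow_le_pow_right₀ (by norm_num) h2
        _ = 3 * 3 ^ v.primeFactors.card := by rw [pow_succ]; ring
        _ ≤ 3 * (V : ℝ) ^ 2 := by
            apply mul_le_mul_of_nonneg_left _ (by norm_num)
            exact (three_pow_le hv0).trans (by gcongr)
    have e1 : c0 * (6 / Real.pi ^ 2) * (Y : ℝ) ^ (2 / 3 : ℝ) * (2 / 2 ^ k * gk k v) =
        ∑ m ∈ v.divisors, ((ArithmeticFunction.moebius m : ℤ) : ℝ) *
          (c0 * ((Y : ℝ) * v / m) ^ (2 / 3 : ℝ) *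
            (3 ^ L.primeFactors.card * (6 / Real.pi ^ 2 * psi L / (L : ℝ)))) := by
      have e0 : 2 / 2 ^ k * gk k v = 3 ^ L.primeFactors.card * psi L / (L : ℝ) *
          ((v : ℝ) ^ (2 / 3 : ℝ) * ∑ m ∈ v.divisors,
            ((ArithmeticFunction.moebius m : ℤ) : ℝ) * (m : ℝ) ^ (-(2 / 3) : ℝ)) := by
        rw [hlf]
        unfold gk
        rw [hP_eq]
        ring
      rw [e0, Finset.mul_sum, Finset.mul_sum, Finset.mul_sum]
      apply Finset.sum_congr rfl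
      intro m hm
      have hm0 : (0 : ℝ) < m := by
        exact_mod_cast Nat.pos_of_mem_divisors hm
      rw [Real.div_rpow (by positivity) hm0.le,
        Real.mul_rpow (by positivity) (by positivity), Real.rpow_neg hm0.le]
      ring
    rw [e1, ← Finset.sum_sub_distrib]
    refine (Finset.abs_sum_le_sum_abs _ _).trans ?_
    have hin : ∀ m ∈ v.divisors, |((ArithmeticFunction.moebius m : ℤ) : ℝ) *
        (Ac L ((Y : ℝ) * v / m) : ℝ) - ((ArithmeticFunction.moebius m : ℤ) : ℝ) *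
          (c0 * ((Y : ℝ) * v / m) ^ (2 / 3 : ℝ) *
            (3 ^ L.primeFactors.card * (6 / Real.pi ^ 2 * psi L / (L : ℝ))))| ≤
          3 * C1 * √Y * (V : ℝ) ^ 3 := by
      intro m hm
      have hm1 : (1 : ℝ) ≤ m := by
        exact_mod_cast Nat.pos_of_mem_divisors hm
      have hmv : (m : ℝ) ≤ v := by
        exact_mod_cast Nat.divisor_le hm
      have hT : 1 ≤ (Y : ℝ) * v / m := by
        rw [le_div_iff₀ (by linarith), one_mul]
        nlinarith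
      have h1 := hfac L hL1 _ hT
      rw [← mul_sub, abs_mul]
      have h2 : |((ArithmeticFunction.moebius m : ℤ) : ℝ)| ≤ 1 := by
        have := ArithmeticFunction.abs_moebius_le_one (n := m)
        exact_mod_cast this
      refine (mul_le_mul h2 h1 (abs_nonneg _) (by norm_num)).trans ?_
      rw [one_mul]
      have h3 : √((Y : ℝ) * v / m) ≤ √Y * V := by
        rw [Real.sqrt_le_left (by positivity), mul_pow, Real.sq_sqrt (by positivity)]
        rw [div_le_iff₀ (by linarith)]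
        have : (v : ℝ) ≤ (V : ℝ) ^ 2 := by nlinarith
        calc (Y : ℝ) * v ≤ Y * (V : ℝ) ^ 2 := by gcongr
          _ ≤ Y * (V : ℝ) ^ 2 * m := le_mul_of_one_le_right (by positivity) hm1
      calc C1 * 3 ^ L.primeFactors.card * √((Y : ℝ) * v / m) ≤
            C1 * (3 * (V : ℝ) ^ 2) * (√Y * V) := by gcongr
        _ = 3 * C1 * √Y * (V : ℝ) ^ 3 := by ring
    refine (Finset.sum_le_sum hin).trans ?_
    rw [Finset.sum_const, nsmul_eq_mul]
    calc (v.divisors.card : ℝ) * (3 * C1 * √Y * (V : ℝ) ^ 3) ≤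
          V * (3 * C1 * √Y * (V : ℝ) ^ 3) := by
          gcongr
          exact (Nat.card_divisors_le_self v).trans hv.2
      _ = 3 * C1 * √Y * (V : ℝ) ^ 4 := by ring
  refine (Finset.sum_le_sum hterm).trans ?_
  rw [Finset.sum_const, nsmul_eq_mul, Nat.card_Icc, Nat.add_sub_cancel]
  apply le_of_eq
  ring

/-- The count of the pairs with `2 ^ k ∣ N`. -/
theorem pow_count (h : TailHyp) {k : ℕ} (hk : 1 ≤ k) : ∃ κ : ℝ, 0 < κ ∧ κ ≤ 1 / 3 ∧
    ∀ᶠ Z : ℕ in atTop, ∀ F : Finset (ℕ × ℕ),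
    (∀ t : ℕ × ℕ, t ∈ F ↔ 0 < t.1 ∧ 0 < t.2 ∧ t.1.Coprime t.2 ∧ 2 ^ k ∣ Nn t ∧
      rOff 2 (Nn t) ≤ Z) →
    |(F.card : ℝ) - Ck k * (Z : ℝ) ^ (2 / 3 : ℝ)| ≤ (Z : ℝ) ^ (2 / 3 - κ) := by
  classical
  obtain ⟨κ0, hκ0, htail⟩ := h
  obtain ⟨n0, hn0⟩ := eventually_atTop.1 htail
  obtain ⟨C1, hC1, hfac⟩ := fac_count
  obtain ⟨K, hK, hbox⟩ := tail_box
  obtain ⟨P, hP2⟩ : ∃ P : ℕ, P = 2 := ⟨_, rfl⟩
  have hP1 : 1 ≤ P := by omega
  set κ : ℝ := min κ0 (1 / 300) with hκdef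
  have hκ : 0 < κ := lt_min hκ0 (by norm_num)
  have hκle : κ ≤ κ0 := min_le_left _ _
  have hκ300 : κ ≤ 1 / 300 := min_le_right _ _
  set δ : ℝ := κ / 400 with hδ
  have hδ0 : 0 < δ := by positivity
  obtain ⟨Cd, hCd, hdiv⟩ := Pool.Agent.Lib.P5632c9.card_divisors_le (κ / 800) (by positivity)
  set H : ℝ := ∑' v : ℕ, 2 / 2 ^ k * gk k v * (v : ℝ) ^ (1 / 12 : ℝ) with hH
  have hgn : ∀ v, 0 ≤ 2 / 2 ^ k * gk k v := fun v => mul_nonneg (by positivity) (gk_nonneg k v)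
  have hsg : Summable (fun v : ℕ => 2 / 2 ^ k * gk k v * (v : ℝ) ^ (1 / 12 : ℝ)) := by
    refine ((summable_gk' k).mul_left (2 / 2 ^ k)).congr (fun v => ?_)
    ring
  have hH0 : 0 ≤ H := tsum_nonneg fun v => mul_nonneg (hgn v) (by positivity)
  have hc0 : 0 < c0 := c0_pos
  set Q : ℝ := c0 * (6 / Real.pi ^ 2) with hQ
  have hQ0 : 0 < Q := by
    have := Real.pi_pos
    positivity
  set CC : ℝ := 2 + 2 * Cd ^ 2 * (K * 3) + 3 * C1 + Q * (2 * H) with hCC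
  have hCC0 : 0 < CC := by positivity
  refine ⟨κ / 100, by positivity, by linarith, ?_⟩
  have hlarge : ∀ᶠ Y : ℕ in atTop, CC ≤ (Y : ℝ) ^ (κ / 80 - κ / 100) := by
    have h1 : Tendsto (fun Y : ℕ => (Y : ℝ) ^ (κ / 80 - κ / 100)) atTop atTop :=
      (tendsto_rpow_atTop (by linarith)).comp tendsto_natCast_atTop_atTop
    exact h1.eventually (eventually_ge_atTop CC)
  have hlarge2 : ∀ᶠ Y : ℕ in atTop, 2 ≤ (Y : ℝ) ^ (κ / 8) := by
    have h1 : Tendsto (fun Y : ℕ => (Y : ℝ) ^ (κ / 8)) atTop atTop :=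
      (tendsto_rpow_atTop (by positivity)).comp tendsto_natCast_atTop_atTop
    exact h1.eventually (eventually_ge_atTop 2)
  have hlarge3 : ∀ᶠ Y : ℕ in atTop, 2 ≤ (Y : ℝ) ^ δ := by
    have h1 : Tendsto (fun Y : ℕ => (Y : ℝ) ^ δ) atTop atTop :=
      (tendsto_rpow_atTop hδ0).comp tendsto_natCast_atTop_atTop
    exact h1.eventually (eventually_ge_atTop 2)
  filter_upwards [hlarge, hlarge2, eventually_ge_atTop 1, eventually_ge_atTop n0, hlarge3] with Y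
    hYlarge hY2 hY1 hYn hPY' F hF
  have hPY : (P : ℝ) ≤ (Y : ℝ) ^ δ := by
    rw [hP2]
    exact_mod_cast hPY'
  have hF' : ∀ t : ℕ × ℕ, t ∈ F ↔ 0 < t.1 ∧ 0 < t.2 ∧ t.1.Coprime t.2 ∧ 2 ^ k ∣ Nn t ∧
      rOff P (Nn t) ≤ Y := by
    rw [hP2]
    exact hF
  have hy1 : (1 : ℝ) ≤ Y := by exact_mod_cast hY1
  have hy0 : (0 : ℝ) < Y := by linarith
  have hp1 : (1 : ℝ) ≤ P := by exact_mod_cast hP1
  have hp0 : (0 : ℝ) < P := by linarith
  -- the absolute level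
  obtain ⟨W, hW⟩ : ∃ W : ℕ, W = P * Y := ⟨_, rfl⟩
  have hWc : (W : ℝ) = P * Y := by rw [hW]; push_cast; rfl
  have hYW : Y ≤ W := by rw [hW]; exact Nat.le_mul_of_pos_left _ hP1
  have hW1 : 1 ≤ W := hY1.trans hYW
  have hw1 : (1 : ℝ) ≤ W := by exact_mod_cast hW1
  have hw0 : (0 : ℝ) < W := by linarith
  have hWle : (W : ℝ) ≤ (Y : ℝ) ^ (1 + δ) := by
    rw [hWc, Real.rpow_add hy0, Real.rpow_one, mul_comm]
    exact mul_le_mul_of_nonneg_left hPY hy0.le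
  have hWpow : ∀ a : ℝ, 0 ≤ a → a ≤ 1 → (W : ℝ) ^ a ≤ (Y : ℝ) ^ (a + δ) := by
    intro a ha ha1
    calc (W : ℝ) ^ a ≤ ((Y : ℝ) ^ (1 + δ)) ^ a := Real.rpow_le_rpow hw0.le hWle ha
      _ = (Y : ℝ) ^ ((1 + δ) * a) := by rw [← Real.rpow_mul hy0.le]
      _ ≤ (Y : ℝ) ^ (a + δ) := Real.rpow_le_rpow_of_exponent_le hy1 (by nlinarith)
  have hradW : ∀ t : ℕ × ℕ, rOff P (Nn t) ≤ Y → rad (Nn t) ≤ W := by
    intro t ht
    rw [hW]
    exact (rad_le hP1).trans (Nat.mul_le_mul_left _ ht)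
  set V : ℕ := ⌊(Y : ℝ) ^ (κ / 4)⌋₊ with hV
  have hyκ : 1 ≤ (Y : ℝ) ^ (κ / 4) := Real.one_le_rpow hy1 (by positivity)
  have hV1 : 1 ≤ V := Nat.le_floor (by exact_mod_cast hyκ)
  have hV1' : (1 : ℝ) ≤ V := by exact_mod_cast hV1
  have hVle : (V : ℝ) ≤ (Y : ℝ) ^ (κ / 4) := Nat.floor_le (by positivity)
  have hVge : (Y : ℝ) ^ (κ / 4) / 2 ≤ V := by
    have := Nat.lt_floor_add_one ((Y : ℝ) ^ (κ / 4))
    linarith
  have haux : ∀ s : ℝ, 0 < s → ∀ x : ℝ, (Y : ℝ) ^ s / 2 ≤ x →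
      x ^ (-(1 / 12) : ℝ) ≤ 2 * (Y : ℝ) ^ (-(s / 12)) := by
    intro s hs x hx
    have h1 : x ^ (-(1 / 12) : ℝ) ≤ ((Y : ℝ) ^ s / 2) ^ (-(1 / 12) : ℝ) :=
      Real.rpow_le_rpow_of_nonpos (by positivity) hx (by norm_num)
    have h2 : ((Y : ℝ) ^ s / 2) ^ (-(1 / 12) : ℝ) =
        (2 : ℝ) ^ (1 / 12 : ℝ) * (Y : ℝ) ^ (-(s / 12)) := by
      rw [Real.div_rpow (by positivity) (by norm_num), ← Real.rpow_mul hy0.le,
        Real.rpow_neg (by norm_num : (0 : ℝ) ≤ 2), div_inv_eq_mul, mul_comm]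
      congr 2
      ring
    have h3 : (2 : ℝ) ^ (1 / 12 : ℝ) ≤ 2 := by
      calc (2 : ℝ) ^ (1 / 12 : ℝ) ≤ (2 : ℝ) ^ (1 : ℝ) :=
            Real.rpow_le_rpow_of_exponent_le (by norm_num) (by norm_num)
        _ = 2 := Real.rpow_one 2
    rw [h2] at h1
    exact h1.trans (mul_le_mul_of_nonneg_right h3 (by positivity))
  have hV12 : (V : ℝ) ^ (-(1 / 12) : ℝ) ≤ 2 * (Y : ℝ) ^ (-(κ / 48)) := by
    have h1 := haux (κ / 4) (by positivity) V hVge
    rw [show κ / 4 / 12 = κ / 48 by ring] at h1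
    exact h1
  have hVP : (Y : ℝ) ^ (κ / 4 - δ) / 2 ≤ (V : ℝ) / P := by
    rw [le_div_iff₀ hp0]
    calc (Y : ℝ) ^ (κ / 4 - δ) / 2 * P ≤ (Y : ℝ) ^ (κ / 4 - δ) / 2 * (Y : ℝ) ^ δ := by gcongr
      _ = (Y : ℝ) ^ (κ / 4) / 2 := by
          rw [div_mul_eq_mul_div, ← Real.rpow_add hy0]
          congr 2
          ring
      _ ≤ V := hVge
  have hVP1 : 1 ≤ (V : ℝ) / P := by
    refine le_trans ?_ hVP
    have h1 : (Y : ℝ) ^ (κ / 8) ≤ (Y : ℝ) ^ (κ / 4 - δ) := by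
      apply Real.rpow_le_rpow_of_exponent_le hy1
      rw [hδ]
      linarith
    linarith
  have hVP12 : ((V : ℝ) / P) ^ (-(1 / 12) : ℝ) ≤ 2 * (Y : ℝ) ^ (-((κ / 4 - δ) / 12)) :=
    haux (κ / 4 - δ) (by rw [hδ]; linarith) _ hVP
  -- the pieces
  have hinv := inv_countq P (2 ^ k) Y V F hF'
  have hmain : |∑ v ∈ Icc 1 V, ∑ m ∈ v.divisors, ((ArithmeticFunction.moebius m : ℤ) : ℝ) *
      (Ac (Nat.lcm (v * rOff P v) (2 ^ k)) ((Y : ℝ) * v / m) : ℝ) -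
      c0 * (6 / Real.pi ^ 2) * (Y : ℝ) ^ (2 / 3 : ℝ) * ∑ v ∈ Icc 1 V, 2 / 2 ^ k * gk k v| ≤
      3 * C1 * √Y * (V : ℝ) ^ 5 := by
    rw [hP2]
    exact main_termq hk hC1 hfac Y V hY1 hV1
  have hser := series_tail_aux (fun v => 2 / 2 ^ k * gk k v) hgn hsg
    (by simp only [gk_zero, mul_zero]) V hV1
  rw [← hH] at hser
  -- the error of the truncation
  set G := F.filter (fun t => V < wOff P (Nn t)) with hG
  set X : ℝ := (W : ℝ) ^ (1 / 3 + 1 / 1000 : ℝ) with hX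
  have hX1 : 1 ≤ X := Real.one_le_rpow hw1 (by norm_num)
  set G1 := G.filter (fun t => X < (t.1 : ℝ) + t.2) with hG1
  set G2 := G.filter (fun t => ¬ X < (t.1 : ℝ) + t.2) with hG2
  have hsplit := Finset.sum_filter_add_sum_filter_not G (fun t => X < (t.1 : ℝ) + t.2)
    (fun t => (1 + ∑ v ∈ (Icc 1 V).filter (fun v => v ∣ wOff P (Nn t)), (v.divisors.card : ℝ)))
  have hG1card : (G1.card : ℝ) ≤ (Y : ℝ) ^ (2 / 3 - κ + δ) := by
    have h1 : (G1.card : ℝ) ≤ (W : ℝ) ^ (2 / 3 - κ0) := by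
      apply hn0 W (hYn.trans hYW)
      intro t ht
      rw [hG1, hG, mem_filter, mem_filter] at ht
      obtain ⟨h1, h2, h3, -, h4⟩ := (hF' t).mp ht.1.1
      exact ⟨h1, h2, h3, hradW t h4, ht.2⟩
    refine h1.trans ((Real.rpow_le_rpow_of_exponent_le hw1 (by linarith : 2 / 3 - κ0 ≤
      2 / 3 - κ)).trans (hWpow _ (by linarith) (by linarith)))
  have hG2card : (G2.card : ℝ) ≤ K * ((Y : ℝ) ^ (2 / 3 + δ) *
      (2 * (Y : ℝ) ^ (-((κ / 4 - δ) / 12))) + (Y : ℝ) ^ (2 / 3 - 1 / 300 + δ : ℝ)) := by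
    have h1 : (G2.card : ℝ) ≤ K * ((W : ℝ) ^ (2 / 3 : ℝ) * ((V : ℝ) / P) ^ (-(1 / 12) : ℝ) +
      (W : ℝ) ^ (2 / 3 - 1 / 300 : ℝ)) := by
      apply hbox W ((V : ℝ) / P) hW1 hVP1
      intro t ht
      rw [hG2, hG, mem_filter, mem_filter] at ht
      obtain ⟨h1, h2, h3, -, h4⟩ := (hF' t).mp ht.1.1
      refine ⟨h1, h2, h3, hradW t h4, ?_, not_lt.mp ht.2⟩
      rw [div_lt_iff₀ hp0]
      have h5 : wOff P (Nn t) ≤ wt (Nn t) * P := by
        rw [wOff_eq]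
        exact Nat.mul_le_mul_left _ (rIn_le hP1 _)
      exact_mod_cast lt_of_lt_of_le ht.1.2 h5
    refine h1.trans ?_
    apply mul_le_mul_of_nonneg_left _ hK.le
    apply add_le_add
    · apply mul_le_mul (hWpow _ (by norm_num) (by norm_num)) hVP12 (by positivity)
        (by positivity)
    · exact hWpow _ (by norm_num) (by norm_num)
  have hE1 := err_large (fun t => wOff P (Nn t)) V hV1 G1
  set D : ℝ := Cd * (Y : ℝ) ^ (κ / 400) with hD
  have hD1 : 1 ≤ D := by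
    have := Real.one_le_rpow hy1 (show 0 ≤ κ / 400 by positivity)
    rw [hD]
    nlinarith
  have hE2 := err_small (fun t => wOff P (Nn t)) V G2 D hD1 (by
    intro t ht
    rw [hG2, hG, mem_filter, mem_filter] at ht
    obtain ⟨h1, h2, h3, -, h4⟩ := (hF' t).mp ht.1.1
    have hWp := wOff_pos P (Nn_pos h1 h2)
    refine ⟨hWp, ?_⟩
    have hc := not_lt.mp ht.2
    refine (hdiv _ hWp.ne').trans ?_
    rw [hD]
    apply mul_le_mul_of_nonneg_left _ (by linarith)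
    have ha0 : (0 : ℝ) < t.1 := by exact_mod_cast h1
    have hb0 : (0 : ℝ) < t.2 := by exact_mod_cast h2
    have h5 : ((wOff P (Nn t) : ℕ) : ℝ) ≤ (Y : ℝ) ^ (2 : ℝ) := by
      calc ((wOff P (Nn t) : ℕ) : ℝ) ≤ (Nn t : ℕ) := by exact_mod_cast wOff_le P _
        _ = t.1 * t.2 * ((t.1 : ℝ) + t.2) := by unfold Nn; push_cast; ring
        _ ≤ X * X * X := by
            have e1 : (t.1 : ℝ) ≤ X := by linarith
            have e2 : (t.2 : ℝ) ≤ X := by linarith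
            gcongr
        _ = (W : ℝ) ^ (3 * (1 / 3 + 1 / 1000) : ℝ) := by
            rw [hX, ← Real.rpow_add hw0, ← Real.rpow_add hw0]
            congr 1
            ring
        _ ≤ ((Y : ℝ) ^ (1 + δ)) ^ (3 * (1 / 3 + 1 / 1000) : ℝ) :=
            Real.rpow_le_rpow hw0.le hWle (by norm_num)
        _ = (Y : ℝ) ^ ((1 + δ) * (3 * (1 / 3 + 1 / 1000)) : ℝ) := by rw [← Real.rpow_mul hy0.le]
        _ ≤ (Y : ℝ) ^ (2 : ℝ) := by
            apply Real.rpow_le_rpow_of_exponent_le hy1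
            rw [hδ]
            linarith
    calc ((wOff P (Nn t) : ℕ) : ℝ) ^ (κ / 800) ≤ ((Y : ℝ) ^ (2 : ℝ)) ^ (κ / 800) :=
          Real.rpow_le_rpow (by positivity) h5 (by positivity)
      _ = (Y : ℝ) ^ (κ / 400) := by
          rw [← Real.rpow_mul hy0.le]
          congr 1
          ring)
  set R : ℝ := (Y : ℝ) ^ (2 / 3 - κ / 80) with hR
  have hR0 : 0 < R := by positivity
  have hmono : ∀ a : ℝ, a ≤ 2 / 3 - κ / 80 → (Y : ℝ) ^ a ≤ R := fun a ha =>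
    Real.rpow_le_rpow_of_exponent_le hy1 ha
  -- bound 1
  have b1 : 2 * (V : ℝ) ^ 2 * G1.card ≤ 2 * R := by
    have h1 : (V : ℝ) ^ 2 ≤ (Y : ℝ) ^ (κ / 2) := by
      calc (V : ℝ) ^ 2 ≤ ((Y : ℝ) ^ (κ / 4)) ^ 2 := by gcongr
        _ = (Y : ℝ) ^ (κ / 2) := by
            rw [← Real.rpow_natCast, ← Real.rpow_mul hy0.le]
            congr 1
            push_cast
            ring
    calc 2 * (V : ℝ) ^ 2 * G1.card ≤ 2 * (Y : ℝ) ^ (κ / 2) * (Y : ℝ) ^ (2 / 3 - κ + δ) := by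
          gcongr
      _ = 2 * (Y : ℝ) ^ (κ / 2 + (2 / 3 - κ + δ)) := by rw [mul_assoc, ← Real.rpow_add hy0]
      _ ≤ 2 * R := by
          apply mul_le_mul_of_nonneg_left (hmono _ _) (by norm_num)
          rw [hδ]
          linarith
  -- bound 2
  have b2 : 2 * D ^ 2 * G2.card ≤ 2 * Cd ^ 2 * (K * 3) * R := by
    have h1 : D ^ 2 = Cd ^ 2 * (Y : ℝ) ^ (κ / 200) := by
      rw [hD, mul_pow, ← Real.rpow_natCast ((Y : ℝ) ^ (κ / 400)), ← Real.rpow_mul hy0.le]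
      congr 2
      push_cast
      ring
    have h2 : (Y : ℝ) ^ (2 / 3 + δ) * (2 * (Y : ℝ) ^ (-((κ / 4 - δ) / 12))) ≤
        2 * (Y : ℝ) ^ (2 / 3 - κ / 80 - κ / 200) := by
      calc (Y : ℝ) ^ (2 / 3 + δ) * (2 * (Y : ℝ) ^ (-((κ / 4 - δ) / 12))) =
            2 * ((Y : ℝ) ^ (2 / 3 + δ) * (Y : ℝ) ^ (-((κ / 4 - δ) / 12))) := by ring
        _ = 2 * (Y : ℝ) ^ (2 / 3 + δ + -((κ / 4 - δ) / 12)) := by
            rw [← Real.rpow_add hy0]
        _ ≤ 2 * (Y : ℝ) ^ (2 / 3 - κ / 80 - κ / 200) := by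
            apply mul_le_mul_of_nonneg_left _ (by norm_num)
            apply Real.rpow_le_rpow_of_exponent_le hy1
            rw [hδ]
            linarith
    have h3 : (Y : ℝ) ^ (2 / 3 - 1 / 300 + δ : ℝ) ≤ (Y : ℝ) ^ (2 / 3 - κ / 80 - κ / 200) := by
      apply Real.rpow_le_rpow_of_exponent_le hy1
      rw [hδ]
      linarith
    have h4 : (G2.card : ℝ) ≤ K * (3 * (Y : ℝ) ^ (2 / 3 - κ / 80 - κ / 200)) := by
      refine hG2card.trans ?_
      apply mul_le_mul_of_nonneg_left _ hK.le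
      linarith
    have h5 : (Y : ℝ) ^ (κ / 200) * (Y : ℝ) ^ (2 / 3 - κ / 80 - κ / 200) ≤ R := by
      rw [← Real.rpow_add hy0]
      apply hmono
      linarith
    calc 2 * D ^ 2 * G2.card ≤ 2 * (Cd ^ 2 * (Y : ℝ) ^ (κ / 200)) *
          (K * (3 * (Y : ℝ) ^ (2 / 3 - κ / 80 - κ / 200))) := by
            rw [h1]
            gcongr
      _ = 2 * Cd ^ 2 * (K * 3) * ((Y : ℝ) ^ (κ / 200) *
          (Y : ℝ) ^ (2 / 3 - κ / 80 - κ / 200)) := by ring
      _ ≤ 2 * Cd ^ 2 * (K * 3) * R := by gcongr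
  -- bound 3
  have b3 : 3 * C1 * √Y * (V : ℝ) ^ 5 ≤ 3 * C1 * R := by
    have h1 : (V : ℝ) ^ 5 ≤ (Y : ℝ) ^ (5 * κ / 4) := by
      calc (V : ℝ) ^ 5 ≤ ((Y : ℝ) ^ (κ / 4)) ^ 5 := by gcongr
        _ = (Y : ℝ) ^ (5 * κ / 4) := by
            rw [← Real.rpow_natCast, ← Real.rpow_mul hy0.le]
            congr 1
            push_cast
            ring
    calc 3 * C1 * √Y * (V : ℝ) ^ 5 ≤
          3 * C1 * (Y : ℝ) ^ (1 / 2 : ℝ) * (Y : ℝ) ^ (5 * κ / 4) := by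
          rw [Real.sqrt_eq_rpow]
          gcongr
      _ = 3 * C1 * (Y : ℝ) ^ (1 / 2 + 5 * κ / 4) := by rw [mul_assoc, ← Real.rpow_add hy0]
      _ ≤ 3 * C1 * R := by
          apply mul_le_mul_of_nonneg_left (hmono _ _) (by positivity)
          linarith
  -- bound 4
  have b4 : Q * (Y : ℝ) ^ (2 / 3 : ℝ) * ((V : ℝ) ^ (-(1 / 12) : ℝ) * H) ≤
      Q * (2 * H) * R := by
    calc Q * (Y : ℝ) ^ (2 / 3 : ℝ) * ((V : ℝ) ^ (-(1 / 12) : ℝ) * H) ≤
          Q * (Y : ℝ) ^ (2 / 3 : ℝ) * ((2 * (Y : ℝ) ^ (-(κ / 48))) * H) := by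
            gcongr
      _ = Q * (2 * H) * ((Y : ℝ) ^ (2 / 3 : ℝ) * (Y : ℝ) ^ (-(κ / 48))) := by ring
      _ = Q * (2 * H) * (Y : ℝ) ^ (2 / 3 + -(κ / 48)) := by
          rw [← Real.rpow_add hy0]
      _ ≤ Q * (2 * H) * R := by
          apply mul_le_mul_of_nonneg_left (hmono _ _) (by positivity)
          linarith
  -- assembly
  set S1 := ∑ v ∈ Icc 1 V, ∑ m ∈ v.divisors,
        ((ArithmeticFunction.moebius m : ℤ) : ℝ) *
          (Ac (Nat.lcm (v * rOff P v) (2 ^ k)) ((Y : ℝ) * v / m) : ℝ) with hS1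
  set S2 := ∑ v ∈ Icc 1 V, 2 / 2 ^ k * gk k v with hS2
  set S3 := ∑' v : ℕ, 2 / 2 ^ k * gk k v with hS3
  have hC : Ck k = Q * S3 := by
    rw [Ck_eq hk, hQ, hS3, tsum_mul_left]
  have t1 : |(F.card : ℝ) - S1| ≤ 2 * R + 2 * Cd ^ 2 * (K * 3) * R := by
    refine hinv.trans ?_
    rw [← hsplit]
    linarith
  have t2 : |S1 - Q * (Y : ℝ) ^ (2 / 3 : ℝ) * S2| ≤ 3 * C1 * R := hmain.trans b3
  have t3 : |Q * (Y : ℝ) ^ (2 / 3 : ℝ) * S2 - Q * (Y : ℝ) ^ (2 / 3 : ℝ) * S3| ≤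
      Q * (2 * H) * R := by
    rw [← mul_sub, abs_mul, abs_of_pos (by positivity : 0 < Q * (Y : ℝ) ^ (2 / 3 : ℝ))]
    refine (mul_le_mul_of_nonneg_left hser (by positivity)).trans b4
  have t4 : |(F.card : ℝ) - Ck k * (Y : ℝ) ^ (2 / 3 : ℝ)| ≤ CC * R := by
    have e : (F.card : ℝ) - Ck k * (Y : ℝ) ^ (2 / 3 : ℝ) = ((F.card : ℝ) - S1) +
        (S1 - Q * (Y : ℝ) ^ (2 / 3 : ℝ) * S2) +
        (Q * (Y : ℝ) ^ (2 / 3 : ℝ) * S2 - Q * (Y : ℝ) ^ (2 / 3 : ℝ) * S3) := by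
      rw [hC]
      ring
    rw [e]
    refine (abs_add_three _ _ _).trans ?_
    rw [hCC]
    linarith
  refine t4.trans ?_
  calc CC * R ≤ (Y : ℝ) ^ (κ / 80 - κ / 100) * R := mul_le_mul_of_nonneg_right hYlarge hR0.le
    _ = (Y : ℝ) ^ (2 / 3 - κ / 100) := by
        rw [hR, ← Real.rpow_add hy0]
        congr 1
        ring

/-! ### The semistable count -/

/-- The constant of the semistable count. -/
noncomputable def CS : ℝ :=
  c0 * (3 / 4 * (2 : ℝ) ^ (-(4 / 3) : ℝ) * (2 + (2 : ℝ) ^ (-(1 / 3) : ℝ) +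
    (2 : ℝ) ^ (-(2 / 3) : ℝ))) * ∏' p : Nat.Primes, (if (p : ℕ) = 2 then 1 else fP p)

theorem CS_eq : CS = Ck 4 - Ck 5 + Ck 5 * xx ^ 2 := by
  have h1 : (2 : ℝ) ^ (-(4 / 3) : ℝ) = xx ^ 4 := by
    unfold xx
    rw [← Real.rpow_natCast, ← Real.rpow_mul (by norm_num)]
    norm_num
  have h2 : (2 : ℝ) ^ (-(1 / 3) : ℝ) = xx := rfl
  have h3 : (2 : ℝ) ^ (-(2 / 3) : ℝ) = xx ^ 2 := by
    unfold xx
    rw [← Real.rpow_natCast, ← Real.rpow_mul (by norm_num)]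
    norm_num
  have h4 : ∏' p : Nat.Primes, (if (p : ℕ) = 2 then 1 else fP p) = ∏' p : Nat.Primes, fo p := rfl
  have hx := xx_cube
  have e1 : 2 * xx ^ 4 * (1 + xx + xx ^ 2) - 2 * xx ^ 5 * (1 + xx + xx ^ 2) +
      2 * xx ^ 5 * (1 + xx + xx ^ 2) * xx ^ 2 = xx ^ 4 * (2 + xx + xx ^ 2) := by
    have e2 : 2 * xx ^ 4 * (1 + xx + xx ^ 2) - 2 * xx ^ 5 * (1 + xx + xx ^ 2) +
      2 * xx ^ 5 * (1 + xx + xx ^ 2) * xx ^ 2 = 2 * xx ^ 4 * (1 - xx ^ 3) +
        2 * xx ^ 4 * xx ^ 3 * (1 + xx + xx ^ 2) := by ring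
    rw [e2, hx]
    ring
  unfold CS Ck
  rw [h1, h2, h3, h4]
  linear_combination (-(c0 * (3 / 4) * ∏' p : Nat.Primes, fo p)) * e1

theorem rad_div {N : ℕ} (h0 : N ≠ 0) (h : 16 ∣ N) :
    rad (N / 16) = if 32 ∣ N then 2 * rOff 2 N else rOff 2 N := by
  obtain ⟨M, rfl⟩ := h
  have hM : M ≠ 0 := by
    rintro rfl
    exact h0 rfl
  rw [Nat.mul_div_cancel_left M (by norm_num)]
  have e1 : (16 * M).primeFactors \ Nat.primeFactors 2 = M.primeFactors \ {2} := by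
    rw [Nat.primeFactors_mul (by norm_num) hM, Nat.Prime.primeFactors Nat.prime_two,
      show (16 : ℕ) = 2 ^ 4 by norm_num, Nat.primeFactors_prime_pow (by norm_num) Nat.prime_two,
      Finset.union_sdiff_distrib, Finset.sdiff_self, Finset.empty_union]
  unfold rad rOff
  rw [e1]
  by_cases h2 : 2 ∣ M
  · have h3 : 32 ∣ 16 * M := by
      obtain ⟨m, rfl⟩ := h2
      exact ⟨m, by ring⟩
    have h4 : 2 ∈ M.primeFactors := Nat.mem_primeFactors.2 ⟨Nat.prime_two, h2, hM⟩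
    rw [if_pos h3, Finset.sdiff_singleton_eq_erase]
    exact (Finset.mul_prod_erase M.primeFactors (fun p => p) h4).symm
  · have h3 : ¬ 32 ∣ 16 * M := by
      intro h3
      apply h2
      have : 16 * 2 ∣ 16 * M := by simpa using h3
      exact Nat.dvd_of_mul_dvd_mul_left (by norm_num) this
    rw [if_neg h3, Finset.sdiff_singleton_eq_erase, Finset.erase_eq_of_notMem]
    exact fun h => h2 (Nat.dvd_of_mem_primeFactors h)

/-- The number of the semistable curves: pairs with `16 ∣ N` and `rad (N / 16) ≤ X`. -/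
theorem semi_count (h : TailHyp) : ∃ k : ℝ, 0 < k ∧ ∀ᶠ X : ℕ in atTop, ∀ F : Finset (ℕ × ℕ),
    (∀ t : ℕ × ℕ, t ∈ F ↔ 0 < t.1 ∧ 0 < t.2 ∧ t.1.Coprime t.2 ∧ 16 ∣ Nn t ∧
      rad (Nn t / 16) ≤ X) →
    |(F.card : ℝ) - CS * (X : ℝ) ^ (2 / 3 : ℝ)| ≤ (X : ℝ) ^ (2 / 3 - k) := by
  classical
  obtain ⟨κ4, hκ4, hκ4', h4⟩ := pow_count h (k := 4) (by norm_num)
  obtain ⟨κ5, hκ5, hκ5', h5⟩ := pow_count h (k := 5) (by norm_num)
  have hdiv2 : Tendsto (fun X : ℕ => X / 2) atTop atTop :=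
    Nat.tendsto_div_const_atTop (by norm_num)
  set κ := min κ4 κ5 with hκ
  have hκ0 : 0 < κ := lt_min hκ4 hκ5
  have hfin : ∀ X q : ℕ, ∃ F : Finset (ℕ × ℕ), ∀ t : ℕ × ℕ, t ∈ F ↔ 0 < t.1 ∧ 0 < t.2 ∧
      t.1.Coprime t.2 ∧ q ∣ Nn t ∧ rOff 2 (Nn t) ≤ X := by
    intro X q
    have h1 := pairs_finite h (2 * X)
    have h2 : {t : ℕ × ℕ | 0 < t.1 ∧ 0 < t.2 ∧ t.1.Coprime t.2 ∧ q ∣ Nn t ∧
        rOff 2 (Nn t) ≤ X}.Finite := by
      refine h1.subset ?_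
      rintro t ⟨a1, a2, a3, -, a4⟩
      exact ⟨a1, a2, a3, (rad_le (P := 2) (by norm_num)).trans (Nat.mul_le_mul_left 2 a4)⟩
    refine ⟨h2.toFinset, fun t => ?_⟩
    rw [Set.Finite.mem_toFinset]
    rfl
  have hC5 : 0 ≤ |Ck 5| := abs_nonneg _
  have hlarge : ∀ᶠ X : ℕ in atTop, 3 + |Ck 5| ≤ (X : ℝ) ^ (κ / 2) := by
    have h1 : Tendsto (fun X : ℕ => (X : ℝ) ^ (κ / 2)) atTop atTop :=
      (tendsto_rpow_atTop (by positivity)).comp tendsto_natCast_atTop_atTop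
    exact h1.eventually (eventually_ge_atTop _)
  refine ⟨κ / 2, by positivity, ?_⟩
  filter_upwards [h4, h5, hdiv2.eventually h5, hlarge, eventually_ge_atTop 1] with X h4 h5 h5' hX
    hX1 F hF
  have hx1 : (1 : ℝ) ≤ X := by exact_mod_cast hX1
  have hx0 : (0 : ℝ) < X := by linarith
  obtain ⟨F4, hF4⟩ := hfin X 16
  obtain ⟨F5, hF5⟩ := hfin X 32
  obtain ⟨F6, hF6⟩ := hfin (X / 2) 32
  have c4 := h4 F4 (fun t => by rw [show (2 : ℕ) ^ 4 = 16 by norm_num]; exact hF4 t)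
  have c5 := h5 F5 (fun t => by rw [show (2 : ℕ) ^ 5 = 32 by norm_num]; exact hF5 t)
  have c6 := h5' F6 (fun t => by rw [show (2 : ℕ) ^ 5 = 32 by norm_num]; exact hF6 t)
  have hsub : F5 ⊆ F4 := by
    intro t ht
    rw [hF5] at ht
    rw [hF4]
    obtain ⟨a1, a2, a3, a4, a5⟩ := ht
    exact ⟨a1, a2, a3, (show 16 ∣ 32 by norm_num).trans a4, a5⟩
  have hFeq : F = (F4 \ F5) ∪ F6 := by
    ext t
    rw [Finset.mem_union, Finset.mem_sdiff, hF, hF4, hF5, hF6]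
    constructor
    · rintro ⟨a1, a2, a3, a4, a5⟩
      have hN : Nn t ≠ 0 := (show 0 < Nn t from Nn_pos a1 a2).ne'
      rw [rad_div hN a4] at a5
      by_cases h32 : 32 ∣ Nn t
      · rw [if_pos h32] at a5
        right
        exact ⟨a1, a2, a3, h32, by omega⟩
      · rw [if_neg h32] at a5
        left
        exact ⟨⟨a1, a2, a3, a4, a5⟩, fun hh => h32 hh.2.2.2.1⟩
    · rintro (⟨⟨a1, a2, a3, a4, a5⟩, h6⟩ | ⟨a1, a2, a3, a4, a5⟩)
      · have hN : Nn t ≠ 0 := (show 0 < Nn t from Nn_pos a1 a2).ne'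
        have h32 : ¬ 32 ∣ Nn t := fun h32 => h6 ⟨a1, a2, a3, h32, a5⟩
        refine ⟨a1, a2, a3, a4, ?_⟩
        rw [rad_div hN a4, if_neg h32]
        exact a5
      · have hN : Nn t ≠ 0 := (show 0 < Nn t from Nn_pos a1 a2).ne'
        have h16 : 16 ∣ Nn t := (show 16 ∣ 32 by norm_num).trans a4
        refine ⟨a1, a2, a3, h16, ?_⟩
        rw [rad_div hN h16, if_pos a4]
        omega
  have hdisj : Disjoint (F4 \ F5) F6 := by
    rw [Finset.disjoint_left]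
    intro t h6 h7
    rw [Finset.mem_sdiff, hF5] at h6
    rw [hF6] at h7
    obtain ⟨a1, a2, a3, a4, a5⟩ := h7
    exact h6.2 ⟨a1, a2, a3, a4, a5.trans (Nat.div_le_self _ _)⟩
  have hcard : (F.card : ℝ) = F4.card - F5.card + F6.card := by
    rw [hFeq, Finset.card_union_of_disjoint hdisj, Finset.card_sdiff_of_subset hsub]
    push_cast [Nat.cast_sub (Finset.card_le_card hsub)]
    ring
  -- the floor
  obtain ⟨n, hn⟩ : ∃ n : ℕ, n = X / 2 := ⟨_, rfl⟩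
  rw [← hn] at c6
  have hn0 : (0 : ℝ) ≤ n := Nat.cast_nonneg n
  have hn1 : (n : ℝ) ≤ X / 2 := by
    rw [hn]
    exact Nat.cast_div_le
  have hn2 : (X : ℝ) / 2 ≤ n + 1 := by
    have h1 : X ≤ 2 * (n + 1) := by omega
    have h2 : (X : ℝ) ≤ 2 * (n + 1) := by exact_mod_cast h1
    linarith
  have hx2 : ((X : ℝ) / 2) ^ (2 / 3 : ℝ) = xx ^ 2 * (X : ℝ) ^ (2 / 3 : ℝ) := by
    rw [div_eq_mul_inv, Real.mul_rpow hx0.le (by norm_num), mul_comm]
    congr 1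
    unfold xx
    rw [← Real.rpow_natCast, ← Real.rpow_mul (by norm_num), Real.inv_rpow (by norm_num),
      ← Real.rpow_neg (by norm_num)]
    norm_num
  have hfl : |(n : ℝ) ^ (2 / 3 : ℝ) - ((X : ℝ) / 2) ^ (2 / 3 : ℝ)| ≤ 1 := by
    rw [abs_le]
    constructor
    · have h1 : ((X : ℝ) / 2) ^ (2 / 3 : ℝ) ≤ ((n : ℝ) + 1) ^ (2 / 3 : ℝ) :=
        Real.rpow_le_rpow (by positivity) hn2 (by norm_num)
      have h2 : ((n : ℝ) + 1) ^ (2 / 3 : ℝ) ≤ (n : ℝ) ^ (2 / 3 : ℝ) + 1 ^ (2 / 3 : ℝ) :=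
        Real.rpow_add_le_add_rpow hn0 zero_le_one (by norm_num) (by norm_num)
      rw [Real.one_rpow] at h2
      linarith
    · have h1 : (n : ℝ) ^ (2 / 3 : ℝ) ≤ ((X : ℝ) / 2) ^ (2 / 3 : ℝ) :=
        Real.rpow_le_rpow hn0 hn1 (by norm_num)
      linarith
  have hp4 : (X : ℝ) ^ (2 / 3 - κ4) ≤ (X : ℝ) ^ (2 / 3 - κ) :=
    Real.rpow_le_rpow_of_exponent_le hx1 (by linarith [min_le_left κ4 κ5])
  have hp5 : (X : ℝ) ^ (2 / 3 - κ5) ≤ (X : ℝ) ^ (2 / 3 - κ) :=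
    Real.rpow_le_rpow_of_exponent_le hx1 (by linarith [min_le_right κ4 κ5])
  have hp6 : (n : ℝ) ^ (2 / 3 - κ5) ≤ (X : ℝ) ^ (2 / 3 - κ) := by
    refine le_trans ?_ hp5
    exact Real.rpow_le_rpow hn0 (by linarith) (by linarith)
  have hp1 : 1 ≤ (X : ℝ) ^ (2 / 3 - κ) := by
    apply Real.one_le_rpow hx1
    have := min_le_left κ4 κ5
    linarith
  have key : |(F.card : ℝ) - CS * (X : ℝ) ^ (2 / 3 : ℝ)| ≤
      (3 + |Ck 5|) * (X : ℝ) ^ (2 / 3 - κ) := by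
    have e : (F.card : ℝ) - CS * (X : ℝ) ^ (2 / 3 : ℝ) =
        (F4.card - Ck 4 * (X : ℝ) ^ (2 / 3 : ℝ)) - (F5.card - Ck 5 * (X : ℝ) ^ (2 / 3 : ℝ)) +
        (F6.card - Ck 5 * (n : ℝ) ^ (2 / 3 : ℝ)) +
        Ck 5 * ((n : ℝ) ^ (2 / 3 : ℝ) - ((X : ℝ) / 2) ^ (2 / 3 : ℝ)) := by
      rw [hcard, hx2, CS_eq]
      ring
    rw [e]
    have g1 : |Ck 5 * ((n : ℝ) ^ (2 / 3 : ℝ) - ((X : ℝ) / 2) ^ (2 / 3 : ℝ))| ≤
        |Ck 5| * (X : ℝ) ^ (2 / 3 - κ) := by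
      rw [abs_mul]
      exact mul_le_mul_of_nonneg_left (hfl.trans hp1) hC5
    refine (abs_add_le _ _).trans ?_
    refine (add_le_add (abs_add_le _ _) le_rfl).trans ?_
    refine (add_le_add (add_le_add (abs_sub _ _) le_rfl) le_rfl).trans ?_
    linarith
  refine key.trans ?_
  calc (3 + |Ck 5|) * (X : ℝ) ^ (2 / 3 - κ) ≤ (X : ℝ) ^ (κ / 2) * (X : ℝ) ^ (2 / 3 - κ) :=
        mul_le_mul_of_nonneg_right hX (by positivity)
    _ = (X : ℝ) ^ (2 / 3 - κ / 2) := by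
        rw [← Real.rpow_add hx0]
        congr 1
        ring

end Pool.Agent.Lib.AbcT
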