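import Mathlib
import Pool.Agent.Lib.AbcT.Pass
import Pool.Agent.Lib.AbcT.Two
import Pool.Agent.Lib.AbcT.TwistB
import Pool.Agent.Lib.AbcT.Szp

/-!
# Elliptic curves with full rational 2-torsion by conductor: the counts
-/

open Filter WeierstrassCurve Finset

namespace Pool.Agent.Lib.AbcT

open Pool.Agent.Lib.AbcG

theorem one_le_tsum_hP {P : ℕ} (hP0 : P ≠ 0) : 1 ≤ ∑' v : ℕ, hP P v := by
  have h := (summable_hP (Nat.one_le_iff_ne_zero.2 hP0)).le_tsum 1 (fun v _ => hP_nonneg P v)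
  rwa [hP_one] at h

theorem one_le_tsum_ww : 1 ≤ ∑' v : ℕ, ww v := by
  have h := summable_ww.le_tsum 1 (fun v _ => ww_nonneg v)
  rwa [ww_one] at h

theorem prod_eP : Multipliable (fun p : Nat.Primes => if (p : ℕ) = 2 then (1 : ℝ) else eP p) ∧
    0 < ∏' p : Nat.Primes, if (p : ℕ) = 2 then (1 : ℝ) else eP p := by
  have h1 := hasProd_eP
  have hg : gP 2 ≠ 0 := (gP_pos Nat.prime_two).ne'
  have h2 : HasProd (fun p : Nat.Primes => if (p : ℕ) = 2 then (gP 2)⁻¹ else 1) (gP 2)⁻¹ := by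
    have h3 := hasProd_single (f := fun p : Nat.Primes => if (p : ℕ) = 2 then (gP 2)⁻¹ else 1)
      (⟨2, Nat.prime_two⟩ : Nat.Primes) (by
        intro p hp
        rw [if_neg]
        intro h
        exact hp (Subtype.ext h))
    simpa using h3
  have h3 := h1.mul h2
  have e : (fun p : Nat.Primes => (if (p : ℕ) = 2 then gP p else eP p) *
      (if (p : ℕ) = 2 then (gP 2)⁻¹ else 1)) =
      fun p : Nat.Primes => if (p : ℕ) = 2 then 1 else eP p := by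
    funext p
    by_cases h : (p : ℕ) = 2
    · rw [if_pos h, if_pos h, if_pos h, h, mul_inv_cancel₀ hg]
    · rw [if_neg h, if_neg h, if_neg h, mul_one]
  rw [e] at h3
  refine ⟨h3.multipliable, ?_⟩
  rw [h3.tprod_eq]
  have g1 := one_le_tsum_hP (P := 2) (by norm_num)
  have g2 := one_le_tsum_ww
  have g3 := gP_pos Nat.prime_two
  positivity

theorem prod_fP : Multipliable (fun p : Nat.Primes => if (p : ℕ) = 2 then (1 : ℝ) else fP p) ∧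
    0 < ∏' p : Nat.Primes, if (p : ℕ) = 2 then (1 : ℝ) else fP p := by
  have h1 := hasProd_fR (P := 2) (by norm_num)
  have hg : gP 2 ≠ 0 := (gP_pos Nat.prime_two).ne'
  have h2 : HasProd (fun p : Nat.Primes => if (p : ℕ) = 2 then (gP 2)⁻¹ else 1) (gP 2)⁻¹ := by
    have h3 := hasProd_single (f := fun p : Nat.Primes => if (p : ℕ) = 2 then (gP 2)⁻¹ else 1)
      (⟨2, Nat.prime_two⟩ : Nat.Primes) (by
        intro p hp
        rw [if_neg]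
        intro h
        exact hp (Subtype.ext h))
    simpa using h3
  have h3 := h1.mul h2
  have e : (fun p : Nat.Primes => (if (p : ℕ) ∣ 2 then gP p else fP p) *
      (if (p : ℕ) = 2 then (gP 2)⁻¹ else 1)) =
      fun p : Nat.Primes => if (p : ℕ) = 2 then 1 else fP p := by
    funext p
    have hp := p.2
    by_cases h : (p : ℕ) = 2
    · rw [if_pos h, if_pos h, if_pos (by rw [h]), h, mul_inv_cancel₀ hg]
    · have h3 : ¬ (p : ℕ) ∣ 2 := fun h' => h ((Nat.prime_dvd_prime_iff_eq hp Nat.prime_two).1 h')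
      rw [if_neg h, if_neg h, if_neg h3, mul_one]
  rw [e] at h3
  refine ⟨h3.multipliable, ?_⟩
  rw [h3.tprod_eq]
  have g1 := one_le_tsum_hP (P := 2) (by norm_num)
  have g3 := gP_pos Nat.prime_two
  positivity

theorem CE_pos : 0 < CE := by
  unfold CE
  have g3 := gP_pos Nat.prime_two
  exact mul_pos (mul_pos (mul_pos two_pos c0_pos) g3) prod_eP.2

theorem CS_pos : 0 < CS := by
  unfold CS
  have h := prod_fP.2
  exact mul_pos (mul_pos c0_pos (by positivity)) h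

/-! ### Finiteness -/

theorem le_two_lev {a b d : ℕ} (h : Par a b d) : d ≤ 2 * lev (a, b, d) := by
  obtain ⟨s1, s2, s3⟩ := od_odd h.2.2.2
  have h0 : 1 ≤ od d := Nat.one_le_iff_ne_zero.2 s1.ne_zero
  have h1 : d ≤ 2 * od d := by rcases s3 with h | h <;> omega
  rw [lev_eq h]
  have h2 := rOff_pos (2 * od d) (Nn (a, b))
  calc d ≤ 2 * (1 * (od d * 1)) := by omega
    _ ≤ 2 * (rOff (2 * od d) (Nn (a, b)) * (od d * od d)) := by gcongr <;> omega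
    _ = 2 * (rOff (2 * od d) (Nn (a, b)) * (od d) ^ 2) := by ring

theorem inTw_finite (h : TailHyp) (X : ℕ) : {t : ℕ × ℕ × ℕ | InTw X t}.Finite := by
  have h1 := pairs_finite h (2 * X)
  have h2 : (Set.Iic (2 * X)).Finite := Set.finite_Iic _
  refine ((h1.prod h2).image (fun s : (ℕ × ℕ) × ℕ => (s.1.1, s.1.2, s.2))).subset ?_
  rintro ⟨a, b, d⟩ ht
  have ht1 : Par a b d ∧ lev (a, b, d) ≤ X := ht
  refine ⟨((a, b), d), ⟨⟨ht1.1.1, ht1.1.2.1, ht1.1.2.2.1, ?_⟩, ?_⟩, rfl⟩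
  · exact (rad_le_lev ht1.1).trans (Nat.mul_le_mul_left _ ht1.2)
  · exact (le_two_lev ht1.1).trans (Nat.mul_le_mul_left _ ht1.2)

theorem rad_le_two_rad_div {n : ℕ} (h0 : n ≠ 0) (h : 16 ∣ n) : rad n ≤ 2 * rad (n / 16) := by
  have h1 := rad_le (P := 2) (n := n) (by norm_num)
  have h2 : rOff 2 n ≤ rad (n / 16) := by
    rw [rad_div h0 h]
    split_ifs <;> omega
  exact h1.trans (Nat.mul_le_mul_left _ h2)

theorem semi_finite (h : TailHyp) (X : ℕ) : {t : ℕ × ℕ | 0 < t.1 ∧ 0 < t.2 ∧ t.1.Coprime t.2 ∧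
    16 ∣ Nn t ∧ rad (Nn t / 16) ≤ X}.Finite := by
  refine (pairs_finite h (2 * X)).subset ?_
  rintro t ⟨h1, h2, h3, h4, h5⟩
  have hn : Nn t ≠ 0 := Nat.one_le_iff_ne_zero.1 (Nn_pos h1 h2)
  exact ⟨h1, h2, h3, (rad_le_two_rad_div hn h4).trans (Nat.mul_le_mul_left _ h5)⟩

theorem sem_finite (h : TailHyp) (X : ℕ) : {t : ℕ × ℕ | 0 < t.1 ∧ 0 < t.2 ∧ t.1.Coprime t.2 ∧
    Sem t.1 t.2 ∧ rad (Nn t / 16) ≤ X}.Finite := by
  refine (semi_finite h X).subset ?_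
  rintro t ⟨h1, h2, h3, h4, h5⟩
  exact ⟨h1, h2, h3, sixteen_dvd_of_sem h4, h5⟩

/-! ### The curves -/

theorem hQ_cond (X : ℕ) (C : VariableChange ℚ) (E : WeierstrassCurve ℚ) (hE : E.Δ ≠ 0) :
    cond (C • E) ≤ X ↔ cond E ≤ X := by
  rw [cond_smul C hE]

theorem hQ_semi (X : ℕ) (C : VariableChange ℚ) (E : WeierstrassCurve ℚ) (hE : E.Δ ≠ 0) :
    (Semi (C • E) ∧ condAll (C • E) ≤ X) ↔ (Semi E ∧ condAll E ≤ X) := by
  rw [semi_smul C hE, condAll_smul C hE]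

theorem set_cond (X : ℕ) : {t : ℕ × ℕ × ℕ | Par t.1 t.2.1 t.2.2 ∧ cond (Ec t.1 t.2.1 t.2.2) ≤ X} =
    {t : ℕ × ℕ × ℕ | InTw X t} := by
  ext ⟨a, b, d⟩
  constructor
  · rintro ⟨h1, h2⟩
    rw [cond_Ec h1] at h2
    exact ⟨h1, h2⟩
  · rintro ⟨h1, h2⟩
    refine ⟨h1, ?_⟩
    rw [cond_Ec h1]
    exact h2

theorem curves_finite (h : TailHyp) (X : ℕ) : (Classes fun E => cond E ≤ X).Finite := by
  rw [finite_classes_iff _ (hQ_cond X), set_cond]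
  exact inTw_finite h X

theorem curves_ncard (h : TailHyp) (X : ℕ) :
    (Classes fun E => cond E ≤ X).ncard = (inTw_finite h X).toFinset.card := by
  rw [ncard_classes _ (hQ_cond X), set_cond, Set.ncard_eq_toFinset_card _ (inTw_finite h X)]

theorem set_semi (X : ℕ) : {t : ℕ × ℕ × ℕ | Par t.1 t.2.1 t.2.2 ∧ (Semi (Ec t.1 t.2.1 t.2.2) ∧
      condAll (Ec t.1 t.2.1 t.2.2) ≤ X)} =
      (fun t : ℕ × ℕ => (t.1, t.2, 1)) '' {t : ℕ × ℕ | 0 < t.1 ∧ 0 < t.2 ∧ t.1.Coprime t.2 ∧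
        Sem t.1 t.2 ∧ rad (Nn t / 16) ≤ X} := by
  ext ⟨a, b, d⟩
  constructor
  · rintro ⟨hpar, hs, hX⟩
    obtain ⟨hd, hsem⟩ := (semi_Ec hpar).mp hs
    have hd' : d = 1 := hd
    subst hd'
    refine ⟨(a, b), ⟨hpar.1, hpar.2.1, hpar.2.2.1, hsem, ?_⟩, rfl⟩
    have h1 : condAll (Ec a b 1) = rad (a * b * (a + b) / 16) := condAll_Ec hpar hsem
    show rad (a * b * (a + b) / 16) ≤ X
    rw [← h1]
    exact hX
  · rintro ⟨⟨a', b'⟩, ⟨h1, h2, h3, hsem, hX⟩, heq⟩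
    have e1 : a' = a := congrArg Prod.fst heq
    have e2 : b' = b := congrArg (fun t => t.2.1) heq
    have e3 : 1 = d := congrArg (fun t => t.2.2) heq
    subst e1 e2 e3
    have hpar : Par a' b' 1 := ⟨h1, h2, h3, squarefree_one⟩
    refine ⟨hpar, (semi_Ec hpar).mpr ⟨rfl, hsem⟩, ?_⟩
    have h1 : condAll (Ec a' b' 1) = rad (a' * b' * (a' + b') / 16) := condAll_Ec hpar hsem
    show condAll (Ec a' b' 1) ≤ X
    rw [h1]
    exact hX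

theorem semi_classes_finite (h : TailHyp) (X : ℕ) :
    (Classes fun E => Semi E ∧ condAll E ≤ X).Finite := by
  rw [finite_classes_iff _ (hQ_semi X), set_semi]
  exact (sem_finite h X).image _

theorem semi_classes_ncard (h : TailHyp) (X : ℕ) :
    2 * (Classes fun E => Semi E ∧ condAll E ≤ X).ncard = (semi_finite h X).toFinset.card := by
  rw [ncard_classes _ (hQ_semi X), set_semi, Set.ncard_image_of_injective,
    Set.ncard_eq_toFinset_card _ (sem_finite h X)]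
  · refine (two_mul_card X _ _ (fun t => ?_) (fun t => ?_)).symm
    · rw [Set.Finite.mem_toFinset]
      exact Iff.rfl
    · rw [Set.Finite.mem_toFinset]
      exact Iff.rfl
  · rintro ⟨a, b⟩ ⟨a', b'⟩ heq
    have e1 : a = a' := congrArg Prod.fst heq
    have e2 : b = b' := congrArg (fun t => t.2.1) heq
    rw [e1, e2]

/-- The number of curves. -/
theorem curves_count (h : TailHyp) : ∃ κ : ℝ, 0 < κ ∧ ∀ᶠ X : ℕ in atTop,
    |((Classes fun E => cond E ≤ X).ncard : ℝ) - CE * (X : ℝ) ^ (2 / 3 : ℝ)| ≤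
      (X : ℝ) ^ (2 / 3 - κ) := by
  obtain ⟨κ, hκ, hc⟩ := twist_count h
  refine ⟨κ, hκ, ?_⟩
  filter_upwards [hc] with X hX
  rw [curves_ncard h X]
  refine hX _ (fun t => ?_)
  rw [Set.Finite.mem_toFinset]
  exact Iff.rfl

/-- The number of semistable curves. -/
theorem semi_classes_count (h : TailHyp) : ∃ κ : ℝ, 0 < κ ∧ ∀ᶠ X : ℕ in atTop,
    |((Classes fun E => Semi E ∧ condAll E ≤ X).ncard : ℝ) - CS / 2 * (X : ℝ) ^ (2 / 3 : ℝ)| ≤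
      (X : ℝ) ^ (2 / 3 - κ) := by
  obtain ⟨κ, hκ, hc⟩ := semi_count h
  refine ⟨κ, hκ, ?_⟩
  filter_upwards [hc] with X hX
  have h1 := hX (semi_finite h X).toFinset (fun t => by
    rw [Set.Finite.mem_toFinset]
    exact Iff.rfl)
  rw [← semi_classes_ncard h X] at h1
  push_cast at h1
  have h2 : (0 : ℝ) ≤ (X : ℝ) ^ (2 / 3 - κ) := by positivity
  rw [abs_le] at h1 ⊢
  constructor <;> linarith [h1.1, h1.2]

/-! ### Exceptions to Szpiro's inequality -/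

theorem hQ_exc (X : ℕ) (M : ℝ) (C : VariableChange ℚ) (E : WeierstrassCurve ℚ) (hE : E.Δ ≠ 0) :
    (cond (C • E) ≤ X ∧ ¬ DiscLt (C • E) ((cond (C • E) : ℝ) ^ M)) ↔
      (cond E ≤ X ∧ ¬ DiscLt E ((cond E : ℝ) ^ M)) := by
  rw [cond_smul C hE, discLt_smul]

theorem hQ_excS (X : ℕ) (M : ℝ) (C : VariableChange ℚ) (E : WeierstrassCurve ℚ) (hE : E.Δ ≠ 0) :
    (Semi (C • E) ∧ condAll (C • E) ≤ X ∧ ¬ DiscLt (C • E) ((condAll (C • E) : ℝ) ^ M)) ↔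
      (Semi E ∧ condAll E ≤ X ∧ ¬ DiscLt E ((condAll E : ℝ) ^ M)) := by
  rw [semi_smul C hE, condAll_smul C hE, discLt_smul]

theorem exc_sub (X : ℕ) (M : ℝ) :
    {t : ℕ × ℕ × ℕ | Par t.1 t.2.1 t.2.2 ∧ (cond (Ec t.1 t.2.1 t.2.2) ≤ X ∧
      ¬ DiscLt (Ec t.1 t.2.1 t.2.2) ((cond (Ec t.1 t.2.1 t.2.2) : ℝ) ^ M))} ⊆
    {t : ℕ × ℕ × ℕ | Par t.1 t.2.1 t.2.2 ∧ lev t ≤ X ∧
      (lev t : ℝ) ^ M ≤ 16 * (t.2.2 : ℝ) ^ 6 * ((t.1 : ℝ) * t.2.1 * (t.1 + t.2.1)) ^ 2} := by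
  rintro ⟨a, b, d⟩ ⟨h1, h2, h3⟩
  rw [cond_Ec h1] at h2 h3
  refine ⟨h1, h2, ?_⟩
  by_contra h4
  push Not at h4
  exact h3 (discLt_Ec h4)

theorem lev_le_rad {a b : ℕ} (h : Par a b 1) (h16 : 16 ∣ Nn (a, b)) :
    lev (a, b, 1) ≤ rad (Nn (a, b) / 16) := by
  have hn : Nn (a, b) ≠ 0 := Nat.one_le_iff_ne_zero.1 (Nn_pos (t := (a, b)) h.1 h.2.1)
  have e1 : od 1 = 1 := rfl
  rw [lev_eq h, e1, one_pow, mul_one, mul_one, rad_div hn h16]
  split_ifs <;> omega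

theorem excS_sub (X : ℕ) (M : ℝ) (hM : 0 < M) :
    {t : ℕ × ℕ × ℕ | Par t.1 t.2.1 t.2.2 ∧ (Semi (Ec t.1 t.2.1 t.2.2) ∧
      condAll (Ec t.1 t.2.1 t.2.2) ≤ X ∧
      ¬ DiscLt (Ec t.1 t.2.1 t.2.2) ((condAll (Ec t.1 t.2.1 t.2.2) : ℝ) ^ M))} ⊆
    {t : ℕ × ℕ × ℕ | Par t.1 t.2.1 t.2.2 ∧ lev t ≤ X ∧
      (lev t : ℝ) ^ M ≤ 16 * (t.2.2 : ℝ) ^ 6 * ((t.1 : ℝ) * t.2.1 * (t.1 + t.2.1)) ^ 2} := by
  rintro ⟨a, b, d⟩ ⟨h1, h2, h3, h4⟩
  obtain ⟨hd, hsem⟩ := (semi_Ec h1).mp h2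
  have hd' : d = 1 := hd
  subst hd'
  have e1 : condAll (Ec a b 1) = rad (Nn (a, b) / 16) := condAll_Ec h1 hsem
  have h16 : 16 ∣ Nn (a, b) := sixteen_dvd_of_sem hsem
  have hle := lev_le_rad h1 h16
  simp only at h3 h4
  rw [e1] at h3 h4
  refine ⟨h1, hle.trans h3, ?_⟩
  by_contra h5
  push Not at h5
  exact h4 (discLt_Ec (h5.trans_le
    (Real.rpow_le_rpow (Nat.cast_nonneg _) (by exact_mod_cast hle) hM.le)))

theorem exc_count (h : TailHyp) (M : ℝ) (hM : 2 < M) : ∃ κ : ℝ, 0 < κ ∧ ∀ᶠ X : ℕ in atTop,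
    ((Classes fun E => cond E ≤ X ∧ ¬ DiscLt E ((cond E : ℝ) ^ M)).ncard : ℝ) ≤
      (X : ℝ) ^ (2 / 3 - κ) ∧
    ((Classes fun E => Semi E ∧ condAll E ≤ X ∧ ¬ DiscLt E ((condAll E : ℝ) ^ M)).ncard : ℝ) ≤
      (X : ℝ) ^ (2 / 3 - κ) := by
  obtain ⟨κ, hκ, hc⟩ := szpiro_count M hM
  refine ⟨κ, hκ, ?_⟩
  filter_upwards [hc] with X hX
  have hfin : {t : ℕ × ℕ × ℕ | Par t.1 t.2.1 t.2.2 ∧ lev t ≤ X ∧ (lev t : ℝ) ^ M ≤
      16 * (t.2.2 : ℝ) ^ 6 * ((t.1 : ℝ) * t.2.1 * (t.1 + t.2.1)) ^ 2}.Finite :=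
    (inTw_finite h X).subset fun t ht => ⟨ht.1, ht.2.1⟩
  have h1 := hX hfin.toFinset (fun t ht => by
    rw [Set.Finite.mem_toFinset] at ht
    exact ht)
  have h2 : ∀ s : Set (ℕ × ℕ × ℕ), s ⊆ {t : ℕ × ℕ × ℕ | Par t.1 t.2.1 t.2.2 ∧ lev t ≤ X ∧
      (lev t : ℝ) ^ M ≤ 16 * (t.2.2 : ℝ) ^ 6 * ((t.1 : ℝ) * t.2.1 * (t.1 + t.2.1)) ^ 2} →
      (s.ncard : ℝ) ≤ (X : ℝ) ^ (2 / 3 - κ) := by
    intro s hs
    refine le_trans ?_ h1
    rw [← Set.ncard_eq_toFinset_card _ hfin]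
    exact_mod_cast Set.ncard_le_ncard hs hfin
  constructor
  · rw [ncard_classes _ (hQ_exc X M)]
    exact h2 _ (exc_sub X M)
  · rw [ncard_classes _ (hQ_excS X M)]
    exact h2 _ (excS_sub X M (by linarith))

end Pool.Agent.Lib.AbcT
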