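import Mathlib
import Pool.Agent.Lib.AbcT.Pass

/-!
# The discriminant of every integral model is at least the square of the conductor

For elliptic curves over `ℚ` with full rational 2-torsion: the square of the conductor away from 2
(of the conductor, if the curve is semistable) divides the discriminant of every Weierstrass equation
with integer coefficients.
-/

open WeierstrassCurve

namespace Pool.Agent.Lib.AbcT

section Local

variable (p : ℕ) [hp : Fact p.Prime] {a b d : ℕ}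

/-- A model over `ℤ`, seen over `ℚ_p`. -/
theorem local_model {W : WeierstrassCurve ℤ} {C : VariableChange ℚ} {E : WeierstrassCurve ℚ}
    (hW : C • E = W.map (Int.castRingHom ℚ)) :
    IsIntegral ℤ_[p] ((C.map (algebraMap ℚ ℚ_[p])) • (E.map (algebraMap ℚ ℚ_[p]))) ∧
      ((C.map (algebraMap ℚ ℚ_[p])) • (E.map (algebraMap ℚ ℚ_[p]))).Δ.valuation =
        (padicValNat p W.Δ.natAbs : ℤ) := by
  have h1 : (C.map (algebraMap ℚ ℚ_[p])) • (E.map (algebraMap ℚ ℚ_[p])) =
      W.map (Int.castRingHom ℚ_[p]) := by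
    rw [map_variableChange, hW]
    ext <;> simp
  rw [h1]
  constructor
  · refine ⟨⟨W.map (Int.castRingHom ℤ_[p]), ?_⟩⟩
    ext <;> simp [baseChange]
  · rw [map_Δ]
    have h2 : (Int.castRingHom ℚ_[p]) W.Δ = ((W.Δ : ℤ) : ℚ_[p]) := rfl
    rw [h2, Padic.valuation_intCast]
    rfl

/-- Odd primes dividing `a b (a + b)` or `d`. -/
theorem val_ge_odd (h : Par a b d) (hp2 : p ≠ 2) (C : VariableChange ℚ_[p])
    (hC : IsIntegral ℤ_[p] (C • ((Ec a b d).map (algebraMap ℚ ℚ_[p])))) :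
    2 * ((if p ∣ a * b * (a + b) * d then 1 else 0) + (if p ∣ d then 1 else 0)) ≤
      (C • ((Ec a b d).map (algebraMap ℚ ℚ_[p]))).Δ.valuation := by
  obtain ⟨n, h1, h2, h3, h4⟩ := val_smul p _ C (disc_map_ne p h) (c4_map_ne p h)
  obtain ⟨g1, g2⟩ := val_nonneg_of_integral p hC
  rw [h3, val_disc_map p h hp2] at g1 ⊢
  rw [h4, val_c4_map p h hp2] at g2
  by_cases hpd : p ∣ d
  · have hN : p ∣ a * b * (a + b) * d := hpd.mul_left _
    rw [if_pos hN, if_pos hpd]
    rw [val_squarefree p h.2.2.2 hpd] at g1 g2 ⊢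
    by_cases hk : p ∣ a * b * (a + b)
    · rw [padicValNat.eq_zero_of_not_dvd (not_dvd_Q p h.2.2.1 hk)] at g2
      omega
    · rw [padicValNat.eq_zero_of_not_dvd hk] at g1 ⊢
      omega
  · rw [if_neg hpd]
    rw [padicValNat.eq_zero_of_not_dvd hpd] at g1 g2 ⊢
    by_cases hk : p ∣ a * b * (a + b)
    · have hN : p ∣ a * b * (a + b) * d := hk.mul_right _
      rw [if_pos hN]
      rw [padicValNat.eq_zero_of_not_dvd (not_dvd_Q p h.2.2.1 hk)] at g2
      have : 1 ≤ padicValNat p (a * b * (a + b)) := one_le_padicValNat_of_dvd h.N_ne hk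
      omega
    · have hN : ¬ p ∣ a * b * (a + b) * d := by
        intro h5
        rcases hp.out.dvd_mul.mp h5 with h6 | h6
        · exact hk h6
        · exact hpd h6
      rw [if_neg hN]
      omega

/-- The prime 2 in the semistable case. -/
theorem val_ge_two (h : Par a b 1) (h32 : 32 ∣ a * b * (a + b)) (C : VariableChange ℚ_[2])
    (hC : IsIntegral ℤ_[2] (C • ((Ec a b 1).map (algebraMap ℚ ℚ_[2])))) :
    2 ≤ (C • ((Ec a b 1).map (algebraMap ℚ ℚ_[2]))).Δ.valuation := by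
  obtain ⟨h1, h2, h3, h4⟩ := Red2Aux.val_smul2 _ C (disc_map_ne 2 h) (c4_map_ne 2 h)
  obtain ⟨g1, g2⟩ := val_nonneg_of_integral 2 hC
  rw [h3, Red2Aux.val_disc2 h] at g1 ⊢
  rw [h4, Red2Aux.val_c42 h] at g2
  have h5 : padicValNat 2 1 = 0 := padicValNat.eq_zero_of_not_dvd (by norm_num)
  rw [h5] at g1 g2 ⊢
  have h6 : 5 ≤ padicValNat 2 (a * b * (a + b)) := by
    rw [← padicValNat_dvd_iff_le h.N_ne]
    simpa using h32
  omega

end Local

theorem prod_sq_dvd (S : Finset ℕ) (hS : ∀ p ∈ S, p.Prime) (e : ℕ → ℕ) (m : ℕ)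
    (h : ∀ p ∈ S, p ^ (2 * e p) ∣ m) : (∏ p ∈ S, p ^ e p) ^ 2 ∣ m := by
  rw [← Finset.prod_pow]
  refine Finset.prod_dvd_of_isRelPrime ?_ ?_
  · intro p hp q hq hpq
    show IsRelPrime ((p ^ e p) ^ 2) ((q ^ e q) ^ 2)
    rw [← Nat.coprime_iff_isRelPrime, ← pow_mul, ← pow_mul]
    exact Nat.Coprime.pow _ _ ((Nat.coprime_primes (hS p hp) (hS q hq)).mpr hpq)
  · intro p hp
    rw [← pow_mul, mul_comm]
    exact h p hp

theorem sq_le_abs {W : WeierstrassCurve ℤ} {c : ℕ} (h0 : W.Δ ≠ 0) (h : c ^ 2 ∣ W.Δ.natAbs) :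
    (c : ℝ) ^ 2 ≤ |(W.Δ : ℝ)| := by
  have h1 := Nat.le_of_dvd (Int.natAbs_pos.mpr h0) h
  have h2 : ((c ^ 2 : ℕ) : ℝ) ≤ ((W.Δ.natAbs : ℕ) : ℝ) := by exact_mod_cast h1
  rw [Nat.cast_natAbs, Int.cast_abs] at h2
  push_cast at h2
  exact h2

theorem disc_ne_of_model {W : WeierstrassCurve ℤ} {C : VariableChange ℚ}
    {E : WeierstrassCurve ℚ} (hE : E.Δ ≠ 0) (hW : C • E = W.map (Int.castRingHom ℚ)) :
    W.Δ ≠ 0 := by
  intro h0
  have h1 : (C • E).Δ = 0 := by
    rw [hW, map_Δ, h0, map_zero]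
  rw [variableChange_Δ] at h1
  exact mul_ne_zero (pow_ne_zero _ (Units.ne_zero _)) hE h1

/-- The square of the conductor away from 2 is at most the discriminant of any integral model. -/
theorem cond_sq_le {E : WeierstrassCurve ℚ} (hE : E.Δ ≠ 0) (h : FullTwo E)
    (W : WeierstrassCurve ℤ) (C : VariableChange ℚ) (hW : C • E = W.map (Int.castRingHom ℚ)) :
    ((cond E : ℝ)) ^ 2 ≤ |(W.Δ : ℝ)| := by
  classical
  refine sq_le_abs (disc_ne_of_model hE hW) ?_
  obtain ⟨a, b, d, hpar, D, hD⟩ := exists_Ec hE h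
  have hc : cond E = radOdd (a * b * (a + b) * d) * radOdd d := by
    rw [← cond_Ec hpar, ← hD, cond_smul D hE]
  have hW' : (C * D⁻¹) • Ec a b d = W.map (Int.castRingHom ℚ) := by
    rw [← hD, smul_smul, inv_mul_cancel_right, hW]
  have hN0 : a * b * (a + b) * d ≠ 0 := mul_ne_zero hpar.N_ne hpar.d_ne
  have hprod : radOdd (a * b * (a + b) * d) * radOdd d =
      ∏ p ∈ (a * b * (a + b) * d).primeFactors \ {2},
        p ^ ((if p ∣ a * b * (a + b) * d then 1 else 0) + (if p ∣ d then 1 else 0)) := by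
    unfold radOdd
    have h1 : ∏ p ∈ d.primeFactors \ {2}, p =
        ∏ p ∈ (a * b * (a + b) * d).primeFactors \ {2}, (if p ∣ d then p else 1) := by
      rw [Finset.prod_ite, Finset.prod_const_one, mul_one]
      refine Finset.prod_congr ?_ fun p _ => rfl
      ext p
      simp only [Finset.mem_filter, Finset.mem_sdiff, Nat.mem_primeFactors, Finset.mem_singleton]
      constructor
      · rintro ⟨⟨h1, h2, h3⟩, h4⟩
        exact ⟨⟨⟨h1, h2.mul_left _, hN0⟩, h4⟩, h2⟩
      · rintro ⟨⟨⟨h1, h2, h3⟩, h4⟩, h5⟩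
        exact ⟨⟨h1, h5, hpar.d_ne⟩, h4⟩
    rw [h1, ← Finset.prod_mul_distrib]
    refine Finset.prod_congr rfl fun p hp => ?_
    rw [Finset.mem_sdiff, Nat.mem_primeFactors] at hp
    rw [if_pos hp.1.2.1]
    split_ifs
    · ring
    · ring
  rw [hc, hprod]
  refine prod_sq_dvd _ ?_ _ _ ?_
  · intro p hp
    rw [Finset.mem_sdiff, Nat.mem_primeFactors] at hp
    exact hp.1.1
  · intro p hp
    rw [Finset.mem_sdiff, Nat.mem_primeFactors, Finset.mem_singleton] at hp
    have := Fact.mk hp.1.1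
    obtain ⟨g1, g2⟩ := local_model p hW'
    have g3 := val_ge_odd p hpar hp.2 _ g1
    rw [g2] at g3
    rw [padicValNat_dvd_iff_le (Int.natAbs_pos.mpr (disc_ne_of_model hE hW)).ne']
    exact_mod_cast g3

/-- The square of the conductor of a semistable curve is at most the discriminant of any integral
model. -/
theorem condAll_sq_le {E : WeierstrassCurve ℚ} (hE : E.Δ ≠ 0) (h : FullTwo E) (hs : Semi E)
    (W : WeierstrassCurve ℤ) (C : VariableChange ℚ) (hW : C • E = W.map (Int.castRingHom ℚ)) :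
    ((condAll E : ℝ)) ^ 2 ≤ |(W.Δ : ℝ)| := by
  classical
  refine sq_le_abs (disc_ne_of_model hE hW) ?_
  obtain ⟨a, b, d, hpar, D, hD⟩ := exists_Ec hE h
  have hs' : Semi (Ec a b d) := by
    rw [← hD]; exact (semi_smul D hE).mpr hs
  obtain ⟨rfl, hsem⟩ := (semi_Ec hpar).mp hs'
  have hc : condAll E = AbcG.rad (a * b * (a + b) / 16) := by
    rw [← condAll_Ec hpar hsem, ← hD, condAll_smul D hE]
  have hW' : (C * D⁻¹) • Ec a b 1 = W.map (Int.castRingHom ℚ) := by
    rw [← hD, smul_smul, inv_mul_cancel_right, hW]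
  obtain ⟨m, hm⟩ := sixteen_dvd_of_sem hsem
  have hdiv : a * b * (a + b) / 16 = m := by
    rw [hm]; exact Nat.mul_div_cancel_left m (by norm_num)
  have hprod : AbcG.rad (a * b * (a + b) / 16) = ∏ p ∈ m.primeFactors, p ^ 1 := by
    rw [hdiv]
    unfold AbcG.rad
    exact Finset.prod_congr rfl fun p _ => (pow_one p).symm
  rw [hc, hprod]
  refine prod_sq_dvd _ ?_ (fun _ => 1) _ ?_
  · intro p hp
    rw [Nat.mem_primeFactors] at hp
    exact hp.1
  · intro p hp
    rw [Nat.mem_primeFactors] at hp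
    have := Fact.mk hp.1
    obtain ⟨g1, g2⟩ := local_model p hW'
    rw [padicValNat_dvd_iff_le (Int.natAbs_pos.mpr (disc_ne_of_model hE hW)).ne']
    by_cases hp2 : p = 2
    · subst hp2
      have h32 : 32 ∣ a * b * (a + b) := by
        obtain ⟨k, hk⟩ := hp.2.1
        exact ⟨k, by rw [hm, hk]; ring⟩
      have g3 := val_ge_two hpar h32 _ g1
      rw [g2] at g3
      exact_mod_cast g3
    · have g3 := val_ge_odd p hpar hp2 _ g1
      have hN : p ∣ a * b * (a + b) * 1 := by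
        rw [mul_one, hm]; exact hp.2.1.mul_left _
      rw [g2, if_pos hN] at g3
      have g4 : (0 : ℤ) ≤ (if p ∣ 1 then 1 else 0) := by split_ifs <;> norm_num
      have g5 : (2 : ℤ) ≤ (padicValNat p W.Δ.natAbs : ℤ) := by linarith
      exact_mod_cast g5

end Pool.Agent.Lib.AbcT
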