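import Mathlib
import Pool.Agent.Lib.AbcT.Last
import Pool.Agent.Lib.AbcD.Final

/-!
# Semistable curves with full rational 2-torsion: almost every class is determined by its conductor
-/

set_option autoImplicit false

open Filter WeierstrassCurve Finset

namespace Pool.Agent.Lib.AbcT

open Pool.Agent.Lib.AbcG Pool.Agent.Lib.AbcD

/-- The radical from the radical of the quotient by 16. -/
theorem rad_eq_of_div {m n : ℕ} (hm0 : m ≠ 0) (hn0 : n ≠ 0) (hm : 16 ∣ m) (hn : 16 ∣ n)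
    (h : rad (m / 16) = rad (n / 16)) : rad m = rad n := by
  have hodd : ∀ k : ℕ, k ≠ 0 → ¬ 2 ∣ rOff 2 k := by
    intro k hk h2
    unfold rOff at h2
    rw [(Nat.prime_two.prime).dvd_finsetProd_iff] at h2
    obtain ⟨p, hp, h3⟩ := h2
    rw [Finset.mem_sdiff] at hp
    have h4 := Nat.prime_of_mem_primeFactors hp.1
    have h5 : 2 = p := (Nat.prime_dvd_prime_iff_eq Nat.prime_two h4).1 h3
    apply hp.2
    rw [← h5]
    exact Nat.mem_primeFactors.2 ⟨Nat.prime_two, dvd_rfl, by norm_num⟩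
  have hrad : ∀ k : ℕ, k ≠ 0 → 16 ∣ k → rad k = 2 * rOff 2 k := by
    intro k hk h16
    rw [← rIn_mul_rOff 2 k]
    congr 1
    unfold rIn
    have h2 : k.primeFactors ∩ Nat.primeFactors 2 = {2} := by
      rw [Nat.Prime.primeFactors Nat.prime_two, Finset.inter_singleton_of_mem]
      exact Nat.mem_primeFactors.2 ⟨Nat.prime_two, Dvd.dvd.trans (by norm_num) h16, hk⟩
    rw [h2, Finset.prod_singleton]
  rw [rad_div hm0 hm, rad_div hn0 hn] at h
  rw [hrad m hm0 hm, hrad n hn0 hn]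
  have h1 := hodd m hm0
  have h2 := hodd n hn0
  split_ifs at h with c1 c2 c2
  · omega
  · exfalso
    apply h2
    rw [← h]
    exact Dvd.intro _ rfl
  · exfalso
    apply h1
    rw [h]
    exact Dvd.intro _ rfl
  · omega

/-- Few pairs of different semistable classes have the same conductor. -/
theorem sem_pairs_few : ∃ κ : ℝ, 0 < κ ∧ ∀ᶠ X : ℕ in atTop, ∀ T : Finset ((ℕ × ℕ) × (ℕ × ℕ)),
    (∀ p ∈ T, p.1 ≠ p.2 ∧ 0 < p.1.1 ∧ 0 < p.1.2 ∧ p.1.1.Coprime p.1.2 ∧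
      0 < p.2.1 ∧ 0 < p.2.2 ∧ p.2.1.Coprime p.2.2 ∧ Sem p.1.1 p.1.2 ∧ Sem p.2.1 p.2.2 ∧
      rad (Nn p.1 / 16) = rad (Nn p.2 / 16) ∧ rad (Nn p.1 / 16) ≤ X) →
    (T.card : ℝ) ≤ (X : ℝ) ^ (2 / 3 - κ) := by
  obtain ⟨κ, hκ, hev⟩ := pairs_few
  obtain ⟨κ', hκ'⟩ : ∃ κ' : ℝ, κ' = min κ (1 / 3) := ⟨_, rfl⟩
  have hκ'0 : 0 < κ' := by rw [hκ']; exact lt_min hκ (by norm_num)
  refine ⟨κ' / 2, by positivity, ?_⟩
  have hmul : Tendsto (fun X : ℕ => 2 * X) atTop atTop :=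
    tendsto_id.const_mul_atTop' (by norm_num)
  have hlarge : ∀ᶠ Y : ℕ in atTop, (2 : ℝ) ≤ (Y : ℝ) ^ (κ' / 2) := by
    have h1 : Tendsto (fun Y : ℕ => (Y : ℝ) ^ (κ' / 2)) atTop atTop :=
      (tendsto_rpow_atTop (by positivity)).comp tendsto_natCast_atTop_atTop
    exact h1.eventually (eventually_ge_atTop _)
  filter_upwards [hmul.eventually hev, hlarge, eventually_ge_atTop 1] with X hX hl hX1 T hT
  have hx1 : (1 : ℝ) ≤ X := by exact_mod_cast hX1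
  have hx : (0 : ℝ) < X := by linarith
  have h1 := hX T (by
    intro p hp
    obtain ⟨a1, a2, a3, a4, a5, a6, a7, a8, a9, a10, a11⟩ := hT p hp
    have n1 : Nn p.1 ≠ 0 := Nn_ne a2 a3
    have n2 : Nn p.2 ≠ 0 := Nn_ne a5 a6
    have d1 : 16 ∣ Nn p.1 := sixteen_dvd_of_sem a8
    have d2 : 16 ∣ Nn p.2 := sixteen_dvd_of_sem a9
    have e : rad (Nn p.1) = rad (Nn p.2) := rad_eq_of_div n1 n2 d1 d2 a10
    have b1 : rad (Nn p.1) ≤ 2 * X := (rad_le_two_rad_div n1 d1).trans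
      (Nat.mul_le_mul_left _ a11)
    refine ⟨⟨a2, a3, a4, b1⟩, ⟨a5, a6, a7, by rw [← e]; exact b1⟩, e, fun h => a1 h.symm, ?_⟩
    intro h
    rw [h] at a9
    simp only [Prod.fst_swap, Prod.snd_swap] at a9
    rcases sem_or_sem a4 d1 with g | g
    · exact g.2 a9
    · exact g.2 a8)
  refine h1.trans ?_
  have hx2 : (1 : ℝ) ≤ ((2 * X : ℕ) : ℝ) := by
    push_cast
    linarith
  calc ((2 * X : ℕ) : ℝ) ^ (2 / 3 - κ) ≤ ((2 * X : ℕ) : ℝ) ^ (2 / 3 - κ') :=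
        Real.rpow_le_rpow_of_exponent_le hx2 (by rw [hκ']; linarith [min_le_left κ (1 / 3)])
    _ = (2 : ℝ) ^ (2 / 3 - κ') * (X : ℝ) ^ (2 / 3 - κ') := by
        push_cast
        rw [Real.mul_rpow (by norm_num) hx.le]
    _ ≤ (X : ℝ) ^ (κ' / 2) * (X : ℝ) ^ (2 / 3 - κ') := by
        refine mul_le_mul_of_nonneg_right (le_trans ?_ hl) (by positivity)
        calc (2 : ℝ) ^ (2 / 3 - κ') ≤ (2 : ℝ) ^ (1 : ℝ) :=
              Real.rpow_le_rpow_of_exponent_le (by norm_num) (by linarith)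
          _ = 2 := Real.rpow_one _
    _ = (X : ℝ) ^ (2 / 3 - κ' / 2) := by
        rw [← Real.rpow_add hx]
        congr 1
        ring

/-- Number of values taken, and number of values taken once. -/
theorem values {α : Type} [DecidableEq α] (F : Finset α) (ρ : α → ℕ) (Sh : Finset α)
    (hSh : ∀ t, t ∈ Sh ↔ t ∈ F ∧ ∃ s ∈ F, s ≠ t ∧ ρ s = ρ t) :
    ((F.image ρ).filter (fun n => (F.filter (fun t => ρ t = n)).card = 1)).card + Sh.card =
      F.card ∧ (F.image ρ).card ≤ F.card := by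
  refine ⟨?_, card_image_le⟩
  have h1 : ((F \ Sh).image ρ) =
      (F.image ρ).filter (fun n => (F.filter (fun t => ρ t = n)).card = 1) := by
    ext n
    rw [mem_filter, mem_image, mem_image]
    constructor
    · rintro ⟨t, ht, rfl⟩
      rw [Finset.mem_sdiff, hSh] at ht
      refine ⟨⟨t, ht.1, rfl⟩, ?_⟩
      rw [card_eq_one]
      refine ⟨t, ?_⟩
      ext s
      rw [mem_filter, mem_singleton]
      constructor
      · rintro ⟨hs, h2⟩
        by_contra hne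
        exact ht.2 ⟨ht.1, s, hs, hne, h2⟩
      · rintro rfl
        exact ⟨ht.1, rfl⟩
    · rintro ⟨⟨t, ht, rfl⟩, h2⟩
      refine ⟨t, ?_, rfl⟩
      rw [Finset.mem_sdiff, hSh]
      refine ⟨ht, ?_⟩
      rintro ⟨-, s, hs, hne, h3⟩
      rw [card_eq_one] at h2
      obtain ⟨u, hu⟩ := h2
      have a1 : t ∈ F.filter (fun s => ρ s = ρ t) := mem_filter.2 ⟨ht, rfl⟩
      have a2 : s ∈ F.filter (fun s => ρ s = ρ t) := mem_filter.2 ⟨hs, h3⟩
      rw [hu, mem_singleton] at a1 a2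
      exact hne (a2.trans a1.symm)
  have h2 : Set.InjOn ρ ((F \ Sh : Finset α) : Set α) := by
    intro t ht s hs h
    rw [Finset.mem_coe, Finset.mem_sdiff, hSh] at ht hs
    by_contra hne
    exact ht.2 ⟨ht.1, s, hs.1, fun h' => hne h'.symm, h.symm⟩
  have h3 : Sh ⊆ F := fun t ht => ((hSh t).1 ht).1
  rw [← h1, card_image_of_injOn h2]
  exact card_sdiff_add_card_eq_card h3

theorem hQ_semiEq (n : ℕ) (C : VariableChange ℚ) (E : WeierstrassCurve ℚ) (hE : E.Δ ≠ 0) :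
    (Semi (C • E) ∧ condAll (C • E) = n) ↔ (Semi E ∧ condAll E = n) := by
  rw [semi_smul C hE, condAll_smul C hE]

theorem set_semiEq (n : ℕ) : {t : ℕ × ℕ × ℕ | Par t.1 t.2.1 t.2.2 ∧ (Semi (Ec t.1 t.2.1 t.2.2) ∧
      condAll (Ec t.1 t.2.1 t.2.2) = n)} =
      (fun t : ℕ × ℕ => (t.1, t.2, 1)) '' {t : ℕ × ℕ | 0 < t.1 ∧ 0 < t.2 ∧ t.1.Coprime t.2 ∧
        Sem t.1 t.2 ∧ rad (Nn t / 16) = n} := by
  ext ⟨a, b, d⟩
  constructor
  · rintro ⟨hpar, hs, hX⟩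
    obtain ⟨hd, hsem⟩ := (semi_Ec hpar).mp hs
    have hd' : d = 1 := hd
    subst hd'
    refine ⟨(a, b), ⟨hpar.1, hpar.2.1, hpar.2.2.1, hsem, ?_⟩, rfl⟩
    have h1 : condAll (Ec a b 1) = rad (a * b * (a + b) / 16) := condAll_Ec hpar hsem
    show rad (a * b * (a + b) / 16) = n
    rw [← h1]
    exact hX
  · rintro ⟨⟨a', b'⟩, ⟨h1, h2, h3, hsem, hX⟩, heq⟩
    have e1 : a' = a := congrArg Prod.fst heq
    have e2 : b' = b := congrArg (fun t => t.2.1) heq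
    have e3 : 1 = d := congrArg (fun t => t.2.2) heq
    subst e1 e2 e3
    have hpar : Par a' b' 1 := ⟨h1, h2, h3, squarefree_one⟩
    refine ⟨hpar, (semi_Ec hpar).mpr ⟨rfl, hsem⟩, ?_⟩
    have h1 : condAll (Ec a' b' 1) = rad (a' * b' * (a' + b') / 16) := condAll_Ec hpar hsem
    show condAll (Ec a' b' 1) = n
    rw [h1]
    exact hX

/-- The number of classes with the conductor `n`. -/
theorem ncard_semiEq (h : TailHyp) {n X : ℕ} (hn : n ≤ X) :
    (Classes fun E => Semi E ∧ condAll E = n).ncard =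
      ((sem_finite h X).toFinset.filter (fun t => rad (Nn t / 16) = n)).card := by
  rw [ncard_classes _ (hQ_semiEq n), set_semiEq, Set.ncard_image_of_injective, ← Set.ncard_coe_finset]
  · congr 1
    ext t
    rw [Finset.mem_coe, mem_filter, Set.Finite.mem_toFinset]
    simp only [Set.mem_ofPred_eq]
    constructor
    · rintro ⟨a1, a2, a3, a4, a5⟩
      exact ⟨⟨a1, a2, a3, a4, by omega⟩, a5⟩
    · rintro ⟨⟨a1, a2, a3, a4, -⟩, a5⟩
      exact ⟨a1, a2, a3, a4, a5⟩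
  · rintro ⟨a, b⟩ ⟨a', b'⟩ heq
    have e1 : a = a' := congrArg Prod.fst heq
    have e2 : b = b' := congrArg (fun t => t.2.1) heq
    rw [e1, e2]

/-- The number of the conductors of the semistable classes, and the number of those of exactly one
class. -/
theorem semi_conductors : ∃ κ : ℝ, 0 < κ ∧ ∀ᶠ X : ℕ in atTop,
    |({n : ℕ | n ≤ X ∧ (Classes fun E => Semi E ∧ condAll E = n).ncard = 1}.ncard : ℝ) -
        CS / 2 * (X : ℝ) ^ (2 / 3 : ℝ)| ≤ (X : ℝ) ^ (2 / 3 - κ) ∧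
    |({n : ℕ | n ≤ X ∧ (Classes fun E => Semi E ∧ condAll E = n).Nonempty}.ncard : ℝ) -
        CS / 2 * (X : ℝ) ^ (2 / 3 : ℝ)| ≤ (X : ℝ) ^ (2 / 3 - κ) := by
  classical
  have h : TailHyp := tailHyp_of almostAll
  obtain ⟨κ1, hκ1, h1⟩ := semi_classes_count h
  obtain ⟨κ2, hκ2, h2⟩ := sem_pairs_few
  obtain ⟨κ, hκ⟩ : ∃ κ : ℝ, κ = min κ1 κ2 := ⟨_, rfl⟩
  have hκ0 : 0 < κ := by rw [hκ]; exact lt_min hκ1 hκ2
  have l1 : κ ≤ κ1 := by rw [hκ]; exact min_le_left _ _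
  have l2 : κ ≤ κ2 := by rw [hκ]; exact min_le_right _ _
  refine ⟨κ / 2, by positivity, ?_⟩
  have hlarge : ∀ᶠ Y : ℕ in atTop, (2 : ℝ) ≤ (Y : ℝ) ^ (κ / 2) := by
    have h1 : Tendsto (fun Y : ℕ => (Y : ℝ) ^ (κ / 2)) atTop atTop :=
      (tendsto_rpow_atTop (by positivity)).comp tendsto_natCast_atTop_atTop
    exact h1.eventually (eventually_ge_atTop _)
  filter_upwards [h1, h2, hlarge, eventually_ge_atTop 1] with X hX1 hX2 hl hX0
  have hx1 : (1 : ℝ) ≤ X := by exact_mod_cast hX0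
  have hx : (0 : ℝ) < X := by linarith
  obtain ⟨F, hF⟩ : ∃ F : Finset (ℕ × ℕ), F = (sem_finite h X).toFinset := ⟨_, rfl⟩
  have hFm : ∀ t, t ∈ F ↔ 0 < t.1 ∧ 0 < t.2 ∧ t.1.Coprime t.2 ∧ Sem t.1 t.2 ∧
      rad (Nn t / 16) ≤ X := by
    intro t
    rw [hF, Set.Finite.mem_toFinset]
    exact Iff.rfl
  obtain ⟨ρ, hρ⟩ : ∃ ρ : ℕ × ℕ → ℕ, ρ = fun t => rad (Nn t / 16) := ⟨_, rfl⟩
  have hFc : F.card = (Classes fun E => Semi E ∧ condAll E ≤ X).ncard := by
    rw [ncard_classes _ (hQ_semi X), set_semi, Set.ncard_image_of_injective,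
      Set.ncard_eq_toFinset_card _ (sem_finite h X), hF]
    rintro ⟨a, b⟩ ⟨a', b'⟩ heq
    have e1 : a = a' := congrArg Prod.fst heq
    have e2 : b = b' := congrArg (fun t => t.2.1) heq
    rw [e1, e2]
  obtain ⟨Sh, hSh⟩ : ∃ Sh : Finset (ℕ × ℕ), Sh = F.filter (fun t => ∃ s ∈ F, s ≠ t ∧ ρ s = ρ t) :=
    ⟨_, rfl⟩
  have hShm : ∀ t, t ∈ Sh ↔ t ∈ F ∧ ∃ s ∈ F, s ≠ t ∧ ρ s = ρ t := by
    intro t
    rw [hSh, mem_filter]
  have hShc : (Sh.card : ℝ) ≤ (X : ℝ) ^ (2 / 3 - κ2) := by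
    have hex : ∀ t : ℕ × ℕ, ∃ s : ℕ × ℕ, t ∈ Sh → s ∈ F ∧ s ≠ t ∧ ρ s = ρ t := by
      intro t
      by_cases ht : t ∈ Sh
      · obtain ⟨-, s, hs⟩ := (hShm t).1 ht
        exact ⟨s, fun _ => hs⟩
      · exact ⟨t, fun h => absurd h ht⟩
    choose φ hφ using hex
    have hinj : Function.Injective (fun t : ℕ × ℕ => (t, φ t)) := by
      intro t t' h
      exact congrArg Prod.fst h
    rw [← card_image_of_injective Sh hinj]
    apply hX2
    intro p hp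
    obtain ⟨t, ht, rfl⟩ := mem_image.1 hp
    obtain ⟨a1, a2, a3⟩ := hφ t ht
    obtain ⟨b1, b2, b3, b4, b5⟩ := (hFm t).1 ((hShm t).1 ht).1
    obtain ⟨c1, c2, c3, c4, c5⟩ := (hFm (φ t)).1 a1
    rw [hρ] at a3
    exact ⟨fun h => a2 h.symm, b1, b2, b3, c1, c2, c3, b4, c4, a3.symm, b5⟩
  obtain ⟨v1, v2⟩ := values F ρ Sh hShm
  have hset1 : {n : ℕ | n ≤ X ∧ (Classes fun E => Semi E ∧ condAll E = n).ncard = 1} =
      ((F.image ρ).filter (fun n => (F.filter (fun t => ρ t = n)).card = 1) : Finset ℕ) := by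
    ext n
    rw [Finset.mem_coe, mem_filter, mem_image]
    constructor
    · rintro ⟨hn, h3⟩
      rw [ncard_semiEq h hn, ← hF] at h3
      have h4 : (F.filter (fun t => ρ t = n)).card = 1 := by rw [hρ]; exact h3
      refine ⟨?_, h4⟩
      obtain ⟨t, ht⟩ := card_eq_one.1 h4
      have h5 : t ∈ F.filter (fun t => ρ t = n) := by rw [ht]; exact mem_singleton_self t
      rw [mem_filter] at h5
      exact ⟨t, h5.1, h5.2⟩
    · rintro ⟨⟨t, ht, rfl⟩, h4⟩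
      have hn : ρ t ≤ X := by rw [hρ]; exact ((hFm t).1 ht).2.2.2.2
      refine ⟨hn, ?_⟩
      rw [ncard_semiEq h hn, ← hF]
      rw [hρ] at h4 ⊢
      exact h4
  have hset2 : {n : ℕ | n ≤ X ∧ (Classes fun E => Semi E ∧ condAll E = n).Nonempty} =
      (F.image ρ : Finset ℕ) := by
    ext n
    rw [Finset.mem_coe, mem_image]
    have hfin : (Classes fun E => Semi E ∧ condAll E = n).Finite := by
      rw [finite_classes_iff _ (hQ_semiEq n), set_semiEq]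
      refine Set.Finite.image _ ((sem_finite h n).subset ?_)
      rintro t ⟨a1, a2, a3, a4, a5⟩
      exact ⟨a1, a2, a3, a4, a5.le⟩
    constructor
    · rintro ⟨hn, h3⟩
      have h4 : 0 < (Classes fun E => Semi E ∧ condAll E = n).ncard :=
        (Set.ncard_pos hfin).2 h3
      rw [ncard_semiEq h hn, ← hF, card_pos] at h4
      obtain ⟨t, ht⟩ := h4
      rw [mem_filter] at ht
      exact ⟨t, ht.1, by rw [hρ]; exact ht.2⟩
    · rintro ⟨t, ht, rfl⟩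
      have hn : ρ t ≤ X := by rw [hρ]; exact ((hFm t).1 ht).2.2.2.2
      refine ⟨hn, ?_⟩
      rw [← Set.ncard_pos hfin, ncard_semiEq h hn, ← hF, card_pos]
      exact ⟨t, mem_filter.2 ⟨ht, by rw [hρ]⟩⟩
  rw [hset1, hset2, Set.ncard_coe_finset, Set.ncard_coe_finset]
  have v1' : ((((F.image ρ).filter (fun n => (F.filter (fun t => ρ t = n)).card = 1)).card : ℕ) : ℝ) +
      Sh.card = F.card := by exact_mod_cast v1
  have v2' : ((F.image ρ).card : ℝ) ≤ F.card := by exact_mod_cast v2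
  have v3' : ((((F.image ρ).filter (fun n => (F.filter (fun t => ρ t = n)).card = 1)).card : ℕ) : ℝ) ≤
      (F.image ρ).card := by exact_mod_cast card_filter_le _ _
  have hFc' : (F.card : ℝ) = ((Classes fun E => Semi E ∧ condAll E ≤ X).ncard : ℝ) := by
    exact_mod_cast hFc
  rw [← hFc'] at hX1
  have hX1' := abs_le.1 hX1
  have m1 : (X : ℝ) ^ (2 / 3 - κ1) ≤ (X : ℝ) ^ (2 / 3 - κ) :=
    Real.rpow_le_rpow_of_exponent_le hx1 (by linarith)
  have m2 : (X : ℝ) ^ (2 / 3 - κ2) ≤ (X : ℝ) ^ (2 / 3 - κ) :=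
    Real.rpow_le_rpow_of_exponent_le hx1 (by linarith)
  have m4 : 2 * (X : ℝ) ^ (2 / 3 - κ) ≤ (X : ℝ) ^ (2 / 3 - κ / 2) := by
    have e : (X : ℝ) ^ (2 / 3 - κ / 2) = (X : ℝ) ^ (κ / 2) * (X : ℝ) ^ (2 / 3 - κ) := by
      rw [← Real.rpow_add hx]
      congr 1
      ring
    rw [e]
    exact mul_le_mul_of_nonneg_right hl (by positivity)
  have m5 : (0 : ℝ) ≤ (X : ℝ) ^ (2 / 3 - κ) := by positivity
  constructor
  · rw [abs_le]
    constructor <;> linarith [hX1'.1, hX1'.2]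
  · rw [abs_le]
    constructor <;> linarith [hX1'.1, hX1'.2]

end Pool.Agent.Lib.AbcT
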