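import Mathlib
import Pool.Agent.Lib.AbcT.Mult
import Pool.Agent.Lib.AbcT.Tail
import Pool.Agent.Lib.AbcE.Final

/-!
# Curves with full rational 2-torsion: almost every odd conductor has exactly four classes
-/

set_option autoImplicit false

open Filter WeierstrassCurve Finset

namespace Pool.Agent.Lib.AbcT

open Pool.Agent.Lib.AbcG Pool.Agent.Lib.AbcD Pool.Agent.Lib.AbcE

/-! ### The twist is determined by the level -/

theorem squarefree_rOff (P n : ℕ) : Squarefree (rOff P n) := by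
  unfold rOff
  rw [Nat.squarefree_iff_prime_squarefree]
  intro q hq hdvd
  have h1 : q ∣ ∏ p ∈ n.primeFactors \ P.primeFactors, p := (Dvd.intro _ rfl).trans hdvd
  rw [(hq.prime).dvd_finsetProd_iff] at h1
  obtain ⟨p, hp, h2⟩ := h1
  have hpp : p.Prime := Nat.prime_of_mem_primeFactors (Finset.mem_sdiff.1 hp).1
  have h3 : q = p := (Nat.prime_dvd_prime_iff_eq hq hpp).1 h2
  subst h3
  rw [← Finset.mul_prod_erase _ _ hp] at hdvd
  have h4 := Nat.dvd_of_mul_dvd_mul_left hq.pos hdvd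
  rw [(hq.prime).dvd_finsetProd_iff] at h4
  obtain ⟨r, hr, h5⟩ := h4
  rw [Finset.mem_erase, Finset.mem_sdiff] at hr
  exact hr.1 ((Nat.prime_dvd_prime_iff_eq hq (Nat.prime_of_mem_primeFactors hr.2.1)).1 h5).symm

theorem dvd_of_sq_mul {r r' e e' : ℕ} (hr' : Squarefree r') (he : Squarefree e)
    (he' : e' ≠ 0) (h : r * e ^ 2 = r' * e' ^ 2) : e ∣ e' := by
  have h1 : e.primeFactors ⊆ e'.primeFactors := by
    intro p hp
    have hpp := Nat.prime_of_mem_primeFactors hp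
    have hpe := Nat.dvd_of_mem_primeFactors hp
    rw [Nat.mem_primeFactors]
    refine ⟨hpp, ?_, he'⟩
    by_contra hcon
    have h2 : p ^ 2 ∣ r' * e' ^ 2 := by
      rw [← h]
      exact (pow_dvd_pow_of_dvd hpe 2).mul_left r
    have h3 : Nat.Coprime (p ^ 2) (e' ^ 2) :=
      Nat.Coprime.pow 2 2 ((Nat.Prime.coprime_iff_not_dvd hpp).2 hcon)
    have h4 : p ^ 2 ∣ r' := h3.dvd_of_dvd_mul_right h2
    have h5 := hr' p (by rw [← sq]; exact h4)
    exact hpp.one_lt.ne' (Nat.isUnit_iff.1 h5)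
  rw [← Nat.prod_primeFactors_of_squarefree he]
  exact (Finset.prod_dvd_prod_of_subset _ _ _ h1).trans (Nat.prod_primeFactors_dvd e')

theorem od_eq_of_lev {a b d a' b' d' : ℕ} (h : Par a b d) (h' : Par a' b' d')
    (hl : lev (a, b, d) = lev (a', b', d')) : od d = od d' ∧
      rOff (2 * od d) (Nn (a, b)) = rOff (2 * od d) (Nn (a', b')) := by
  obtain ⟨s1, s2, s3⟩ := od_odd h.2.2.2
  obtain ⟨s1', s2', s3'⟩ := od_odd h'.2.2.2
  rw [lev_eq h, lev_eq h'] at hl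
  have e : od d = od d' := Nat.dvd_antisymm
    (dvd_of_sq_mul (squarefree_rOff _ _) s1 s1'.ne_zero hl)
    (dvd_of_sq_mul (squarefree_rOff _ _) s1' s1.ne_zero hl.symm)
  refine ⟨e, ?_⟩
  rw [← e] at hl
  exact Nat.eq_of_mul_eq_mul_right (by have := s1.ne_zero; positivity) hl

theorem lev_congr {a b d a' b' d' : ℕ} (h : Par a b d) (h' : Par a' b' d') (e : od d = od d')
    (hn : Nn (a, b) = Nn (a', b')) : lev (a, b, d) = lev (a', b', d') := by
  rw [lev_eq h, lev_eq h', e, hn]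

/-- The orbit. -/
def orb4 (t : ℕ × ℕ × ℕ) : Finset (ℕ × ℕ × ℕ) :=
  {(t.1, t.2.1, od t.2.2), (t.2.1, t.1, od t.2.2), (t.1, t.2.1, 2 * od t.2.2),
    (t.2.1, t.1, 2 * od t.2.2)}

theorem card_orb4 {t : ℕ × ℕ × ℕ} (h : t.1 ≠ t.2.1) (h0 : od t.2.2 ≠ 0) : (orb4 t).card = 4 := by
  obtain ⟨a, b, d⟩ := t
  simp only at h h0
  unfold orb4
  simp only
  rw [card_insert_of_notMem, card_insert_of_notMem, card_insert_of_notMem, card_singleton]
  · simp only [mem_singleton, Prod.mk.injEq]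
    tauto
  · simp only [mem_insert, mem_singleton, Prod.mk.injEq]
    rintro (⟨h1, -, -⟩ | ⟨-, -, h1⟩)
    · exact h h1.symm
    · omega
  · simp only [mem_insert, mem_singleton, Prod.mk.injEq]
    rintro (⟨h1, -, -⟩ | ⟨-, -, h1⟩ | ⟨-, -, h1⟩)
    · exact h h1
    · omega
    · omega

/-- Twisted triples which share their level with an essentially different one. -/
def ShT (t : ℕ × ℕ × ℕ) : Prop := ∃ s : ℕ × ℕ × ℕ, Par s.1 s.2.1 s.2.2 ∧ lev s = lev t ∧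
  (s.1, s.2.1) ≠ (t.1, t.2.1) ∧ (s.1, s.2.1) ≠ (t.2.1, t.1)

theorem mem_orb4 {t s : ℕ × ℕ × ℕ} (ht : Par t.1 t.2.1 t.2.2) (hn : ¬ ShT t) :
    (Par s.1 s.2.1 s.2.2 ∧ lev s = lev t) ↔ s ∈ orb4 t := by
  obtain ⟨a, b, d⟩ := t
  obtain ⟨a', b', d'⟩ := s
  simp only at ht
  obtain ⟨s1, s2, s3⟩ := od_odd ht.2.2.2
  have hNs : Nn (b, a) = Nn (a, b) := by
    unfold Nn
    simp only
    ring
  unfold orb4
  simp only [mem_insert, mem_singleton, Prod.mk.injEq]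
  constructor
  · rintro ⟨h1, h2⟩
    obtain ⟨e1, -⟩ := od_eq_of_lev h1 ht h2
    obtain ⟨t1, t2, t3⟩ := od_odd h1.2.2.2
    rw [e1] at t3
    have h3 : (a', b') = (a, b) ∨ (a', b') = (b, a) := by
      by_contra hcon
      push Not at hcon
      exact hn ⟨(a', b', d'), h1, h2, hcon.1, hcon.2⟩
    rw [Prod.mk.injEq, Prod.mk.injEq] at h3
    tauto
  · have p1 : Par a b (od d) := ⟨ht.1, ht.2.1, ht.2.2.1, s1⟩
    have p2 : Par b a (od d) := ⟨ht.2.1, ht.1, ht.2.2.1.symm, s1⟩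
    have q := squarefree_two_mul s1 s2
    have p3 : Par a b (2 * od d) := ⟨ht.1, ht.2.1, ht.2.2.1, q⟩
    have p4 : Par b a (2 * od d) := ⟨ht.2.1, ht.1, ht.2.2.1.symm, q⟩
    rintro (⟨rfl, rfl, rfl⟩ | ⟨rfl, rfl, rfl⟩ | ⟨rfl, rfl, rfl⟩ | ⟨rfl, rfl, rfl⟩)
    · exact ⟨p1, lev_congr p1 ht (od_self s2) rfl⟩
    · exact ⟨p2, lev_congr p2 ht (od_self s2) hNs⟩
    · exact ⟨p3, lev_congr p3 ht (od_two _) rfl⟩
    · exact ⟨p4, lev_congr p4 ht (od_two _) hNs⟩

theorem shT_orb4 {t s : ℕ × ℕ × ℕ} (hs : s ∈ orb4 t) (hl : lev s = lev t) (h : ShT s) : ShT t := by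
  obtain ⟨u, h1, h2, h3, h4⟩ := h
  refine ⟨u, h1, h2.trans hl, ?_⟩
  obtain ⟨a, b, d⟩ := t
  obtain ⟨a', b', d'⟩ := s
  unfold orb4 at hs
  simp only [mem_insert, mem_singleton, Prod.mk.injEq] at hs h3 h4
  rcases hs with ⟨rfl, rfl, -⟩ | ⟨rfl, rfl, -⟩ | ⟨rfl, rfl, -⟩ | ⟨rfl, rfl, -⟩
  · exact ⟨h3, h4⟩
  · exact ⟨h4, h3⟩
  · exact ⟨h3, h4⟩
  · exact ⟨h4, h3⟩

/-- Counting the levels. -/
theorem levels (F Sh : Finset (ℕ × ℕ × ℕ)) (X : ℕ) (hF : ∀ t, t ∈ F ↔ InTw X t)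
    (hSh : ∀ t, t ∈ Sh ↔ t ∈ F ∧ (ShT t ∨ t.1 = t.2.1)) :
    4 * ((F \ Sh).image lev).card + Sh.card = F.card ∧
    ((F \ Sh).image lev) ⊆ (F.image lev).filter (fun n => (F.filter (fun t => lev t = n)).card = 4) ∧
    F.image lev ⊆ (F \ Sh).image lev ∪ Sh.image lev := by
  have hfib : ∀ t ∈ F \ Sh, F.filter (fun s => lev s = lev t) = orb4 t ∧ (orb4 t).card = 4 := by
    intro t ht
    rw [Finset.mem_sdiff, hSh] at ht
    obtain ⟨h1, h2⟩ := ht
    have h3 : ¬ ShT t := fun h => h2 ⟨h1, Or.inl h⟩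
    have h4 : t.1 ≠ t.2.1 := fun h => h2 ⟨h1, Or.inr h⟩
    have hpar := ((hF t).1 h1).1
    have hX := ((hF t).1 h1).2
    refine ⟨?_, card_orb4 h4 (od_odd hpar.2.2.2).1.ne_zero⟩
    ext s
    rw [mem_filter, hF, inTw_iff_lev, ← mem_orb4 hpar h3]
    constructor
    · rintro ⟨⟨g1, -⟩, g2⟩
      exact ⟨g1, g2⟩
    · rintro ⟨g1, g2⟩
      refine ⟨⟨g1, ?_⟩, g2⟩
      rw [g2]
      exact hX
  refine ⟨?_, ?_, ?_⟩
  · have h1 : (F \ Sh).card = ∑ n ∈ (F \ Sh).image lev, ((F \ Sh).filter (fun t => lev t = n)).card := by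
      apply Finset.card_eq_sum_card_fiberwise
      intro p hp
      exact Finset.mem_coe.2 (mem_image_of_mem _ hp)
    have h2 : ∀ n ∈ (F \ Sh).image lev, ((F \ Sh).filter (fun t => lev t = n)).card = 4 := by
      intro n hn
      obtain ⟨t, ht, rfl⟩ := mem_image.1 hn
      obtain ⟨g1, g2⟩ := hfib t ht
      rw [← g2, ← g1]
      congr 1
      ext s
      rw [mem_filter, mem_filter]
      constructor
      · rintro ⟨k1, k2⟩
        exact ⟨(Finset.mem_sdiff.1 k1).1, k2⟩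
      · rintro ⟨k1, k2⟩
        refine ⟨?_, k2⟩
        have k3 : s ∈ orb4 t := by
          rw [← g1, mem_filter]
          exact ⟨k1, k2⟩
        rw [Finset.mem_sdiff, hSh] at ht ⊢
        refine ⟨k1, ?_⟩
        rintro ⟨-, h | h⟩
        · exact ht.2 ⟨ht.1, Or.inl (shT_orb4 k3 k2 h)⟩
        · apply ht.2
          refine ⟨ht.1, Or.inr ?_⟩
          obtain ⟨a, b, d⟩ := t
          obtain ⟨a', b', d'⟩ := s
          unfold orb4 at k3
          simp only [mem_insert, mem_singleton, Prod.mk.injEq] at k3 h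
          simp only
          omega
    rw [sum_congr rfl h2, sum_const, smul_eq_mul] at h1
    have h3 : Sh ⊆ F := fun t ht => ((hSh t).1 ht).1
    have h4 := card_sdiff_add_card_eq_card h3
    omega
  · intro n hn
    obtain ⟨t, ht, rfl⟩ := mem_image.1 hn
    obtain ⟨g1, g2⟩ := hfib t ht
    rw [mem_filter, g1]
    exact ⟨mem_image_of_mem _ (Finset.mem_sdiff.1 ht).1, g2⟩
  · intro n hn
    obtain ⟨t, ht, rfl⟩ := mem_image.1 hn
    rw [mem_union]
    by_cases h : t ∈ Sh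
    · exact Or.inr (mem_image_of_mem _ h)
    · exact Or.inl (mem_image_of_mem _ (Finset.mem_sdiff.2 ⟨ht, h⟩))

/-- Few twisted triples share their level with an essentially different one. -/
theorem shT_few : ∃ κ : ℝ, 0 < κ ∧ κ ≤ 1 / 3 ∧ ∀ᶠ X : ℕ in atTop, ∀ T : Finset (ℕ × ℕ × ℕ),
    (∀ t ∈ T, InTw X t ∧ (ShT t ∨ t.1 = t.2.1)) → (T.card : ℝ) ≤ (X : ℝ) ^ (2 / 3 - κ) := by
  classical
  obtain ⟨κ, hκ, hκ3, hnear⟩ := near_few
  obtain ⟨K, hK, htail⟩ := tail_twist (κ / 200) (by positivity) (by linarith)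
  refine ⟨κ / 400, by positivity, by linarith, ?_⟩
  have hev : ∀ (s c : ℝ), 0 < s → ∀ᶠ Y : ℕ in atTop, c ≤ (Y : ℝ) ^ s := by
    intro s c hs
    have h1 : Tendsto (fun Y : ℕ => (Y : ℝ) ^ s) atTop atTop :=
      (tendsto_rpow_atTop hs).comp tendsto_natCast_atTop_atTop
    exact h1.eventually (eventually_ge_atTop c)
  have hmul : Tendsto (fun X : ℕ => 2 * X) atTop atTop :=
    tendsto_id.const_mul_atTop' (by norm_num)
  filter_upwards [hmul.eventually hnear, hev (κ / 8) 2 (by positivity),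
    hev (κ / 400) (K + 6) (by positivity), eventually_ge_atTop 1] with X hX h2 hl hX1 T hT
  have hx1 : (1 : ℝ) ≤ X := by exact_mod_cast hX1
  have hx : (0 : ℝ) < X := by linarith
  obtain ⟨V, hV⟩ : ∃ V : ℕ, V = ⌊(X : ℝ) ^ (κ / 8)⌋₊ := ⟨_, rfl⟩
  have hVle : (V : ℝ) ≤ (X : ℝ) ^ (κ / 8) := by rw [hV]; exact Nat.floor_le (by positivity)
  have hVge : (X : ℝ) ^ (κ / 8) ≤ ((V + 1 : ℕ) : ℝ) := by
    rw [hV]
    push_cast
    exact (Nat.lt_floor_add_one _).le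
  obtain ⟨R, hR⟩ : ∃ R : ℝ, R = (X : ℝ) ^ (2 / 3 - κ / 200) := ⟨_, rfl⟩
  have hR0 : 0 ≤ R := by rw [hR]; positivity
  -- the three parts
  obtain ⟨T1, hT1⟩ : ∃ T1, T1 = T.filter (fun t => ShT t ∧ od t.2.2 ≤ V) := ⟨_, rfl⟩
  obtain ⟨T2, hT2⟩ : ∃ T2, T2 = T.filter (fun t => V + 1 ≤ od t.2.2) := ⟨_, rfl⟩
  obtain ⟨T3, hT3⟩ : ∃ T3, T3 = T.filter (fun t => t.1 = t.2.1) := ⟨_, rfl⟩
  have hcov : T ⊆ T1 ∪ (T2 ∪ T3) := by
    intro t ht
    rw [mem_union, mem_union, hT1, hT2, hT3, mem_filter, mem_filter, mem_filter]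
    rcases (hT t ht).2 with h | h
    · rcases Nat.lt_or_ge V (od t.2.2) with h' | h'
      · exact Or.inr (Or.inl ⟨ht, h'⟩)
      · exact Or.inl ⟨ht, h, h'⟩
    · exact Or.inr (Or.inr ⟨ht, h⟩)
  have b2 : (T2.card : ℝ) ≤ K * R := by
    refine (htail X (V + 1) hX1 (by omega) T2 (fun t ht => ?_)).trans ?_
    · rw [hT2, mem_filter] at ht
      exact ⟨(hT t ht.1).1, ht.2⟩
    · have h3 : ((V + 1 : ℕ) : ℝ) ^ (-(1 / 12) : ℝ) ≤ (X : ℝ) ^ (-(κ / 96)) := by
        calc ((V + 1 : ℕ) : ℝ) ^ (-(1 / 12) : ℝ) ≤ ((X : ℝ) ^ (κ / 8)) ^ (-(1 / 12) : ℝ) :=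
              Real.rpow_le_rpow_of_nonpos (by positivity) hVge (by norm_num)
          _ = (X : ℝ) ^ (-(κ / 96)) := by
              rw [← Real.rpow_mul hx.le]
              congr 1
              ring
      calc K * (X : ℝ) ^ (2 / 3 + κ / 200) * ((V + 1 : ℕ) : ℝ) ^ (-(1 / 12) : ℝ) ≤
            K * (X : ℝ) ^ (2 / 3 + κ / 200) * (X : ℝ) ^ (-(κ / 96)) :=
            mul_le_mul_of_nonneg_left h3 (by positivity)
        _ = K * (X : ℝ) ^ (2 / 3 + κ / 200 + -(κ / 96)) := by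
            rw [Real.rpow_add hx (2 / 3 + κ / 200)]
            ring
        _ ≤ K * R := by
            rw [hR]
            apply mul_le_mul_of_nonneg_left _ (by linarith)
            exact Real.rpow_le_rpow_of_exponent_le hx1 (by linarith)
  have b3 : (T3.card : ℝ) ≤ 2 * R := by
    have hsub : T3 ⊆ (Icc 1 (2 * Nat.sqrt X)).image (fun d => ((1, 1, d) : ℕ × ℕ × ℕ)) := by
      rintro ⟨a, b, d⟩ ht
      rw [hT3, mem_filter] at ht
      obtain ⟨ht1, ht2⟩ := ht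
      simp only at ht2
      subst ht2
      obtain ⟨hpar, hlev⟩ := (hT _ ht1).1
      have ha : a = 1 := by
        have := hpar.2.2.1
        simp only at this
        rwa [Nat.coprime_self] at this
      subst ha
      rw [mem_image]
      refine ⟨d, ?_, rfl⟩
      obtain ⟨s1, s2, s3⟩ := od_odd hpar.2.2.2
      simp only at s1 s2 s3
      have hlev' : lev (1, 1, d) ≤ X := hlev
      rw [lev_eq hpar] at hlev'
      have h3 := rOff_pos (2 * od d) (Nn (1, 1))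
      have h4 : od d ≤ Nat.sqrt X := by
        rw [Nat.le_sqrt']
        calc (od d) ^ 2 = 1 * (od d) ^ 2 := (one_mul _).symm
          _ ≤ rOff (2 * od d) (Nn (1, 1)) * (od d) ^ 2 := Nat.mul_le_mul_right _ h3
          _ ≤ X := hlev'
      have h5 : od d ≠ 0 := s1.ne_zero
      rw [mem_Icc]
      omega
    have h3 : (T3.card : ℝ) ≤ 2 * (Nat.sqrt X : ℝ) := by
      have := (card_le_card hsub).trans card_image_le
      rw [Nat.card_Icc, Nat.add_sub_cancel] at this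
      exact_mod_cast this
    have h4 : (Nat.sqrt X : ℝ) ≤ (X : ℝ) ^ (1 / 2 : ℝ) := by
      rw [← Real.sqrt_eq_rpow]
      exact Real.nat_sqrt_le_real_sqrt
    have h5 : (X : ℝ) ^ (1 / 2 : ℝ) ≤ R := by
      rw [hR]
      exact Real.rpow_le_rpow_of_exponent_le hx1 (by linarith)
    linarith
  have b1 : (T1.card : ℝ) ≤ 4 * R := by
    have hex : ∀ t : ℕ × ℕ × ℕ, ∃ s : ℕ × ℕ × ℕ, t ∈ T1 → Par s.1 s.2.1 s.2.2 ∧ lev s = lev t ∧
        (s.1, s.2.1) ≠ (t.1, t.2.1) ∧ (s.1, s.2.1) ≠ (t.2.1, t.1) := by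
      intro t
      by_cases ht : t ∈ T1
      · rw [hT1, mem_filter] at ht
        obtain ⟨s, hs⟩ := ht.2.1
        exact ⟨s, fun _ => hs⟩
      · exact ⟨t, fun h => absurd h ht⟩
    choose φ hφ using hex
    obtain ⟨S, hS⟩ : ∃ S : Finset ((ℕ × ℕ) × (ℕ × ℕ)),
        S = T1.image (fun t => ((t.1, t.2.1), ((φ t).1, (φ t).2.1))) := ⟨_, rfl⟩
    have hSc : (S.card : ℝ) ≤ ((2 * X : ℕ) : ℝ) ^ (2 / 3 - κ) := by
      apply hX
      intro p hp
      rw [hS] at hp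
      obtain ⟨t, ht, rfl⟩ := mem_image.1 hp
      obtain ⟨g1, g2, g3, g4⟩ := hφ t ht
      rw [hT1, mem_filter] at ht
      obtain ⟨hpar, hlev⟩ := (hT t ht.1).1
      have hV1 := ht.2.2
      obtain ⟨a, b, d⟩ := t
      generalize φ (a, b, d) = s at g1 g2 g3 g4 ⊢
      obtain ⟨a', b', d'⟩ := s
      simp only at hpar hV1 g1 g2 g3 g4 ⊢
      have hlev1 : lev (a, b, d) ≤ X := hlev
      have hlev2 : lev (a', b', d') ≤ X := by rw [g2]; exact hlev1
      obtain ⟨e1, e2⟩ := od_eq_of_lev hpar g1 g2.symm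
      have hod : 0 < od d := Nat.pos_of_ne_zero (od_odd hpar.2.2.2).1.ne_zero
      have r1 : rad (Nn (a, b)) ≤ 2 * od d * rOff (2 * od d) (Nn (a, b)) := rad_le (by omega)
      have r2 : rad (Nn (a', b')) ≤ 2 * od d * rOff (2 * od d) (Nn (a, b)) := by
        rw [e2]
        exact rad_le (by omega)
      have r3 : rOff (2 * od d) (Nn (a, b)) ≤ Nat.gcd (rad (Nn (a, b))) (rad (Nn (a', b'))) := by
        apply Nat.le_of_dvd (Nat.gcd_pos_of_pos_left _ (rad_pos _))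
        apply Nat.dvd_gcd (rOff_dvd_rad _ _)
        rw [e2]
        exact rOff_dvd_rad _ _
      have r4 : ((2 * od d : ℕ) : ℝ) ≤ ((2 * X : ℕ) : ℝ) ^ (κ / 4) := by
        push_cast
        calc 2 * (od d : ℝ) ≤ (X : ℝ) ^ (κ / 8) * (X : ℝ) ^ (κ / 8) := by
              apply mul_le_mul h2 _ (Nat.cast_nonneg _) (by positivity)
              exact le_trans (by exact_mod_cast hV1) hVle
          _ = (X : ℝ) ^ (κ / 4) := by
              rw [← Real.rpow_add hx]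
              congr 1
              ring
          _ ≤ (2 * (X : ℝ)) ^ (κ / 4) :=
              Real.rpow_le_rpow hx.le (by linarith) (by positivity)
      have r5 : ∀ m : ℕ, m ≤ 2 * od d * rOff (2 * od d) (Nn (a, b)) →
          (m : ℝ) ≤ ((2 * X : ℕ) : ℝ) ^ (κ / 4) *
            (Nat.gcd (rad (Nn (a, b))) (rad (Nn (a', b'))) : ℝ) := by
        intro m hm
        have h5 : (m : ℝ) ≤ ((2 * od d : ℕ) : ℝ) *
            (Nat.gcd (rad (Nn (a, b))) (rad (Nn (a', b'))) : ℝ) := by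
          exact_mod_cast hm.trans (Nat.mul_le_mul_left _ r3)
        exact h5.trans (mul_le_mul_of_nonneg_right r4 (Nat.cast_nonneg _))
      refine ⟨⟨hpar.1, hpar.2.1, hpar.2.2.1, ?_⟩, ⟨g1.1, g1.2.1, g1.2.2.1, ?_⟩,
        r5 _ r1, r5 _ r2, g3, g4⟩
      · exact (rad_le_lev hpar).trans (Nat.mul_le_mul_left _ hlev1)
      · exact (rad_le_lev g1).trans (Nat.mul_le_mul_left _ hlev2)
    have hinj : Function.Injective (fun t : ℕ × ℕ × ℕ =>
        ((((t.1, t.2.1), ((φ t).1, (φ t).2.1)), t.2.2) : ((ℕ × ℕ) × (ℕ × ℕ)) × ℕ)) := by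
      intro t t' h
      simp only [Prod.mk.injEq] at h
      exact Prod.ext h.1.1.1 (Prod.ext h.1.1.2 h.2)
    have hc : T1.card ≤ S.card * (2 * V) := by
      have h3 : T1.card ≤ (S ×ˢ Icc 1 (2 * V)).card := by
        refine Finset.card_le_card_of_injOn _ ?_ (hinj.injOn)
        intro t ht
        rw [Finset.mem_coe] at ht
        rw [Finset.mem_coe, mem_product]
        refine ⟨?_, ?_⟩
        · rw [hS]
          exact mem_image_of_mem _ ht
        · rw [hT1, mem_filter] at ht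
          obtain ⟨hpar, -⟩ := (hT t ht.1).1
          obtain ⟨s1, s2, s3⟩ := od_odd hpar.2.2.2
          have h5 : od t.2.2 ≠ 0 := s1.ne_zero
          have h6 := ht.2.2
          show t.2.2 ∈ Icc 1 (2 * V)
          rw [mem_Icc]
          omega
      rw [card_product, Nat.card_Icc, Nat.add_sub_cancel] at h3
      exact h3
    have hc' : (T1.card : ℝ) ≤ S.card * (2 * V) := by exact_mod_cast hc
    have h6 : ((2 * X : ℕ) : ℝ) ^ (2 / 3 - κ) ≤ 2 * (X : ℝ) ^ (2 / 3 - κ) := by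
      push_cast
      rw [Real.mul_rpow (by norm_num) hx.le]
      apply mul_le_mul_of_nonneg_right _ (by positivity)
      calc (2 : ℝ) ^ (2 / 3 - κ) ≤ (2 : ℝ) ^ (1 : ℝ) :=
            Real.rpow_le_rpow_of_exponent_le (by norm_num) (by linarith)
        _ = 2 := Real.rpow_one _
    calc (T1.card : ℝ) ≤ S.card * (2 * V) := hc'
      _ ≤ (2 * (X : ℝ) ^ (2 / 3 - κ)) * (2 * (X : ℝ) ^ (κ / 8)) := by
          apply mul_le_mul (hSc.trans h6) (by linarith) (by positivity) (by positivity)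
      _ = 4 * (X : ℝ) ^ (2 / 3 - κ + κ / 8) := by
          rw [Real.rpow_add hx]
          ring
      _ ≤ 4 * R := by
          rw [hR]
          apply mul_le_mul_of_nonneg_left _ (by norm_num)
          exact Real.rpow_le_rpow_of_exponent_le hx1 (by linarith)
  have hcard : (T.card : ℝ) ≤ T1.card + (T2.card + T3.card) := by
    have h3 := card_le_card hcov
    have h4 := card_union_le T1 (T2 ∪ T3)
    have h5 := card_union_le T2 T3
    exact_mod_cast h3.trans (h4.trans (Nat.add_le_add_left h5 _))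
  calc (T.card : ℝ) ≤ (K + 6) * R := by linarith
    _ ≤ (X : ℝ) ^ (κ / 400) * R := mul_le_mul_of_nonneg_right hl hR0
    _ = (X : ℝ) ^ (2 / 3 - κ / 400) := by
      rw [hR, ← Real.rpow_add hx]
      congr 1
      ring

theorem hQ_condEq (n : ℕ) (C : VariableChange ℚ) (E : WeierstrassCurve ℚ) (hE : E.Δ ≠ 0) :
    cond (C • E) = n ↔ cond E = n := by
  rw [cond_smul C hE]

theorem set_condEq (n : ℕ) : {t : ℕ × ℕ × ℕ | Par t.1 t.2.1 t.2.2 ∧ cond (Ec t.1 t.2.1 t.2.2) = n} =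
    {t : ℕ × ℕ × ℕ | Par t.1 t.2.1 t.2.2 ∧ lev t = n} := by
  ext ⟨a, b, d⟩
  constructor
  · rintro ⟨h1, h2⟩
    rw [cond_Ec h1] at h2
    exact ⟨h1, h2⟩
  · rintro ⟨h1, h2⟩
    refine ⟨h1, ?_⟩
    rw [cond_Ec h1]
    exact h2

/-- The number of classes with the odd conductor `n`. -/
theorem ncard_condEq (h : TailHyp) {n X : ℕ} (hn : n ≤ X) :
    (Classes fun E => cond E = n).ncard =
      ((inTw_finite h X).toFinset.filter (fun t => lev t = n)).card := by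
  rw [ncard_classes _ (hQ_condEq n), set_condEq, ← Set.ncard_coe_finset]
  congr 1
  ext t
  rw [Finset.mem_coe, mem_filter, Set.Finite.mem_toFinset]
  constructor
  · rintro ⟨a1, a2⟩
    exact ⟨⟨a1, by rw [← a2] at hn; exact hn⟩, a2⟩
  · rintro ⟨⟨a1, -⟩, a2⟩
    exact ⟨a1, a2⟩

/-- Almost every odd conductor has exactly four classes. -/
theorem twist_conductors : ∃ κ : ℝ, 0 < κ ∧ ∀ᶠ X : ℕ in atTop,
    |({n : ℕ | n ≤ X ∧ (Classes fun E => cond E = n).ncard = 4}.ncard : ℝ) -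
        CE / 4 * (X : ℝ) ^ (2 / 3 : ℝ)| ≤ (X : ℝ) ^ (2 / 3 - κ) ∧
    |({n : ℕ | n ≤ X ∧ (Classes fun E => cond E = n).Nonempty}.ncard : ℝ) -
        CE / 4 * (X : ℝ) ^ (2 / 3 : ℝ)| ≤ (X : ℝ) ^ (2 / 3 - κ) := by
  classical
  have h : TailHyp := tailHyp_of almostAll
  obtain ⟨κ1, hκ1, h1⟩ := twist_count h
  obtain ⟨κ2, hκ2, hκ2', h2⟩ := shT_few
  obtain ⟨κ, hκ⟩ : ∃ κ : ℝ, κ = min κ1 κ2 := ⟨_, rfl⟩
  have hκ0 : 0 < κ := by rw [hκ]; exact lt_min hκ1 hκ2
  have l1 : κ ≤ κ1 := by rw [hκ]; exact min_le_left _ _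
  have l2 : κ ≤ κ2 := by rw [hκ]; exact min_le_right _ _
  refine ⟨κ / 2, by positivity, ?_⟩
  have hlarge : ∀ᶠ Y : ℕ in atTop, (2 : ℝ) ≤ (Y : ℝ) ^ (κ / 2) := by
    have h1 : Tendsto (fun Y : ℕ => (Y : ℝ) ^ (κ / 2)) atTop atTop :=
      (tendsto_rpow_atTop (by positivity)).comp tendsto_natCast_atTop_atTop
    exact h1.eventually (eventually_ge_atTop _)
  filter_upwards [h1, h2, hlarge, eventually_ge_atTop 1] with X hX1 hX2 hl hX0
  have hx1 : (1 : ℝ) ≤ X := by exact_mod_cast hX0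
  have hx : (0 : ℝ) < X := by linarith
  obtain ⟨F, hF⟩ : ∃ F : Finset (ℕ × ℕ × ℕ), F = (inTw_finite h X).toFinset := ⟨_, rfl⟩
  have hFm : ∀ t, t ∈ F ↔ InTw X t := by
    intro t
    rw [hF, Set.Finite.mem_toFinset]
    exact Iff.rfl
  obtain ⟨Sh, hSh⟩ : ∃ Sh : Finset (ℕ × ℕ × ℕ), Sh = F.filter (fun t => ShT t ∨ t.1 = t.2.1) :=
    ⟨_, rfl⟩
  have hShm : ∀ t, t ∈ Sh ↔ t ∈ F ∧ (ShT t ∨ t.1 = t.2.1) := by
    intro t
    rw [hSh, mem_filter]
  have hShc : (Sh.card : ℝ) ≤ (X : ℝ) ^ (2 / 3 - κ2) := by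
    apply hX2
    intro t ht
    exact ⟨(hFm t).1 ((hShm t).1 ht).1, ((hShm t).1 ht).2⟩
  obtain ⟨v1, v2, v3⟩ := levels F Sh X hFm hShm
  obtain ⟨A, hA⟩ : ∃ A : Finset ℕ, A = (F \ Sh).image lev := ⟨_, rfl⟩
  obtain ⟨B, hB⟩ : ∃ B : Finset ℕ, B = (F.image lev).filter
    (fun n => (F.filter (fun t => lev t = n)).card = 4) := ⟨_, rfl⟩
  rw [← hA] at v1 v2 v3
  rw [← hB] at v2
  have c1 : A.card ≤ B.card := card_le_card v2
  have c2 : B.card ≤ (F.image lev).card := by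
    rw [hB]
    exact card_filter_le _ _
  have c3 : (F.image lev).card ≤ A.card + Sh.card :=
    (card_le_card v3).trans ((card_union_le _ _).trans (Nat.add_le_add_left card_image_le _))
  have hset1 : {n : ℕ | n ≤ X ∧ (Classes fun E => cond E = n).ncard = 4} = (B : Set ℕ) := by
    ext n
    rw [Finset.mem_coe, hB, mem_filter, mem_image]
    constructor
    · rintro ⟨hn, h3⟩
      rw [ncard_condEq h hn, ← hF] at h3
      refine ⟨?_, h3⟩
      have h4 : 0 < (F.filter (fun t => lev t = n)).card := by omega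
      obtain ⟨t, ht⟩ := card_pos.1 h4
      rw [mem_filter] at ht
      exact ⟨t, ht.1, ht.2⟩
    · rintro ⟨⟨t, ht, rfl⟩, h4⟩
      have hn : lev t ≤ X := ((hFm t).1 ht).2
      refine ⟨hn, ?_⟩
      rw [ncard_condEq h hn, ← hF]
      exact h4
  have hset2 : {n : ℕ | n ≤ X ∧ (Classes fun E => cond E = n).Nonempty} =
      ((F.image lev : Finset ℕ) : Set ℕ) := by
    ext n
    rw [Finset.mem_coe, mem_image]
    have hfin : (Classes fun E => cond E = n).Finite := by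
      rw [finite_classes_iff _ (hQ_condEq n), set_condEq]
      refine (inTw_finite h n).subset ?_
      rintro t ⟨a1, a2⟩
      exact ⟨a1, a2.le⟩
    constructor
    · rintro ⟨hn, h3⟩
      have h4 : 0 < (Classes fun E => cond E = n).ncard := (Set.ncard_pos hfin).2 h3
      rw [ncard_condEq h hn, ← hF, card_pos] at h4
      obtain ⟨t, ht⟩ := h4
      rw [mem_filter] at ht
      exact ⟨t, ht.1, ht.2⟩
    · rintro ⟨t, ht, rfl⟩
      have hn : lev t ≤ X := ((hFm t).1 ht).2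
      refine ⟨hn, ?_⟩
      rw [← Set.ncard_pos hfin, ncard_condEq h hn, ← hF, card_pos]
      exact ⟨t, mem_filter.2 ⟨ht, rfl⟩⟩
  rw [hset1, hset2, Set.ncard_coe_finset, Set.ncard_coe_finset]
  have v1' : 4 * (A.card : ℝ) + Sh.card = F.card := by exact_mod_cast v1
  have c1' : (A.card : ℝ) ≤ B.card := by exact_mod_cast c1
  have c2' : (B.card : ℝ) ≤ (F.image lev).card := by exact_mod_cast c2
  have c3' : ((F.image lev).card : ℝ) ≤ A.card + Sh.card := by exact_mod_cast c3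
  have hX1' := abs_le.1 (hX1 F hFm)
  have m1 : (X : ℝ) ^ (2 / 3 - κ1) ≤ (X : ℝ) ^ (2 / 3 - κ) :=
    Real.rpow_le_rpow_of_exponent_le hx1 (by linarith)
  have m2 : (X : ℝ) ^ (2 / 3 - κ2) ≤ (X : ℝ) ^ (2 / 3 - κ) :=
    Real.rpow_le_rpow_of_exponent_le hx1 (by linarith)
  have m4 : 2 * (X : ℝ) ^ (2 / 3 - κ) ≤ (X : ℝ) ^ (2 / 3 - κ / 2) := by
    have e : (X : ℝ) ^ (2 / 3 - κ / 2) = (X : ℝ) ^ (κ / 2) * (X : ℝ) ^ (2 / 3 - κ) := by
      rw [← Real.rpow_add hx]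
      congr 1
      ring
    rw [e]
    exact mul_le_mul_of_nonneg_right hl (by positivity)
  have m5 : (0 : ℝ) ≤ (X : ℝ) ^ (2 / 3 - κ) := by positivity
  have m6 : (0 : ℝ) ≤ Sh.card := Nat.cast_nonneg _
  constructor
  · rw [abs_le]
    constructor <;> linarith [hX1'.1, hX1'.2]
  · rw [abs_le]
    constructor <;> linarith [hX1'.1, hX1'.2]

end Pool.Agent.Lib.AbcT
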