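import Mathlib
import Pool.Agent.Lib.AbcT.Last

/-!
# Few exceptions to Szpiro's inequality with a large exponent
-/

open Finset Filter WeierstrassCurve

namespace Pool.Agent.Lib.AbcT

open Pool.Agent.Lib.AbcG
open Pool.Agent.Lib.AbcS (rF InBoxF)
open Pool.Agent.Lib.AbcB (DD)

/-- The relative square root bound for the violators. -/
theorem rel_viol (ε : ℝ) (hε : 0 < ε) : ∃ K M : ℝ, 1 ≤ K ∧ 1 ≤ M ∧ ∀ (P Z : ℕ), 1 ≤ P → 1 ≤ Z →
    ∀ T : Finset (ℕ × ℕ),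
      (∀ t ∈ T, 0 < t.1 ∧ 0 < t.2 ∧ t.1.Coprime t.2 ∧ rOff P (Nn t) ≤ Z ∧
        M * Real.log (rad (Nn t)) ≤ Real.log ((t.1 : ℝ) + t.2)) →
      (T.card : ℝ) ≤ K * (Z : ℝ) ^ (1 / 3 + ε) * (P : ℝ) ^ ε := by
  classical
  obtain ⟨K, M, hK, hM, hbox⟩ := Pool.Agent.Lib.AbcS.box_violF (ε / 2) (by positivity)
  obtain ⟨c, hc⟩ : ∃ c : ℝ, c = (2 / (ε / 6) + 1) ^ 3 := ⟨_, rfl⟩
  have hc1 : 1 ≤ c := by
    rw [hc]
    apply one_le_pow₀
    have : 0 < 2 / (ε / 6) := by positivity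
    linarith
  obtain ⟨c8, hc8⟩ : ∃ c8 : ℝ, c8 = (8 : ℝ) ^ (1 / 3 + ε / 2 : ℝ) := ⟨_, rfl⟩
  have hc81 : 1 ≤ c8 := by
    rw [hc8]
    exact Real.one_le_rpow (by norm_num) (by positivity)
  have hcK : 1 ≤ c * K := by nlinarith
  have hcKc : 1 ≤ c * K * c8 := by nlinarith
  refine ⟨c * K * c8, M, hcKc, hM, ?_⟩
  intro P Z hP hZ T hT
  have hP' : (1 : ℝ) ≤ P := by exact_mod_cast hP
  have hZ' : (1 : ℝ) ≤ Z := by exact_mod_cast hZ
  obtain ⟨F, hF⟩ : ∃ F : Finset ℕ, F = P.primeFactors := ⟨_, rfl⟩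
  obtain ⟨L, hL⟩ : ∃ L : ℕ, L = Nat.log 2 Z := ⟨_, rfl⟩
  obtain ⟨B, hB⟩ : ∃ B : ℝ, B = K * (8 * (Z : ℝ)) ^ (1 / 3 : ℝ) * ((P : ℝ) * (8 * Z)) ^ (ε / 2) :=
    ⟨_, rfl⟩
  have hB0 : 0 ≤ B := by
    rw [hB]
    have : 0 ≤ K := by linarith
    positivity
  let g : ℕ × ℕ → ℕ × ℕ × ℕ := fun t =>
    (Nat.log 2 (rF F t.1), Nat.log 2 (rF F t.2), Nat.log 2 (rF F (t.1 + t.2)))
  have hmaps : ∀ t ∈ T, g t ∈ (range (L + 1)) ×ˢ (range (L + 1)) ×ˢ (range (L + 1)) := by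
    intro t ht
    obtain ⟨h1, h2, h3, h4, -⟩ := hT t ht
    rw [rOff_Nn P h3, ← hF] at h4
    have p1 := Pool.Agent.Lib.AbcS.rF_pos F t.1
    have p2 := Pool.Agent.Lib.AbcS.rF_pos F t.2
    have p3 := Pool.Agent.Lib.AbcS.rF_pos F (t.1 + t.2)
    have q1 : rF F t.1 ≤ Z := by
      refine le_trans ?_ h4
      calc rF F t.1 = rF F t.1 * 1 * 1 := by ring
        _ ≤ rF F t.1 * rF F t.2 * rF F (t.1 + t.2) :=
          Nat.mul_le_mul (Nat.mul_le_mul_left _ p2) p3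
    have q2 : rF F t.2 ≤ Z := by
      refine le_trans ?_ h4
      calc rF F t.2 = 1 * rF F t.2 * 1 := by ring
        _ ≤ rF F t.1 * rF F t.2 * rF F (t.1 + t.2) :=
          Nat.mul_le_mul (Nat.mul_le_mul_right _ p1) p3
    have q3 : rF F (t.1 + t.2) ≤ Z := by
      refine le_trans ?_ h4
      calc rF F (t.1 + t.2) = 1 * 1 * rF F (t.1 + t.2) := by ring
        _ ≤ rF F t.1 * rF F t.2 * rF F (t.1 + t.2) :=
          Nat.mul_le_mul_right _ (Nat.mul_le_mul p1 p2)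
    simp only [g, mem_product, mem_range, hL]
    exact ⟨Nat.lt_succ_of_le (Nat.log_mono_right q1), Nat.lt_succ_of_le (Nat.log_mono_right q2),
      Nat.lt_succ_of_le (Nat.log_mono_right q3)⟩
  have hfib : ∀ u ∈ (range (L + 1)) ×ˢ (range (L + 1)) ×ˢ (range (L + 1)),
      ((T.filter (fun t => g t = u)).card : ℝ) ≤ B := by
    rintro ⟨i, j, k⟩ _
    rcases (T.filter (fun t => g t = (i, j, k))).eq_empty_or_nonempty with he | ⟨s, hs⟩
    · rw [he, card_empty, Nat.cast_zero]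
      exact hB0
    · have hprod : 2 ^ (i + 1) * 2 ^ (j + 1) * 2 ^ (k + 1) ≤ 8 * Z := by
        rw [mem_filter] at hs
        obtain ⟨h1, h2, h3, h4, -⟩ := hT s hs.1
        rw [rOff_Nn P h3, ← hF] at h4
        have hg := hs.2
        simp only [g, Prod.mk.injEq] at hg
        obtain ⟨e1, e2, e3⟩ := hg
        have p1 := Nat.pow_log_le_self 2 (Pool.Agent.Lib.AbcS.rF_pos F s.1).ne'
        have p2 := Nat.pow_log_le_self 2 (Pool.Agent.Lib.AbcS.rF_pos F s.2).ne'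
        have p3 := Nat.pow_log_le_self 2 (Pool.Agent.Lib.AbcS.rF_pos F (s.1 + s.2)).ne'
        rw [e1] at p1
        rw [e2] at p2
        rw [e3] at p3
        calc 2 ^ (i + 1) * 2 ^ (j + 1) * 2 ^ (k + 1) = 8 * (2 ^ i * 2 ^ j * 2 ^ k) := by ring
          _ ≤ 8 * Z := Nat.mul_le_mul_left _
              ((Nat.mul_le_mul (Nat.mul_le_mul p1 p2) p3).trans h4)
      have hb := hbox P (2 ^ (i + 1)) (2 ^ (j + 1)) (2 ^ (k + 1))
        (T.filter (fun t => g t = (i, j, k))) hP (Nat.one_le_two_pow) (Nat.one_le_two_pow)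
        (Nat.one_le_two_pow) (by
          intro t ht
          rw [mem_filter] at ht
          obtain ⟨h1, h2, h3, h4, h5⟩ := hT t ht.1
          have hg := ht.2
          simp only [g, Prod.mk.injEq] at hg
          obtain ⟨e1, e2, e3⟩ := hg
          rw [← hF]
          refine ⟨⟨h1, h2, h3, ?_, ?_, ?_⟩, h5⟩
          · rw [← e1]
            exact (Nat.lt_pow_succ_log_self (by norm_num) _).le
          · rw [← e2]
            exact (Nat.lt_pow_succ_log_self (by norm_num) _).le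
          · rw [← e3]
            exact (Nat.lt_pow_succ_log_self (by norm_num) _).le)
      have hprod' : (((2 ^ (i + 1) : ℕ) : ℝ) * ((2 ^ (j + 1) : ℕ) : ℝ) *
          ((2 ^ (k + 1) : ℕ) : ℝ)) ≤ 8 * Z := by exact_mod_cast hprod
      refine hb.trans ?_
      rw [hB]
      have h5 := DD_le (2 ^ (i + 1)) (2 ^ (j + 1)) (2 ^ (k + 1)) (Nat.one_le_two_pow)
        (Nat.one_le_two_pow) (Nat.one_le_two_pow)
      have h6 : Real.sqrt (DD (2 ^ (i + 1)) (2 ^ (j + 1)) (2 ^ (k + 1))) ≤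
          (8 * (Z : ℝ)) ^ (1 / 3 : ℝ) := by
        have g1 := h5.trans (Real.rpow_le_rpow (by positivity) hprod'
          (show (0 : ℝ) ≤ 2 / 3 by norm_num))
        refine (Real.sqrt_le_sqrt g1).trans (le_of_eq ?_)
        rw [Real.sqrt_eq_rpow, ← Real.rpow_mul (by positivity)]
        norm_num
      have h7 : ((P : ℝ) * ((2 ^ (i + 1) : ℕ) : ℝ) * ((2 ^ (j + 1) : ℕ) : ℝ) *
          ((2 ^ (k + 1) : ℕ) : ℝ)) ^ (ε / 2) ≤ ((P : ℝ) * (8 * Z)) ^ (ε / 2) := by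
        apply Real.rpow_le_rpow (by positivity) _ (by positivity)
        calc (P : ℝ) * ((2 ^ (i + 1) : ℕ) : ℝ) * ((2 ^ (j + 1) : ℕ) : ℝ) *
              ((2 ^ (k + 1) : ℕ) : ℝ) = (P : ℝ) * (((2 ^ (i + 1) : ℕ) : ℝ) *
                ((2 ^ (j + 1) : ℕ) : ℝ) * ((2 ^ (k + 1) : ℕ) : ℝ)) := by ring
          _ ≤ (P : ℝ) * (8 * Z) := mul_le_mul_of_nonneg_left hprod' (by linarith)
      have hK0 : 0 ≤ K := by linarith
      exact mul_le_mul (mul_le_mul_of_nonneg_left h6 hK0) h7 (by positivity) (by positivity)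
  have hcard : (T.card : ℝ) ≤ ((L : ℝ) + 1) ^ 3 * B := by
    have h1 := Finset.card_eq_sum_card_fiberwise (f := g) (s := T)
      (t := (range (L + 1)) ×ˢ (range (L + 1)) ×ˢ (range (L + 1))) hmaps
    rw [h1]
    push_cast
    refine (Finset.sum_le_sum hfib).trans ?_
    rw [Finset.sum_const, nsmul_eq_mul, card_product, card_product, card_range]
    push_cast
    apply le_of_eq
    ring
  refine hcard.trans ?_
  have hL3 : ((L : ℝ) + 1) ^ 3 ≤ c * (Z : ℝ) ^ (ε / 2) := by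
    have h1 := log2_le (ε / 6) (by positivity) Z hZ
    rw [← hL] at h1
    have h0 : (0 : ℝ) ≤ (L : ℝ) + 1 := by positivity
    calc ((L : ℝ) + 1) ^ 3 ≤ ((2 / (ε / 6) + 1) * (Z : ℝ) ^ (ε / 6)) ^ 3 :=
          pow_le_pow_left₀ h0 h1 3
      _ = c * (Z : ℝ) ^ (ε / 2) := by
          rw [mul_pow, ← hc, ← Real.rpow_natCast ((Z : ℝ) ^ (ε / 6)), ← Real.rpow_mul (by linarith)]
          congr 2
          push_cast
          ring
  have hZ0 : (0 : ℝ) < Z := by linarith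
  have hP0 : (0 : ℝ) < P := by linarith
  have eB : B = K * c8 * ((Z : ℝ) ^ (1 / 3 + ε / 2) * (P : ℝ) ^ (ε / 2)) := by
    rw [hB, hc8, Real.mul_rpow (by norm_num) hZ0.le, Real.mul_rpow hP0.le (by positivity),
      Real.mul_rpow (by norm_num) hZ0.le, Real.rpow_add (by norm_num : (0 : ℝ) < 8),
      Real.rpow_add hZ0]
    ring
  calc ((L : ℝ) + 1) ^ 3 * B ≤ (c * (Z : ℝ) ^ (ε / 2)) * B := mul_le_mul_of_nonneg_right hL3 hB0
    _ = c * K * c8 * ((Z : ℝ) ^ (ε / 2) * (Z : ℝ) ^ (1 / 3 + ε / 2)) * (P : ℝ) ^ (ε / 2) := by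
        rw [eB]
        ring
    _ = c * K * c8 * (Z : ℝ) ^ (1 / 3 + ε) * (P : ℝ) ^ (ε / 2) := by
        rw [← Real.rpow_add hZ0]
        congr 3
        ring
    _ ≤ c * K * c8 * (Z : ℝ) ^ (1 / 3 + ε) * (P : ℝ) ^ ε := by
        apply mul_le_mul_of_nonneg_left _ (by positivity)
        exact Real.rpow_le_rpow_of_exponent_le hP' (by linarith)

/-! ### The arithmetic of the exceptions -/

theorem eq_one_of_rad {a b : ℕ} (ha : 0 < a) (hb : 0 < b) (hab : a.Coprime b)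
    (h : rad (Nn (a, b)) < 4) : a = 1 ∧ b = 1 := by
  have hn : Nn (a, b) ≠ 0 := Nat.one_le_iff_ne_zero.1 (Nn_pos (t := (a, b)) ha hb)
  have h2N : 2 ∣ Nn (a, b) := Red2Aux.two_dvd_N
  have h2r : 2 ∣ rad (Nn (a, b)) :=
    Finset.dvd_prod_of_mem (fun p => p) (Nat.mem_primeFactors.2 ⟨Nat.prime_two, h2N, hn⟩)
  have hall : ∀ p ∈ (Nn (a, b)).primeFactors, p = 2 := by
    intro p hp
    by_contra hp2
    have hpp := Nat.prime_of_mem_primeFactors hp
    have h3 : p ∣ rad (Nn (a, b)) := Finset.dvd_prod_of_mem (fun p => p) hp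
    have h4 : 2 * p ∣ rad (Nn (a, b)) :=
      Nat.Coprime.mul_dvd_of_dvd_of_dvd ((Nat.coprime_primes Nat.prime_two hpp).2 (Ne.symm hp2))
        h2r h3
    have h5 := Nat.le_of_dvd (rad_pos _) h4
    have h6 := hpp.two_le
    omega
  have hdiv : ∀ m, m ∣ Nn (a, b) → m ≠ 1 → 2 ∣ m := by
    intro m hm h1
    obtain ⟨p, hp, hpm⟩ := Nat.exists_prime_and_dvd h1
    have := hall p (Nat.mem_primeFactors.2 ⟨hp, hpm.trans hm, hn⟩)
    rwa [this] at hpm
  have da : a ∣ Nn (a, b) := ⟨b * (a + b), by unfold Nn; ring⟩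
  have db : b ∣ Nn (a, b) := ⟨a * (a + b), by unfold Nn; ring⟩
  have dc : a + b ∣ Nn (a, b) := ⟨a * b, by unfold Nn; ring⟩
  have hc := hdiv (a + b) dc (by omega)
  by_cases h1 : a = 1
  · by_cases h2 : b = 1
    · exact ⟨h1, h2⟩
    · have := hdiv b db h2
      omega
  · have h3 := hdiv a da h1
    have h4 : 2 ∣ b := (Nat.dvd_add_right h3).1 hc
    have h5 := Nat.dvd_gcd h3 h4
    rw [hab] at h5
    omega

theorem viol_arith {M₁ : ℝ} (hM₁ : 1 ≤ M₁) {a b d : ℕ} (h : Par a b d)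
    (hv : (lev (a, b, d) : ℝ) ^ (12 * M₁ + 10) ≤
      16 * (d : ℝ) ^ 6 * ((a : ℝ) * b * (a + b)) ^ 2) :
    (a = 1 ∧ b = 1 ∧ d ≤ 2) ∨ M₁ * Real.log (rad (Nn (a, b))) ≤ Real.log ((a : ℝ) + b) := by
  obtain ⟨s1, s2, s3⟩ := od_odd h.2.2.2
  obtain ⟨D, hD⟩ : ∃ D : ℕ, D = od d := ⟨_, rfl⟩
  obtain ⟨R, hR⟩ : ∃ R : ℕ, R = rOff (2 * od d) (Nn (a, b)) := ⟨_, rfl⟩
  have hD1 : 1 ≤ D := by rw [hD]; exact Nat.one_le_iff_ne_zero.2 s1.ne_zero
  have hR1 : 1 ≤ R := by rw [hR]; exact rOff_pos _ _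
  have hlev : lev (a, b, d) = R * D ^ 2 := by rw [lev_eq h, hR, hD]
  have hrad : rad (Nn (a, b)) ≤ 2 * D * R := by
    rw [hR, hD]
    exact rad_le (by rw [← hD]; omega)
  have hd2 : d ≤ 2 * D := by
    rw [hD]
    rcases s3 with h3 | h3 <;> omega
  have hd1 : 1 ≤ d := Nat.one_le_iff_ne_zero.2 h.2.2.2.ne_zero
  have hD' : (1 : ℝ) ≤ D := by exact_mod_cast hD1
  have hR' : (1 : ℝ) ≤ R := by exact_mod_cast hR1
  have hd' : (1 : ℝ) ≤ d := by exact_mod_cast hd1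
  have ha' : (1 : ℝ) ≤ a := by exact_mod_cast h.1
  have hb' : (1 : ℝ) ≤ b := by exact_mod_cast h.2.1
  have hr1 : (1 : ℝ) ≤ rad (Nn (a, b)) := by exact_mod_cast rad_pos _
  have hL : 0 < Real.log 2 := Real.log_pos (by norm_num)
  have hδ : 0 ≤ Real.log D := Real.log_nonneg hD'
  have hr : 0 ≤ Real.log R := Real.log_nonneg hR'
  have h1 : (12 * M₁ + 10) * (Real.log R + 2 * Real.log D) ≤
      4 * Real.log 2 + 6 * Real.log d + 2 * Real.log ((a : ℝ) * b * (a + b)) := by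
    have e1 := Real.log_le_log (by rw [hlev]; positivity) hv
    rw [Real.log_rpow (by rw [hlev]; positivity), hlev] at e1
    push_cast at e1
    rw [Real.log_mul (by positivity) (by positivity), Real.log_pow,
      Real.log_mul (by positivity) (by positivity), Real.log_mul (by positivity) (by positivity),
      Real.log_pow, Real.log_pow, show (16 : ℝ) = 2 ^ 4 by norm_num, Real.log_pow] at e1
    push_cast at e1
    linarith
  have h2 : Real.log d ≤ Real.log 2 + Real.log D := by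
    rw [← Real.log_mul (by norm_num) (by positivity)]
    exact Real.log_le_log (by positivity) (by exact_mod_cast hd2)
  have h3 : Real.log (rad (Nn (a, b))) ≤ Real.log 2 + Real.log D + Real.log R := by
    rw [← Real.log_mul (by norm_num) (by positivity), ← Real.log_mul (by positivity) (by positivity)]
    exact Real.log_le_log (by positivity) (by exact_mod_cast hrad)
  by_cases hsmall : rad (Nn (a, b)) < 4
  · left
    obtain ⟨e1, e2⟩ := eq_one_of_rad h.1 h.2.1 h.2.2.1 hsmall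
    refine ⟨e1, e2, ?_⟩
    subst e1 e2
    have h4 : Real.log (((1 : ℕ) : ℝ) * ((1 : ℕ) : ℝ) * (((1 : ℕ) : ℝ) + ((1 : ℕ) : ℝ))) =
        Real.log 2 := by norm_num
    rw [h4] at h1
    have h5 : D < 2 := by
      by_contra hge
      push Not at hge
      have h6 : Real.log 2 ≤ Real.log D := Real.log_le_log (by norm_num) (by exact_mod_cast hge)
      nlinarith
    omega
  · right
    push Not at hsmall
    have h4 : 2 * Real.log 2 ≤ Real.log (rad (Nn (a, b))) := by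
      have e1 : 2 * Real.log 2 = Real.log ((4 : ℕ) : ℝ) := by
        rw [show ((4 : ℕ) : ℝ) = 2 ^ 2 by norm_num, Real.log_pow]
        norm_num
      rw [e1]
      exact Real.log_le_log (by norm_num) (by exact_mod_cast hsmall)
    have h5 : Real.log ((a : ℝ) * b * (a + b)) ≤ 3 * Real.log ((a : ℝ) + b) := by
      have e1 : 3 * Real.log ((a : ℝ) + b) = Real.log (((a : ℝ) + b) ^ 3) := by
        rw [Real.log_pow]
        norm_num
      rw [e1]
      apply Real.log_le_log (by positivity)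
      have g1 : (a : ℝ) ≤ a + b := by linarith
      have g2 : (b : ℝ) ≤ a + b := by linarith
      calc (a : ℝ) * b * (a + b) ≤ (a + b) * (a + b) * (a + b) := by gcongr
        _ = ((a : ℝ) + b) ^ 3 := by ring
    nlinarith

/-! ### The count -/

/-- The contribution of one twist. -/
theorem fibre_card {K M₁ η : ℝ} (hη : 0 < η) (hη6 : η ≤ 1 / 6) (hK : 1 ≤ K)
    (hrel : ∀ (P Z : ℕ), 1 ≤ P → 1 ≤ Z → ∀ T : Finset (ℕ × ℕ),
      (∀ t ∈ T, 0 < t.1 ∧ 0 < t.2 ∧ t.1.Coprime t.2 ∧ rOff P (Nn t) ≤ Z ∧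
        M₁ * Real.log (rad (Nn t)) ≤ Real.log ((t.1 : ℝ) + t.2)) →
      (T.card : ℝ) ≤ K * (Z : ℝ) ^ (1 / 3 + η) * (P : ℝ) ^ η) {X : ℕ} (hX : 1 ≤ X)
    (F : Finset (ℕ × ℕ × ℕ)) (d : ℕ) (hd : 1 ≤ d)
    (hF : ∀ t ∈ F, t.2.2 = d ∧ Par t.1 t.2.1 t.2.2 ∧ lev t ≤ X ∧
      M₁ * Real.log (rad (Nn (t.1, t.2.1))) ≤ Real.log ((t.1 : ℝ) + t.2.1)) :
    (F.card : ℝ) ≤ 2 * K * (X : ℝ) ^ (1 / 2 + η) * 2 ^ η * (1 / d) ∧
      (d = 1 → (F.card : ℝ) ≤ K * (X : ℝ) ^ (1 / 3 + η) * 2 ^ η) := by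
  classical
  have hX' : (1 : ℝ) ≤ X := by exact_mod_cast hX
  have hd' : (1 : ℝ) ≤ d := by exact_mod_cast hd
  rcases F.eq_empty_or_nonempty with he | ⟨s, hs⟩
  · rw [he, card_empty, Nat.cast_zero]
    exact ⟨by positivity, fun _ => by positivity⟩
  · obtain ⟨D, hD⟩ : ∃ D : ℕ, D = od d := ⟨_, rfl⟩
    have hsq : Squarefree d := by
      obtain ⟨g1, g2, -⟩ := hF s hs
      rw [← g1]
      exact g2.2.2.2
    obtain ⟨s1, s2, s3⟩ := od_odd hsq
    have hD1 : 1 ≤ D := by rw [hD]; exact Nat.one_le_iff_ne_zero.2 s1.ne_zero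
    have hD' : (1 : ℝ) ≤ D := by exact_mod_cast hD1
    have hd2 : d ≤ 2 * D := by
      rw [hD]
      rcases s3 with h3 | h3 <;> omega
    have hlev : ∀ t ∈ F, rOff (2 * D) (Nn (t.1, t.2.1)) * D ^ 2 ≤ X := by
      rintro ⟨a, b, e⟩ ht
      obtain ⟨g1, g2, g3, -⟩ := hF _ ht
      have g1' : e = d := g1
      subst g1'
      have g4 : lev (a, b, e) ≤ X := g3
      rw [lev_eq g2, ← hD] at g4
      exact g4
    have hZ1 : 1 ≤ X / D ^ 2 := by
      rw [Nat.le_div_iff_mul_le (by positivity), one_mul]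
      have h1 := hlev s hs
      have h2 := rOff_pos (2 * D) (Nn (s.1, s.2.1))
      calc D ^ 2 = 1 * D ^ 2 := (one_mul _).symm
        _ ≤ rOff (2 * D) (Nn (s.1, s.2.1)) * D ^ 2 := Nat.mul_le_mul_right _ h2
        _ ≤ X := h1
    have hinj : Set.InjOn (fun t : ℕ × ℕ × ℕ => (t.1, t.2.1)) (F : Set (ℕ × ℕ × ℕ)) := by
      rintro ⟨a, b, e⟩ h ⟨a', b', e'⟩ h' heq
      have g1 : e = d := (hF _ (Finset.mem_coe.1 h)).1
      have g2 : e' = d := (hF _ (Finset.mem_coe.1 h')).1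
      simp only [Prod.mk.injEq] at heq
      rw [heq.1, heq.2, g1, g2]
    have h1 := hrel (2 * D) (X / D ^ 2) (by omega) hZ1
      (F.image (fun t : ℕ × ℕ × ℕ => (t.1, t.2.1))) (by
        intro u hu
        rw [Finset.mem_image] at hu
        obtain ⟨t, ht, rfl⟩ := hu
        obtain ⟨g1, g2, g3, g4⟩ := hF t ht
        refine ⟨g2.1, g2.2.1, g2.2.2.1, ?_, g4⟩
        rw [Nat.le_div_iff_mul_le (by positivity)]
        exact hlev t ht)
    rw [Finset.card_image_of_injOn hinj] at h1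
    have hZle : ((X / D ^ 2 : ℕ) : ℝ) ≤ (X : ℝ) / (D : ℝ) ^ 2 := by
      have := @Nat.cast_div_le ℝ _ _ _ X (D ^ 2)
      push_cast at this
      exact this
    have hZ1' : (1 : ℝ) ≤ ((X / D ^ 2 : ℕ) : ℝ) := by exact_mod_cast hZ1
    have hXD : 1 ≤ (X : ℝ) / (D : ℝ) ^ 2 := hZ1'.trans hZle
    have hDX : (D : ℝ) ^ 2 ≤ X := by
      rw [le_div_iff₀ (by positivity), one_mul] at hXD
      exact hXD
    constructor
    · refine h1.trans ?_
      have h2 : ((X / D ^ 2 : ℕ) : ℝ) ^ (1 / 3 + η) ≤ (X : ℝ) ^ (1 / 2 : ℝ) / D := by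
        calc ((X / D ^ 2 : ℕ) : ℝ) ^ (1 / 3 + η) ≤ ((X : ℝ) / (D : ℝ) ^ 2) ^ (1 / 3 + η) :=
              Real.rpow_le_rpow (by positivity) hZle (by positivity)
          _ ≤ ((X : ℝ) / (D : ℝ) ^ 2) ^ (1 / 2 : ℝ) :=
              Real.rpow_le_rpow_of_exponent_le hXD (by linarith)
          _ = (X : ℝ) ^ (1 / 2 : ℝ) / D := by
              rw [Real.div_rpow (by positivity) (by positivity), ← Real.rpow_natCast (D : ℝ) 2,
                ← Real.rpow_mul (by positivity)]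
              norm_num
      have h3 : (D : ℝ) ≤ X := by nlinarith
      have h4 : ((2 * D : ℕ) : ℝ) ^ η ≤ 2 ^ η * (X : ℝ) ^ η := by
        rw [← Real.mul_rpow (by norm_num) (by positivity)]
        apply Real.rpow_le_rpow (by positivity) _ hη.le
        push_cast
        linarith
      have h5 : 1 / (D : ℝ) ≤ 2 * (1 / d) := by
        rw [mul_one_div, div_le_div_iff₀ (by positivity) (by positivity), one_mul]
        exact_mod_cast hd2
      calc K * ((X / D ^ 2 : ℕ) : ℝ) ^ (1 / 3 + η) * ((2 * D : ℕ) : ℝ) ^ η ≤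
            K * ((X : ℝ) ^ (1 / 2 : ℝ) / D) * (2 ^ η * (X : ℝ) ^ η) := by
            apply mul_le_mul _ h4 (by positivity) (by positivity)
            exact mul_le_mul_of_nonneg_left h2 (by linarith)
        _ = K * (X : ℝ) ^ (1 / 2 + η) * 2 ^ η * (1 / D) := by
            rw [Real.rpow_add (by linarith)]
            ring
        _ ≤ K * (X : ℝ) ^ (1 / 2 + η) * 2 ^ η * (2 * (1 / d)) :=
            mul_le_mul_of_nonneg_left h5 (by positivity)
        _ = 2 * K * (X : ℝ) ^ (1 / 2 + η) * 2 ^ η * (1 / d) := by ring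
    · intro hd1
      have hD1' : D = 1 := by
        rw [hD, hd1]
        rfl
      rw [hD1', one_pow, Nat.div_one, mul_one] at h1
      exact_mod_cast h1

/-- The exceptions to Szpiro's inequality with a large exponent. -/
theorem twist_viol (ε : ℝ) (hε : 0 < ε) : ∃ M : ℝ, 2 < M ∧ ∀ᶠ X : ℕ in atTop,
    ∀ F : Finset (ℕ × ℕ × ℕ), (∀ t ∈ F, Par t.1 t.2.1 t.2.2 ∧ lev t ≤ X ∧
      (lev t : ℝ) ^ M ≤ 16 * (t.2.2 : ℝ) ^ 6 * ((t.1 : ℝ) * t.2.1 * (t.1 + t.2.1)) ^ 2) →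
      (F.card : ℝ) ≤ (X : ℝ) ^ (1 / 2 + ε) ∧
      ((∀ t ∈ F, t.2.2 = 1) → (F.card : ℝ) ≤ (X : ℝ) ^ (1 / 3 + ε)) := by
  classical
  obtain ⟨η, hη⟩ : ∃ η : ℝ, η = min (ε / 4) (1 / 6) := ⟨_, rfl⟩
  have hη0 : 0 < η := by rw [hη]; exact lt_min (by positivity) (by norm_num)
  have hηa : η ≤ ε / 4 := by rw [hη]; exact min_le_left _ _
  have hηb : η ≤ 1 / 6 := by rw [hη]; exact min_le_right _ _
  obtain ⟨K, M₁, hK, hM₁, hrel⟩ := rel_viol η hη0
  refine ⟨12 * M₁ + 10, by linarith, ?_⟩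
  have hev : ∀ (s c : ℝ), 0 < s → ∀ᶠ Y : ℕ in atTop, c ≤ (Y : ℝ) ^ s := by
    intro s c hs
    have h1 : Tendsto (fun Y : ℕ => (Y : ℝ) ^ s) atTop atTop :=
      (tendsto_rpow_atTop hs).comp tendsto_natCast_atTop_atTop
    exact h1.eventually (eventually_ge_atTop c)
  filter_upwards [eventually_ge_atTop 1, hev η (4 * K * (2 + 2 / η) + 2) hη0]
    with X hX1 hXb F hF
  have hx1 : (1 : ℝ) ≤ X := by exact_mod_cast hX1
  have hx0 : (0 : ℝ) < X := by linarith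
  have hK0 : 0 ≤ K := by linarith
  have h2η : (2 : ℝ) ^ η ≤ 2 := by
    calc (2 : ℝ) ^ η ≤ (2 : ℝ) ^ (1 : ℝ) :=
          Real.rpow_le_rpow_of_exponent_le (by norm_num) (by linarith)
      _ = 2 := Real.rpow_one 2
  -- the two small curves
  obtain ⟨F1, hF1⟩ : ∃ F1 : Finset (ℕ × ℕ × ℕ),
      F1 = F.filter (fun t => t.1 = 1 ∧ t.2.1 = 1 ∧ t.2.2 ≤ 2) := ⟨_, rfl⟩
  obtain ⟨F2, hF2⟩ : ∃ F2 : Finset (ℕ × ℕ × ℕ),
      F2 = F.filter (fun t => ¬ (t.1 = 1 ∧ t.2.1 = 1 ∧ t.2.2 ≤ 2)) := ⟨_, rfl⟩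
  have hc12 : F.card = F1.card + F2.card := by
    rw [hF1, hF2]
    exact (Finset.card_filter_add_card_filter_not _).symm
  have hc1 : F1.card ≤ 2 := by
    have hsub : F1 ⊆ ({(1, 1, 1), (1, 1, 2)} : Finset (ℕ × ℕ × ℕ)) := by
      rintro ⟨a, b, d⟩ ht
      rw [hF1, mem_filter] at ht
      obtain ⟨g1, g2, g3, g4⟩ := ht
      have g5 : d ≠ 0 := (hF _ g1).1.2.2.2.ne_zero
      simp only at g2 g3 g4
      subst g2 g3
      rw [mem_insert, mem_singleton]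
      have : d = 1 ∨ d = 2 := by omega
      rcases this with rfl | rfl
      · exact Or.inl rfl
      · exact Or.inr rfl
    exact (Finset.card_le_card hsub).trans Finset.card_le_two
  have hF2' : ∀ t ∈ F2, Par t.1 t.2.1 t.2.2 ∧ lev t ≤ X ∧
      M₁ * Real.log (rad (Nn (t.1, t.2.1))) ≤ Real.log ((t.1 : ℝ) + t.2.1) := by
    rintro ⟨a, b, d⟩ ht
    rw [hF2, mem_filter] at ht
    obtain ⟨g1, g2, g3⟩ := hF _ ht.1
    exact ⟨g1, g2, (viol_arith hM₁ g1 g3).resolve_left ht.2⟩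
  have hc1' : (F1.card : ℝ) ≤ 2 := by exact_mod_cast hc1
  constructor
  · obtain ⟨n, hn⟩ : ∃ n : ℕ, n = 2 * X := ⟨_, rfl⟩
    have hn1 : 1 ≤ n := by omega
    have hmaps : ∀ t ∈ F2, t.2.2 ∈ Icc 1 n := by
      rintro ⟨a, b, d⟩ ht
      obtain ⟨g1, g2, -⟩ := hF2' _ ht
      have g3 := le_two_lev g1
      rw [mem_Icc]
      have g4 : d ≠ 0 := g1.2.2.2.ne_zero
      have g5 : lev (a, b, d) ≤ X := g2
      simp only
      simp only at g3
      omega
    have hsum : (F2.card : ℝ) ≤ ∑ d ∈ Icc 1 n, 2 * K * (X : ℝ) ^ (1 / 2 + η) * 2 ^ η *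
        (1 / (d : ℝ)) := by
      rw [Finset.card_eq_sum_card_fiberwise (f := fun t : ℕ × ℕ × ℕ => t.2.2) hmaps]
      push_cast
      apply Finset.sum_le_sum
      intro d hd
      refine (fibre_card hη0 hηb hK hrel hX1 (F2.filter (fun t => t.2.2 = d)) d
        (mem_Icc.1 hd).1 ?_).1
      intro t ht
      rw [mem_filter] at ht
      obtain ⟨g1, g2, g3⟩ := hF2' t ht.1
      exact ⟨ht.2, g1, g2, g3⟩
    have hharm : ∑ d ∈ Icc 1 n, (1 / (d : ℝ)) ≤ (2 + 2 / η) * (X : ℝ) ^ η := by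
      have h1 := harmonic_le_one_add_log n
      have h2 : ((harmonic n : ℚ) : ℝ) = ∑ d ∈ Icc 1 n, (1 / (d : ℝ)) := by
        rw [harmonic_eq_sum_Icc]
        push_cast
        apply Finset.sum_congr rfl
        intro d _
        rw [one_div]
      rw [h2] at h1
      refine h1.trans ?_
      have h3 : Real.log (n : ℝ) ≤ 1 + Real.log X := by
        rw [hn]
        push_cast
        rw [Real.log_mul (by norm_num) hx0.ne']
        have := Real.log_two_lt_d9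
        linarith
      have h4 : Real.log X ≤ (X : ℝ) ^ η / η := Real.log_le_rpow_div hx0.le hη0
      have h5 : 1 ≤ (X : ℝ) ^ η := Real.one_le_rpow hx1 hη0.le
      have h6 : (2 + 2 / η) * (X : ℝ) ^ η = 2 * (X : ℝ) ^ η + 2 * ((X : ℝ) ^ η / η) := by ring
      have h7 : 0 ≤ (X : ℝ) ^ η / η := by positivity
      rw [h6]
      linarith
    rw [← Finset.mul_sum] at hsum
    have hP : 0 ≤ (X : ℝ) ^ (1 / 2 + η) := by positivity
    have h8 : (F2.card : ℝ) ≤ 4 * K * (2 + 2 / η) * (X : ℝ) ^ (1 / 2 + 2 * η) := by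
      refine hsum.trans ?_
      calc 2 * K * (X : ℝ) ^ (1 / 2 + η) * 2 ^ η * ∑ d ∈ Icc 1 n, (1 / (d : ℝ)) ≤
            2 * K * (X : ℝ) ^ (1 / 2 + η) * 2 * ((2 + 2 / η) * (X : ℝ) ^ η) := by
            apply mul_le_mul _ hharm (Finset.sum_nonneg fun _ _ => by positivity) (by positivity)
            exact mul_le_mul_of_nonneg_left h2η (by positivity)
        _ = 4 * K * (2 + 2 / η) * (X : ℝ) ^ (1 / 2 + 2 * η) := by
            rw [show (1 / 2 + 2 * η : ℝ) = (1 / 2 + η) + η by ring, Real.rpow_add hx0 (1 / 2 + η)]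
            ring
    have h9 : 1 ≤ (X : ℝ) ^ (1 / 2 + 2 * η) := Real.one_le_rpow hx1 (by positivity)
    rw [hc12]
    push_cast
    calc (F1.card : ℝ) + F2.card ≤ 2 * (X : ℝ) ^ (1 / 2 + 2 * η) +
          4 * K * (2 + 2 / η) * (X : ℝ) ^ (1 / 2 + 2 * η) := by linarith
      _ = (4 * K * (2 + 2 / η) + 2) * (X : ℝ) ^ (1 / 2 + 2 * η) := by ring
      _ ≤ (X : ℝ) ^ η * (X : ℝ) ^ (1 / 2 + 2 * η) :=
          mul_le_mul_of_nonneg_right hXb (by positivity)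
      _ = (X : ℝ) ^ (1 / 2 + 3 * η) := by
          rw [← Real.rpow_add hx0]
          congr 1
          ring
      _ ≤ (X : ℝ) ^ (1 / 2 + ε) := Real.rpow_le_rpow_of_exponent_le hx1 (by linarith)
  · intro hone
    have h1 := (fibre_card hη0 hηb hK hrel hX1 F2 1 le_rfl (by
      intro t ht
      obtain ⟨g1, g2, g3⟩ := hF2' t ht
      refine ⟨hone t ?_, g1, g2, g3⟩
      rw [hF2, mem_filter] at ht
      exact ht.1)).2 rfl
    have h9 : 1 ≤ (X : ℝ) ^ (1 / 3 + η) := Real.one_le_rpow hx1 (by positivity)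
    have h10 : 2 * K + 2 ≤ (X : ℝ) ^ η := by
      refine le_trans ?_ hXb
      have : 0 ≤ 2 / η := by positivity
      nlinarith
    rw [hc12]
    push_cast
    calc (F1.card : ℝ) + F2.card ≤ 2 * (X : ℝ) ^ (1 / 3 + η) +
          K * (X : ℝ) ^ (1 / 3 + η) * 2 := by
          have := mul_le_mul_of_nonneg_left h2η (show 0 ≤ K * (X : ℝ) ^ (1 / 3 + η) by positivity)
          linarith
      _ = (2 * K + 2) * (X : ℝ) ^ (1 / 3 + η) := by ring
      _ ≤ (X : ℝ) ^ η * (X : ℝ) ^ (1 / 3 + η) :=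
          mul_le_mul_of_nonneg_right h10 (by positivity)
      _ = (X : ℝ) ^ (1 / 3 + 2 * η) := by
          rw [← Real.rpow_add hx0]
          congr 1
          ring
      _ ≤ (X : ℝ) ^ (1 / 3 + ε) := Real.rpow_le_rpow_of_exponent_le hx1 (by linarith)

/-- Few classes violate Szpiro's inequality with a large exponent. -/
theorem exc_large (h : TailHyp) (ε : ℝ) (hε : 0 < ε) : ∃ M : ℝ, 2 < M ∧ ∀ᶠ X : ℕ in atTop,
    ((Classes fun E => cond E ≤ X ∧ ¬ DiscLt E ((cond E : ℝ) ^ M)).ncard : ℝ) ≤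
      (X : ℝ) ^ (1 / 2 + ε) ∧
    ((Classes fun E => Semi E ∧ condAll E ≤ X ∧ ¬ DiscLt E ((condAll E : ℝ) ^ M)).ncard : ℝ) ≤
      (X : ℝ) ^ (1 / 3 + ε) := by
  obtain ⟨M, hM, hc⟩ := twist_viol ε hε
  refine ⟨M, hM, ?_⟩
  filter_upwards [hc] with X hX
  have key : ∀ s : Set (ℕ × ℕ × ℕ), s ⊆ {t : ℕ × ℕ × ℕ | Par t.1 t.2.1 t.2.2 ∧ lev t ≤ X ∧
      (lev t : ℝ) ^ M ≤ 16 * (t.2.2 : ℝ) ^ 6 * ((t.1 : ℝ) * t.2.1 * (t.1 + t.2.1)) ^ 2} →
      (s.ncard : ℝ) ≤ (X : ℝ) ^ (1 / 2 + ε) ∧ ((∀ t ∈ s, t.2.2 = 1) →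
        (s.ncard : ℝ) ≤ (X : ℝ) ^ (1 / 3 + ε)) := by
    intro s hs
    have hfin : s.Finite := (inTw_finite h X).subset fun t ht => ⟨(hs ht).1, (hs ht).2.1⟩
    rw [Set.ncard_eq_toFinset_card _ hfin]
    obtain ⟨h1, h2⟩ := hX hfin.toFinset (fun t ht => by
      rw [Set.Finite.mem_toFinset] at ht
      exact hs ht)
    refine ⟨h1, fun h3 => h2 fun t ht => ?_⟩
    rw [Set.Finite.mem_toFinset] at ht
    exact h3 t ht
  constructor
  · rw [ncard_classes _ (hQ_exc X M)]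
    exact (key _ (exc_sub X M)).1
  · rw [ncard_classes _ (hQ_excS X M)]
    refine (key _ (excS_sub X M (by linarith))).2 ?_
    rintro ⟨a, b, d⟩ ⟨h1, h2, -⟩
    exact ((semi_Ec h1).mp h2).1

end Pool.Agent.Lib.AbcT
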